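import Pool.Agent.Run7.h365.FV.Gal
import Pool.Agent.N883.C.Ext

/-!
# The relation of Hasse and Davenport for the Jacobi sums at the primes of a cyclotomic field
-/

set_option autoImplicit false
set_option linter.unusedSectionVars false
set_option linter.style.haveILetI false

namespace Run7.h365.FV

open Finset NumberField IsDedekindDomain
open Pool.Agent.Y145.KS (psi psi_apply psi_ne_one)
open Pool.Agent.N883.C (chE chE_apply chE_mul chE_one chE_ne_one gauss_E)

section gen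

variable {A : Type} [CommRing A] [IsDomain A] [CharZero A] {κ : Type} [Field κ]
  {N n : ℕ} [NeZero N] {ζ : A}

theorem root_inj (hζ : IsPrimitiveRoot ζ N) (φ : A →+* κ) (hN : (N : κ) ≠ 0) {x y : A}
    (hx : x ^ N = 1) (hy : y ^ N = 1) (h : φ x = φ y) : x = y := by
  obtain ⟨i, hi, rfl⟩ := hζ.eq_pow_of_pow_eq_one hx
  obtain ⟨j, hj, rfl⟩ := hζ.eq_pow_of_pow_eq_one hy
  rw [map_pow, map_pow] at h
  rw [(prim_map hζ φ hN).pow_inj hi hj h]

end gen

section hd

variable {k E : Type} [Field k] [Fintype k] [DecidableEq k] [Field E] [Fintype E] [DecidableEq E]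
  [Algebra k E] {N n : ℕ} [NeZero N]

theorem chE_pow (χ : MulChar k ℂ) (j : ℕ) : (chE χ E) ^ j = chE (χ ^ j) E := by
  induction j with
  | zero => rw [pow_zero, pow_zero, chE_one]
  | succ j ih => rw [pow_succ, pow_succ, ih, chE_mul]

theorem orderOf_chE (χ : MulChar k ℂ) : orderOf (chE χ E) = orderOf χ := by
  apply Nat.dvd_antisymm
  · apply orderOf_dvd_of_pow_eq_one
    rw [chE_pow, pow_orderOf_eq_one, chE_one]
  · apply orderOf_dvd_of_pow_eq_one
    by_contra h
    apply chE_ne_one (E := E) h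
    rw [← chE_pow, pow_orderOf_eq_one]

/-- **Hasse and Davenport** -/
theorem PP_chE {χ : MulChar k ℂ} (hχ : orderOf χ = N) (hn : Odd n) (b : Fin n → ZMod N) :
    PP (chE χ E) b = PP χ b ^ Module.finrank k E := by
  haveI : Module.Finite k E := Module.Finite.of_finite
  have hr : 0 < Module.finrank k E := Module.finrank_pos
  obtain ⟨ψ, hψ⟩ : ∃ ψ : AddChar k ℂ, ψ.IsPrimitive :=
    ⟨_, AddChar.FiniteField.primitiveChar_to_Complex_isPrimitive k⟩
  have hψ1 : ψ ≠ 1 := by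
    have := hψ one_ne_zero
    rwa [AddChar.mulShift_one] at this
  have hψE : (psi ψ E).IsPrimitive := AddChar.IsPrimitive.of_ne_one (psi_ne_one hψ1 E)
  rw [PP_eq hχ hψ, PP_eq ((orderOf_chE χ).trans hχ) hψE]
  simp_rw [chE_pow, gauss_E _ hψ1]
  rw [prod_mul_distrib, prod_const, card_univ, Fintype.card_fin, mul_pow, ← prod_pow]
  have h1 : ((-1 : ℂ) ^ (Module.finrank k E - 1)) * ((-1) ^ (Module.finrank k E - 1)) ^ n = 1 := by
    rw [← pow_succ', ← pow_mul, mul_comm, pow_mul, (hn.add_one).neg_one_pow, one_pow]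
  linear_combination (gaussSum (χ ^ (-∑ i, b i).val) ψ ^ Module.finrank k E *
    ∏ i, gaussSum (χ ^ (b i).val) ψ ^ Module.finrank k E) * h1

end hd

section field

variable {F : Type} [Field F] [NumberField F] {N n : ℕ} [NeZero N] {ζ : 𝓞 F}
  {κ : Type} [Field κ] [Fintype κ] [DecidableEq κ]

theorem exists_factor {k : Type} [Field k] {φ : 𝓞 F →+* k} (hφ : Function.Surjective φ)
    {θ : 𝓞 F →+* κ} (h : RingHom.ker φ = RingHom.ker θ) : ∃ j : k →+* κ, j.comp φ = θ := by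
  let e := RingHom.liftOfSurjective φ hφ ⟨θ, h.le⟩
  exact ⟨e, RingHom.liftOfSurjective_comp _ _ _⟩

/-- the Jacobi sum over an extension of the residue field -/
theorem PP_theta (hζ : IsPrimitiveRoot ζ N) (hn : Odd n) {f : 𝓞 F →+* ℂ}
    (hf : Function.Injective f) {θ : 𝓞 F →+* κ} (hN : (N : κ) ≠ 0) {w : HeightOneSpectrum (𝓞 F)}
    (hw : RingHom.ker θ = w.asIdeal) {r : ℕ} (hr : Fintype.card κ = Ideal.absNorm w.asIdeal ^ r)
    {T : MulChar κ (𝓞 F)} (hT : IsRes N θ T) (b : Fin n → ZMod N) :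
    PP (T.ringHomComp f) b = f (Pv N n w b) ^ r := by
  obtain ⟨k, _, _, _, φ, hφ, hker, hcard⟩ := exists_model w
  have hNw : (N : 𝓞 F) ∉ w.asIdeal := by
    rw [← hw, RingHom.mem_ker, map_natCast]
    exact hN
  have hNk := ne_zero_of_ker hNw hker
  obtain ⟨χ, hχ⟩ := exists_isRes hζ φ hNk
  rw [isP_Pv (n := n) hζ w hNw k φ hφ hker χ hχ]
  obtain ⟨j, hj⟩ := exists_factor hφ (hker.trans hw.symm)
  letI : Algebra k κ := j.toAlgebra
  have halg : ∀ x, algebraMap k κ x = j x := fun _ => rfl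
  have hfin : Module.finrank k κ = r := by
    have h1 : Fintype.card κ = Fintype.card k ^ Module.finrank k κ := Module.card_eq_pow_finrank
    rw [hr, hcard] at h1
    have h2 : 2 ≤ Ideal.absNorm w.asIdeal := by
      rw [← hcard]; exact Fintype.one_lt_card
    exact (Nat.pow_right_injective h2 h1).symm
  have h1 : T.ringHomComp f = chE (χ.ringHomComp f) κ := by
    refine MulChar.ext fun x => ?_
    rw [MulChar.ringHomComp_apply, chE_apply, MulChar.ringHomComp_apply]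
    congr 1
    have hx := x.ne_zero
    have hx' : Algebra.norm k (x : κ) ≠ 0 := by
      rw [Ne, Algebra.norm_eq_zero_iff]; exact hx
    refine root_inj hζ θ hN ?_ ?_ ?_
    · rw [← chi_pow hx, ← hT.1, pow_orderOf_eq_one, MulChar.one_apply_coe]
    · rw [← chi_pow hx', ← hχ.1, pow_orderOf_eq_one]
      exact MulChar.one_apply_coe (Units.mk0 _ hx')
    · rw [hT.2 _ hx, ← hj, RingHom.comp_apply, hχ.2 _ hx', map_pow, ← halg,
        FiniteField.algebraMap_norm_eq_pow, ← pow_mul, Nat.card_eq_fintype_card,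
        Nat.card_eq_fintype_card]
      congr 1
      have hdk : N ∣ Fintype.card k - 1 := dvd_card hζ φ hNk
      have hkE : Fintype.card k - 1 ∣ Fintype.card κ - 1 := by
        rw [hr, hcard]
        simpa using Nat.sub_dvd_pow_sub_pow (Ideal.absNorm w.asIdeal) 1 r
      obtain ⟨u, hu⟩ := hdk
      obtain ⟨v, hv⟩ := hkE
      have hk0 : 0 < Fintype.card k - 1 := Nat.sub_pos_of_lt Fintype.one_lt_card
      rw [hv, Nat.mul_div_cancel_left _ hk0, hu, mul_assoc,
        Nat.mul_div_cancel_left _ (Nat.pos_of_ne_zero (NeZero.ne N)),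
        Nat.mul_div_cancel_left _ (Nat.pos_of_ne_zero (NeZero.ne N)), mul_comm]
  rw [h1, PP_chE ((orderOf_comp hf χ).trans hχ.1) hn, hfin, PP_map]

end field

section pow

variable {κ : Type} [Field κ] [Fintype κ] [DecidableEq κ] {N : ℕ} [NeZero N]

/-- two characters of the same order are powers of each other -/
theorem exists_unit_pow {T T' : MulChar κ ℂ} (hT : orderOf T = N) (hT' : orderOf T' = N) :
    ∃ c : (ZMod N)ˣ, T' = T ^ (c : ZMod N).val := by
  obtain ⟨g, hg⟩ := IsCyclic.exists_generator (α := κˣ)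
  have hgen : ∀ x : κˣ, ∃ k : ℕ, g ^ k = x := fun x =>
    (IsOfFinOrder.mem_powers_iff_mem_zpowers (isOfFinOrder_of_finite g)).mpr (hg x)
  have hext : ∀ S S' : MulChar κ ℂ, S (g : κ) = S' (g : κ) → S = S' := by
    intro S S' h
    refine MulChar.ext fun x => ?_
    obtain ⟨k, rfl⟩ := hgen x
    rw [Units.val_pow_eq_pow_val, map_pow, map_pow, h]
  have hg0 : (g : κ) ≠ 0 := g.ne_zero
  have h1 : IsPrimitiveRoot (T (g : κ)) N := by
    refine ⟨chi_N hT hg0, fun l hl => ?_⟩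
    rw [← hT]
    apply orderOf_dvd_of_pow_eq_one
    apply hext
    rw [chi_pow hg0, hl]
    exact (MulChar.one_apply_coe g).symm
  obtain ⟨i, hi, hi'⟩ := h1.eq_pow_of_pow_eq_one (chi_N hT' hg0)
  have h2 : T' = T ^ i := hext _ _ (by rw [chi_pow hg0, hi'])
  have h3 : i.Coprime N := by
    have h4 := orderOf_pow T (n := i)
    rw [← h2, hT', hT] at h4
    have h5 : N.gcd i ∣ N := Nat.gcd_dvd_left _ _
    have h6 : N.gcd i = 1 := by
      have h7 := Nat.div_mul_cancel h5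
      rw [← h4] at h7
      have hN : 0 < N := NeZero.pos N
      exact Nat.eq_of_mul_eq_mul_left hN (by rw [h7, mul_one])
    rw [Nat.Coprime, Nat.gcd_comm, h6]
  refine ⟨ZMod.unitOfCoprime i h3, ?_⟩
  rw [h2, ZMod.coe_unitOfCoprime, ZMod.val_natCast, ← hT, pow_mod_orderOf]

end pow

section cyc

open IsCyclotomicExtension.Rat (galEquivZMod galEquivZMod_smul_of_pow_eq galEquivZMod_stabilizer)
open scoped Pointwise

variable {F : Type} [Field F] [NumberField F] {N n : ℕ} [NeZero N]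
  [IsCyclotomicExtension {N} ℚ F] {ζ : 𝓞 F} {κ : Type} [Field κ] [Fintype κ] [DecidableEq κ]
  {p : ℕ} [Fact p.Prime] [CharP κ p]

theorem exists_above {F : Type} [Field F] [NumberField F] (p : ℕ) [Fact p.Prime] :
    ∃ w : HeightOneSpectrum (𝓞 F), (p : 𝓞 F) ∈ w.asIdeal := by
  have hprime : (Ideal.span {(p : ℤ)}).IsPrime :=
    (Ideal.span_singleton_prime (p := (p : ℤ)) (by exact_mod_cast
      (Fact.out : p.Prime).ne_zero)).2 (Nat.prime_iff_prime_int.1 Fact.out)
  obtain ⟨P, hP1, hP2⟩ := Ideal.exists_ideal_over_prime_of_isIntegral_of_isDomain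
    (S := 𝓞 F) (Ideal.span {(p : ℤ)}) (by
      rw [(RingHom.injective_iff_ker_eq_bot _).1
        (FaithfulSMul.algebraMap_injective ℤ (𝓞 F))]
      exact bot_le)
  have h1 : (p : 𝓞 F) ∈ P := by
    have h2 : (p : ℤ) ∈ P.comap (algebraMap ℤ (𝓞 F)) := by
      rw [hP2]
      exact Ideal.mem_span_singleton_self _
    rw [Ideal.mem_comap] at h2
    simpa using h2
  refine ⟨⟨P, hP1, ?_⟩, h1⟩
  rintro rfl
  rw [Ideal.mem_bot] at h1
  have h2 : (p : 𝓞 F) ≠ 0 := by exact_mod_cast (Fact.out : p.Prime).ne_zero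
  exact h2 h1

theorem exists_theta {w : HeightOneSpectrum (𝓞 F)} (hw : (p : 𝓞 F) ∈ w.asIdeal) {r : ℕ}
    (hr : Fintype.card κ = Ideal.absNorm w.asIdeal ^ r) :
    ∃ θ : 𝓞 F →+* κ, RingHom.ker θ = w.asIdeal := by
  obtain ⟨k, _, _, _, φ, hφ, hker, hcard⟩ := exists_model w
  have hp0 : (p : k) = 0 := by
    have h1 : (p : 𝓞 F) ∈ RingHom.ker φ := by rw [hker]; exact hw
    rwa [RingHom.mem_ker, map_natCast] at h1
  haveI : CharP k p := by
    have h1 := ringChar.spec k p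
    have h2 : ringChar k ∣ p := (h1).1 hp0
    have h3 : ringChar k ≠ 1 := CharP.ringChar_ne_one
    have h4 : ringChar k = p := ((Nat.dvd_prime Fact.out).1 h2).resolve_left h3
    rw [← h4]
    exact ringChar.charP k
  letI := ZMod.algebra k p
  letI := ZMod.algebra κ p
  have h1 : Fintype.card k = p ^ Module.finrank (ZMod p) k := by
    rw [Module.card_eq_pow_finrank (K := ZMod p), ZMod.card]
  have h2 : Fintype.card κ = p ^ Module.finrank (ZMod p) κ := by
    rw [Module.card_eq_pow_finrank (K := ZMod p), ZMod.card]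
  have h3 : Module.finrank (ZMod p) k ∣ Module.finrank (ZMod p) κ := by
    refine ⟨r, ?_⟩
    rw [hr, ← hcard, h1, ← pow_mul] at h2
    exact (Nat.pow_right_injective (Fact.out : p.Prime).two_le h2).symm
  obtain ⟨j⟩ := FiniteField.nonempty_algHom_of_finrank_dvd h3
  refine ⟨(j : k →+* κ).comp φ, ?_⟩
  rw [← hker]
  ext x
  rw [RingHom.mem_ker, RingHom.mem_ker, RingHom.comp_apply,
    map_eq_zero_iff (j : k →+* κ) (j : k →+* κ).injective]

/-- the kernel as a prime -/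
noncomputable def kp (p : ℕ) [Fact p.Prime] [CharP κ p] (θ : 𝓞 F →+* κ) :
    HeightOneSpectrum (𝓞 F) where
  asIdeal := RingHom.ker θ
  isPrime := RingHom.ker_isPrime _
  ne_bot := by
    intro h
    have h1 : (p : 𝓞 F) ∈ RingHom.ker θ := by
      rw [RingHom.mem_ker, map_natCast, CharP.cast_eq_zero]
    rw [h, Ideal.mem_bot] at h1
    have h2 : (p : 𝓞 F) ≠ 0 := by exact_mod_cast (Fact.out : p.Prime).ne_zero
    exact h2 h1

theorem mem_kp (θ : 𝓞 F →+* κ) : (p : 𝓞 F) ∈ (kp p θ).asIdeal := by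
  change (p : 𝓞 F) ∈ RingHom.ker θ
  rw [RingHom.mem_ker, map_natCast, CharP.cast_eq_zero]

theorem kp_act (θ : 𝓞 F →+* κ) (σ : Gal(F/ℚ)) :
    (kp p (θ.comp (act σ))).asIdeal = σ⁻¹ • (kp p θ).asIdeal := by
  ext x
  rw [Ideal.mem_inv_pointwise_smul_iff]
  rfl

theorem card_fib [DecidableEq (HeightOneSpectrum (𝓞 F))] (θ : 𝓞 F →+* κ) (hp : p.Coprime N)
    {w : HeightOneSpectrum (𝓞 F)} (hw : (p : 𝓞 F) ∈ w.asIdeal) :
    (univ.filter fun σ : Gal(F/ℚ) => kp p (θ.comp (act σ)) = w).card = orderOf (p : ZMod N) := by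
  classical
  have hG : IsGalois ℚ F := IsCyclotomicExtension.isGalois {N} ℚ F
  have h1 := liesOver_of_mem hw
  have h2 := w.isPrime
  have h3 := (kp p θ).isPrime
  have h4 := liesOver_of_mem (mem_kp (p := p) θ)
  have h5 := (kp p θ).isMaximal
  obtain ⟨τ, hτ⟩ := Ideal.exists_smul_eq_of_isGaloisGroup (Ideal.span {(p : ℤ)})
    (kp p θ).asIdeal w.asIdeal Gal(F/ℚ)
  have h6 : (univ.filter fun σ : Gal(F/ℚ) => kp p (θ.comp (act σ)) = w).card =
      Nat.card (MulAction.stabilizer Gal(F/ℚ) (kp p θ).asIdeal) := by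
    rw [← Fintype.card_subtype, ← Nat.card_eq_fintype_card]
    refine Nat.card_congr
      { toFun := fun σ => ⟨τ⁻¹ * σ.1⁻¹, ?_⟩
        invFun := fun g => ⟨(τ * g.1)⁻¹, ?_⟩
        left_inv := fun σ => ?_
        right_inv := fun g => ?_ }
    · rw [MulAction.mem_stabilizer_iff, mul_smul, ← kp_act, σ.2, ← hτ, inv_smul_smul]
    · apply HeightOneSpectrum.ext
      rw [kp_act, inv_inv, mul_smul, MulAction.mem_stabilizer_iff.1 g.2, hτ]
    · apply Subtype.ext
      simp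
    · apply Subtype.ext
      simp
  rw [h6]
  have h7 := galEquivZMod_stabilizer N F p (kp p θ).asIdeal hp
  have h8 : Nat.card (MulAction.stabilizer Gal(F/ℚ) (kp p θ).asIdeal) =
      Nat.card ((galEquivZMod N F).mapSubgroup (MulAction.stabilizer Gal(F/ℚ)
        (kp p θ).asIdeal)) := by
    rw [MulEquiv.mapSubgroup_apply]
    exact Nat.card_congr (Subgroup.equivMapOfInjective _ _ (galEquivZMod N F).injective).toEquiv
  rw [h8, h7, Nat.card_zpowers, ← orderOf_units, ZMod.coe_unitOfCoprime]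

/-- **The sum of the Jacobi sums of the conjugates of `b`.** -/
theorem sum_units (hζ : IsPrimitiveRoot ζ N) (hn : Odd n) (f : F →+* ℂ) (hp : p.Coprime N)
    {T : MulChar κ ℂ} (hT : orderOf T = N) (b : Fin n → ZMod N) {r : ℕ}
    (hr : Fintype.card κ = (p ^ orderOf (p : ZMod N)) ^ r)
    (s : Finset (HeightOneSpectrum (𝓞 F))) (hs : ∀ w, w ∈ s ↔ (p : 𝓞 F) ∈ w.asIdeal) :
    ∑ c : (ZMod N)ˣ, PP T (fun i => (c : ZMod N) * b i) =
      ∑ w ∈ s, (orderOf (p : ZMod N) : ℂ) * f (Pv N n w b : 𝓞 F) ^ r := by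
  classical
  -- a prime above `p`
  obtain ⟨w₀, hw₀⟩ := exists_above (F := F) p
  obtain ⟨θ, hθ⟩ := exists_theta (κ := κ) hw₀ (r := r) (by rw [absNorm_prm hw₀ hp, hr])
  have hNκ : (N : κ) ≠ 0 := by
    intro h
    rw [CharP.cast_eq_zero_iff κ p] at h
    exact ((Nat.Prime.coprime_iff_not_dvd Fact.out).1 hp) h
  obtain ⟨T₀, hT₀⟩ := exists_isRes hζ θ hNκ
  set f₁ : 𝓞 F →+* ℂ := f.comp (algebraMap (𝓞 F) F) with hf₁
  have hf₁i : Function.Injective f₁ := f.injective.comp RingOfIntegers.coe_injective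
  have hT₁ : orderOf (T₀.ringHomComp f₁) = N := (orderOf_comp hf₁i _).trans hT₀.1
  obtain ⟨c₀, hc₀⟩ := exists_unit_pow hT₁ hT
  -- the values
  have h1 : ∀ σ : Gal(F/ℚ), PP (T₀.ringHomComp f₁)
      (fun i => (((cu N σ)⁻¹ : (ZMod N)ˣ) : ZMod N) * b i) =
      f₁ (Pv N n (kp p (θ.comp (act σ))) b) ^ r := by
    intro σ
    have h2 : IsRes N (θ.comp (act σ)) (T₀.ringHomComp (act σ⁻¹)) := by
      refine ⟨(orderOf_comp (act_inj _) _).trans hT₀.1, fun x hx => ?_⟩
      rw [MulChar.ringHomComp_apply, RingHom.comp_apply, ← hT₀.2 _ hx]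
      congr 1
      rw [act_apply, act_apply, smul_inv_smul]
    have h3 := PP_theta (n := n) hζ hn hf₁i hNκ (w := kp p (θ.comp (act σ))) rfl (r := r)
      (by rw [absNorm_prm (mem_kp _) hp, hr]) h2 b
    rw [← h3, act_chi hT₀.1, ← MulChar.ringHomComp_pow,
      PP_pow hT₁ (cu N σ⁻¹).isUnit, cu_inv]
  have h2 : ∀ g : (ZMod N)ˣ → ℂ, ∑ c : (ZMod N)ˣ, g c = ∑ σ : Gal(F/ℚ), g (cu N σ)⁻¹ := by
    intro g
    rw [← Equiv.sum_comp (Equiv.inv (ZMod N)ˣ) g]
    exact (Fintype.sum_equiv (galEquivZMod N F).toEquiv _ _ fun σ => rfl).symm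
  have h3 : ∑ c : (ZMod N)ˣ, PP T (fun i => (c : ZMod N) * b i) =
      ∑ c : (ZMod N)ˣ, PP (T₀.ringHomComp f₁) (fun i => (c : ZMod N) * b i) := by
    rw [← Equiv.sum_comp (Equiv.mulLeft c₀)
      (fun c : (ZMod N)ˣ => PP (T₀.ringHomComp f₁) (fun i => (c : ZMod N) * b i))]
    refine sum_congr rfl fun c _ => ?_
    rw [hc₀, PP_pow hT₁ c₀.isUnit]
    simp only [Equiv.coe_mulLeft, Units.val_mul, mul_assoc]
  rw [h3, h2 (fun c => PP (T₀.ringHomComp f₁) (fun i => (c : ZMod N) * b i))]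
  rw [sum_congr rfl fun σ _ => h1 σ,
    ← sum_fiberwise_of_maps_to (s := univ) (t := s) (g := fun σ : Gal(F/ℚ) => kp p (θ.comp (act σ)))
      (fun σ _ => (hs _).2 (mem_kp _))]
  refine sum_congr rfl fun w hw => ?_
  rw [sum_congr rfl (g := fun _ => f₁ (Pv N n w b) ^ r) (fun σ hσ => by rw [(mem_filter.1 hσ).2]),
    sum_const, card_fib θ hp ((hs w).1 hw), nsmul_eq_mul]
  rfl

end cyc

end Run7.h365.FV
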