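import Pool.Agent.Run7.h365.FV.Stm
import Pool.Agent.H916K.MainFour
import Pool.Agent.H916K.MainThree
import Pool.Agent.H916K.Stick
import Pool.Agent.Y2.Cw.EvenH4
import Pool.Agent.Y2.Cv.Families

/-!
# The rational characters of Fermat varieties are Hodge characters and their lines are algebraic
-/

set_option autoImplicit false
set_option linter.unusedSectionVars false

namespace Run7.h365.FV

open Finset
open Pool.Agent.H916R2 (Generated IsHodge GoodDegree SurfaceCharacter)
open Pool.Agent.H916K (RationalClass hodge_of_rational main_two main_three_cyc main_four)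
open Pool.Agent.Y2 (generated_mono main_odd)
open Pool.Agent.Y2.Cv (SurfaceOrCurveProduct GoodDegree2 main2_even main2_odd)
open Pool.Agent.Y2.Cw (main_even4 Base110 FromDegree110)

/-- The degrees: either `m = p ^ a * q ^ b` or `m = 2 * p ^ a * q ^ b` with different primes `p`, `q`,
`q` odd, which are not both squares modulo each other, where `4` divides `m` if `p = 2`; or
`m = p ^ a * q ^ b * r ^ d` or `m = 2 * p ^ a * q ^ b * r ^ d` with primes `p`, `q`, `r` such that `q`
is not a square modulo `p`, `r` is not a square modulo `q` and `p` is not a square modulo `r`, while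
one of the three other residues is a square. -/
def PoleDegree (m : ℕ) : Prop :=
  (∃ p q a b : ℕ, p.Prime ∧ q.Prime ∧ q ≠ 2 ∧ p ≠ q ∧
    ¬ (IsSquare ((q : ℕ) : ZMod p) ∧ IsSquare ((p : ℕ) : ZMod q)) ∧ 0 < a ∧ 0 < b ∧
    (m = p ^ a * q ^ b ∨ m = 2 * (p ^ a * q ^ b)) ∧ (p = 2 → 4 ∣ m)) ∨
  (∃ p q r a b d : ℕ, p.Prime ∧ q.Prime ∧ r.Prime ∧ ¬ IsSquare ((q : ℕ) : ZMod p) ∧
    ¬ IsSquare ((r : ℕ) : ZMod q) ∧ ¬ IsSquare ((p : ℕ) : ZMod r) ∧
    (IsSquare ((r : ℕ) : ZMod p) ∨ IsSquare ((p : ℕ) : ZMod q) ∨ IsSquare ((q : ℕ) : ZMod r)) ∧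
    0 < a ∧ 0 < b ∧ 0 < d ∧ (m = p ^ a * q ^ b * r ^ d ∨ m = 2 * (p ^ a * q ^ b * r ^ d)))

/-- the theorem of the starting tree on these degrees -/
theorem pole_degree {m : ℕ} (hm : PoleDegree m)
    {s : Multiset (ZMod m × ℤ)} (hs : s ≠ 0) (heven : Even (Multiset.card s))
    (h0 : ∀ z ∈ s, z.1 ≠ 0 ∧ z.2 ≠ 0) (hsum : (s.map Prod.fst).sum = 0)
    (hR : RationalClass m s) : Generated m (fun _ => False) (s.map Prod.fst) := by
  rcases hm with ⟨p, q, a, b, hp, hq, hq2, hpq, hsq, ha, hb, hm, h4⟩ |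
    ⟨p, q, r, a, b, d, hp, hq, hr, n1, n2, n3, s1, ha, hb, hd, hm⟩
  · have hpos : 2 ≤ p ^ a * q ^ b := by
      have h1 : 1 ≤ p ^ a := Nat.one_le_iff_ne_zero.mpr (pow_pos hp.pos a).ne'
      have h2 : 2 ≤ q ^ b := le_trans hq.two_le (Nat.le_self_pow hb.ne' q)
      nlinarith
    have hm2 : 2 ≤ m := by rcases hm with h | h <;> omega
    have hH := hodge_of_rational hm2 (fun z hz => (h0 z hz).1) heven hsum (fun z hz => (h0 z hz).2) hR
    by_cases hp2 : p = 2
    · subst hp2
      have hsq2 : ¬ IsSquare ((2 : ℕ) : ZMod q) := by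
        intro h
        refine hsq ⟨?_, h⟩
        generalize ((q : ℕ) : ZMod 2) = x
        revert x; decide
      obtain ⟨e, he⟩ : ∃ e, 2 ^ e * q ^ b = m := by
        rcases hm with h | h
        · exact ⟨a, h.symm⟩
        · exact ⟨a + 1, by rw [h]; ring⟩
      have he2 : 2 ≤ e := by
        by_contra hlt
        have h5 : 4 ∣ m := h4 rfl
        have hodd : Odd (q ^ b) := (hq.odd_of_ne_two hq2).pow
        have h6 : e = 0 ∨ e = 1 := by omega
        obtain ⟨j, hj⟩ := hodd
        rcases h6 with h | h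
        · rw [h, pow_zero, one_mul] at he; omega
        · rw [h, pow_one] at he; omega
      exact main_four hq hq2 hsq2 he2 hb he hH hs (fun z hz => (h0 z hz).2) hR
    · obtain ⟨c, hc, hcm⟩ : ∃ c : ℕ, (c = 1 ∨ c = 2) ∧ c * (p ^ a * q ^ b) = m := by
        rcases hm with h | h
        · exact ⟨1, Or.inl rfl, by rw [h, one_mul]⟩
        · exact ⟨2, Or.inr rfl, by rw [h]⟩
      by_cases hleg : IsSquare ((q : ℕ) : ZMod p)
      · have hleg2 : ¬ IsSquare ((p : ℕ) : ZMod q) := fun h => hsq ⟨hleg, h⟩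
        exact main_two hq hp hq2 hp2 hpq.symm hleg2 hb ha hc
          (by rw [← hcm, Nat.mul_comm (q ^ b) (p ^ a)]) hH hs (fun z hz => (h0 z hz).2) hR
      · exact main_two hp hq hp2 hq2 hpq hleg ha hb hc hcm hH hs (fun z hz => (h0 z hz).2) hR
  · have two : ∀ n : ℕ, IsSquare ((n : ℕ) : ZMod 2) := by
      intro n
      generalize ((n : ℕ) : ZMod 2) = x
      revert x; decide
    have self : ∀ n : ℕ, IsSquare ((n : ℕ) : ZMod n) := fun n => ⟨0, by simp⟩
    have hp2 : p ≠ 2 := by rintro rfl; exact n1 (two q)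
    have hq2 : q ≠ 2 := by rintro rfl; exact n2 (two r)
    have hr2 : r ≠ 2 := by rintro rfl; exact n3 (two p)
    have hpq : p ≠ q := by rintro rfl; exact n1 (self p)
    have hqr : q ≠ r := by rintro rfl; exact n2 (self q)
    have hpr : p ≠ r := by rintro rfl; exact n3 (self p)
    have hpos : 2 ≤ p ^ a * q ^ b * r ^ d := by
      have h1 : 2 ≤ p ^ a := le_trans hp.two_le (Nat.le_self_pow ha.ne' p)
      have h2 : 0 < q ^ b := pow_pos hq.pos b
      have h3 : 0 < r ^ d := pow_pos hr.pos d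
      calc 2 ≤ p ^ a := h1
        _ ≤ p ^ a * q ^ b := Nat.le_mul_of_pos_right _ h2
        _ ≤ p ^ a * q ^ b * r ^ d := Nat.le_mul_of_pos_right _ h3
    have hm2 : 2 ≤ m := by rcases hm with h | h <;> omega
    have hH := hodge_of_rational hm2 (fun z hz => (h0 z hz).1) heven hsum (fun z hz => (h0 z hz).2) hR
    obtain ⟨c, hc, hcm⟩ : ∃ c : ℕ, (c = 1 ∨ c = 2) ∧ c * (p ^ a * q ^ b * r ^ d) = m := by
      rcases hm with h | h
      · exact ⟨1, Or.inl rfl, by rw [h, one_mul]⟩
      · exact ⟨2, Or.inr rfl, by rw [h]⟩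
    exact main_three_cyc hp hq hr hp2 hq2 hr2 hpq hpr hqr n1 n2 n3 s1 ha hb hd hc hcm hH hs
      (fun z hz => (h0 z hz).2) hR

section

variable {r M : ℕ} {a : Fin (2 * r + 1 + 1) → ZMod M}

theorem two_le_level (hM : 0 < M) (ha : IsCharacter a) : 2 ≤ M := by
  by_contra h
  have h1 : M = 1 := by omega
  subst h1
  exact ha.ne_zero 0 (Subsingleton.elim _ _)

theorem map_fst (a : Fin (2 * r + 1 + 1) → ZMod M) :
    ((univ.val.map fun i => (a i, (1 : ℤ))).map Prod.fst) = univ.val.map a := by
  rw [Multiset.map_map]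
  rfl

theorem card_map (a : Fin (2 * r + 1 + 1) → ZMod M) :
    Multiset.card (univ.val.map a) = 2 * r + 2 := by
  rw [Multiset.card_map, card_val, card_univ, Fintype.card_fin]

theorem ne_zero_map (a : Fin (2 * r + 1 + 1) → ZMod M) : univ.val.map a ≠ 0 := by
  intro h
  have h1 := card_map a
  rw [h, Multiset.card_zero] at h1
  omega

theorem sum_map' (ha : IsCharacter a) : (univ.val.map a).sum = 0 := ha.sum_eq

/-- **Rational characters are Hodge characters.** -/
theorem isHodge (hM : 0 < M) (ha : IsCharacter a) (hr : IsRational a) :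
    IsHodge M (univ.val.map a) := by
  have h1 := hodge_of_rational (two_le_level hM ha)
    (s := univ.val.map fun i => (a i, (1 : ℤ))) (fun z hz => by
      obtain ⟨i, _, rfl⟩ := Multiset.mem_map.1 hz
      exact ha.ne_zero i)
    (by
      rw [Multiset.card_map, card_val, card_univ, Fintype.card_fin]
      exact ⟨r + 1, by ring⟩)
    (by rw [map_fst]; exact sum_map' ha)
    (fun z hz => by
      obtain ⟨i, _, rfl⟩ := Multiset.mem_map.1 hz
      exact one_ne_zero) hr
  rwa [map_fst] at h1

theorem isGenerated_of (hM : 0 < M) {s : Multiset (ZMod M)}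
    (h : Generated M (SurfaceOrCurveProduct M) s) : IsGenerated M s := by
  refine ⟨1, one_pos, ?_⟩
  have key : ∀ k : ℕ, k = 1 → Generated (k * M) (SurfaceOrCurveProduct (k * M))
      (s.map fun a => ((k * a.val : ℕ) : ZMod (k * M))) := by
    rintro k rfl
    have key2 : ∀ m' : ℕ, M = m' → Generated m' (SurfaceOrCurveProduct m')
        (s.map fun a => ((1 * a.val : ℕ) : ZMod m')) := by
      intro m' hm'
      subst hm'
      have : NeZero M := ⟨hM.ne'⟩
      have h1 : (s.map fun a => ((1 * a.val : ℕ) : ZMod M)) = s := by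
        conv_rhs => rw [← Multiset.map_id' s]
        apply Multiset.map_congr rfl
        intro a _
        rw [one_mul, ZMod.natCast_zmod_val]
      rw [h1]
      exact h
    exact key2 _ (one_mul M).symm
  exact key 1 rfl

theorem isGenerated_good (hM : 0 < M) (hdeg : GoodDegree2 M) {s : Multiset (ZMod M)}
    (hs : IsHodge M s) (hne : s ≠ 0) : IsGenerated M s := by
  by_cases h : 2 ∣ M
  · exact isGenerated_of hM (main2_even hM h hdeg s hs hne)
  · exact ⟨2, two_pos, main2_odd hM h hdeg s hs hne⟩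

theorem isGenerated_pole (hM : 0 < M) (hdeg : PoleDegree M) (ha : IsCharacter a)
    (hr : IsRational a) : IsGenerated M (univ.val.map a) := by
  apply isGenerated_of hM
  have h1 := pole_degree hdeg (s := univ.val.map fun i => (a i, (1 : ℤ)))
    (by
      intro h
      have h2 := congrArg Multiset.card h
      rw [Multiset.card_map, card_val, card_univ, Fintype.card_fin, Multiset.card_zero] at h2
      omega)
    (by
      rw [Multiset.card_map, card_val, card_univ, Fintype.card_fin]
      exact ⟨r + 1, by ring⟩)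
    (fun z hz => by
      obtain ⟨i, _, rfl⟩ := Multiset.mem_map.1 hz
      exact ⟨ha.ne_zero i, one_ne_zero⟩)
    (by rw [map_fst]; exact sum_map' ha) hr
  rw [map_fst] at h1
  exact generated_mono (fun _ h => h.elim) h1

theorem isGenerated_four (hM : 0 < M) (h110 : ¬ 110 ∣ M) {s : Multiset (ZMod M)}
    (hs : IsHodge M s) (hcard : Multiset.card s ≤ 6) (hne : s ≠ 0) : IsGenerated M s := by
  rcases Nat.mod_two_eq_zero_or_one M with h | h
  · apply isGenerated_of hM
    refine generated_mono ?_ (main_even4 hM.ne' h s hs hcard hne)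
    rintro t (ht | ⟨l, _, hl, -⟩)
    · exact ht
    · exact absurd (Dvd.intro_left l hl) h110
  · exact ⟨2, two_pos, generated_mono (fun _ h => Or.inl h) (main_odd h s hs hcard hne)⟩

end

end Run7.h365.FV
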