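import Pool.Agent.Run7.h365.FV.Jac

/-!
# Gauss sums with values in a field of any characteristic, and their computation
-/

set_option autoImplicit false
set_option linter.unusedSectionVars false

namespace Run7.h365.FV

open Finset

section

variable {κ : Type} [Field κ] [Fintype κ] [DecidableEq κ] {N n : ℕ} [NeZero N]

variable {R : Type} [Field R]

/-- **the product of the Gauss sums** -/
theorem PP_eq' {χ : MulChar κ R} (hχ : orderOf χ = N) {ψ : AddChar κ R} (hψ : ψ.IsPrimitive)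
    (b : Fin n → ZMod N) :
    PP χ b = gaussSum (χ ^ (-∑ i, b i).val) ψ * ∏ i, gaussSum (χ ^ (b i).val) ψ := by
  -- the product over `i`
  have e1 : ∏ i, gaussSum (χ ^ (b i).val) ψ =
      ∑ v : Fin n → κ, (∏ i, (χ ^ (b i).val) (v i)) * ψ (∑ i, v i) := by
    unfold gaussSum
    have h := Finset.prod_univ_sum (fun _ : Fin n => (univ : Finset κ))
      (fun i x => (χ ^ (b i).val) x * ψ x)
    rw [Fintype.piFinset_univ] at h
    rw [h]
    refine sum_congr rfl fun v _ => ?_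
    rw [prod_mul_distrib, addChar_sum]
  -- the inner sum
  have e2 : ∀ y : κ, y ≠ 0 → (χ ^ (-∑ i, b i).val) y * ψ y *
      ∑ v : Fin n → κ, (∏ i, (χ ^ (b i).val) (v i)) * ψ (∑ i, v i) =
      ∑ v : Fin n → κ, (∏ i, (χ ^ (b i).val) (v i)) * ψ (y * (1 + ∑ i, v i)) := by
    intro y hy
    have h1 : ∑ v : Fin n → κ, (∏ i, (χ ^ (b i).val) (v i)) * ψ (∑ i, v i) =
        ∑ v : Fin n → κ, (∏ i, (χ ^ (b i).val) (y * v i)) * ψ (∑ i, y * v i) :=
      (Fintype.sum_equiv (Equiv.piCongrRight fun _ : Fin n => Equiv.mulLeft₀ y hy) _ _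
        fun v => rfl).symm
    rw [h1, mul_sum]
    refine sum_congr rfl fun v _ => ?_
    have h2 : ∏ i, (χ ^ (b i).val) (y * v i) =
        (∏ i, (χ ^ (b i).val) y) * ∏ i, (χ ^ (b i).val) (v i) := by
      rw [← prod_mul_distrib]
      exact prod_congr rfl fun i _ => map_mul _ _ _
    rw [h2, mul_add, mul_one, AddChar.map_add_eq_mul, ← mul_sum]
    have h3 := prod_scale hχ b hy
    linear_combination ((∏ i, (χ ^ (b i).val) (v i)) * ψ y * ψ (y * ∑ i, v i)) * h3
  have e3 : gaussSum (χ ^ (-∑ i, b i).val) ψ * ∏ i, gaussSum (χ ^ (b i).val) ψ =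
      ∑ y ∈ univ.erase (0 : κ), ∑ v : Fin n → κ, (∏ i, (χ ^ (b i).val) (v i)) *
        ψ (y * (1 + ∑ i, v i)) := by
    rw [e1]
    unfold gaussSum
    rw [sum_mul, ← add_sum_erase univ _ (mem_univ (0 : κ))]
    have h0 : (χ ^ (-∑ i, b i).val) (0 : κ) = 0 := MulChar.map_zero _
    rw [h0, zero_mul, zero_mul, zero_add]
    exact sum_congr rfl fun y hy => e2 y (ne_of_mem_erase hy)
  rw [e3, sum_comm]
  have e4 : ∀ s : κ, ∑ y ∈ univ.erase (0 : κ), ψ (y * s) =
      (if s = 0 then (Fintype.card κ : R) else 0) - 1 := by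
    intro s
    have h1 := AddChar.sum_mulShift s hψ
    rw [← add_sum_erase univ _ (mem_univ (0 : κ)), zero_mul, AddChar.map_zero_eq_one] at h1
    rw [eq_sub_iff_add_eq, add_comm]
    rw [h1]
    split_ifs <;> simp
  simp_rw [← mul_sum, e4, mul_sub, sum_sub_distrib, mul_one]
  unfold PP JJ
  congr 1
  · rw [mul_sum]
    refine sum_congr rfl fun v _ => ?_
    split_ifs
    · rw [mul_comm]
    · rw [mul_zero, mul_zero]
  · have h := Finset.prod_univ_sum (fun _ : Fin n => (univ : Finset κ))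
      (fun i x => (χ ^ (b i).val) x)
    rw [Fintype.piFinset_univ] at h
    rw [← h]
    have h1 : ∀ i, ∑ x : κ, (χ ^ (b i).val) x = if b i = 0 then ((Fintype.card κ : R) - 1) else 0 := by
      intro i
      split_ifs with hi
      · rw [(pow_eq_one_iff' hχ _).2 hi, MulChar.sum_one_eq_card_units, Fintype.card_units,
          Nat.cast_sub Fintype.card_pos, Nat.cast_one]
      · exact MulChar.sum_eq_zero_of_ne_one fun h => hi ((pow_eq_one_iff' hχ _).1 h)
    simp_rw [h1]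
    by_cases hb : b = 0
    · subst hb
      simp
    · rw [if_neg hb]
      obtain ⟨i, hi⟩ := Function.ne_iff.1 hb
      exact (prod_eq_zero (mem_univ i) (if_neg hi)).symm


end

/-- the Gauss sum over a prime field as a sum over the powers of a generator -/
theorem gauss_range {ℓ : ℕ} [Fact ℓ.Prime] {R : Type} [CommRing R] (χ : MulChar (ZMod ℓ) R)
    (ψ : AddChar (ZMod ℓ) R) (g : (ZMod ℓ)ˣ) (hg : ∀ x, x ∈ Subgroup.zpowers g) :
    gaussSum χ ψ = ∑ k ∈ range (ℓ - 1), χ (g : ZMod ℓ) ^ k * ψ ((g : ZMod ℓ) ^ k) := by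
  classical
  have hord : orderOf g = ℓ - 1 := by
    rw [orderOf_eq_card_of_forall_mem_zpowers hg, Nat.card_eq_fintype_card, ZMod.card_units]
  have h1 : gaussSum χ ψ = ∑ u : (ZMod ℓ)ˣ, χ (u : ZMod ℓ) * ψ (u : ZMod ℓ) := by
    unfold gaussSum
    have h2 : ∑ a : ZMod ℓ, χ a * ψ a = ∑ a ∈ univ.erase (0 : ZMod ℓ), χ a * ψ a := by
      rw [← add_sum_erase univ _ (mem_univ (0 : ZMod ℓ)), MulChar.map_zero, zero_mul, zero_add]
    rw [h2]
    symm
    refine sum_nbij (fun u : (ZMod ℓ)ˣ => (u : ZMod ℓ)) ?_ ?_ ?_ fun _ _ => rfl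
    · intro u _
      rw [mem_erase]
      exact ⟨u.ne_zero, mem_univ _⟩
    · intro u _ v _ h
      exact Units.ext h
    · intro x hx
      rw [mem_coe, mem_erase] at hx
      exact ⟨Units.mk0 x hx.1, by simp, rfl⟩
  rw [h1, ← IsCyclic.image_range_orderOf hg, sum_image, hord]
  · refine sum_congr rfl fun k _ => ?_
    rw [Units.val_pow_eq_pow_val, map_pow]
  · intro a ha b hb h
    rw [coe_range, Set.mem_Iio] at ha hb
    exact pow_injOn_Iio_orderOf (by simpa using ha) (by simpa using hb) h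

/-- the order of a character of a prime field -/
theorem orderOf_char {ℓ M : ℕ} [Fact ℓ.Prime] {R : Type} [CommRing R] [IsDomain R]
    (χ : MulChar (ZMod ℓ) R) (g : (ZMod ℓ)ˣ) (hg : ∀ x, x ∈ Subgroup.zpowers g)
    (h : IsPrimitiveRoot (χ (g : ZMod ℓ)) M) : orderOf χ = M := by
  have key : ∀ k : ℕ, χ ^ k = 1 ↔ (χ (g : ZMod ℓ)) ^ k = 1 := by
    intro k
    rw [MulChar.eq_iff hg, MulChar.pow_apply_coe, MulChar.one_apply_coe]
  rw [h.eq_orderOf]
  exact orderOf_eq_orderOf_iff.mpr key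

open Polynomial in
/-- **The transfer from the complex numbers to a prime field.** -/
theorem PP_transfer {M ℓ r n : ℕ} [NeZero M] [Fact ℓ.Prime] [Fact r.Prime] (hM : M ∣ ℓ - 1)
    {b : Fin n → ZMod M} {e : ℕ}
    (h : ∀ χ : MulChar (ZMod ℓ) ℂ, orderOf χ = M → PP χ b = (ℓ : ℂ) ^ e)
    (g : (ZMod ℓ)ˣ) (hg : ∀ x, x ∈ Subgroup.zpowers g) {η : ZMod r} (hη : IsPrimitiveRoot η M) :
    ∃ χ : MulChar (ZMod ℓ) (ZMod r), χ (g : ZMod ℓ) = η ∧ orderOf χ = M ∧
      PP χ b = (ℓ : ZMod r) ^ e := by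
  have hM0 : 0 < M := NeZero.pos M
  set A := AdjoinRoot (cyclotomic M ℤ) with hA
  set α : A := AdjoinRoot.root (cyclotomic M ℤ) with hα
  have hα1 : α ^ M = 1 := by
    have h1 : AdjoinRoot.mk (cyclotomic M ℤ) (X ^ M - 1) = 0 := by
      rw [AdjoinRoot.mk_eq_zero]
      exact cyclotomic.dvd_X_pow_sub_one M ℤ
    rw [map_sub, map_pow, AdjoinRoot.mk_X, map_one] at h1
    exact sub_eq_zero.mp h1
  set αu : Aˣ := Units.ofPowEqOne α M hα1 hM0.ne' with hαu
  have hmem : αu ∈ rootsOfUnity (Fintype.card (ZMod ℓ)ˣ) A := by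
    rw [mem_rootsOfUnity, ZMod.card_units]
    obtain ⟨k, hk⟩ := hM
    rw [hk, pow_mul]
    have : αu ^ M = 1 := Units.ext (by
      rw [Units.val_pow_eq_pow_val, Units.val_one]
      exact hα1)
    rw [this, one_pow]
  have hχ0 := MulChar.ofRootOfUnity_spec hmem hg
  set χ0 := MulChar.ofRootOfUnity hmem hg with hχ0d
  -- the complex realisation
  have hζ := Complex.isPrimitiveRoot_exp M hM0.ne'
  set ζ := Complex.exp (2 * Real.pi * Complex.I / M) with hζd
  have e1 : eval₂ (Int.castRingHom ℂ) ζ (cyclotomic M ℤ) = 0 := by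
    have h1 := hζ.isRoot_cyclotomic hM0
    rw [IsRoot.def, ← map_cyclotomic_int, eval_map] at h1
    exact h1
  set fC : A →+* ℂ := AdjoinRoot.lift (Int.castRingHom ℂ) ζ e1 with hfC
  have hfα : fC α = ζ := AdjoinRoot.lift_root e1
  have hinj : Function.Injective fC := by
    rw [injective_iff_map_eq_zero]
    intro x hx
    obtain ⟨p, rfl⟩ := AdjoinRoot.mk_surjective x
    rw [AdjoinRoot.mk_eq_zero]
    rw [hfC, AdjoinRoot.lift_mk] at hx
    rw [cyclotomic_eq_minpoly hζ hM0]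
    rw [← minpoly.isIntegrallyClosed_dvd_iff (hζ.isIntegral hM0)]
    rw [aeval_def]
    exact hx
  have h1 := h (χ0.ringHomComp fC) (orderOf_char _ g hg (by
    rw [MulChar.ringHomComp_apply, hχ0]
    change IsPrimitiveRoot (fC α) M
    rw [hfα]
    exact hζ))
  rw [PP_map] at h1
  have h2 : PP χ0 b = (ℓ : A) ^ e := by
    apply hinj
    rw [h1, map_pow, map_natCast]
  -- the reduction
  have e2 : eval₂ (Int.castRingHom (ZMod r)) η (cyclotomic M ℤ) = 0 := by
    have h1 := hη.isRoot_cyclotomic hM0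
    rw [IsRoot.def, ← map_cyclotomic_int, eval_map] at h1
    exact h1
  set fR : A →+* ZMod r := AdjoinRoot.lift (Int.castRingHom (ZMod r)) η e2 with hfR
  have hfRα : fR α = η := AdjoinRoot.lift_root e2
  have h3 : (χ0.ringHomComp fR) (g : ZMod ℓ) = η := by
    rw [MulChar.ringHomComp_apply, hχ0]
    exact hfRα
  refine ⟨χ0.ringHomComp fR, h3, orderOf_char _ g hg (by rw [h3]; exact hη), ?_⟩
  rw [PP_map, h2, map_pow, map_natCast]

end Run7.h365.FV
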