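import Pool.Agent.Run7.h365.FV.Rank
import Pool.Agent.Run7.h365.FV.Gs

/-!
# The rational characters at all the primes larger than the level
-/

set_option autoImplicit false
set_option linter.unusedSectionVars false

namespace Run7.h365.FV

open Finset NumberField IsDedekindDomain Filter
open Pool.Agent.H916K (RationalClass)
open Pool.Agent.N172.HS (IsHecke)
open Run7.h365.CM (IsTriv norm_v_pos)
open Run7.h365.CM.T (eventually_coprime triv_of_ae)

variable {n m M : ℕ}

theorem PP_of_triv [NeZero M] (hn : Odd n) {b : Fin n → ZMod M}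
    (h : IsTriv (psi M (ff M) b ((n + 1) / 2))) {ℓ : ℕ} (hℓ : M < ℓ) (hp : ℓ.Prime)
    (F : Type) [Field F] [Fintype F] [DecidableEq F]
    (hF : Fintype.card F = ℓ ^ orderOf (ℓ : ZMod M)) (χ : MulChar F ℂ) (hχ : orderOf χ = M) :
    PP χ b = (Fintype.card F : ℂ) ^ ((n + 1) / 2) := by
  obtain ⟨ζ, hζ⟩ := exists_zeta M
  have : Fact ℓ.Prime := ⟨hp⟩
  have hpM : ℓ.Coprime M := (Nat.Prime.coprime_iff_not_dvd hp).2 fun h =>
    absurd (Nat.le_of_dvd (NeZero.pos M) h) (not_le.2 hℓ)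
  have hf0 : orderOf (ℓ : ZMod M) ≠ 0 := by
    rw [← ZMod.coe_unitOfCoprime _ hpM, orderOf_units]
    exact (orderOf_pos _).ne'
  have hchar : CharP F ℓ := by
    have h1 : ((ℓ : ℕ) : F) ^ orderOf (ℓ : ZMod M) = 0 := by
      rw [← Nat.cast_pow, ← hF]
      exact Nat.cast_card_eq_zero F
    have h2 : ((ℓ : ℕ) : F) = 0 := pow_eq_zero_iff hf0 |>.1 h1
    have h3 := ringChar.spec F ℓ
    have h4 : ringChar F ∣ ℓ := h3.1 h2
    have h5 : ringChar F ≠ 1 := CharP.ringChar_ne_one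
    have h6 : ringChar F = ℓ := ((Nat.dvd_prime hp).1 h4).resolve_left h5
    rw [← h6]
    exact ringChar.charP F
  obtain ⟨w, hw⟩ := exists_above (F := LL M) ℓ
  have hNw := absNorm_prm (N := M) hw hpM
  obtain ⟨θ, hθ⟩ := exists_theta (κ := F) hw (r := 1) (by rw [hNw, hF, pow_one])
  have hMF : (M : F) ≠ 0 := by
    intro h
    rw [CharP.cast_eq_zero_iff F ℓ] at h
    exact ((Nat.Prime.coprime_iff_not_dvd hp).1 hpM) h
  have hMw : (M : 𝓞 (LL M)) ∉ w.asIdeal := by
    rw [← hθ, RingHom.mem_ker, map_natCast]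
    exact hMF
  obtain ⟨T₀, hT₀⟩ := exists_isRes hζ θ hMF
  set f₁ : 𝓞 (LL M) →+* ℂ := (ff M).comp (algebraMap (𝓞 (LL M)) (LL M)) with hf₁
  have hf₁i : Function.Injective f₁ := (ff M).injective.comp RingOfIntegers.coe_injective
  have hT₁ : orderOf (T₀.ringHomComp f₁) = M := (orderOf_comp hf₁i _).trans hT₀.1
  obtain ⟨c₀, rfl⟩ := exists_unit_pow hT₁ hχ
  rw [PP_pow hT₁ c₀.isUnit,
    PP_theta (n := n) hζ hn hf₁i hMF (w := w) hθ (r := 1) (by rw [hNw, hF, pow_one]) hT₀, pow_one]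
  -- the value at `w`
  have h1 : psi M (ff M) b ((n + 1) / 2) w.asIdeal = 1 := by
    apply h
    rw [psi_apply, PI_prime b w hMw]
    apply mul_ne_zero
    · rw [map_ne_zero]
      intro h0
      exact Pv_ne hζ w hMw b (RingOfIntegers.ext h0)
    · apply inv_ne_zero
      apply pow_ne_zero
      have := norm_v_pos w
      exact_mod_cast (by omega : Ideal.absNorm w.asIdeal ≠ 0)
  rw [psi_apply, PI_prime b w hMw] at h1
  have h2 : (Ideal.absNorm w.asIdeal : ℂ) ^ ((n + 1) / 2) ≠ 0 := by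
    apply pow_ne_zero
    have := norm_v_pos w
    exact_mod_cast (by omega : Ideal.absNorm w.asIdeal ≠ 0)
  have h3 : f₁ (Pv M n w b) = f₁ ((Ideal.absNorm w.asIdeal : 𝓞 (LL M)) ^ ((n + 1) / 2)) := by
    rw [map_pow, map_natCast]
    have h4 : f₁ (Pv M n w b) * ((Ideal.absNorm w.asIdeal : ℂ) ^ ((n + 1) / 2))⁻¹ = 1 := h1
    rwa [mul_inv_eq_one₀ h2] at h4
  have h4 := hf₁i h3
  obtain ⟨σ, hσ⟩ : ∃ σ : Gal(LL M/ℚ), cu M σ = c₀ :=
    ⟨(IsCyclotomicExtension.Rat.galEquivZMod M (LL M)).symm c₀, MulEquiv.apply_symm_apply _ _⟩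
  have h5 := act_Pv hζ w hMw σ b
  rw [hσ, h4, map_pow, map_natCast] at h5
  rw [← h5, map_pow, map_natCast, hNw, hF]


/-- the rational characters at the primes congruent to one -/
theorem PP_of_rational [NeZero M] {r : ℕ} (hr : 0 < r) {a : Fin (2 * r + 1 + 1) → ZMod M}
    (ha : IsCharacter a) (hrat : IsRational a) {ℓ : ℕ} [Fact ℓ.Prime] (hℓ : M < ℓ)
    (hℓ1 : M ∣ ℓ - 1) (χ : MulChar (ZMod ℓ) ℂ) (hχ : orderOf χ = M) :
    PP χ (Fin.tail a) = (ℓ : ℂ) ^ (r + 1) := by
  have h1 := full_tail ha.sum_eq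
  rw [← h1] at ha hrat
  have hb := isCharacter_full.1 ha
  have htr : IsTriv (psi M (ff M) (Fin.tail a) ((2 * r + 1 + 1) / 2)) :=
    (triv_iff (odd_two_mul_add_one r) (by omega) hb.1).2 hrat
  have hord : orderOf (ℓ : ZMod M) = 1 := by
    rw [orderOf_eq_one_iff, ← Nat.cast_one, ZMod.natCast_eq_natCast_iff]
    exact ((Nat.modEq_iff_dvd' (Fact.out : ℓ.Prime).one_lt.le).2 hℓ1).symm
  have h2 := PP_of_triv (odd_two_mul_add_one r) htr hℓ (Fact.out : ℓ.Prime) (ZMod ℓ)
    (by rw [ZMod.card, hord, pow_one]) χ hχ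
  rw [h2, ZMod.card]
  congr 1
  omega

theorem isCharacter_smul [NeZero M] {r : ℕ} (c : (ZMod M)ˣ) {a : Fin (2 * r + 1 + 1) → ZMod M}
    (ha : IsCharacter a) : IsCharacter fun i => (c : ZMod M) * a i := by
  refine ⟨fun i h => ha.ne_zero i ?_, ?_, ?_⟩
  · exact (c.isUnit.mul_right_eq_zero).1 h
  · rw [← mul_sum, ha.sum_eq, mul_zero]
  · have h1 : addOrderOf (fun i => (c : ZMod M) * a i) = addOrderOf a := by
      apply addOrderOf_eq_addOrderOf_iff.mpr
      intro k
      constructor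
      · intro h
        funext i
        have h2 := congrFun h i
        simp only [Pi.smul_apply, Pi.zero_apply, nsmul_eq_mul] at h2 ⊢
        rw [mul_left_comm] at h2
        exact (c.isUnit.mul_right_eq_zero).1 h2
      · intro h
        funext i
        have h2 := congrFun h i
        simp only [Pi.smul_apply, Pi.zero_apply, nsmul_eq_mul] at h2 ⊢
        rw [mul_left_comm, h2, mul_zero]
    rw [h1, ha.level]

theorem isRational_smul [NeZero M] {r : ℕ} (c : (ZMod M)ˣ) {a : Fin (2 * r + 1 + 1) → ZMod M}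
    (ha : IsCharacter a) (hrat : IsRational a) : IsRational fun i => (c : ZMod M) * a i := by
  have h1 := full_tail ha.sum_eq
  have h2 := full_tail (isCharacter_smul c ha).sum_eq
  rw [← h1, isRational_full] at hrat
  rw [← h2, isRational_full]
  exact Pw_smul c hrat

end Run7.h365.FV
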