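import Pool.Agent.Run7.h365.FV.Non
import Pool.Agent.Run7.h365.FV.Deg

/-!
# Fermat fourfolds of every degree: the rational characters are generated
-/

set_option autoImplicit false
set_option linter.unusedSectionVars false

namespace Run7.h365.FV

open Finset
open Pool.Agent.H916R2 (Generated IsHodge)
open Pool.Agent.Y2.Cv (SurfaceOrCurveProduct)

lemma dvd_of_mul4 {p a b c e : ℕ} (hp : p.Prime) (ha : a.Prime) (hb : b.Prime) (hc : c.Prime)
    (he : e.Prime) {n : ℕ} (hn : n = a * b * c * e) (h : p ∣ n) : p ∈ [a, b, c, e] := by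
  rw [hn] at h
  simp only [List.mem_cons, List.not_mem_nil, or_false]
  rcases (Nat.Prime.dvd_mul hp).1 h with h | h
  · rcases (Nat.Prime.dvd_mul hp).1 h with h | h
    · rcases (Nat.Prime.dvd_mul hp).1 h with h | h
      · exact Or.inl ((Nat.prime_dvd_prime_iff_eq hp ha).1 h)
      · exact Or.inr (Or.inl ((Nat.prime_dvd_prime_iff_eq hp hb).1 h))
    · exact Or.inr (Or.inr (Or.inl ((Nat.prime_dvd_prime_iff_eq hp hc).1 h)))
  · exact Or.inr (Or.inr (Or.inr ((Nat.prime_dvd_prime_iff_eq hp he).1 h)))

lemma p2 : Nat.Prime 2 := Nat.prime_two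
lemma p3 : Nat.Prime 3 := Nat.prime_three
lemma p5 : Nat.Prime 5 := by norm_num
lemma p11 : Nat.Prime 11 := by norm_num

theorem val1 : prN 331 218461 3 96597 61001 [1, 24, 62, 71, 81, 91] % 218461 ≠
    331 ^ 3 % 218461 := by decide +kernel

theorem val2 : prN 331 218461 3 96597 61001 [1, 31, 55, 71, 81, 91] % 218461 ≠
    331 ^ 3 % 218461 := by decide +kernel

theorem val3 : prN 661 3053821 2 1741153 1303642 [1, 62, 111, 142, 162, 182] % 3053821 ≠
    661 ^ 3 % 3053821 := by decide +kernel

theorem not110 {S : List ℕ} (hS : S = [1, 24, 62, 71, 81, 91] ∨ S = [1, 31, 55, 71, 81, 91])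
    {a : Fin (2 * 2 + 1 + 1) → ZMod 110} (ha : IsCharacter a)
    (hval : (univ.val.map fun i => (a i).val) = (S : Multiset ℕ)) : ¬ IsRational a := by
  have : Fact (Nat.Prime 331) := ⟨by norm_num⟩
  have : Fact (Nat.Prime 218461) := ⟨by norm_num⟩
  refine not_rational (ℓ := 331) (r := 218461) (γ := 3) (ηn := 96597) (θn := 61001)
    (L1 := [2, 3, 5, 11]) (L2 := [2, 5, 11]) (S := S) (by norm_num) (by norm_num)
    (fun p hp h => dvd_of_mul4 hp p2 p3 p5 p11 (by norm_num) h) (by decide +kernel)
    (by decide +kernel) ?_ (by decide +kernel) (by decide +kernel) (by decide +kernel)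
    (by decide +kernel) ?_ ha hval
  · intro p hp h
    have h1 := dvd_of_mul4 (n := 330) hp p2 p3 p5 p11 (by norm_num) (h.trans (by norm_num))
    simp only [List.mem_cons, List.not_mem_nil, or_false] at h1 ⊢
    rcases h1 with rfl | rfl | rfl | rfl
    · exact Or.inl rfl
    · exact absurd h (by norm_num)
    · exact Or.inr (Or.inl rfl)
    · exact Or.inr (Or.inr rfl)
  · rcases hS with rfl | rfl
    · exact val1
    · exact val2

theorem not220 {a : Fin (2 * 2 + 1 + 1) → ZMod 220} (ha : IsCharacter a)
    (hval : (univ.val.map fun i => (a i).val) =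
      (([1, 62, 111, 142, 162, 182] : List ℕ) : Multiset ℕ)) : ¬ IsRational a := by
  have : Fact (Nat.Prime 661) := ⟨by norm_num⟩
  have : Fact (Nat.Prime 3053821) := ⟨by norm_num⟩
  refine not_rational (ℓ := 661) (r := 3053821) (γ := 2) (ηn := 1741153) (θn := 1303642)
    (L1 := [2, 3, 5, 11]) (L2 := [2, 5, 11]) (by norm_num) (by norm_num)
    ?_ (by decide +kernel)
    (by decide +kernel) ?_ (by decide +kernel) (by decide +kernel) (by decide +kernel)
    (by decide +kernel) val3 ha hval
  · intro p hp h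
    have h1 : p ∣ 330 * 2 := by simpa using h
    rcases (Nat.Prime.dvd_mul hp).1 h1 with h2 | h2
    · exact dvd_of_mul4 (n := 330) hp p2 p3 p5 p11 (by norm_num) h2
    · rw [(Nat.prime_dvd_prime_iff_eq hp p2).1 h2]
      simp
  · intro p hp h
    have h0 : p ∣ 330 * 2 := h.trans (by norm_num)
    have h1 : p ∈ [2, 3, 5, 11] := by
      rcases (Nat.Prime.dvd_mul hp).1 h0 with h2 | h2
      · exact dvd_of_mul4 (n := 330) hp p2 p3 p5 p11 (by norm_num) h2
      · rw [(Nat.prime_dvd_prime_iff_eq hp p2).1 h2]
        simp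
    simp only [List.mem_cons, List.not_mem_nil, or_false] at h1 ⊢
    rcases h1 with rfl | rfl | rfl | rfl
    · exact Or.inl rfl
    · exact absurd h (by norm_num)
    · exact Or.inr (Or.inl rfl)
    · exact Or.inr (Or.inr rfl)

/-- the level in terms of the primes -/
lemma level_prime {r M : ℕ} {a : Fin (2 * r + 1 + 1) → ZMod M} (hM : 0 < M) (ha : IsCharacter a)
    {p : ℕ} (hp : p.Prime) (hpM : p ∣ M) : ∃ x ∈ univ.val.map a, ¬ p ∣ x.val := by
  have : NeZero M := ⟨hM.ne'⟩
  by_contra hcon
  push Not at hcon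
  obtain ⟨e, rfl⟩ := hpM
  have he : 0 < e := Nat.pos_of_mul_pos_left hM
  have h1 : e • a = 0 := by
    funext i
    obtain ⟨c, hc⟩ := hcon (a i) (Multiset.mem_map_of_mem _ (mem_univ_val i))
    simp only [Pi.smul_apply, Pi.zero_apply, nsmul_eq_mul]
    rw [← ZMod.natCast_zmod_val (a i), hc, ← Nat.cast_mul, ZMod.natCast_eq_zero_iff]
    exact ⟨c, by ring⟩
  have h2 := addOrderOf_dvd_of_nsmul_eq_zero h1
  rw [ha.level] at h2
  have h3 := Nat.le_of_dvd he h2
  have h4 := hp.two_le
  nlinarith

/-- **Every rational character of a Fermat fourfold is generated.** -/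
theorem isGenerated_six {M : ℕ} (hM : 0 < M) {a : Fin (2 * 2 + 1 + 1) → ZMod M}
    (ha : IsCharacter a) (hrat : IsRational a) : IsGenerated M (univ.val.map a) := by
  have hN : NeZero M := ⟨hM.ne'⟩
  have hs := isHodge hM ha hrat
  have hcard : Multiset.card (univ.val.map a) = 6 := card_map a
  rcases Nat.mod_two_eq_zero_or_one M with h | h
  · rcases six_class hM.ne' h (univ.val.map a) hs hcard
      (fun p hp hpM => level_prime hM ha hp hpM) with hg | ⟨t, ht, S, hS, hval⟩
    · exact isGenerated_of hM hg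
    · exfalso
      set c : (ZMod M)ˣ := ZMod.unitOfCoprime t ht with hc
      have h1 := isCharacter_smul c ha
      have h2 := isRational_smul c ha hrat
      have h3 : (univ.val.map fun i => ((c : ZMod M) * a i).val) = (S : Multiset ℕ) := by
        rw [← hval, Multiset.map_map]
        apply Multiset.map_congr rfl
        intro i _
        rw [hc, ZMod.coe_unitOfCoprime, ZMod.val_mul, ZMod.val_natCast]
        simp only [Function.comp_apply]
        rw [Nat.mod_mul_mod]
      unfold cls at hS
      split_ifs at hS with h110 h220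
      · subst h110
        simp only [List.mem_cons, List.not_mem_nil, or_false] at hS
        exact not110 hS h1 h3 h2
      · subst h220
        simp only [List.mem_cons, List.not_mem_nil, or_false] at hS
        subst hS
        exact not220 h1 h3 h2
      · exact absurd hS (List.not_mem_nil)
  · have hne : univ.val.map a ≠ 0 := ne_zero_map a
    exact ⟨2, two_pos, Pool.Agent.Y2.generated_mono (fun _ h => Or.inl h)
      (Pool.Agent.Y2.main_odd h _ hs hcard.le hne)⟩

end Run7.h365.FV
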