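import Pool.Agent.Run7.h365.FV.Jac

/-!
# Absolute values of the products of Gauss sums
-/

set_option autoImplicit false
set_option linter.unusedSectionVars false

namespace Run7.h365.FV

open Finset

section

variable {κ : Type} [Field κ] [Fintype κ] [DecidableEq κ] {N n : ℕ} [NeZero N]

/-- the number of the nonzero members of the tuple `(-∑ b, b)` -/
def cnt (b : Fin n → ZMod N) : ℕ :=
  (if ∑ i, b i = 0 then 0 else 1) + ∑ i, if b i = 0 then 0 else 1

/-- `N` times the exponents in Stickelberger's theorem -/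
def wt (c : ZMod N) (b : Fin n → ZMod N) : ℕ := (c * -∑ i, b i).val + ∑ i, (c * b i).val

theorem dvd_wt (c : ZMod N) (b : Fin n → ZMod N) : N ∣ wt c b := by
  rw [← ZMod.natCast_eq_zero_iff]
  unfold wt
  push_cast
  simp only [ZMod.natCast_zmod_val, ZMod.cast_id', id_eq]
  rw [← mul_sum]
  ring

theorem wt_mul (c d : ZMod N) (b : Fin n → ZMod N) : wt (c * d) b = wt c (fun i => d * b i) := by
  unfold wt
  rw [← mul_sum, mul_neg, mul_neg, mul_assoc]
  congr 1
  exact sum_congr rfl fun i _ => by rw [mul_assoc]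

theorem val_add_neg (a : ZMod N) : a.val + (-a).val = if a = 0 then 0 else N := by
  split_ifs with h
  · rw [h]; simp
  · have := ZMod.neg_val a
    rw [if_neg h] at this
    have h2 := ZMod.val_lt a
    omega

theorem wt_add_neg {c : ZMod N} (hc : IsUnit c) (b : Fin n → ZMod N) :
    wt c b + wt (-c) b = N * cnt b := by
  have key : ∀ a : ZMod N, (c * a).val + (-c * a).val = if a = 0 then 0 else N := by
    intro a
    rw [neg_mul, val_add_neg]
    simp only [hc.mul_right_eq_zero]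
  unfold wt cnt
  have h1 := key (-∑ i, b i)
  simp only [neg_eq_zero] at h1
  have h2 : ∑ i, (c * b i).val + ∑ i, (-c * b i).val = N * ∑ i, (if b i = 0 then 0 else 1) := by
    rw [← sum_add_distrib, mul_sum]
    refine sum_congr rfl fun i _ => ?_
    rw [key]
    split_ifs <;> simp
  have h3 : (if ∑ i, b i = 0 then 0 else N) = N * if ∑ i, b i = 0 then 0 else 1 := by
    split_ifs <;> simp
  rw [mul_add, ← h3, ← h1, ← h2]
  ring

theorem pow_neg_val {R : Type} [Field R] {χ : MulChar κ R} (hχ : orderOf χ = N) (a : ZMod N) :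
    χ ^ (-a).val = (χ ^ a.val)⁻¹ := by
  rw [eq_inv_iff_mul_eq_one, ← pow_add, ← orderOf_dvd_iff_pow_eq_one, hχ, add_comm, val_add_neg]
  split_ifs
  · exact dvd_zero _
  · exact dvd_refl _

theorem gauss_star {χ : MulChar κ ℂ} (hχ : orderOf χ = N) (a : ZMod N) {ψ : AddChar κ ℂ}
    (hψ : ψ.IsPrimitive) (hψ1 : ψ ≠ 1) :
    gaussSum (χ ^ a.val) ψ * gaussSum (χ ^ (-a).val) ψ⁻¹ =
      if a = 0 then 1 else (Fintype.card κ : ℂ) := by
  rw [pow_neg_val hχ]
  split_ifs with h
  · have h1 : ψ⁻¹ ≠ 1 := by simpa using hψ1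
    rw [(pow_eq_one_iff' hχ a).2 h, inv_one, gaussSum_one_left hψ1, gaussSum_one_left h1]
    norm_num
  · exact gaussSum_mul_gaussSum_eq_card (fun h1 => h ((pow_eq_one_iff' hχ a).1 h1)) hψ

theorem prim_inv {ψ : AddChar κ ℂ} (hψ : ψ.IsPrimitive) : (ψ⁻¹).IsPrimitive := by
  intro a ha h
  apply hψ ha
  rw [AddChar.ext_iff] at h ⊢
  intro x
  have h1 := h x
  rw [AddChar.mulShift_apply, AddChar.inv_apply, AddChar.one_apply] at h1
  rw [AddChar.mulShift_apply, AddChar.one_apply]
  have h2 : ψ (a * x) * ψ (-(a * x)) = 1 := by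
    rw [← AddChar.map_add_eq_mul, add_neg_cancel, AddChar.map_zero_eq_one]
  rw [h1, mul_one] at h2
  exact h2

/-- **the absolute value** -/
theorem PP_mul_neg_complex {χ : MulChar κ ℂ} (hχ : orderOf χ = N) (b : Fin n → ZMod N) :
    PP χ b * PP χ (fun i => -b i) = (Fintype.card κ : ℂ) ^ cnt b := by
  set ψ : AddChar κ ℂ := AddChar.FiniteField.primitiveChar_to_Complex κ with hψdef
  have hψ : ψ.IsPrimitive := AddChar.FiniteField.primitiveChar_to_Complex_isPrimitive κ
  have hψ1 : ψ ≠ 1 := by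
    rw [← AddChar.mulShift_one ψ]
    exact hψ one_ne_zero
  rw [PP_eq hχ hψ, PP_eq hχ (prim_inv hψ), sum_neg_distrib]
  rw [mul_mul_mul_comm, ← prod_mul_distrib, gauss_star hχ _ hψ hψ1]
  simp_rw [gauss_star hχ _ hψ hψ1]
  unfold cnt
  simp only [neg_eq_zero]
  rw [pow_add, ← prod_pow_eq_pow_sum]
  congr 1
  · split_ifs <;> simp
  · refine prod_congr rfl fun i _ => ?_
    split_ifs <;> simp

theorem star_PP {χ : MulChar κ ℂ} (hχ : orderOf χ = N) (b : Fin n → ZMod N) :
    (starRingEnd ℂ) (PP χ b) = PP χ (fun i => -b i) := by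
  set ψ : AddChar κ ℂ := AddChar.FiniteField.primitiveChar_to_Complex κ with hψdef
  have hψ : ψ.IsPrimitive := AddChar.FiniteField.primitiveChar_to_Complex_isPrimitive κ
  rw [PP_eq hχ hψ, PP_eq hχ (prim_inv hψ), map_mul, map_prod, sum_neg_distrib]
  have key : ∀ a : ZMod N, (starRingEnd ℂ) (gaussSum (χ ^ a.val) ψ) =
      gaussSum (χ ^ (-a).val) ψ⁻¹ := by
    intro a
    rw [starRingEnd_apply, star_gaussSum_eq, pow_neg_val hχ]
  rw [key]
  simp_rw [key]

theorem norm_PP {χ : MulChar κ ℂ} (hχ : orderOf χ = N) (b : Fin n → ZMod N) :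
    ‖PP χ b‖ ^ 2 = (Fintype.card κ : ℝ) ^ cnt b := by
  have h1 := PP_mul_neg_complex hχ b
  rw [← star_PP hχ, Complex.mul_conj, Complex.normSq_eq_norm_sq] at h1
  exact_mod_cast h1

/-- in a ring with an embedding in the complex numbers -/
theorem PP_mul_neg {R : Type} [CommRing R] {f : R →+* ℂ} (hf : Function.Injective f)
    {χ : MulChar κ R} (hχ : orderOf (χ.ringHomComp f) = N) (b : Fin n → ZMod N) :
    PP χ b * PP χ (fun i => -b i) = (Fintype.card κ : R) ^ cnt b := by
  apply hf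
  rw [map_mul, ← PP_map, ← PP_map, PP_mul_neg_complex hχ, map_pow, map_natCast]

/-- the symmetry -/
theorem PP_swap' {R : Type} [CommRing R] {f : R →+* ℂ} (hf : Function.Injective f)
    {χ : MulChar κ R} (hχ : orderOf (χ.ringHomComp f) = N) (b : Fin n → ZMod N) (i : Fin n) :
    PP χ (Function.update b i (-∑ j, b j)) = PP χ b := by
  apply hf
  rw [← PP_map, ← PP_map]
  exact PP_swap hχ (AddChar.FiniteField.primitiveChar_to_Complex_isPrimitive κ) b i

/-- the value at zero -/
theorem PP_zero' {R : Type} [CommRing R] {f : R →+* ℂ} (hf : Function.Injective f)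
    {χ : MulChar κ R} (hχ : orderOf (χ.ringHomComp f) = N) :
    PP χ (0 : Fin n → ZMod N) = (-1) ^ (n + 1) := by
  apply hf
  have hψ := AddChar.FiniteField.primitiveChar_to_Complex_isPrimitive κ
  rw [← PP_map, PP_zero hχ hψ]
  · simp
  · rw [← AddChar.mulShift_one (AddChar.FiniteField.primitiveChar_to_Complex κ)]
    exact hψ one_ne_zero

end

end Run7.h365.FV
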