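import Pool.Agent.Run7.h365.FV.Fro
import Pool.Agent.Run7.h365.CM.Frob

/-!
# The cohomology of the Fermat varieties over the rational numbers
-/

set_option autoImplicit false
set_option linter.unusedSectionVars false

namespace Run7.h365.FV

open Finset NumberField IsDedekindDomain Filter Polynomial
open Pool.Agent.W353.EF (cone IsFrobenius IsEulerSystem)

/-- the equation of the Fermat hypersurface with `n + 1` variables and degree `m` -/
def fermat (n m : ℕ) : Set (MvPolynomial (Fin (n + 1)) (𝓞 ℚ)) := {∑ i, MvPolynomial.X i ^ m}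

section mul

variable {ι : Type} (s : Finset ι) (F : ι → Multiset ℂ)

theorem sum_map_sum (g : ℂ → ℂ) : ((∑ x ∈ s, F x).map g).sum = ∑ x ∈ s, ((F x).map g).sum := by
  classical
  induction s using Finset.induction_on with
  | empty => simp
  | insert a s ha ih => rw [sum_insert ha, sum_insert ha, Multiset.map_add, Multiset.sum_add, ih]

theorem prod_map_sum (g : ℂ → ℂ) : ((∑ x ∈ s, F x).map g).prod = ∏ x ∈ s, ((F x).map g).prod := by
  classical
  induction s using Finset.induction_on with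
  | empty => simp
  | insert a s ha ih => rw [sum_insert ha, prod_insert ha, Multiset.map_add, Multiset.prod_add, ih]

end mul

variable {n m M : ℕ} {v : HeightOneSpectrum (𝓞 ℚ)}

/-- the eigenvalues on the primitive cohomology -/
noncomputable def extra (n m : ℕ) (v : HeightOneSpectrum (𝓞 ℚ)) : Multiset ℂ :=
  ∑ M : D m, ∑ ω : Orb n M.1, ∑ w : {w : HeightOneSpectrum (𝓞 (LL M.1)) // und ℚ w = v},
    rts (fo v M.1) (Jw (rep ω).1 w.1)

/-- the eigenvalues -/
noncomputable def betas (n m : ℕ) (v : HeightOneSpectrum (𝓞 ℚ)) (k : ℕ) : Multiset ℂ :=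
  if Even k then {(Ideal.absNorm v.asIdeal : ℂ) ^ (k / 2)} +
    (if k = n - 1 then extra n m v else 0) else 0

theorem cnt_good [NeZero M] {b : Fin n → ZMod M} (hb : Good b) : cnt b = n + 1 := by
  unfold cnt
  rw [if_neg hb.2, sum_congr rfl fun i _ => if_neg (hb.1 i)]
  simp [add_comm]

theorem nat_notMem [NeZero M] (hv : (Ideal.absNorm v.asIdeal).Coprime M)
    {w : HeightOneSpectrum (𝓞 (LL M))} (hw : und ℚ w = v) : (M : 𝓞 (LL M)) ∉ w.asIdeal := by
  intro h
  have h1 := und_iff.1 hw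
  apply w.isPrime.ne_top
  rw [Ideal.eq_top_iff_one]
  have h2 := Nat.isCoprime_iff_coprime.2 hv
  obtain ⟨a, b, hab⟩ := h2
  have h3 : ((a * (Ideal.absNorm v.asIdeal : ℕ) + b * (M : ℕ) : ℤ) : 𝓞 (LL M)) = 1 := by
    rw [hab, Int.cast_one]
  rw [← h3]
  push_cast
  exact w.asIdeal.add_mem (w.asIdeal.mul_mem_left _ h1) (w.asIdeal.mul_mem_left _ h)

theorem norm_Jw [NeZero M] (hn : 1 ≤ n) (hv : (Ideal.absNorm v.asIdeal).Coprime M)
    {w : HeightOneSpectrum (𝓞 (LL M))} (hw : und ℚ w = v) {b : Fin n → ZMod M} (hb : Good b) :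
    ‖Jw b w‖ ^ 2 = (Ideal.absNorm w.asIdeal : ℝ) ^ (n - 1) := by
  obtain ⟨ζ, hζ⟩ := exists_zeta M
  have h1 := norm_Pv (n := n) hζ (ff M) w (nat_notMem hv hw) b
  rw [cnt_good hb] at h1
  unfold Jw
  rw [norm_div, Complex.norm_natCast, div_pow, h1]
  have h2 : (Ideal.absNorm w.asIdeal : ℝ) ≠ 0 := by
    rw [absNorm_w hv hw]
    exact_mod_cast pow_ne_zero _ (absNorm_prime v).ne_zero
  obtain ⟨k, rfl⟩ : ∃ k, n = k + 1 := ⟨n - 1, by omega⟩
  rw [Nat.add_sub_cancel]
  field_simp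
  ring

theorem coprime_level (hv : (Ideal.absNorm v.asIdeal).Coprime m) (M : D m) :
    (Ideal.absNorm v.asIdeal).Coprime M.1 :=
  Nat.Coprime.coprime_dvd_right (Nat.dvd_of_mem_divisors M.2) hv

theorem norm_extra (hn : 1 ≤ n) (hv : (Ideal.absNorm v.asIdeal).Coprime m) {z : ℂ}
    (hz : z ∈ extra n m v) : ‖z‖ ^ 2 = (Ideal.absNorm v.asIdeal : ℝ) ^ (n - 1) := by
  unfold extra at hz
  obtain ⟨M, _, hz⟩ := Multiset.mem_sum.1 hz
  obtain ⟨ω, _, hz⟩ := Multiset.mem_sum.1 hz
  obtain ⟨w, _, hz⟩ := Multiset.mem_sum.1 hz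
  have hvM := coprime_level hv M
  have h1 := pow_rts (fo_ne hvM) hz
  have h2 := norm_Jw hn hvM w.2 (rep ω).2.1
  rw [← h1, norm_pow, absNorm_w hvM w.2] at h2
  push_cast at h2
  have h3 : (‖z‖ ^ 2) ^ fo v M.1 = ((Ideal.absNorm v.asIdeal : ℝ) ^ (n - 1)) ^ fo v M.1 := by
    rw [← pow_mul, mul_comm 2, pow_mul, h2, ← pow_mul, ← pow_mul, mul_comm]
  exact (pow_left_inj₀ (by positivity) (by positivity) (fo_ne hvM)).1 h3

theorem norm_betas (hn : 1 ≤ n) (hv : (Ideal.absNorm v.asIdeal).Coprime m) (k : ℕ) {z : ℂ}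
    (hz : z ∈ betas n m v k) : ‖z‖ = (Ideal.absNorm v.asIdeal : ℝ) ^ ((k : ℝ) / 2) := by
  have hp : (0 : ℝ) < Ideal.absNorm v.asIdeal := by exact_mod_cast (absNorm_prime v).pos
  unfold betas at hz
  split_ifs at hz with h1 h2
  · rw [Multiset.mem_add, Multiset.mem_singleton] at hz
    rcases hz with rfl | hz
    · obtain ⟨j, hj⟩ := h1
      have h3 : k / 2 = j := by omega
      rw [norm_pow, Complex.norm_natCast, h3, ← Real.rpow_natCast]
      congr 1
      rw [hj]
      push_cast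
      ring
    · have h3 := norm_extra hn hv hz
      rw [← h2] at h3
      rw [← Real.sqrt_sq (norm_nonneg z), h3, Real.sqrt_eq_rpow, ← Real.rpow_natCast,
        ← Real.rpow_mul hp.le]
      congr 1
      ring
  · rw [add_zero, Multiset.mem_singleton] at hz
    obtain ⟨j, hj⟩ := h1
    have h3 : k / 2 = j := by omega
    rw [hz, norm_pow, Complex.norm_natCast, h3, ← Real.rpow_natCast]
    congr 1
    rw [hj]
    push_cast
    ring
  · exact absurd hz (Multiset.notMem_zero z)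

/-- the sum of the powers -/
theorem pow_extra (hv : (Ideal.absNorm v.asIdeal).Coprime m) (e : ℕ) :
    ((extra n m v).map fun z => z ^ e).sum = ∑ M : D m, ∑ ω : Orb n M.1,
      ∑ w : {w : HeightOneSpectrum (𝓞 (LL M.1)) // und ℚ w = v},
      if fo v M.1 ∣ e then (fo v M.1 : ℂ) * Jw (rep ω).1 w.1 ^ (e / fo v M.1) else 0 := by
  unfold extra
  rw [sum_map_sum]
  refine sum_congr rfl fun M _ => ?_
  rw [sum_map_sum]
  refine sum_congr rfl fun ω _ => ?_
  rw [sum_map_sum]
  refine sum_congr rfl fun w _ => ?_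
  exact sum_rts (fo_ne (coprime_level hv M)) _ e

theorem sum_even (g : ℕ → ℂ) (N : ℕ) :
    ∑ k ∈ range (2 * N + 1), (if Even k then g (k / 2) else 0) = ∑ j ∈ range (N + 1), g j := by
  induction N with
  | zero => simp
  | succ N ih =>
    rw [show 2 * (N + 1) + 1 = 2 * N + 1 + 1 + 1 by ring, sum_range_succ, sum_range_succ, ih,
      sum_range_succ _ (N + 1)]
    have h1 : ¬ Even (2 * N + 1) := by
      rw [Nat.not_even_iff_odd]
      exact odd_two_mul_add_one N
    have h2 : Even (2 * N + 1 + 1) := ⟨N + 1, by ring⟩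
    rw [if_neg h1, if_pos h2, add_zero]
    congr 2
    omega

theorem alt_sum (hn : Odd n) (e : ℕ) :
    ∑ k ∈ range (2 * (n - 1) + 1), (-1 : ℂ) ^ k * ((betas n m v k).map fun z => z ^ e).sum =
      (∑ j ∈ range n, ((Ideal.absNorm v.asIdeal : ℂ) ^ e) ^ j) +
        ((extra n m v).map fun z => z ^ e).sum := by
  have hn1 : 1 ≤ n := hn.pos
  have h1 : ∀ k ∈ range (2 * (n - 1) + 1),
      (-1 : ℂ) ^ k * ((betas n m v k).map fun z => z ^ e).sum =
      (if Even k then ((Ideal.absNorm v.asIdeal : ℂ) ^ e) ^ (k / 2) else 0) +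
        if k = n - 1 then ((extra n m v).map fun z => z ^ e).sum else 0 := by
    intro k _
    unfold betas
    by_cases hk : Even k
    · rw [if_pos hk, if_pos hk, hk.neg_one_pow, one_mul]
      split_ifs with h2
      · rw [Multiset.map_add, Multiset.sum_add, Multiset.map_singleton, Multiset.sum_singleton,
          ← pow_mul, ← pow_mul, mul_comm]
      · rw [add_zero, add_zero, Multiset.map_singleton, Multiset.sum_singleton, ← pow_mul,
          ← pow_mul, mul_comm]
    · rw [if_neg hk, if_neg hk, if_neg, Multiset.map_zero, Multiset.sum_zero, mul_zero, add_zero]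
      rintro rfl
      apply hk
      obtain ⟨j, hj⟩ := hn
      exact ⟨j, by omega⟩
  rw [sum_congr rfl h1, sum_add_distrib, sum_even (fun j => ((Ideal.absNorm v.asIdeal : ℂ) ^ e) ^ j),
    Nat.sub_add_cancel hn1]
  congr 1
  rw [sum_ite_eq', if_pos]
  rw [mem_range]
  omega

/-- the points of the cone -/
theorem cone_eq (hm : 0 < m) {κ : Type} [Field κ] [Fintype κ] [DecidableEq κ] (φ : 𝓞 ℚ →+* κ) :
    cone (fermat n m) φ + 1 =
      (univ.filter fun u : Fin (n + 1) → κ => ∑ i, u i ^ m = 0).card := by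
  unfold cone
  have h1 : ∀ u : Fin (n + 1) → κ, (u ≠ 0 ∧ ∀ f ∈ fermat n m, MvPolynomial.eval₂ φ u f = 0) ↔
      u ∈ (univ.filter fun u : Fin (n + 1) → κ => ∑ i, u i ^ m = 0).erase 0 := by
    intro u
    rw [mem_erase, mem_filter]
    have h2 : (∀ f ∈ fermat n m, MvPolynomial.eval₂ φ u f = 0) ↔ ∑ i, u i ^ m = 0 := by
      unfold fermat
      simp only [Set.mem_singleton_iff, forall_eq, MvPolynomial.eval₂_sum, MvPolynomial.eval₂_pow,
        MvPolynomial.eval₂_X]
    rw [h2]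
    simp
  have h3 : Nat.card {u : Fin (n + 1) → κ // u ≠ 0 ∧ ∀ f ∈ fermat n m,
      MvPolynomial.eval₂ φ u f = 0} =
      ((univ.filter fun u : Fin (n + 1) → κ => ∑ i, u i ^ m = 0).erase 0).card := by
    rw [Nat.card_congr (Equiv.subtypeEquivRight h1), Nat.card_eq_fintype_card, Fintype.card_coe]
  rw [h3]
  apply card_erase_add_one
  rw [mem_filter]
  refine ⟨mem_univ _, ?_⟩
  simp [hm.ne']

/-- **The Frobenius eigenvalues.** -/
theorem isFrobenius (hm : 0 < m) (hn : Odd n) (hv : (Ideal.absNorm v.asIdeal).Coprime m) (k : ℕ)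
    {N : ℕ} {α : Fin N → ℂ} (hα : betas n m v k = univ.val.map α) :
    IsFrobenius (K := ℚ) (F := ℚ) (fermat n m) (n - 1) k v α := by
  classical
  refine ⟨betas n m v, hα, fun k z hz => norm_betas hn.pos hv k hz, ?_⟩
  intro κ _ _ φ e hk hc
  have := Fintype.ofFinite κ
  have h1 : ∀ ψ : 𝓞 ℚ →+* 𝓞 ℚ, (∀ x, ψ x = x) → φ.comp ψ = φ := fun ψ hψ =>
    RingHom.ext fun x => by rw [RingHom.comp_apply, hψ]
  rw [h1 _ (fun x => RingOfIntegers.ext rfl), alt_sum hn, pow_extra hv]
  have : Fact (Ideal.absNorm v.asIdeal).Prime := ⟨absNorm_prime v⟩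
  have hp0 : ((Ideal.absNorm v.asIdeal : ℕ) : κ) = 0 := by
    have h2 : ((Ideal.absNorm v.asIdeal : ℕ) : 𝓞 ℚ) ∈ RingHom.ker φ := by
      rw [hk]; exact absNorm_mem v
    rwa [RingHom.mem_ker, map_natCast] at h2
  have : CharP κ (Ideal.absNorm v.asIdeal) := by
    have h1 := ringChar.spec κ (Ideal.absNorm v.asIdeal)
    have h2 : ringChar κ ∣ Ideal.absNorm v.asIdeal := (h1).1 hp0
    have h3 : ringChar κ ≠ 1 := CharP.ringChar_ne_one
    have h4 : ringChar κ = Ideal.absNorm v.asIdeal :=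
      ((Nat.dvd_prime Fact.out).1 h2).resolve_left h3
    rw [← h4]
    exact ringChar.charP κ
  rw [Nat.card_eq_fintype_card] at hc
  have h2 := count_local (n := n) hm hn hv hc
  have h3 : (cone (fermat n m) φ : ℂ) + 1 =
      ((univ.filter fun u : Fin (n + 1) → κ => ∑ i, u i ^ m = 0).card : ℂ) := by
    rw [← cone_eq hm φ]
    push_cast
    ring
  rw [h2, hc] at h3
  push_cast at h3
  have h4 := geom_sum_mul ((Ideal.absNorm v.asIdeal : ℂ) ^ e) n
  linear_combination h3 - h4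

end Run7.h365.FV
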