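import Pool.Agent.Run7.h365.CM.Ord

/-!
# The order at the edge of a finite product of L-functions of Hecke characters of extension fields
-/

set_option autoImplicit false
set_option linter.unusedSectionVars false

namespace Run7.h365.FV

open NumberField Complex Filter Topology IsDedekindDomain Polynomial
open Pool.Agent.N172.HS (IsHecke)
open Pool.Agent.Y773 (LI)
open Pool.Agent.Y149.Ord (HasOrder)
open Pool.Agent.W353.EF (LFun)
open Run7.h365.CM (IsTriv lim_triv lim_nontriv hasProd_v norm_v_pos re_one_add)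

variable {K : Type} [Field K] [NumberField K]

section und

variable {L : Type} [Field L] [NumberField L] [Algebra K L]

/-- the prime below -/
noncomputable def und (K : Type) [Field K] [NumberField K] {L : Type} [Field L] [NumberField L]
    [Algebra K L] (w : HeightOneSpectrum (𝓞 L)) : HeightOneSpectrum (𝓞 K) where
  asIdeal := w.asIdeal.under (𝓞 K)
  isPrime := inferInstance
  ne_bot := Ideal.IsIntegral.comap_ne_bot (𝓞 K) w.ne_bot

theorem fib_finite (v : HeightOneSpectrum (𝓞 K)) :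
    Finite {w : HeightOneSpectrum (𝓞 L) // und K w = v} := by
  have h1 : (v.asIdeal.primesOver (𝓞 L)).Finite := Algebra.QuasiFinite.finite_primesOver _
  have := h1.to_subtype
  let f : {w : HeightOneSpectrum (𝓞 L) // und K w = v} → v.asIdeal.primesOver (𝓞 L) :=
    fun w => ⟨w.1.asIdeal, w.1.isPrime, ⟨(congrArg HeightOneSpectrum.asIdeal w.2).symm⟩⟩
  refine Finite.of_injective f ?_
  intro w w' h
  exact Subtype.ext (HeightOneSpectrum.ext (congrArg Subtype.val h))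

noncomputable instance fibFin (v : HeightOneSpectrum (𝓞 K)) :
    Fintype {w : HeightOneSpectrum (𝓞 L) // und K w = v} :=
  haveI := fib_finite (L := L) v
  Fintype.ofFinite _

/-- the Euler product over the primes below -/
theorem hasProd_und {ψ : Ideal (𝓞 L) →*₀ ℂ} (hψ : ∀ 𝔞, ‖ψ 𝔞‖ ≤ 1) {s : ℂ} (hs : 1 < s.re) :
    HasProd (fun v : HeightOneSpectrum (𝓞 K) =>
      ∏ w : {w : HeightOneSpectrum (𝓞 L) // und K w = v},
        (1 - ψ w.1.asIdeal * ((Ideal.absNorm w.1.asIdeal : ℕ) : ℂ) ^ (-s))⁻¹) (LI ψ s) := by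
  have h1 := hasProd_v hψ hs
  have h2 := (Equiv.sigmaFiberEquiv (und K (L := L))).hasProd_iff.2 h1
  refine h2.sigma fun v => ?_
  exact hasProd_fintype _

end und

/-- **The order at the edge of a finite product of L-functions of Hecke characters of extension
fields.** -/
theorem hasOrder_fields {ι : Type} [Fintype ι] (L : ι → Type) [∀ j, Field (L j)]
    [∀ j, NumberField (L j)] [∀ j, Algebra K (L j)] (ψ : ∀ j, Ideal (𝓞 (L j)) →*₀ ℂ)
    (hψ : ∀ j, ∃ (𝔣 : Ideal (𝓞 (L j))) (k : (L j →+* ℂ) → ℤ) (t : (L j →+* ℂ) → ℝ),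
      IsHecke 𝔣 k t (ψ j))
    {i : ℕ} (B : HeightOneSpectrum (𝓞 K) → ℂ[X])
    (hB : ∀ᶠ v in cofinite, ∀ s : ℂ, (B v).eval ((Ideal.absNorm v.asIdeal : ℂ) ^ (-s)) =
      ∏ j, ∏ w : {w : HeightOneSpectrum (𝓞 (L j)) // und K w = v},
        (1 - ψ j w.1.asIdeal * (Ideal.absNorm w.1.asIdeal : ℂ) ^ ((i : ℂ) / 2 - s)))
    (hB0 : ∀ v, (B v).eval ((Ideal.absNorm v.asIdeal : ℂ) ^ (-((i : ℂ) / 2 + 1))) ≠ 0) :
    HasOrder i B (-(Nat.card {j // IsTriv (ψ j)} : ℤ)) := by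
  classical
  have hn : ∀ j 𝔞, ‖ψ j 𝔞‖ ≤ 1 := by
    intro j 𝔞
    obtain ⟨𝔣, k, t, h⟩ := hψ j
    exact h.norm_le 𝔞
  rw [Filter.eventually_cofinite] at hB
  set S : Finset (HeightOneSpectrum (𝓞 K)) := hB.toFinset with hS
  have hgood : ∀ v ∉ S, ∀ s : ℂ, (B v).eval ((Ideal.absNorm v.asIdeal : ℂ) ^ (-s)) =
      ∏ j, ∏ w : {w : HeightOneSpectrum (𝓞 (L j)) // und K w = v},
        (1 - ψ j w.1.asIdeal * (Ideal.absNorm w.1.asIdeal : ℂ) ^ ((i : ℂ) / 2 - s)) := by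
    intro v hv
    rw [hS, Set.Finite.mem_toFinset, Set.mem_ofPred_eq, not_not] at hv
    exact hv
  -- the local factors
  let fac : ∀ v : HeightOneSpectrum (𝓞 K), ℂ → ℂ := fun v z =>
    ∏ j, ∏ w : {w : HeightOneSpectrum (𝓞 (L j)) // und K w = v},
      (1 - ψ j w.1.asIdeal * ((Ideal.absNorm w.1.asIdeal : ℕ) : ℂ) ^ (-((1 : ℂ) + z)))
  have hfac : ∀ (v : HeightOneSpectrum (𝓞 K)) (z : ℂ), 0 < ((1 : ℂ) + z).re → fac v z ≠ 0 := by
    intro v z hz
    refine Finset.prod_ne_zero_iff.2 fun j _ => Finset.prod_ne_zero_iff.2 fun w _ h0 => ?_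
    have h1 := Pool.Agent.Y773.AB.fac_ne (hn j) w.1.prime (s := (1 : ℂ) + z) hz
    rw [← sub_eq_zero.mp h0, norm_one] at h1
    exact lt_irrefl _ h1
  let hh : HeightOneSpectrum (𝓞 K) → ℝ → ℂ := fun v ε =>
    fac v ε * ((B v).eval ((Ideal.absNorm v.asIdeal : ℂ) ^ (-((i : ℂ) / 2 + 1 + ε))))⁻¹
  have hqne : ∀ v : HeightOneSpectrum (𝓞 K), ((Ideal.absNorm v.asIdeal : ℕ) : ℂ) ≠ 0 := by
    intro v
    have := norm_v_pos v
    exact_mod_cast (by omega : Ideal.absNorm v.asIdeal ≠ 0)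
  have hre : ∀ ε : ℝ, 0 < ε → 0 < ((1 : ℂ) + (ε : ℂ)).re := fun ε hε =>
    lt_trans zero_lt_one (re_one_add hε)
  have hh1 : ∀ v ∉ S, ∀ ε : ℝ, 0 < ε → hh v ε = 1 := by
    intro v hv ε hε
    change fac v ε * _ = _
    rw [hgood v hv]
    have h1 : ∏ j, ∏ w : {w : HeightOneSpectrum (𝓞 (L j)) // und K w = v},
        (1 - ψ j w.1.asIdeal * (Ideal.absNorm w.1.asIdeal : ℂ) ^
          ((i : ℂ) / 2 - ((i : ℂ) / 2 + 1 + ε))) = fac v ε := by
      refine Finset.prod_congr rfl fun j _ => Finset.prod_congr rfl fun w _ => ?_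
      congr 3
      ring
    rw [h1]
    exact mul_inv_cancel₀ (hfac v ε (hre ε hε))
  -- the product formula
  have hprod : ∀ ε : ℝ, 0 < ε → LFun B ((i : ℂ) / 2 + 1 + ε) =
      (∏ j, LI (ψ j) (1 + (ε : ℂ))) * ∏ v ∈ S, hh v ε := by
    intro ε hε
    have h1 : HasProd (fun v : HeightOneSpectrum (𝓞 K) => ∏ j,
        ∏ w : {w : HeightOneSpectrum (𝓞 (L j)) // und K w = v},
        (1 - ψ j w.1.asIdeal * ((Ideal.absNorm w.1.asIdeal : ℕ) : ℂ) ^ (-((1 : ℂ) + ε)))⁻¹)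
        (∏ j, LI (ψ j) (1 + (ε : ℂ))) :=
      hasProd_prod fun j _ => hasProd_und (hn j) (re_one_add hε)
    have h2 : HasProd (fun v => hh v ε) (∏ v ∈ S, hh v ε) :=
      hasProd_prod_of_ne_finset_one (fun v hv => hh1 v hv ε hε)
    have h3 := h1.mul h2
    unfold LFun
    refine HasProd.tprod_eq (h3.congr_fun fun v => ?_)
    change _ = _ * (fac v ε * _)
    have h4 : (∏ j, ∏ w : {w : HeightOneSpectrum (𝓞 (L j)) // und K w = v},
        (1 - ψ j w.1.asIdeal * ((Ideal.absNorm w.1.asIdeal : ℕ) : ℂ) ^ (-((1 : ℂ) + ε)))⁻¹) =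
        (fac v ε)⁻¹ := by
      simp only [fac, Finset.prod_inv_distrib]
    rw [h4, ← mul_assoc, inv_mul_cancel₀ (hfac v ε (hre ε hε)), one_mul]
  -- the limits
  have hlimh : ∀ v, ∃ c : ℂ, c ≠ 0 ∧ Tendsto (fun ε : ℝ => hh v ε) (𝓝[>] 0) (𝓝 c) := by
    intro v
    refine ⟨fac v 0 *
      ((B v).eval ((Ideal.absNorm v.asIdeal : ℂ) ^ (-((i : ℂ) / 2 + 1))))⁻¹,
      mul_ne_zero (hfac v 0 (by simp)) (inv_ne_zero (hB0 v)), ?_⟩
    have hc1 : Continuous fun z : ℂ => ((Ideal.absNorm v.asIdeal : ℕ) : ℂ) ^ z :=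
      haveI : NeZero ((Ideal.absNorm v.asIdeal : ℕ) : ℂ) := ⟨hqne v⟩
      continuous_const_cpow _
    have hc2 : ∀ (j : ι) (w : HeightOneSpectrum (𝓞 (L j))),
        Continuous fun z : ℂ => ((Ideal.absNorm w.asIdeal : ℕ) : ℂ) ^ z := by
      intro j w
      have h2 : ((Ideal.absNorm w.asIdeal : ℕ) : ℂ) ≠ 0 := by
        have := norm_v_pos w
        exact_mod_cast (by omega : Ideal.absNorm w.asIdeal ≠ 0)
      have : NeZero ((Ideal.absNorm w.asIdeal : ℕ) : ℂ) := ⟨h2⟩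
      exact continuous_const_cpow _
    have ht : Tendsto (fun ε : ℝ => (ε : ℂ)) (𝓝[>] 0) (𝓝 (0 : ℂ)) := by
      have h0 := Complex.continuous_ofReal.tendsto (0 : ℝ)
      rw [ofReal_zero] at h0
      exact h0.mono_left nhdsWithin_le_nhds
    have h1 : ContinuousAt (fun z : ℂ => fac v z *
        ((B v).eval ((Ideal.absNorm v.asIdeal : ℂ) ^ (-((i : ℂ) / 2 + 1 + z))))⁻¹) 0 := by
      refine ContinuousAt.mul ?_ (ContinuousAt.inv₀ ?_ ?_)
      · apply Continuous.continuousAt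
        refine continuous_finsetProd _ fun j _ => continuous_finsetProd _ fun w _ => ?_
        exact continuous_const.sub (continuous_const.mul ((hc2 j w.1).comp (by fun_prop)))
      · apply Continuous.continuousAt
        exact (B v).continuous.comp (hc1.comp (by fun_prop))
      · rw [add_zero]
        exact hB0 v
    have h2 := h1.tendsto.comp ht
    simp only [add_zero] at h2
    exact h2
  choose ch hch1 hch2 using hlimh
  have hlimj : ∀ j, ∃ c : ℂ, c ≠ 0 ∧ Tendsto (fun ε : ℝ =>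
      (if IsTriv (ψ j) then (ε : ℂ) else 1) * LI (ψ j) (1 + (ε : ℂ))) (𝓝[>] 0) (𝓝 c) := by
    intro j
    obtain ⟨𝔣, k, t, h⟩ := hψ j
    by_cases h1 : IsTriv (ψ j)
    · simp only [if_pos h1]
      exact lim_triv h h1
    · simp only [if_neg h1, one_mul]
      exact lim_nontriv h h1
  choose cj hcj1 hcj2 using hlimj
  refine ⟨(∏ j, cj j) * ∏ v ∈ S, ch v, mul_ne_zero (Finset.prod_ne_zero_iff.2 fun j _ => hcj1 j)
    (Finset.prod_ne_zero_iff.2 fun v _ => hch1 v), ?_⟩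
  have h1 := (tendsto_finsetProd Finset.univ fun j _ => hcj2 j).mul
    (tendsto_finsetProd S fun v _ => hch2 v)
  refine h1.congr' ?_
  filter_upwards [self_mem_nhdsWithin] with ε hε
  rw [hprod ε hε, Finset.prod_mul_distrib, Finset.prod_ite, Finset.prod_const_one, mul_one,
    Finset.prod_const, neg_neg, zpow_natCast, Nat.card_eq_fintype_card, Fintype.card_subtype]
  ring

end Run7.h365.FV
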