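import Pool.Agent.Run7.h365.FV.Prj3

/-!
# The normal form of the exceptional characters
-/

set_option autoImplicit false
set_option linter.unusedSectionVars false

namespace Run7.h365.FV

open Finset Pool.Agent.H916R2 Pool.Agent.Y2 Pool.Agent.Y2.Cv Pool.Agent.Y2.Cw

lemma level660 {m : ℕ} {A : Multiset ℕ} (h : ∀ a ∈ A, m ∣ 660 * a)
    (hm : m ≠ 0) (hex : ∀ p : ℕ, p.Prime → p ∣ m → ∃ a ∈ A, ¬ p ∣ a) : m ∣ 660 := by
  obtain ⟨g, e, f, hg, hef, he, hf⟩ := Nat.exists_coprime' (m := m) (n := 660)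
    (Nat.gcd_pos_of_pos_left _ (Nat.pos_of_ne_zero hm))
  have he1 : e = 1 := by
    by_contra hne
    obtain ⟨p, hp, hpe⟩ := Nat.exists_prime_and_dvd hne
    obtain ⟨a, ha, hpa⟩ := hex p hp (by rw [he]; exact hpe.mul_right g)
    apply hpa
    have h1 := h a ha
    rw [he, hf, show f * g * a = f * a * g by ring] at h1
    have h2 : e ∣ f * a := Nat.dvd_of_mul_dvd_mul_right hg h1
    exact hpe.trans (Nat.Coprime.dvd_of_dvd_mul_left hef h2)
  rw [he, hf, he1, one_mul]
  exact Dvd.intro_left f rfl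

lemma dvd_two_of_sv {d b : ℕ} (h : sv d b = 0) : d ∣ 2 * b := by
  by_contra hcon
  have hnd : ¬ d ∣ b := fun h => hcon (h.mul_left 2)
  rw [sv_of hnd] at h
  apply hcon
  have h5 : 2 * (b % d) = d := by omega
  have h6 : 2 * b ≡ 2 * (b % d) [MOD d] := (Nat.mod_modEq b _).symm.mul_left 2
  rw [h5] at h6
  exact (Nat.modEq_zero_iff_dvd).mp (h6.trans ((Nat.modEq_zero_iff_dvd).mpr dvd_rfl))

/-- the decomposition of the exceptional characters -/
theorem exo_split {m : ℕ} (hm : m ≠ 0) {A : Multiset ℕ} (hcard : Multiset.card A = 6)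
    (hexo : Exo m A) : ∃ l τ, l ≠ 0 ∧ m = 110 * l ∧ ¬ 11 ∣ l ∧ (τ = 1 ∨ τ = 3 ∨ τ = 7 ∨ τ = 9) ∧
      ∃ B R, A = B + R ∧ (∀ b ∈ B, b ≡ l * τ [MOD 10 * l] ∧ ¬ 11 ∣ b) ∧
      ((Multiset.card B = 4 ∧ Multiset.card R = 2 ∧ (∀ b ∈ R, 10 * l ∣ 60 * b ∧ ¬ 11 ∣ b) ∧
        ∀ z, Nat.Coprime z (10 * l) → SW (10 * l) R z = sv (10 * l) (z * (l * τ))) ∨
       (Multiset.card B = 5 ∧ Multiset.card R = 1 ∧ ∀ b ∈ R, 10 * l ∣ 2 * b)) := by
  obtain ⟨d, hdm, h11, c, ⟨l, hdl⟩, h10c, h2c, h5c, hS1, hS2⟩ := hexo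
  have hd : d ≠ 0 := by rintro rfl; exact hm (by rw [← hdm])
  have hl : l ≠ 0 := by rintro rfl; exact hd (by rw [hdl])
  obtain ⟨τ, hτ, hc⟩ := ord_ten hdl hd h10c h2c h5c
  subst hdl
  have hS1' : ∀ z, Nat.Coprime z (10 * l) →
      SW (10 * l) (prt 11 A) z = 5 * sv (10 * l) (z * (l * τ)) := by
    intro z hz
    rw [hS1 z hz, sv_per (hc.mul_left z)]
  have hp11 : ∀ b ∈ prt 11 A, ¬ 11 ∣ b := fun b hb => (Multiset.mem_filter.mp hb).2
  have hA : prt 11 A + A.filter (fun a => 11 ∣ a) = A := by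
    unfold prt
    rw [add_comm]
    exact Multiset.filter_add_not _ A
  have hcA : Multiset.card (prt 11 A) + Multiset.card (A.filter fun a => 11 ∣ a) = 6 := by
    rw [← Multiset.card_add, hA, hcard]
  obtain ⟨B1, B2, hB, hm1, h⟩ := split10 hl hτ (prt 11 A) (by omega) hS1'
  have hB11 : ∀ b ∈ B1, ¬ 11 ∣ b := fun b hb => hp11 b (by rw [hB]; exact Multiset.mem_add.mpr (Or.inl hb))
  have hB12 : ∀ b ∈ B2, ¬ 11 ∣ b := fun b hb => hp11 b (by rw [hB]; exact Multiset.mem_add.mpr (Or.inr hb))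
  have hcB : Multiset.card (prt 11 A) = Multiset.card B1 + Multiset.card B2 := by
    rw [hB, Multiset.card_add]
  refine ⟨l, τ, hl, by omega, fun h => h11 (h.mul_left 10), hτ, ?_⟩
  rcases h with ⟨k1, k2, k3⟩ | ⟨k1, k2, k3⟩
  · have hz : A.filter (fun a => 11 ∣ a) = 0 := by
      rw [← Multiset.card_eq_zero]; omega
    rw [hz, add_zero] at hA
    refine ⟨B1, B2, by rw [← hA]; exact hB, fun b hb => ⟨hm1 b hb, hB11 b hb⟩, Or.inl ⟨k1, k2,
      fun b hb => ⟨k3 b hb, hB12 b hb⟩, ?_⟩⟩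
    intro z hz
    have h1 := hS1' z hz
    rw [hB, SW_sv hd, Multiset.map_add, Multiset.sum_add, ← SW_sv hd B2] at h1
    have h2 : (B1.map fun a => sv (10 * l) (z * a)).sum =
        Multiset.card B1 * sv (10 * l) (z * (l * τ)) := by
      rw [Multiset.map_congr rfl fun b hb => show sv (10 * l) (z * b) =
        sv (10 * l) (z * (l * τ)) from sv_per ((hm1 b hb).mul_left z), Multiset.map_const',
        Multiset.sum_replicate, nsmul_eq_mul]
    rw [h2, k1] at h1
    push_cast at h1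
    linear_combination h1
  · refine ⟨B1, B2 + A.filter (fun a => 11 ∣ a), by rw [← add_assoc, ← hB, hA],
      fun b hb => ⟨hm1 b hb, hB11 b hb⟩, Or.inr ⟨k1, by rw [Multiset.card_add]; omega, ?_⟩⟩
    intro b hb
    rw [Multiset.mem_add] at hb
    rcases hb with hb | hb
    · exact k3 b hb
    · have hc1 : Multiset.card (A.filter fun a => 11 ∣ a) = 1 := by
        have : 0 < Multiset.card (A.filter fun a => 11 ∣ a) :=
          Multiset.card_pos_iff_exists_mem.mpr ⟨b, hb⟩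
        omega
      obtain ⟨x, hx⟩ := Multiset.card_eq_one.mp hc1
      have hx11 : 11 ∣ x := by
        have : x ∈ A.filter fun a => 11 ∣ a := by rw [hx]; exact Multiset.mem_singleton_self x
        exact (Multiset.mem_filter.mp this).2
      rw [hx, Multiset.mem_singleton] at hb
      subst hb
      obtain ⟨b', rfl⟩ := hx11
      have h1 := hS2 1 (Nat.coprime_one_left _)
      have h2 : quo 11 A = {b'} := by
        unfold quo
        rw [hx, Multiset.map_singleton, Nat.mul_div_cancel_left _ (by norm_num)]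
      rw [h2, SW_sv hd, Multiset.map_singleton, Multiset.sum_singleton, one_mul] at h1
      have h3 := dvd_two_of_sv h1
      rw [show 2 * (11 * b') = 11 * (2 * b') by ring]
      exact h3.mul_left 11

/-- **The normal form.** -/
theorem exo_norm {m : ℕ} (hm : m ≠ 0) {A : Multiset ℕ} (hcard : Multiset.card A = 6)
    (hex : ∀ p : ℕ, p.Prime → p ∣ m → ∃ a ∈ A, ¬ p ∣ a) (hexo : Exo m A) :
    ∃ l, (l = 1 ∨ l = 2 ∨ l = 3 ∨ l = 6) ∧ m = 110 * l ∧ ∃ t, Nat.Coprime t m ∧
      ∃ x2 x3 x4 u v, A.map (fun a => t * a % m) = l ::ₘ x2 ::ₘ x3 ::ₘ x4 ::ₘ u ::ₘ {v} ∧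
        (∀ x, (x = x2 ∨ x = x3 ∨ x = x4) → x % (10 * l) = l ∧ ¬ 11 ∣ x) ∧
        ((¬ 11 ∣ u ∧ ¬ 11 ∣ v ∧ ∀ z, Nat.Coprime z (10 * l) →
            sv (10 * l) (z * u) + sv (10 * l) (z * v) = sv (10 * l) (z * l)) ∨
          (u % (10 * l) = l ∧ ¬ 11 ∣ u ∧ 10 * l ∣ 2 * v)) := by
  obtain ⟨l, τ, hl, hml, h11l, hτ, B, R, hA, hB, h⟩ := exo_split hm hcard hexo
  have hdm : 10 * l ∣ m := ⟨11, by omega⟩
  have hd : 10 * l ≠ 0 := by omega
  -- the level
  have hall : ∀ a ∈ A, m ∣ 660 * a := by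
    intro a ha
    rw [hA, Multiset.mem_add] at ha
    rcases ha with ha | ha
    · have h1 := (hB a ha).1
      have h2 : 10 * a ≡ 10 * (l * τ) [MOD 10 * l] := h1.mul_left 10
      have h3 : 10 * l ∣ 10 * a := by
        apply (Nat.modEq_zero_iff_dvd).mp
        refine h2.trans ((Nat.modEq_zero_iff_dvd).mpr ⟨τ, by ring⟩)
      rw [hml, show 110 * l = 11 * (10 * l) by ring, show 660 * a = 11 * (6 * (10 * a)) by ring]
      exact Nat.mul_dvd_mul_left 11 (h3.mul_left 6)
    · rw [hml, show 110 * l = 11 * (10 * l) by ring]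
      rcases h with ⟨_, _, h3, _⟩ | ⟨_, _, h3⟩
      · rw [show 660 * a = 11 * (60 * a) by ring]
        exact Nat.mul_dvd_mul_left 11 (h3 a ha).1
      · rw [show 660 * a = 11 * (30 * (2 * a)) by ring]
        exact Nat.mul_dvd_mul_left 11 ((h3 a ha).mul_left 30)
  have h660 := level660 hall hm hex
  have hl6 : l ∣ 6 := by
    rw [hml, show 660 = 110 * 6 by norm_num] at h660
    exact Nat.dvd_of_mul_dvd_mul_left (by norm_num) h660
  have hlc : l = 1 ∨ l = 2 ∨ l = 3 ∨ l = 6 := by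
    have h1 : l ≤ 6 := Nat.le_of_dvd (by norm_num) hl6
    interval_cases l <;> first | omega | (exfalso; revert hl6; decide)
  -- the unit
  have hBpos : 0 < Multiset.card B := by
    rcases h with ⟨h1, -⟩ | ⟨h1, -⟩ <;> omega
  obtain ⟨a1, ha1⟩ := Multiset.card_pos_iff_exists_mem.mp hBpos
  obtain ⟨t, ht, hta⟩ := exists_unit hm a1
  have hg : Nat.gcd a1 m = l := by
    have h1 : Nat.gcd a1 (10 * l) = l := by
      rw [(hB a1 ha1).1.gcd_eq, mul_comm 10 l, Nat.gcd_mul_left]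
      have : Nat.gcd τ 10 = 1 := by rcases hτ with rfl | rfl | rfl | rfl <;> norm_num
      rw [this, mul_one]
    have h2 : Nat.Coprime a1 11 := ((Nat.Prime.coprime_iff_not_dvd (by norm_num)).mpr (hB a1 ha1).2).symm
    rw [hml, show 110 * l = 11 * (10 * l) by ring, Nat.Coprime.gcd_mul_left_cancel_right _ h2.symm, h1]
  rw [hg] at hta
  have hlm : l < m := by omega
  have hta' : t * a1 % m = l := by
    have h1 : t * a1 % m = l % m := hta
    rw [h1, Nat.mod_eq_of_lt hlm]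
  have ht11 : ¬ 11 ∣ t := by
    intro h'
    have h1 : 11 ∣ Nat.gcd t m := Nat.dvd_gcd h' ⟨10 * l, by omega⟩
    rw [ht] at h1
    norm_num at h1
  have htl : t * (l * τ) ≡ l [MOD 10 * l] := by
    have h1 : t * a1 ≡ t * (l * τ) [MOD 10 * l] := (hB a1 ha1).1.mul_left t
    exact h1.symm.trans (hta.of_dvd hdm)
  have hmod : ∀ a, t * a % m ≡ t * a [MOD 10 * l] := fun a => (Nat.mod_modEq _ _).of_dvd hdm
  have h11 : ∀ a, ¬ 11 ∣ a → ¬ 11 ∣ t * a % m := by
    intro a ha h'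
    have h1 : 11 ∣ t * a := by
      have h2 : 11 ∣ m := ⟨10 * l, by omega⟩
      exact (Nat.dvd_mod_iff h2).mp h'
    rcases (Nat.Prime.dvd_mul (by norm_num)).mp h1 with h2 | h2
    · exact ht11 h2
    · exact ha h2
  have hx : ∀ b ∈ B, (t * b % m) % (10 * l) = l ∧ ¬ 11 ∣ t * b % m := by
    intro b hb
    refine ⟨?_, h11 b (hB b hb).2⟩
    have h1 : t * b % m ≡ l [MOD 10 * l] := (hmod b).trans (((hB b hb).1.mul_left t).trans htl)
    have h2 : (t * b % m) % (10 * l) = l % (10 * l) := h1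
    rw [h2, Nat.mod_eq_of_lt (by omega)]
  obtain ⟨B', hB'⟩ := Multiset.exists_cons_of_mem ha1
  refine ⟨l, hlc, hml, t, ht, ?_⟩
  rcases h with ⟨h1, h2, h3, h4⟩ | ⟨h1, h2, h3⟩
  · have hcB' : Multiset.card B' = 3 := by
      rw [hB', Multiset.card_cons] at h1; omega
    obtain ⟨y2, y3, y4, hy⟩ := Multiset.card_eq_three.mp hcB'
    obtain ⟨p, q, hpq⟩ := Multiset.card_eq_two.mp h2
    refine ⟨t * y2 % m, t * y3 % m, t * y4 % m, t * p % m, t * q % m, ?_, ?_, Or.inl ⟨?_, ?_, ?_⟩⟩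
    · rw [hA, hB', hy, hpq]
      simp only [Multiset.insert_eq_cons, Multiset.map_add, Multiset.map_cons,
        Multiset.map_singleton, Multiset.cons_add, Multiset.singleton_add, hta']
    · rintro x (rfl | rfl | rfl)
      · exact hx _ (by rw [hB', hy]; simp)
      · exact hx _ (by rw [hB', hy]; simp)
      · exact hx _ (by rw [hB', hy]; simp)
    · exact h11 _ (h3 p (by rw [hpq]; simp)).2
    · exact h11 _ (h3 q (by rw [hpq]; simp)).2
    · intro z hz
      have htd : Nat.Coprime t (10 * l) := Nat.Coprime.coprime_dvd_right hdm ht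
      have h5 := h4 (z * t) (Nat.Coprime.mul_left hz htd)
      rw [hpq, SW_sv hd] at h5
      simp only [Multiset.insert_eq_cons, Multiset.map_cons, Multiset.map_singleton,
        Multiset.sum_cons, Multiset.sum_singleton] at h5
      rw [sv_per ((hmod p).mul_left z), sv_per ((hmod q).mul_left z), ← mul_assoc, ← mul_assoc, h5]
      apply sv_per
      rw [mul_assoc]
      exact htl.mul_left z
  · have hcB' : Multiset.card B' = 4 := by
      rw [hB', Multiset.card_cons] at h1; omega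
    obtain ⟨y1, hy1⟩ := Multiset.card_pos_iff_exists_mem.mp (show 0 < Multiset.card B' by omega)
    obtain ⟨B'', hB''⟩ := Multiset.exists_cons_of_mem hy1
    have hcB'' : Multiset.card B'' = 3 := by
      rw [hB'', Multiset.card_cons] at hcB'; omega
    obtain ⟨y2, y3, y4, hy⟩ := Multiset.card_eq_three.mp hcB''
    obtain ⟨q, hq⟩ := Multiset.card_eq_one.mp h2
    refine ⟨t * y2 % m, t * y3 % m, t * y4 % m, t * y1 % m, t * q % m, ?_, ?_, Or.inr ⟨?_, ?_, ?_⟩⟩
    · rw [hA, hB', hB'', hy, hq]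
      simp only [Multiset.insert_eq_cons, Multiset.map_add, Multiset.map_cons,
        Multiset.map_singleton, Multiset.cons_add, Multiset.singleton_add, hta']
      congr 1
      rw [Multiset.cons_swap]
      congr 1
      rw [Multiset.cons_swap]
      congr 1
      rw [Multiset.cons_swap]
    · rintro x (rfl | rfl | rfl)
      · exact hx _ (by rw [hB', hB'', hy]; simp)
      · exact hx _ (by rw [hB', hB'', hy]; simp)
      · exact hx _ (by rw [hB', hB'', hy]; simp)
    · exact (hx _ (by rw [hB', hB'']; simp)).1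
    · exact (hx _ (by rw [hB', hB'']; simp)).2
    · have h4 := h3 q (by rw [hq]; simp)
      have h5 : 2 * (t * q % m) ≡ 2 * (t * q) [MOD 10 * l] := (hmod q).mul_left 2
      apply (Nat.modEq_zero_iff_dvd).mp
      refine h5.trans ((Nat.modEq_zero_iff_dvd).mpr ?_)
      rw [show 2 * (t * q) = t * (2 * q) by ring]
      exact h4.mul_left t

end Run7.h365.FV
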