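import Pool.Agent.Run7.h365.FV.Exo

/-!
# The exceptional characters: the finite check
-/

set_option autoImplicit false
set_option linter.unusedSectionVars false

namespace Run7.h365.FV

open Finset Pool.Agent.H916R2 Pool.Agent.Y2 Pool.Agent.Y2.Cv Pool.Agent.Y2.Cw

/-- the sum of the residues of the multiples -/
def six (m s a b c e f g : ℕ) : ℕ :=
  Nat.add (Nat.mod (Nat.mul s a) m) (Nat.add (Nat.mod (Nat.mul s b) m)
    (Nat.add (Nat.mod (Nat.mul s c) m) (Nat.add (Nat.mod (Nat.mul s e) m)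
      (Nat.add (Nat.mod (Nat.mul s f) m) (Nat.mod (Nat.mul s g) m)))))

/-- the classes -/
def cls (m : ℕ) : List (List ℕ) :=
  if m = 110 then [[1, 24, 62, 71, 81, 91], [1, 31, 55, 71, 81, 91]]
  else if m = 220 then [[1, 62, 111, 142, 162, 182]] else []

/-- membership in the classes -/
def inCls (m : ℕ) (L : List ℕ) : Bool :=
  (List.range m).any fun t => Nat.gcd t m == 1 && (cls m).any fun S =>
    (L.map fun a => t * a % m).isPerm S

/-- the last entry -/
def lst (m l x y z u : ℕ) : ℕ := Nat.sub (Nat.mul 3 m) (l + x + y + z + u)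

/-- the test -/
def T4 (m r : ℕ) (ts : List ℕ) (l x y z u v : ℕ) : Bool :=
  Nat.beq v 0 || Nat.ble m v || !(Nat.beq (Nat.mod v r) 0) ||
    !(ts.all fun s => Nat.beq (six m s l x y z u v) (Nat.mul 3 m)) || inCls m [l, x, y, z, u, v]

/-- the values congruent to `l` modulo `10 l` and prime to eleven -/
def Xs (l : ℕ) : List ℕ :=
  if l = 1 then [1, 21, 31, 41, 51, 61, 71, 81, 91, 101]
  else if l = 2 then [2, 42, 62, 82, 102, 122, 142, 162, 182, 202]
  else [3, 63, 93, 123, 153, 183, 213, 243, 273, 303]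

/-- the values of `u` -/
def Us (l : ℕ) : List ℕ :=
  if l = 1 then [1, 21, 31, 41, 51, 61, 71, 81, 91, 101, 2, 12, 32, 42, 52, 62, 72, 82, 92, 102]
  else if l = 2 then [1, 21, 41, 61, 81, 101, 141, 161, 181, 201]
  else [1, 31, 61, 91, 151, 181, 211, 241, 271, 301, 4, 34, 64, 94, 124, 184, 214, 244, 274, 304,
    7, 37, 67, 97, 127, 157, 217, 247, 277, 307]

/-- the units of the test -/
def Ts (l : ℕ) : List ℕ :=
  if l = 1 then [23, 7, 31, 17, 49, 43, 29, 3, 21]
  else if l = 2 then [23, 7, 79, 3, 109, 83, 31, 27]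
  else [103, 23, 31, 109, 113, 79, 53, 97, 71, 7]

theorem check1 : ((Xs 1).all fun x => (Xs 1).all fun y => (Xs 1).all fun z => (Us 1).all fun u =>
    T4 110 1 (Ts 1) 1 x y z u (lst 110 1 x y z u)) = true := by decide +kernel

theorem check2 : ((Xs 2).all fun x => (Xs 2).all fun y => (Xs 2).all fun z => (Us 2).all fun u =>
    T4 220 1 (Ts 2) 2 x y z u (lst 220 2 x y z u)) = true := by decide +kernel

theorem check3 : ((Xs 3).all fun x => (Xs 3).all fun y => (Xs 3).all fun z => (Us 3).all fun u =>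
    T4 330 1 (Ts 3) 3 x y z u (lst 330 3 x y z u)) = true := by decide +kernel

theorem check5 : ((Xs 1).all fun x => (Xs 1).all fun y => (Xs 1).all fun z => (Xs 1).all fun u =>
    T4 110 5 [23, 7, 43, 17, 47, 3, 53, 19] 1 x y z u (lst 110 1 x y z u)) = true := by
  decide +kernel

end Run7.h365.FV
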