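import Pool.Agent.Run7.h365.FV.Exo2

/-!
# The exceptional characters with six entries: the classification
-/

set_option autoImplicit false
set_option linter.unusedSectionVars false

namespace Run7.h365.FV

open Finset Pool.Agent.H916R2 Pool.Agent.Y2 Pool.Agent.Y2.Cv Pool.Agent.Y2.Cw

lemma sv_val {m s x : ℕ} (hs : Nat.Coprime s m) (hx : ¬ m ∣ x) :
    sv m (s * x) = 2 * ((s * x % m : ℕ) : ℤ) - m := by
  rw [sv_of]
  intro h
  exact hx (Nat.Coprime.dvd_of_dvd_mul_left hs.symm h)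

lemma T4_inv {m r : ℕ} {ts : List ℕ} {l x y z u v : ℕ} (h : T4 m r ts l x y z u v = true)
    (hv0 : v ≠ 0) (hvm : v < m) (hr : v % r = 0)
    (h6 : ∀ s ∈ ts, six m s l x y z u v = 3 * m) : inCls m [l, x, y, z, u, v] = true := by
  unfold T4 at h
  rw [Bool.or_eq_true, Bool.or_eq_true, Bool.or_eq_true, Bool.or_eq_true] at h
  rcases h with (((h | h) | h) | h) | h
  · exact absurd (Nat.eq_of_beq_eq_true h) hv0
  · exact absurd (Nat.le_of_ble_eq_true h) (by omega)
  · rw [Bool.not_eq_true'] at h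
    exact absurd hr (Nat.ne_of_beq_eq_false h)
  · exfalso
    rw [Bool.not_eq_true', ← Bool.not_eq_true, List.all_eq_true] at h
    apply h
    intro s hs
    rw [Nat.beq_eq]
    exact h6 s hs
  · exact h

lemma Xs_mem {l : ℕ} (hl : l = 1 ∨ l = 2 ∨ l = 3) {x : ℕ} (hx : x < 110 * l)
    (h1 : x % (10 * l) = l) (h2 : ¬ 11 ∣ x) : x ∈ Xs l := by
  rcases hl with rfl | rfl | rfl
  · have key : ∀ x ∈ List.range 110, x % 10 = 1 → x % 11 ≠ 0 → x ∈ Xs 1 := by decide +kernel
    exact key x (List.mem_range.mpr hx) h1 (by omega)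
  · have key : ∀ x ∈ List.range 220, x % 20 = 2 → x % 11 ≠ 0 → x ∈ Xs 2 := by decide +kernel
    exact key x (List.mem_range.mpr hx) h1 (by omega)
  · have key : ∀ x ∈ List.range 330, x % 30 = 3 → x % 11 ≠ 0 → x ∈ Xs 3 := by decide +kernel
    exact key x (List.mem_range.mpr hx) h1 (by omega)

lemma Us_mem1 {u : ℕ} (hu : u < 110) (h : u % 10 = 1 ∨ u % 10 = 2) (h2 : ¬ 11 ∣ u) :
    u ∈ Us 1 := by
  have key : ∀ x ∈ List.range 110, (x % 10 = 1 ∨ x % 10 = 2) → x % 11 ≠ 0 → x ∈ Us 1 := by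
    decide +kernel
  exact key u (List.mem_range.mpr hu) h (by omega)

lemma Us_mem2 {u : ℕ} (hu : u < 220) (h : u % 20 = 1) (h2 : ¬ 11 ∣ u) : u ∈ Us 2 := by
  have key : ∀ x ∈ List.range 220, x % 20 = 1 → x % 11 ≠ 0 → x ∈ Us 2 := by decide +kernel
  exact key u (List.mem_range.mpr hu) h (by omega)

lemma Us_mem3 {u : ℕ} (hu : u < 330) (h : u % 30 = 1 ∨ u % 30 = 4 ∨ u % 30 = 7) (h2 : ¬ 11 ∣ u) :
    u ∈ Us 3 := by
  have key : ∀ x ∈ List.range 330, (x % 30 = 1 ∨ x % 30 = 4 ∨ x % 30 = 7) → x % 11 ≠ 0 →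
    x ∈ Us 3 := by decide +kernel
  exact key u (List.mem_range.mpr hu) h (by omega)

lemma pairs1 : ∀ u ∈ List.range 10, ∀ v ∈ List.range 10,
    (∀ z ∈ [1, 3, 7, 9], sv 10 (z * u) + sv 10 (z * v) = sv 10 (z * 1)) →
    ((u = 0 ∧ v = 1) ∨ (u = 1 ∧ v = 0)) ∨ (u = 1 ∨ u = 2) ∨ (v = 1 ∨ v = 2) := by decide +kernel

lemma pairs2 : ∀ u ∈ List.range 20, ∀ v ∈ List.range 20,
    (∀ z ∈ [1, 3, 7, 9, 11, 13, 17, 19], sv 20 (z * u) + sv 20 (z * v) = sv 20 (z * 2)) →
    (u % 2 = 0 ∧ v % 2 = 0) ∨ u = 1 ∨ v = 1 := by decide +kernel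

lemma pairs3 : ∀ u ∈ List.range 30, ∀ v ∈ List.range 30,
    (∀ z ∈ [1, 7, 11, 13, 17, 19, 23, 29], sv 30 (z * u) + sv 30 (z * v) = sv 30 (z * 3)) →
    (u % 3 = 0 ∧ v % 3 = 0) ∨ (u = 1 ∨ u = 4 ∨ u = 7) ∨ (v = 1 ∨ v = 4 ∨ v = 7) := by
  decide +kernel

lemma pairs6 : ∀ u ∈ List.range 60, ∀ v ∈ List.range 60,
    (∀ z ∈ [1, 7, 11, 13, 17, 19, 23, 29], sv 60 (z * u) + sv 60 (z * v) = sv 60 (z * 6)) →
    (u % 2 = 0 ∧ v % 2 = 0) ∨ (u % 3 = 0 ∧ v % 3 = 0) := by decide +kernel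

/-- the relation in the form of the test -/
lemma six_rel {m : ℕ} {a b c e f g : ℕ} (h0 : ∀ x ∈ (a ::ₘ b ::ₘ c ::ₘ e ::ₘ f ::ₘ {g} : Multiset ℕ),
    ¬ m ∣ x) (hm : m ≠ 0) (hrel : ∀ s, Nat.Coprime s m →
      SW m (a ::ₘ b ::ₘ c ::ₘ e ::ₘ f ::ₘ {g}) s = 0) {s : ℕ} (hs : Nat.Coprime s m) :
    six m s a b c e f g = 3 * m := by
  have h1 := hrel s hs
  rw [SW_sv hm] at h1
  simp only [Multiset.map_cons, Multiset.map_singleton, Multiset.sum_cons,
    Multiset.sum_singleton] at h1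
  rw [sv_val hs (h0 a (by simp)), sv_val hs (h0 b (by simp)), sv_val hs (h0 c (by simp)),
    sv_val hs (h0 e (by simp)), sv_val hs (h0 f (by simp)), sv_val hs (h0 g (by simp))] at h1
  have h2 : six m s a b c e f g = s * a % m + (s * b % m + (s * c % m + (s * e % m +
    (s * f % m + s * g % m)))) := rfl
  rw [h2]
  omega

/-- the entries in the classes -/
theorem inCls_of {m l x y z u v : ℕ} (hl : l = 1 ∨ l = 2 ∨ l = 3) (hm : m = 110 * l)
    (h0 : ∀ a ∈ (l ::ₘ x ::ₘ y ::ₘ z ::ₘ u ::ₘ {v} : Multiset ℕ), ¬ m ∣ a)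
    (hlt : ∀ a ∈ (l ::ₘ x ::ₘ y ::ₘ z ::ₘ u ::ₘ {v} : Multiset ℕ), a < m)
    (hrel : ∀ s, Nat.Coprime s m → SW m (l ::ₘ x ::ₘ y ::ₘ z ::ₘ u ::ₘ {v}) s = 0)
    (hx : x ∈ Xs l) (hy : y ∈ Xs l) (hz : z ∈ Xs l)
    (hu : u ∈ Us l ∨ (l = 1 ∧ u ∈ Xs 1 ∧ v % 5 = 0)) : inCls m [l, x, y, z, u, v] = true := by
  have hm0 : m ≠ 0 := by rcases hl with rfl | rfl | rfl <;> omega
  have h6 : ∀ s, Nat.Coprime s m → six m s l x y z u v = 3 * m := fun s hs =>
    six_rel h0 hm0 hrel hs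
  have hv0 : v ≠ 0 := by
    rintro rfl; exact h0 0 (by simp) (dvd_zero m)
  have hvm : v < m := hlt v (by simp)
  have h1 := h6 1 (Nat.coprime_one_left m)
  have h2 : six m 1 l x y z u v = 1 * l % m + (1 * x % m + (1 * y % m + (1 * z % m +
    (1 * u % m + 1 * v % m)))) := rfl
  rw [h2, one_mul, one_mul, one_mul, one_mul, one_mul, one_mul, Nat.mod_eq_of_lt (hlt l (by simp)),
    Nat.mod_eq_of_lt (hlt x (by simp)), Nat.mod_eq_of_lt (hlt y (by simp)),
    Nat.mod_eq_of_lt (hlt z (by simp)), Nat.mod_eq_of_lt (hlt u (by simp)),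
    Nat.mod_eq_of_lt hvm] at h1
  have hv : lst m l x y z u = v := by
    change 3 * m - (l + x + y + z + u) = v
    omega
  rcases hu with hu | ⟨rfl, hu, hv5⟩
  · rcases hl with rfl | rfl | rfl
    · have h3 := check1
      rw [List.all_eq_true] at h3
      have h4 := h3 x hx
      rw [List.all_eq_true] at h4
      have h5 := h4 y hy
      rw [List.all_eq_true] at h5
      have h7 := h5 z hz
      rw [List.all_eq_true] at h7
      have h8 := h7 u hu
      subst hm
      rw [hv] at h8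
      refine T4_inv h8 hv0 hvm (Nat.mod_one v) fun s hs => h6 s ?_
      have key : ∀ s ∈ Ts 1, Nat.Coprime s (110 * 1) := by decide
      exact key s hs
    · have h3 := check2
      rw [List.all_eq_true] at h3
      have h4 := h3 x hx
      rw [List.all_eq_true] at h4
      have h5 := h4 y hy
      rw [List.all_eq_true] at h5
      have h7 := h5 z hz
      rw [List.all_eq_true] at h7
      have h8 := h7 u hu
      subst hm
      rw [hv] at h8
      refine T4_inv h8 hv0 hvm (Nat.mod_one v) fun s hs => h6 s ?_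
      have key : ∀ s ∈ Ts 2, Nat.Coprime s (110 * 2) := by decide
      exact key s hs
    · have h3 := check3
      rw [List.all_eq_true] at h3
      have h4 := h3 x hx
      rw [List.all_eq_true] at h4
      have h5 := h4 y hy
      rw [List.all_eq_true] at h5
      have h7 := h5 z hz
      rw [List.all_eq_true] at h7
      have h8 := h7 u hu
      subst hm
      rw [hv] at h8
      refine T4_inv h8 hv0 hvm (Nat.mod_one v) fun s hs => h6 s ?_
      have key : ∀ s ∈ Ts 3, Nat.Coprime s (110 * 3) := by decide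
      exact key s hs
  · have h3 := check5
    rw [List.all_eq_true] at h3
    have h4 := h3 x hx
    rw [List.all_eq_true] at h4
    have h5 := h4 y hy
    rw [List.all_eq_true] at h5
    have h7 := h5 z hz
    rw [List.all_eq_true] at h7
    have h8 := h7 u hu
    subst hm
    rw [hv] at h8
    refine T4_inv h8 hv0 hvm hv5 fun s hs => h6 s ?_
    have key : ∀ s ∈ [23, 7, 43, 17, 47, 3, 53, 19], Nat.Coprime s (110 * 1) := by decide
    exact key s hs

/-- **The classification of the exceptional characters.** -/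
theorem exo_class {m : ℕ} (hm : m ≠ 0) {A : Multiset ℕ} (hcard : Multiset.card A = 6)
    (h0 : ∀ a ∈ A, ¬ m ∣ a)
    (hex : ∀ p : ℕ, p.Prime → p ∣ m → ∃ a ∈ A, ¬ p ∣ a)
    (hrel : ∀ t, Nat.Coprime t m → SW m A t = 0) (hexo : Exo m A) :
    ∃ t, Nat.Coprime t m ∧ ∃ S ∈ cls m, A.map (fun a => t * a % m) = (S : Multiset ℕ) := by
  obtain ⟨l, hl, hml, t, ht, x, y, z, u, v, hA, hx, h⟩ := exo_norm hm hcard hex hexo
  -- the properties of the new entries
  have hdm : 10 * l ∣ m := ⟨11, by omega⟩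
  have k0 : ∀ a ∈ A.map (fun a => t * a % m), ¬ m ∣ a := by
    intro a ha h'
    obtain ⟨b, hb, rfl⟩ := Multiset.mem_map.mp ha
    have h1 : m ∣ t * b := (Nat.dvd_mod_iff dvd_rfl).mp h'
    exact h0 b hb (Nat.Coprime.dvd_of_dvd_mul_left ht.symm h1)
  have klt : ∀ a ∈ A.map (fun a => t * a % m), a < m := by
    intro a ha
    obtain ⟨b, hb, rfl⟩ := Multiset.mem_map.mp ha
    exact Nat.mod_lt _ (Nat.pos_of_ne_zero hm)
  have kex : ∀ p : ℕ, p.Prime → p ∣ m → ∃ a ∈ A.map (fun a => t * a % m), ¬ p ∣ a := by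
    intro p hp hpm
    obtain ⟨b, hb, hpb⟩ := hex p hp hpm
    refine ⟨t * b % m, Multiset.mem_map_of_mem _ hb, fun h' => hpb ?_⟩
    have h1 : p ∣ t * b := (Nat.dvd_mod_iff hpm).mp h'
    rcases (Nat.Prime.dvd_mul hp).mp h1 with h2 | h2
    · exfalso
      have h3 : p ∣ Nat.gcd t m := Nat.dvd_gcd h2 hpm
      rw [ht] at h3
      exact hp.one_lt.ne' (Nat.dvd_one.mp h3)
    · exact h2
  have krel : ∀ s, Nat.Coprime s m → SW m (A.map fun a => t * a % m) s = 0 := by
    intro s hs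
    rw [SW_sv hm, Multiset.map_map, ← hrel (s * t) (Nat.Coprime.mul_left hs ht), SW_sv hm]
    congr 1
    apply Multiset.map_congr rfl
    intro a _
    apply sv_per
    have h1 : s * (t * a % m) ≡ s * (t * a) [MOD m] := (Nat.mod_modEq _ _).mul_left s
    rwa [← mul_assoc] at h1
  rw [hA] at k0 klt kex krel
  -- it is enough to find the entries in the classes
  suffices hin : inCls m [l, x, y, z, u, v] = true ∨ inCls m [l, x, y, z, v, u] = true by
    have fin : ∀ L : List ℕ, (A.map fun a => t * a % m) = (L : Multiset ℕ) → inCls m L = true →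
        ∃ t, Nat.Coprime t m ∧ ∃ S ∈ cls m, A.map (fun a => t * a % m) = (S : Multiset ℕ) := by
      intro L hL hc
      unfold inCls at hc
      rw [List.any_eq_true] at hc
      obtain ⟨s, hs, hc⟩ := hc
      rw [Bool.and_eq_true, List.any_eq_true] at hc
      obtain ⟨hs1, S, hS, hperm⟩ := hc
      rw [List.isPerm_iff] at hperm
      have hs2 : Nat.Coprime s m := by
        rw [beq_iff_eq] at hs1
        exact hs1
      refine ⟨s * t, Nat.Coprime.mul_left hs2 ht, S, hS, ?_⟩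
      rw [← Multiset.coe_eq_coe.mpr hperm, ← Multiset.map_coe, ← hL, Multiset.map_map]
      apply Multiset.map_congr rfl
      intro a _
      have h1 : s * (t * a % m) ≡ s * (t * a) [MOD m] := (Nat.mod_modEq _ _).mul_left s
      rw [← mul_assoc] at h1
      exact h1.symm
    rcases hin with h1 | h1
    · exact fin _ hA h1
    · refine fin _ ?_ h1
      rw [hA]
      change (l ::ₘ x ::ₘ y ::ₘ z ::ₘ u ::ₘ {v} : Multiset ℕ) = l ::ₘ x ::ₘ y ::ₘ z ::ₘ v ::ₘ {u}
      congr 4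
      rw [← Multiset.cons_zero v, ← Multiset.cons_zero u, Multiset.cons_swap]
  have hswap : (l ::ₘ x ::ₘ y ::ₘ z ::ₘ u ::ₘ {v} : Multiset ℕ) =
      l ::ₘ x ::ₘ y ::ₘ z ::ₘ v ::ₘ {u} := by
    congr 4
    rw [← Multiset.cons_zero v, ← Multiset.cons_zero u, Multiset.cons_swap]
  have hx1 := hx x (Or.inl rfl)
  have hy1 := hx y (Or.inr (Or.inl rfl))
  have hz1 := hx z (Or.inr (Or.inr rfl))
  have hxm : x < 110 * l := by rw [← hml]; exact klt x (by simp)
  have hym : y < 110 * l := by rw [← hml]; exact klt y (by simp)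
  have hzm : z < 110 * l := by rw [← hml]; exact klt z (by simp)
  have hum : u < 110 * l := by rw [← hml]; exact klt u (by simp)
  have hvm : v < 110 * l := by rw [← hml]; exact klt v (by simp)
  have hlp : 0 < l := by omega
  -- the sum
  have hsum : l + x + y + z + u + v = 3 * m := by
    have h1 := six_rel k0 hm krel (Nat.coprime_one_left m)
    have h2 : six m 1 l x y z u v = 1 * l % m + (1 * x % m + (1 * y % m + (1 * z % m +
      (1 * u % m + 1 * v % m)))) := rfl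
    rw [h2, one_mul, one_mul, one_mul, one_mul, one_mul, one_mul, Nat.mod_eq_of_lt (klt l (by simp)),
      Nat.mod_eq_of_lt (klt x (by simp)),
      Nat.mod_eq_of_lt (klt y (by simp)), Nat.mod_eq_of_lt (klt z (by simp)),
      Nat.mod_eq_of_lt (klt u (by simp)), Nat.mod_eq_of_lt (klt v (by simp))] at h1
    omega
  -- no common prime
  have hpr : ∀ p : ℕ, p.Prime → p ∣ l → ¬ (p ∣ u ∧ p ∣ v) := by
    intro p hp hpl huv
    obtain ⟨a, ha, hpa⟩ := kex p hp (by rw [hml]; exact hpl.mul_left 110)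
    apply hpa
    have hX : ∀ w, w % (10 * l) = l → p ∣ w := by
      intro w hw
      have h1 : w = 10 * l * (w / (10 * l)) + l := by
        conv_lhs => rw [← Nat.div_add_mod w (10 * l), hw]
      rw [h1]
      exact dvd_add ((hpl.mul_left 10).mul_right _) hpl
    simp only [Multiset.mem_cons, Multiset.mem_singleton] at ha
    rcases ha with rfl | rfl | rfl | rfl | rfl | rfl
    · exact hpl
    · exact hX _ hx1.1
    · exact hX _ hy1.1
    · exact hX _ hz1.1
    · exact huv.1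
    · exact huv.2
  have hinv : ∀ w, (w : ℕ) % (10 * l) < 10 * l := fun w => Nat.mod_lt _ (by omega)
  rcases h with ⟨hu11, hv11, hz⟩ | ⟨hu1, hu11, hv⟩
  · -- the pair of residues
    have hz' : ∀ z, Nat.Coprime z (10 * l) → sv (10 * l) (z * (u % (10 * l))) +
        sv (10 * l) (z * (v % (10 * l))) = sv (10 * l) (z * l) := by
      intro z hzc
      rw [← hz z hzc, sv_per ((Nat.mod_modEq u (10 * l)).mul_left z),
        sv_per ((Nat.mod_modEq v (10 * l)).mul_left z)]
    rcases hl with rfl | rfl | rfl | rfl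
    · have hl' : (1 : ℕ) = 1 ∨ (1 : ℕ) = 2 ∨ (1 : ℕ) = 3 := Or.inl rfl
      rcases pairs1 (u % 10) (List.mem_range.mpr (hinv u)) (v % 10) (List.mem_range.mpr (hinv v))
        (fun z hz1 => hz' z (by
          have key : ∀ z ∈ [1, 3, 7, 9], Nat.Coprime z (10 * 1) := by decide
          exact key z hz1)) with h1 | h1 | h1
      · exfalso
        omega
      · left
        exact inCls_of hl' hml k0 klt krel (Xs_mem hl' hxm hx1.1 hx1.2) (Xs_mem hl' hym hy1.1 hy1.2)
          (Xs_mem hl' hzm hz1.1 hz1.2) (Or.inl (Us_mem1 hum h1 hu11))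
      · right
        rw [hswap] at k0 klt krel
        exact inCls_of hl' hml k0 klt krel (Xs_mem hl' hxm hx1.1 hx1.2) (Xs_mem hl' hym hy1.1 hy1.2)
          (Xs_mem hl' hzm hz1.1 hz1.2) (Or.inl (Us_mem1 hvm h1 hv11))
    · have hl' : (2 : ℕ) = 1 ∨ (2 : ℕ) = 2 ∨ (2 : ℕ) = 3 := Or.inr (Or.inl rfl)
      rcases pairs2 (u % 20) (List.mem_range.mpr (hinv u)) (v % 20) (List.mem_range.mpr (hinv v))
        (fun z hz1 => hz' z (by
          have key : ∀ z ∈ [1, 3, 7, 9, 11, 13, 17, 19], Nat.Coprime z (10 * 2) := by decide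
          exact key z hz1)) with h1 | h1 | h1
      · exfalso
        exact hpr 2 Nat.prime_two dvd_rfl ⟨by omega, by omega⟩
      · left
        exact inCls_of hl' hml k0 klt krel (Xs_mem hl' hxm hx1.1 hx1.2) (Xs_mem hl' hym hy1.1 hy1.2)
          (Xs_mem hl' hzm hz1.1 hz1.2) (Or.inl (Us_mem2 hum h1 hu11))
      · right
        rw [hswap] at k0 klt krel
        exact inCls_of hl' hml k0 klt krel (Xs_mem hl' hxm hx1.1 hx1.2) (Xs_mem hl' hym hy1.1 hy1.2)
          (Xs_mem hl' hzm hz1.1 hz1.2) (Or.inl (Us_mem2 hvm h1 hv11))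
    · have hl' : (3 : ℕ) = 1 ∨ (3 : ℕ) = 2 ∨ (3 : ℕ) = 3 := Or.inr (Or.inr rfl)
      rcases pairs3 (u % 30) (List.mem_range.mpr (hinv u)) (v % 30) (List.mem_range.mpr (hinv v))
        (fun z hz1 => hz' z (by
          have key : ∀ z ∈ [1, 7, 11, 13, 17, 19, 23, 29], Nat.Coprime z (10 * 3) := by decide
          exact key z hz1)) with h1 | h1 | h1
      · exfalso
        exact hpr 3 Nat.prime_three dvd_rfl ⟨by omega, by omega⟩
      · left
        exact inCls_of hl' hml k0 klt krel (Xs_mem hl' hxm hx1.1 hx1.2) (Xs_mem hl' hym hy1.1 hy1.2)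
          (Xs_mem hl' hzm hz1.1 hz1.2) (Or.inl (Us_mem3 hum h1 hu11))
      · right
        rw [hswap] at k0 klt krel
        exact inCls_of hl' hml k0 klt krel (Xs_mem hl' hxm hx1.1 hx1.2) (Xs_mem hl' hym hy1.1 hy1.2)
          (Xs_mem hl' hzm hz1.1 hz1.2) (Or.inl (Us_mem3 hvm h1 hv11))
    · exfalso
      rcases pairs6 (u % 60) (List.mem_range.mpr (hinv u)) (v % 60) (List.mem_range.mpr (hinv v))
        (fun z hz1 => hz' z (by
          have key : ∀ z ∈ [1, 7, 11, 13, 17, 19, 23, 29], Nat.Coprime z (10 * 6) := by decide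
          exact key z hz1)) with h1 | h1
      · exact hpr 2 Nat.prime_two (by norm_num) ⟨by omega, by omega⟩
      · exact hpr 3 Nat.prime_three (by norm_num) ⟨by omega, by omega⟩
  · -- the case of five entries
    have hl1 : l = 1 := by
      by_contra hne
      obtain ⟨p, hp, hpl⟩ := Nat.exists_prime_and_dvd hne
      apply hpr p hp hpl
      constructor
      · have h1 : u = 10 * l * (u / (10 * l)) + l := by
          conv_lhs => rw [← Nat.div_add_mod u (10 * l), hu1]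
        rw [h1]
        exact dvd_add ((hpl.mul_left 10).mul_right _) hpl
      · have h1 : 5 * l ∣ v := by
          obtain ⟨e, he⟩ := hv
          exact ⟨e, by linarith⟩
        exact (hpl.mul_left 5).trans h1
    subst hl1
    left
    have hl' : (1 : ℕ) = 1 ∨ (1 : ℕ) = 2 ∨ (1 : ℕ) = 3 := Or.inl rfl
    exact inCls_of hl' hml k0 klt krel (Xs_mem hl' hxm hx1.1 hx1.2) (Xs_mem hl' hym hy1.1 hy1.2)
      (Xs_mem hl' hzm hz1.1 hz1.2) (Or.inr ⟨rfl, Xs_mem hl' hum hu1 hu11, by omega⟩)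

end Run7.h365.FV
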