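import Mathlib

/-!
# Fourier analysis on `(ℤ/N)^n` with values in a field with a primitive `N`-th root of unity, and the
rigidity of functions with values of absolute value one and integral Fourier coefficients
-/

set_option autoImplicit false
set_option linter.unusedSectionVars false

namespace Run7.h365.FV

open Finset

/-- an additive character maps sums to products -/
theorem addChar_sum {A M : Type} [AddCommMonoid A] [CommMonoid M] (ψ : AddChar A M) {ι : Type}
    (s : Finset ι) (f : ι → A) : ψ (∑ i ∈ s, f i) = ∏ i ∈ s, ψ (f i) := by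
  classical
  induction s using Finset.induction_on with
  | empty => simp
  | insert a s ha ih => rw [sum_insert ha, prod_insert ha, AddChar.map_add_eq_mul, ih]

section

variable {F : Type} [Field F] [CharZero F] {N n : ℕ} [NeZero N] {ζ : F}

/-- the pairing -/
def dot (b t : Fin n → ZMod N) : ZMod N := ∑ i, b i * t i

/-- the additive character -/
noncomputable def eta (hζ : IsPrimitiveRoot ζ N) : AddChar (ZMod N) F :=
  AddChar.zmodChar N hζ.pow_eq_one

theorem eta_apply (hζ : IsPrimitiveRoot ζ N) (x : ZMod N) : eta hζ x = ζ ^ x.val :=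
  AddChar.zmodChar_apply _ x

theorem eta_primitive (hζ : IsPrimitiveRoot ζ N) : (eta hζ).IsPrimitive :=
  AddChar.zmodChar_primitive_of_primitive_root N hζ

theorem eta_inj (hζ : IsPrimitiveRoot ζ N) {x : ZMod N} (h : eta hζ x = 1) : x = 0 := by
  rw [eta_apply, hζ.pow_eq_one_iff_dvd] at h
  have h1 := Nat.eq_zero_of_dvd_of_lt h (ZMod.val_lt x)
  exact (ZMod.val_eq_zero x).1 h1

theorem dot_comm (b t : Fin n → ZMod N) : dot b t = dot t b :=
  sum_congr rfl fun i _ => mul_comm _ _

theorem dot_add (b s t : Fin n → ZMod N) : dot b (s + t) = dot b s + dot b t := by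
  unfold dot
  rw [← sum_add_distrib]
  exact sum_congr rfl fun i _ => mul_add _ _ _

theorem dot_neg (b t : Fin n → ZMod N) : dot b (-t) = -dot b t := by
  unfold dot
  rw [← sum_neg_distrib]
  exact sum_congr rfl fun i _ => mul_neg _ _

theorem dot_sub (b s t : Fin n → ZMod N) : dot b (s - t) = dot b s - dot b t := by
  rw [sub_eq_add_neg, dot_add, dot_neg, ← sub_eq_add_neg]

theorem orth (hζ : IsPrimitiveRoot ζ N) (t : Fin n → ZMod N) :
    ∑ b : Fin n → ZMod N, eta hζ (dot b t) = if t = 0 then (N : F) ^ n else 0 := by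
  classical
  have h1 : ∀ b : Fin n → ZMod N, eta hζ (dot b t) = ∏ i, eta hζ (b i * t i) := by
    intro b
    unfold dot
    exact addChar_sum _ _ _
  simp_rw [h1]
  have h2 := Finset.prod_univ_sum (fun _ : Fin n => (univ : Finset (ZMod N)))
    (fun i x => eta hζ (x * t i))
  rw [Fintype.piFinset_univ] at h2
  rw [← h2]
  have h3 : ∀ i, ∑ x : ZMod N, eta hζ (x * t i) = if t i = 0 then (N : F) else 0 := by
    intro i
    have h4 := AddChar.sum_mulShift (t i) (eta_primitive hζ)
    rw [ZMod.card] at h4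
    rw [h4]
    split_ifs <;> simp
  simp_rw [h3]
  by_cases ht : t = 0
  · subst ht
    simp
  · rw [if_neg ht]
    obtain ⟨i, hi⟩ := Function.ne_iff.1 ht
    exact prod_eq_zero (mem_univ i) (if_neg hi)

/-- Functions which are integral combinations of characters. -/
def IntF (hζ : IsPrimitiveRoot ζ N) : Subring ((Fin n → ZMod N) → F) where
  carrier := {P | ∃ θ : (Fin n → ZMod N) → ℤ, ∀ b, P b = ∑ t, (θ t : F) * eta hζ (dot b t)}
  zero_mem' := ⟨0, fun b => by simp⟩
  one_mem' := by
    classical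
    refine ⟨fun t => if t = 0 then 1 else 0, fun b => ?_⟩
    rw [sum_eq_single 0]
    · have : dot b (0 : Fin n → ZMod N) = 0 := by simp [dot]
      simp [this]
    · intro t _ ht
      simp [ht]
    · intro h; exact absurd (mem_univ _) h
  add_mem' := by
    rintro P P' ⟨θ, h⟩ ⟨θ', h'⟩
    refine ⟨fun t => θ t + θ' t, fun b => ?_⟩
    rw [Pi.add_apply, h, h', ← sum_add_distrib]
    refine sum_congr rfl fun t _ => ?_
    push_cast
    ring
  neg_mem' := by
    rintro P ⟨θ, h⟩
    refine ⟨fun t => -θ t, fun b => ?_⟩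
    rw [Pi.neg_apply, h, ← sum_neg_distrib]
    refine sum_congr rfl fun t _ => ?_
    push_cast
    ring
  mul_mem' := by
    rintro P P' ⟨θ, h⟩ ⟨θ', h'⟩
    refine ⟨fun r => ∑ s, θ s * θ' (r - s), fun b => ?_⟩
    rw [Pi.mul_apply, h, h', sum_mul_sum]
    have e1 : ∀ r : Fin n → ZMod N, ((∑ s, θ s * θ' (r - s) : ℤ) : F) * eta hζ (dot b r) =
        ∑ s, (θ s : F) * θ' (r - s) * eta hζ (dot b r) := by
      intro r
      push_cast
      rw [sum_mul]
    simp_rw [e1]
    rw [sum_comm (s := univ) (t := univ) (f := fun r s => (θ s : F) * θ' (r - s) * eta hζ (dot b r))]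
    refine sum_congr rfl fun s _ => ?_
    refine Fintype.sum_equiv (Equiv.addRight s) _ _ fun t => ?_
    rw [Equiv.coe_addRight, add_sub_cancel_right, dot_add, AddChar.map_add_eq_mul]
    ring

theorem eta_mem (hζ : IsPrimitiveRoot ζ N) (t : Fin n → ZMod N) :
    (fun b => eta hζ (dot b t)) ∈ IntF (n := n) hζ := by
  classical
  refine ⟨fun s => if s = t then 1 else 0, fun b => ?_⟩
  rw [sum_eq_single t]
  · simp
  · intro s _ hs
    simp [hs]
  · intro h; exact absurd (mem_univ _) h

/-- the Fourier coefficients of the functions in `IntF` are integers -/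
theorem coeff_int (hζ : IsPrimitiveRoot ζ N) {P : (Fin n → ZMod N) → F} (hP : P ∈ IntF hζ)
    (t : Fin n → ZMod N) : ∃ k : ℤ, ∑ b, P b * eta hζ (-dot b t) = (N : F) ^ n * k := by
  classical
  obtain ⟨θ, h⟩ := hP
  refine ⟨θ t, ?_⟩
  have e1 : ∀ b, P b * eta hζ (-dot b t) = ∑ s, (θ s : F) * eta hζ (dot b (s - t)) := by
    intro b
    rw [h b, sum_mul]
    refine sum_congr rfl fun s _ => ?_
    rw [dot_sub, sub_eq_add_neg, AddChar.map_add_eq_mul]
    ring
  simp_rw [e1]
  rw [sum_comm]
  have e2 : ∀ s, ∑ b : Fin n → ZMod N, (θ s : F) * eta hζ (dot b (s - t)) =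
      if s = t then (N : F) ^ n * θ t else 0 := by
    intro s
    rw [← mul_sum, orth]
    simp only [sub_eq_zero]
    split_ifs with h1
    · rw [h1, mul_comm]
    · rw [mul_zero]
  simp_rw [e2]
  simp

/-- **Rigidity**: a function with values of absolute value one and integral Fourier coefficients is a
character up to the sign. -/
theorem rigid (hζ : IsPrimitiveRoot ζ N) (u : (Fin n → ZMod N) → F) (ι : F →+* ℂ)
    (hint : ∀ t, ∃ V : ℤ, ∑ b, u b * eta hζ (-dot b t) = (N : F) ^ n * V)
    (habs : ∀ b, ‖ι (u b)‖ = 1) :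
    ∃ (t₀ : Fin n → ZMod N) (ε : ℤ), ∀ b, u b = ε * eta hζ (dot b t₀) := by
  classical
  choose V hV using hint
  have hN : (N : F) ≠ 0 := by exact_mod_cast NeZero.ne N
  have hNn : (N : F) ^ n ≠ 0 := pow_ne_zero _ hN
  have hNC : ((N : ℂ) ^ n) ≠ 0 := pow_ne_zero _ (by exact_mod_cast NeZero.ne N)
  -- inversion
  have hinv : ∀ b, u b = ∑ t, (V t : F) * eta hζ (dot b t) := by
    intro b
    apply mul_left_cancel₀ hNn
    rw [mul_sum]
    have e1 : ∀ t, (N : F) ^ n * ((V t : F) * eta hζ (dot b t)) =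
        ∑ b', u b' * eta hζ (dot t (b - b')) := by
      intro t
      rw [← mul_assoc, ← hV t, sum_mul]
      refine sum_congr rfl fun b' _ => ?_
      rw [dot_comm t, show dot (b - b') t = -dot b' t + dot b t by
        rw [dot_comm, dot_sub, dot_comm t b, dot_comm t b']; ring, AddChar.map_add_eq_mul]
      ring
    simp_rw [e1]
    rw [sum_comm]
    have e2 : ∀ b', ∑ t : Fin n → ZMod N, u b' * eta hζ (dot t (b - b')) =
        if b' = b then (N : F) ^ n * u b else 0 := by
      intro b'
      rw [← mul_sum, orth]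
      simp only [sub_eq_zero]
      by_cases h : b' = b
      · rw [if_pos h, if_pos h.symm, h, mul_comm]
      · rw [if_neg h, if_neg (fun h' => h h'.symm), mul_zero]
    simp_rw [e2]
    simp
  -- absolute values of the characters
  have hηabs : ∀ x : ZMod N, (starRingEnd ℂ) (ι (eta hζ x)) = ι (eta hζ (-x)) := by
    intro x
    have h1 : (ι (eta hζ x)) ^ N = 1 := by
      rw [← map_pow, ← AddChar.map_nsmul_eq_pow]
      simp
    have h2 : ‖ι (eta hζ x)‖ = 1 := Complex.norm_eq_one_of_pow_eq_one h1 (NeZero.ne N)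
    have h3 : ι (eta hζ x) * ι (eta hζ (-x)) = 1 := by
      rw [← map_mul, ← AddChar.map_add_eq_mul, add_neg_cancel, AddChar.map_zero_eq_one, map_one]
    have h4 : ι (eta hζ x) * (starRingEnd ℂ) (ι (eta hζ x)) = 1 := by
      rw [Complex.mul_conj, Complex.normSq_eq_norm_sq, h2]
      norm_num
    have h5 : ι (eta hζ x) ≠ 0 := by
      intro h; rw [h, norm_zero] at h2; exact zero_ne_one h2
    exact mul_left_cancel₀ h5 (h4.trans h3.symm)
  -- Parseval
  have hpars : ∑ t, (V t) ^ 2 = 1 := by
    have hVC : ∀ t, ∑ b, ι (u b) * ι (eta hζ (-dot b t)) = (N : ℂ) ^ n * V t := by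
      intro t
      have := congrArg ι (hV t)
      rw [map_sum] at this
      simpa using this
    have hVC' : ∀ t, ∑ b, (starRingEnd ℂ) (ι (u b)) * ι (eta hζ (dot b t)) = (N : ℂ) ^ n * V t := by
      intro t
      have := congrArg (starRingEnd ℂ) (hVC t)
      rw [map_sum] at this
      simp only [map_mul, map_pow, Complex.conj_natCast, map_intCast, hηabs, neg_neg] at this
      exact this
    have h1 : ∑ t, ((N : ℂ) ^ n * V t) * ((N : ℂ) ^ n * V t) =
        ∑ b, ∑ b', ι (u b) * (starRingEnd ℂ) (ι (u b')) *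
          ∑ t : Fin n → ZMod N, ι (eta hζ (dot t (b' - b))) := by
      have e1 : ∀ t, ((N : ℂ) ^ n * V t) * ((N : ℂ) ^ n * V t) =
          ∑ b, ∑ b', ι (u b) * (starRingEnd ℂ) (ι (u b')) * ι (eta hζ (dot t (b' - b))) := by
        intro t
        nth_rewrite 1 [← hVC t]
        rw [← hVC' t, sum_mul_sum]
        refine sum_congr rfl fun b _ => sum_congr rfl fun b' _ => ?_
        rw [dot_sub, sub_eq_add_neg, AddChar.map_add_eq_mul, map_mul, dot_comm t b', dot_comm t b]
        ring
      simp_rw [e1]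
      rw [sum_comm]
      refine sum_congr rfl fun b _ => ?_
      rw [sum_comm]
      refine sum_congr rfl fun b' _ => ?_
      rw [mul_sum]
    have h2 : ∀ b b' : Fin n → ZMod N, ∑ t : Fin n → ZMod N, ι (eta hζ (dot t (b' - b))) =
        if b' = b then (N : ℂ) ^ n else 0 := by
      intro b b'
      rw [← map_sum, orth]
      simp only [sub_eq_zero]
      split_ifs <;> simp
    simp_rw [h2] at h1
    have h3 : ∀ b : Fin n → ZMod N, ∑ b', ι (u b) * (starRingEnd ℂ) (ι (u b')) *
        (if b' = b then (N : ℂ) ^ n else 0) = (N : ℂ) ^ n := by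
      intro b
      rw [sum_eq_single b]
      · rw [if_pos rfl, Complex.mul_conj, Complex.normSq_eq_norm_sq, habs b]
        norm_num
      · intro b' _ h
        rw [if_neg h, mul_zero]
      · intro h; exact absurd (mem_univ _) h
    simp_rw [h3] at h1
    rw [sum_const, card_univ, Fintype.card_fun, ZMod.card, Fintype.card_fin, nsmul_eq_mul] at h1
    have h4 : ((∑ t, (V t) ^ 2 : ℤ) : ℂ) = 1 := by
      push_cast
      have h5 : ((N : ℂ) ^ n) * ((N : ℂ) ^ n) * ∑ t, (V t : ℂ) ^ 2 = ((N : ℂ) ^ n) * ((N : ℂ) ^ n) := by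
        have h6 : ((N : ℂ) ^ n) * ((N : ℂ) ^ n) * ∑ t, (V t : ℂ) ^ 2 =
            ∑ t, ((N : ℂ) ^ n * V t) * ((N : ℂ) ^ n * V t) := by
          rw [mul_sum]
          refine sum_congr rfl fun t _ => ?_
          ring
        rw [h6, h1]
        push_cast
        rfl
      exact mul_left_cancel₀ (mul_ne_zero hNC hNC) (h5.trans (mul_one _).symm)
    exact_mod_cast h4
  obtain ⟨t₀, ht₀⟩ : ∃ t, V t ≠ 0 := by
    by_contra h
    push Not at h
    simp [h] at hpars
  have hz : ∀ t, t ≠ t₀ → V t = 0 := by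
    intro t ht
    by_contra h
    have h1 : (V t) ^ 2 + (V t₀) ^ 2 ≤ ∑ t, (V t) ^ 2 := by
      have h2 : ∑ s ∈ ({t, t₀} : Finset _), (V s) ^ 2 ≤ ∑ s, (V s) ^ 2 :=
        sum_le_sum_of_subset_of_nonneg (subset_univ _) fun s _ _ => sq_nonneg _
      rwa [sum_pair ht] at h2
    have h2 : 1 ≤ (V t) ^ 2 := by
      have := sq_pos_of_ne_zero h |>.le
      have h' : 0 < (V t) ^ 2 := by positivity
      omega
    have h3 : 1 ≤ (V t₀) ^ 2 := by
      have h' : 0 < (V t₀) ^ 2 := by positivity
      omega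
    omega
  refine ⟨t₀, V t₀, fun b => ?_⟩
  rw [hinv b, sum_eq_single t₀]
  · intro t _ ht
    rw [hz t ht, Int.cast_zero, zero_mul]
  · intro h; exact absurd (mem_univ _) h

/-- **Rigidity** for functions with one more symmetry. -/
theorem rigid_one (hζ : IsPrimitiveRoot ζ N) (hn : 2 ≤ n) (u : (Fin n → ZMod N) → F) (ι : F →+* ℂ)
    (hint : ∀ t, ∃ V : ℤ, ∑ b, u b * eta hζ (-dot b t) = (N : F) ^ n * V)
    (habs : ∀ b, ‖ι (u b)‖ = 1) (h0 : u 0 = 1)
    (hsym : ∀ (b : Fin n → ZMod N) (i : Fin n), u (Function.update b i (-∑ j, b j)) = u b)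
    (b : Fin n → ZMod N) : u b = 1 := by
  classical
  obtain ⟨t₀, ε, h⟩ := rigid hζ u ι hint habs
  have hε : (ε : F) = 1 := by
    have h1 := h 0
    have h2 : dot (0 : Fin n → ZMod N) t₀ = 0 := by simp [dot]
    rw [h0, h2, AddChar.map_zero_eq_one, mul_one] at h1
    exact h1.symm
  have ht : ∀ i, t₀ i = 0 := by
    intro i
    obtain ⟨j, hj⟩ : ∃ j : Fin n, j ≠ i := by
      by_cases hi : i = ⟨0, by omega⟩
      · exact ⟨⟨1, by omega⟩, by rw [hi]; simp⟩
      · exact ⟨⟨0, by omega⟩, fun h => hi h.symm⟩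
    have h1 := hsym (Pi.single j 1) i
    rw [h, h, hε, one_mul, one_mul] at h1
    have h2 : dot (Function.update (Pi.single j (1 : ZMod N)) i (-∑ k, Pi.single j (1 : ZMod N) k)) t₀ =
        t₀ j - t₀ i := by
      unfold dot
      rw [Finset.sum_eq_add (a := j) (b := i) hj]
      · rw [Function.update_of_ne hj, Function.update_self]
        simp
        ring
      · intro k _ hk
        rw [Function.update_of_ne hk.2, Pi.single_eq_of_ne hk.1, zero_mul]
      · intro h; exact absurd (mem_univ _) h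
      · intro h; exact absurd (mem_univ _) h
    have h3 : dot (Pi.single j (1 : ZMod N)) t₀ = t₀ j := by
      unfold dot
      rw [sum_eq_single j]
      · simp
      · intro k _ hk
        rw [Pi.single_eq_of_ne hk, zero_mul]
      · intro h; exact absurd (mem_univ _) h
    rw [h2, h3, sub_eq_add_neg, AddChar.map_add_eq_mul] at h1
    have h4 : eta hζ (t₀ j) ≠ 0 := by
      rw [eta_apply]
      exact pow_ne_zero _ (hζ.ne_zero (NeZero.ne N))
    have h5 : eta hζ (-t₀ i) = 1 := mul_left_cancel₀ h4 (h1.trans (mul_one _).symm)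
    exact neg_eq_zero.1 (eta_inj hζ h5)
  have ht0 : t₀ = 0 := funext ht
  rw [h b, hε, ht0]
  have : dot b (0 : Fin n → ZMod N) = 0 := by simp [dot]
  rw [this, AddChar.map_zero_eq_one, one_mul]

end

end Run7.h365.FV
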