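import Pool.Agent.Run7.h365.FV.Weil2
import Pool.Agent.Run7.h365.CM.Frob

/-!
# The Jacobi sums give unitary Hecke characters
-/

set_option autoImplicit false
set_option linter.unusedSectionVars false

namespace Run7.h365.FV

open Finset NumberField IsDedekindDomain UniqueFactorizationMonoid
open Pool.Agent.N172.HS (IsHecke TotPos arch)
open scoped Pointwise

variable {F : Type} [Field F] [NumberField F] {N n : ℕ} [NeZero N]
  [IsCyclotomicExtension {N} ℚ F] {ζ : 𝓞 F}

/-- the embeddings in the complex numbers -/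
theorem bij_emb (N : ℕ) [NeZero N] {F : Type} [Field F] [NumberField F]
    [IsCyclotomicExtension {N} ℚ F] (f : F →+* ℂ) :
    Function.Bijective (fun σ : Gal(F/ℚ) => f.comp (σ : F →+* F)) := by
  have hG : IsGalois ℚ F := IsCyclotomicExtension.isGalois {N} ℚ F
  rw [Fintype.bijective_iff_injective_and_card]
  constructor
  · intro σ σ' h
    refine AlgEquiv.ext fun x => f.injective ?_
    exact RingHom.congr_fun h x
  · rw [← Nat.card_eq_fintype_card, IsGalois.card_aut_eq_finrank,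
      NumberField.Embeddings.card F ℂ]

/-- the exponent at an embedding -/
noncomputable def kk (N : ℕ) [NeZero N] {n : ℕ} {F : Type} [Field F] [NumberField F]
    [IsCyclotomicExtension {N} ℚ F] (f : F →+* ℂ) (b : Fin n → ZMod N) (σ : F →+* ℂ) : ℤ :=
  ex N b ((Equiv.ofBijective _ (bij_emb N f)).symm σ)

/-- the unitary character -/
noncomputable def psi (N : ℕ) [NeZero N] {n : ℕ} {F : Type} [Field F] [NumberField F]
    (f : F →+* ℂ) (b : Fin n → ZMod N) (k : ℕ) : Ideal (𝓞 F) →*₀ ℂ where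
  toFun I := f ((PI N b I : 𝓞 F) : F) * ((Ideal.absNorm I : ℂ) ^ k)⁻¹
  map_zero' := by
    rw [map_zero]
    have : ((0 : 𝓞 F) : F) = 0 := rfl
    rw [this, map_zero, zero_mul]
  map_one' := by
    rw [map_one, map_one]
    have : ((1 : 𝓞 F) : F) = 1 := rfl
    rw [this, map_one]
    simp
  map_mul' I J := by
    have hmul : ∀ x y : 𝓞 F, ((x * y : 𝓞 F) : F) = x * y := fun _ _ => rfl
    rw [map_mul, map_mul, hmul, map_mul]
    push_cast
    rw [mul_pow, mul_inv]
    ring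

theorem psi_apply (f : F →+* ℂ) (b : Fin n → ZMod N) (k : ℕ) (I : Ideal (𝓞 F)) :
    psi N f b k I = f ((PI N b I : 𝓞 F) : F) * ((Ideal.absNorm I : ℂ) ^ k)⁻¹ := rfl

theorem cop_iff {I : Ideal (𝓞 F)} (hI : I ≠ 0) (hn : n ≠ 0) :
    Cop N I ↔ IsCoprime I (Ideal.span {(N : 𝓞 F) ^ n}) := by
  rw [← Ideal.span_singleton_pow, IsCoprime.pow_right_iff (Nat.pos_of_ne_zero hn),
    Ideal.isCoprime_iff_sup_eq]
  constructor
  · intro h
    by_contra hne
    obtain ⟨M, hM, hle⟩ := Ideal.exists_le_maximal _ hne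
    have h1 : I ≤ M := le_sup_left.trans hle
    have h2 : (N : 𝓞 F) ∈ M := hle (Ideal.mem_sup_right (Ideal.mem_span_singleton_self _))
    have h3 : M ≠ ⊥ := by
      rintro rfl
      exact hI (le_bot_iff.1 h1)
    have hMp : Prime M := Ideal.prime_of_isPrime h3 hM.isPrime
    obtain ⟨q, hq, hqa⟩ := exists_mem_normalizedFactors_of_dvd hI hMp.irreducible
      (Ideal.dvd_iff_le.2 h1)
    rw [associated_iff_eq] at hqa
    subst hqa
    exact h _ hq h2
  · intro h J hJ hN
    obtain ⟨v, rfl, hle⟩ := mem_factors hJ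
    have h1 : I ⊔ Ideal.span {(N : 𝓞 F)} ≤ v.asIdeal :=
      sup_le hle ((Ideal.span_singleton_le_iff_mem _).2 hN)
    rw [h] at h1
    exact v.isPrime.ne_top (top_le_iff.1 h1)

theorem Pv_ne (hζ : IsPrimitiveRoot ζ N) (v : HeightOneSpectrum (𝓞 F))
    (hv : (N : 𝓞 F) ∉ v.asIdeal) (b : Fin n → ZMod N) : Pv N n v b ≠ 0 := by
  intro h
  have h1 := Pv_mul_neg hζ v hv b
  rw [h, zero_mul] at h1
  have h2 : Ideal.absNorm v.asIdeal ≠ 0 := by
    have := Run7.h365.CM.norm_v_pos v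
    omega
  have h3 : (Ideal.absNorm v.asIdeal : 𝓞 F) ≠ 0 := by exact_mod_cast h2
  exact pow_ne_zero _ h3 h1.symm

theorem PI_ne_iff (hζ : IsPrimitiveRoot ζ N) {I : Ideal (𝓞 F)} (hI : I ≠ 0)
    (b : Fin n → ZMod N) : PI N b I ≠ 0 ↔ Cop N I := by
  rw [PI_eq b hI, Ne, Multiset.prod_eq_zero_iff, Multiset.mem_map]
  constructor
  · intro h J hJ hN
    apply h
    refine ⟨J, hJ, ?_⟩
    obtain ⟨v, rfl, -⟩ := mem_factors hJ
    unfold PI
    rw [mulExt_prime, Pval_zero b v hN]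
  · rintro h ⟨J, hJ, h0⟩
    obtain ⟨v, rfl, -⟩ := mem_factors hJ
    rw [PI_prime b v (h _ hJ)] at h0
    exact Pv_ne hζ v (h _ hJ) b h0

/-- **The Jacobi sums are Hecke characters** (Weil). -/
theorem isHecke_psi (hζ : IsPrimitiveRoot ζ N) (hn : 2 ≤ n) (hodd : Odd n) (f : F →+* ℂ)
    {b : Fin n → ZMod N} {k : ℕ} (hk : cnt b = 2 * k) :
    IsHecke (Ideal.span {(N : 𝓞 F) ^ n}) (kk N f b) (fun _ => 0) (psi N f b k) where
  ne_bot := by
    rw [Ne, Ideal.span_singleton_eq_bot]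
    exact pow_ne_zero _ (by exact_mod_cast NeZero.ne N)
  supp I hI := by
    have hI' : I ≠ 0 := hI
    rw [← cop_iff hI' (by omega), ← PI_ne_iff hζ hI' b, psi_apply]
    have h1 : ((Ideal.absNorm I : ℂ) ^ k)⁻¹ ≠ 0 := by
      apply inv_ne_zero
      apply pow_ne_zero
      have : Ideal.absNorm I ≠ 0 := by rwa [Ne, Ideal.absNorm_eq_zero_iff]
      exact_mod_cast this
    rw [mul_ne_zero_iff]
    constructor
    · rintro ⟨h2, -⟩ h3
      apply h2
      rw [h3]
      exact map_zero f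
    · intro h2
      refine ⟨?_, h1⟩
      rw [Ne, map_eq_zero_iff f f.injective]
      exact fun h3 => h2 (RingOfIntegers.coe_eq_zero_iff.1 h3)
  unit I hI := by
    have hI' : I ≠ 0 := by
      rintro rfl
      exact hI (map_zero _)
    have hc : Cop N I := by
      rw [← PI_ne_iff hζ hI' b]
      intro h
      apply hI
      rw [psi_apply, h]
      have : ((0 : 𝓞 F) : F) = 0 := rfl
      rw [this, map_zero, zero_mul]
    have hq : (Ideal.absNorm I : ℝ) ≠ 0 := by
      have : Ideal.absNorm I ≠ 0 := by rwa [Ne, Ideal.absNorm_eq_zero_iff]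
      exact_mod_cast this
    have h1 : ‖psi N f b k I‖ ^ 2 = 1 := by
      rw [psi_apply, norm_mul, norm_inv, norm_pow, Complex.norm_natCast, mul_pow,
        norm_PI hζ f hI' hc, hk, inv_pow, ← pow_mul, mul_comm k 2]
      exact mul_inv_cancel₀ (pow_ne_zero _ hq)
    exact (pow_eq_one_iff_of_nonneg (norm_nonneg _) two_ne_zero).1 h1
  ray x hx hx1 _ := by
    have hI : Ideal.span {x} ≠ 0 := by
      rw [Ne, Ideal.zero_eq_bot, Ideal.span_singleton_eq_bot]; exact hx
    rw [psi_apply, weil hζ hn hodd hx hx1]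
    have hq : (0 : ℝ) ≤ (Ideal.absNorm (Ideal.span {x}) : ℝ) ^ k := by positivity
    have h1 : ‖f ((AA N x b : 𝓞 F) : F)‖ = (Ideal.absNorm (Ideal.span {x}) : ℝ) ^ k := by
      have h2 := norm_AA hζ f x b
      rw [hk, mul_comm 2 k, pow_mul] at h2
      exact (pow_left_inj₀ (norm_nonneg _) hq two_ne_zero).1 h2
    have h3 : ((Ideal.absNorm (Ideal.span {x}) : ℂ)) ^ k = (‖f ((AA N x b : 𝓞 F) : F)‖ : ℂ) := by
      rw [h1]; push_cast; rfl
    rw [h3]
    have h4 : f ((AA N x b : 𝓞 F) : F) = ∏ σ : Gal(F/ℚ), f (σ (x : F)) ^ ex N b σ := by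
      unfold AA
      have h2 : algebraMap (𝓞 F) F (∏ σ : Gal(F/ℚ), act σ x ^ ex N b σ) =
          ∏ σ : Gal(F/ℚ), (σ (x : F)) ^ ex N b σ := by
        rw [map_prod]
        exact prod_congr rfl fun σ _ => by rw [map_pow]; rfl
      change f (algebraMap (𝓞 F) F (∏ σ : Gal(F/ℚ), act σ x ^ ex N b σ)) = _
      rw [h2, map_prod]
      exact prod_congr rfl fun σ _ => by rw [map_pow]
    rw [h4, norm_prod]
    unfold arch
    have h5 : ∀ σ : Gal(F/ℚ), (fun ρ : F →+* ℂ => ((ρ (x : F) / (‖ρ (x : F)‖ : ℂ)) ^ kk N f b ρ *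
        Complex.exp (((0 : ℝ) * Real.log ‖ρ (x : F)‖ : ℝ) * Complex.I)))
          (Equiv.ofBijective _ (bij_emb N f) σ) =
        f (σ (x : F)) ^ ex N b σ * ((‖f (σ (x : F))‖ : ℂ) ^ ex N b σ)⁻¹ := by
      intro σ
      have h6 : (Equiv.ofBijective _ (bij_emb N f) σ) (x : F) = f (σ (x : F)) := rfl
      simp only
      rw [h6]
      unfold kk
      rw [Equiv.symm_apply_apply, zero_mul, Complex.ofReal_zero, zero_mul, Complex.exp_zero,
        mul_one, zpow_natCast, div_pow, div_eq_mul_inv]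
    rw [← Fintype.prod_equiv (Equiv.ofBijective _ (bij_emb N f)) _ _ fun σ => rfl]
    rw [prod_congr rfl fun σ _ => h5 σ, prod_mul_distrib]
    congr 1
    rw [Complex.ofReal_prod, ← prod_inv_distrib]
    refine prod_congr rfl fun σ _ => ?_
    rw [norm_pow]
    push_cast
    rfl

end Run7.h365.FV
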