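import Pool.Agent.Run7.h365.FV.Rts
import Pool.Agent.Run7.h365.FV.Hk

/-!
# The Frobenius eigenvalues of the Fermat varieties over the rational numbers
-/

set_option autoImplicit false
set_option linter.unusedSectionVars false

namespace Run7.h365.FV

open Finset NumberField IsDedekindDomain

/-- the cyclotomic field -/
abbrev LL (M : ℕ) : Type := CyclotomicField M ℚ

section LL

variable (M : ℕ) [NeZero M]

instance isCyc : IsCyclotomicExtension {M} ℚ (LL M) :=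
  haveI : NeZero ((M : ℕ) : ℚ) := ⟨by exact_mod_cast NeZero.ne M⟩
  CyclotomicField.isCyclotomicExtension M ℚ

theorem exists_ff : Nonempty (LL M →+* ℂ) := inferInstance

/-- an embedding -/
noncomputable def ff : LL M →+* ℂ := Classical.choice (exists_ff M)

theorem exists_zeta : ∃ ζ : 𝓞 (LL M), IsPrimitiveRoot ζ M :=
  ⟨_, (IsCyclotomicExtension.zeta_spec M ℚ (LL M)).toInteger_isPrimitiveRoot⟩

end LL

variable {n m M : ℕ}

/-- the normalised Jacobi sum -/
noncomputable def Jw [NeZero M] (b : Fin n → ZMod M) (w : HeightOneSpectrum (𝓞 (LL M))) : ℂ :=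
  ff M (Pv M n w b : 𝓞 (LL M)) / (Ideal.absNorm w.asIdeal : ℂ)

/-- the residue degree -/
noncomputable def fo (v : HeightOneSpectrum (𝓞 ℚ)) (M : ℕ) : ℕ :=
  orderOf ((Ideal.absNorm v.asIdeal : ℕ) : ZMod M)

section loc

variable {v : HeightOneSpectrum (𝓞 ℚ)}

theorem fo_ne [NeZero M] (hv : (Ideal.absNorm v.asIdeal).Coprime M) : fo v M ≠ 0 := by
  unfold fo
  rw [← ZMod.coe_unitOfCoprime _ hv, orderOf_units]
  exact (orderOf_pos _).ne'

theorem absNorm_w [NeZero M] (hv : (Ideal.absNorm v.asIdeal).Coprime M)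
    {w : HeightOneSpectrum (𝓞 (LL M))} (hw : und ℚ w = v) :
    Ideal.absNorm w.asIdeal = Ideal.absNorm v.asIdeal ^ fo v M := by
  have : Fact (Ideal.absNorm v.asIdeal).Prime := ⟨absNorm_prime v⟩
  exact absNorm_prm (N := M) (und_iff.1 hw) hv

/-- the primes above -/
noncomputable def above (M : ℕ) [NeZero M] (v : HeightOneSpectrum (𝓞 ℚ)) :
    Finset (HeightOneSpectrum (𝓞 (LL M))) :=
  (univ : Finset {w : HeightOneSpectrum (𝓞 (LL M)) // und ℚ w = v}).map
    (Function.Embedding.subtype _)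

theorem mem_above [NeZero M] (w : HeightOneSpectrum (𝓞 (LL M))) :
    w ∈ above M v ↔ ((Ideal.absNorm v.asIdeal : ℕ) : 𝓞 (LL M)) ∈ w.asIdeal := by
  unfold above
  rw [mem_map, ← und_iff]
  constructor
  · rintro ⟨⟨w', hw'⟩, _, rfl⟩
    exact hw'
  · intro h
    exact ⟨⟨w, h⟩, mem_univ _, rfl⟩

variable {κ : Type} [Field κ] [Fintype κ] [DecidableEq κ] {e : ℕ}

theorem dvd_iff_fo [NeZero M] (he : Fintype.card κ = Ideal.absNorm v.asIdeal ^ e) :
    M ∣ Fintype.card κ - 1 ↔ fo v M ∣ e := by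
  unfold fo
  have h1 : 1 ≤ Ideal.absNorm v.asIdeal ^ e := Nat.one_le_pow _ _ (absNorm_prime v).pos
  have h2 : ((Ideal.absNorm v.asIdeal : ℕ) : ZMod M) ^ e = 1 ↔
      Ideal.absNorm v.asIdeal ^ e ≡ 1 [MOD M] := by
    rw [← Nat.cast_pow, ← ZMod.natCast_eq_natCast_iff, Nat.cast_one]
  rw [orderOf_dvd_iff_pow_eq_one, he, h2, ← Nat.modEq_iff_dvd' h1]
  exact ⟨fun h => h.symm, fun h => h.symm⟩

theorem level_eval [NeZero M] (hn : Odd n) (hv : (Ideal.absNorm v.asIdeal).Coprime M)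
    [CharP κ (Ideal.absNorm v.asIdeal)] (he : Fintype.card κ = Ideal.absNorm v.asIdeal ^ e)
    {T : MulChar κ ℂ} (hT : orderOf T = M) (hM : M ∣ Fintype.card κ - 1) :
    ∑ b : PT n M, PP T b.1 = (Fintype.card κ : ℂ) * ∑ ω : Orb n M,
      ∑ w : {w : HeightOneSpectrum (𝓞 (LL M)) // und ℚ w = v},
        if fo v M ∣ e then (fo v M : ℂ) * Jw (rep ω).1 w.1 ^ (e / fo v M) else 0 := by
  have : Fact (Ideal.absNorm v.asIdeal).Prime := ⟨absNorm_prime v⟩
  have hfe := (dvd_iff_fo he).1 hM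
  obtain ⟨r, hr⟩ := hfe
  have hf0 := fo_ne hv
  have hdiv : e / fo v M = r := by rw [hr, Nat.mul_div_cancel_left _ (Nat.pos_of_ne_zero hf0)]
  obtain ⟨ζ, hζ⟩ := exists_zeta M
  rw [sum_orbits (fun b : PT n M => PP T b.1), mul_sum]
  refine sum_congr rfl fun ω _ => ?_
  have h1 := sum_units (n := n) hζ hn (ff M) hv hT (rep ω).1 (r := r)
    (by rw [he, ← pow_mul]; congr 1) (above M v) mem_above
  have h2 : ∑ c : (ZMod M)ˣ, PP T (c • rep ω).1 =
      ∑ c : (ZMod M)ˣ, PP T (fun i => (c : ZMod M) * (rep ω).1 i) := rfl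
  rw [h2, h1]
  unfold above
  rw [sum_map, mul_sum]
  refine sum_congr rfl fun w _ => ?_
  rw [if_pos ⟨r, hr⟩, hdiv]
  change ((fo v M : ℕ) : ℂ) * ff M (Pv M n w.1 (rep ω).1 : 𝓞 (LL M)) ^ r = _
  unfold Jw
  rw [absNorm_w hv w.2, he, hr, div_pow]
  have h3 : ((Ideal.absNorm v.asIdeal ^ fo v M : ℕ) : ℂ) ^ r ≠ 0 := by
    apply pow_ne_zero
    exact_mod_cast pow_ne_zero _ (absNorm_prime v).ne_zero
  push_cast at h3 ⊢
  rw [pow_mul]
  field_simp

theorem sum_level' {d M k : ℕ} [NeZero d] [NeZero M] (hk : d = M * k) (hk0 : k ≠ 0)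
    {T : MulChar κ ℂ} (hT : orderOf T = d) :
    (∑ b : Fin n → ZMod d, if Good b ∧ addOrderOf b = M then PP T b else 0) =
      ∑ b : PT n M, PP (T ^ k) b.1 := by
  subst hk
  exact sum_level hk0 hT

/-- the number of the solutions -/
theorem count_local (hm : 0 < m) (hn : Odd n) (hv : (Ideal.absNorm v.asIdeal).Coprime m)
    [CharP κ (Ideal.absNorm v.asIdeal)] (he : Fintype.card κ = Ideal.absNorm v.asIdeal ^ e) :
    ((univ.filter fun u : Fin (n + 1) → κ => ∑ i, u i ^ m = 0).card : ℂ) =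
      (Fintype.card κ : ℂ) ^ n + ((Fintype.card κ : ℂ) - 1) *
        ∑ M : D m, ∑ ω : Orb n M.1,
          ∑ w : {w : HeightOneSpectrum (𝓞 (LL M.1)) // und ℚ w = v},
          if fo v M.1 ∣ e then (fo v M.1 : ℂ) * Jw (rep ω).1 w.1 ^ (e / fo v M.1) else 0 := by
  have hq0 : (Fintype.card κ : ℂ) ≠ 0 := by exact_mod_cast Fintype.card_ne_zero
  have hd0 : (Fintype.card κ - 1).gcd m ≠ 0 := (Nat.gcd_pos_of_pos_right _ hm).ne'
  obtain ⟨d, hd⟩ : ∃ d, d = (Fintype.card κ - 1).gcd m := ⟨_, rfl⟩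
  have : NeZero d := ⟨by rw [hd]; exact hd0⟩
  have hdq : d ∣ Fintype.card κ - 1 := by rw [hd]; exact Nat.gcd_dvd_left _ _
  have hdm : d ∣ m := by rw [hd]; exact Nat.gcd_dvd_right _ _
  obtain ⟨T, hT⟩ := MulChar.exists_mulChar_orderOf κ hdq (Complex.isPrimitiveRoot_exp d (NeZero.ne d))
  have h1 := card_fermat hm.ne' hd hT n
  have hcop : ∀ M, M ∣ m → (Ideal.absNorm v.asIdeal).Coprime M := fun M hM =>
    Nat.Coprime.coprime_dvd_right hM hv
  -- the value at a level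
  let H : ℕ → ℂ := fun M => if h : M = 0 then 0 else
    haveI : NeZero M := ⟨h⟩
    ∑ ω : Orb n M, ∑ w : {w : HeightOneSpectrum (𝓞 (LL M)) // und ℚ w = v},
      if fo v M ∣ e then (fo v M : ℂ) * Jw (rep ω).1 w.1 ^ (e / fo v M) else 0
  have hH : ∀ (M : ℕ) [NeZero M], H M =
      ∑ ω : Orb n M, ∑ w : {w : HeightOneSpectrum (𝓞 (LL M)) // und ℚ w = v},
      if fo v M ∣ e then (fo v M : ℂ) * Jw (rep ω).1 w.1 ^ (e / fo v M) else 0 := by
    intro M hM
    exact dif_neg hM.out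
  have h2 : (∑ b : Fin n → ZMod d, if Good b then PP T b else 0) =
      (Fintype.card κ : ℂ) * ∑ M : D m, H M.1 := by
    rw [sum_levels, sum_D, mul_sum]
    have h3 : ∀ M : D d, (∑ b : Fin n → ZMod d, if Good b ∧ addOrderOf b = M.1 then PP T b else 0) =
        (Fintype.card κ : ℂ) * H M.1 := by
      intro M
      obtain ⟨k, hk⟩ := Nat.dvd_of_mem_divisors M.2
      have hk0 : k ≠ 0 := by
        rintro rfl
        rw [mul_zero] at hk
        exact NeZero.ne d hk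
      have hM1 : M.1 ∣ Fintype.card κ - 1 := dvd_trans ⟨k, hk⟩ hdq
      have hTk : orderOf (T ^ k) = M.1 := by
        have h5 : d.gcd k = k := Nat.gcd_eq_right ⟨M.1, by rw [Nat.mul_comm]; exact hk⟩
        rw [orderOf_pow, hT, h5]
        exact Nat.div_eq_of_eq_mul_left (Nat.pos_of_ne_zero hk0) hk
      have h4 := level_eval (n := n) hn (hcop M.1 (dvd_trans ⟨k, hk⟩ hdm)) he hTk hM1
      rw [hH M.1, ← h4]
      exact sum_level' hk hk0 hT
    rw [sum_congr rfl fun M _ => h3 M, sum_D (fun M => (Fintype.card κ : ℂ) * H M)]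
    refine sum_subset (Nat.divisors_subset_of_dvd hm.ne' hdm) fun M hM hM' => ?_
    have hMm := Nat.dvd_of_mem_divisors hM
    have : NeZero M := ⟨(Nat.pos_of_mem_divisors hM).ne'⟩
    rw [hH M]
    have h5 : ¬ fo v M ∣ e := by
      rw [← dvd_iff_fo he]
      intro h6
      apply hM'
      rw [Nat.mem_divisors]
      exact ⟨by rw [hd]; exact Nat.dvd_gcd h6 hMm, NeZero.ne d⟩
    simp [h5]
  rw [h2] at h1
  have h3 : ∑ M : D m, H M.1 = ∑ M : D m, ∑ ω : Orb n M.1,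
          ∑ w : {w : HeightOneSpectrum (𝓞 (LL M.1)) // und ℚ w = v},
          if fo v M.1 ∣ e then (fo v M.1 : ℂ) * Jw (rep ω).1 w.1 ^ (e / fo v M.1) else 0 :=
    sum_congr rfl fun M _ => hH M.1
  rw [← h3]
  apply mul_left_cancel₀ hq0
  rw [h1]
  ring

end loc

end Run7.h365.FV
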