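import Pool.Agent.Run7.h365.FV.Stk

/-!
# The Galois action on the Jacobi sums and on the primes
-/

set_option autoImplicit false
set_option linter.unusedSectionVars false

namespace Run7.h365.FV

open Finset NumberField IsDedekindDomain UniqueFactorizationMonoid
open IsCyclotomicExtension.Rat (galEquivZMod galEquivZMod_smul_of_pow_eq galEquivZMod_stabilizer)
open scoped Pointwise

variable {F : Type} [Field F] [NumberField F] {N n : ℕ} [NeZero N]
  [IsCyclotomicExtension {N} ℚ F] {ζ : 𝓞 F}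

/-- the action of an automorphism on the integers -/
noncomputable def act (σ : Gal(F/ℚ)) : 𝓞 F →+* 𝓞 F :=
  MulSemiringAction.toRingHom Gal(F/ℚ) (𝓞 F) σ

theorem act_apply (σ : Gal(F/ℚ)) (x : 𝓞 F) : act σ x = σ • x := rfl

theorem act_coe (σ : Gal(F/ℚ)) (x : 𝓞 F) : ((act σ x : 𝓞 F) : F) = σ (x : F) := rfl

theorem act_inj (σ : Gal(F/ℚ)) : Function.Injective (act σ) := by
  intro x y h
  exact smul_left_cancel σ h

/-- the exponent of an automorphism -/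
noncomputable def cu (N : ℕ) [NeZero N] {F : Type} [Field F] [NumberField F]
    [IsCyclotomicExtension {N} ℚ F] (σ : Gal(F/ℚ)) : (ZMod N)ˣ := galEquivZMod N F σ

theorem act_root (σ : Gal(F/ℚ)) {x : 𝓞 F} (hx : x ^ N = 1) :
    act σ x = x ^ (cu N σ : ZMod N).val :=
  galEquivZMod_smul_of_pow_eq N F σ hx

theorem act_chi {κ : Type} [Field κ] [Fintype κ] [DecidableEq κ] {χ : MulChar κ (𝓞 F)}
    (hχ : orderOf χ = N) (σ : Gal(F/ℚ)) :
    χ.ringHomComp (act σ) = χ ^ (cu N σ : ZMod N).val := by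
  refine MulChar.ext fun x => ?_
  have hx := x.ne_zero
  rw [MulChar.ringHomComp_apply, chi_pow hx]
  apply act_root
  rw [← chi_pow hx, ← hχ, pow_orderOf_eq_one, MulChar.one_apply_coe]

theorem act_PP {κ : Type} [Field κ] [Fintype κ] [DecidableEq κ] {χ : MulChar κ (𝓞 F)}
    (hχ : orderOf χ = N) (σ : Gal(F/ℚ)) (b : Fin n → ZMod N) :
    act σ (PP χ b) = PP χ (fun i => (cu N σ : ZMod N) * b i) := by
  rw [← PP_map, act_chi hχ, PP_pow hχ (cu N σ).isUnit]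

theorem act_Pv (hζ : IsPrimitiveRoot ζ N) (v : HeightOneSpectrum (𝓞 F))
    (hv : (N : 𝓞 F) ∉ v.asIdeal) (σ : Gal(F/ℚ)) (b : Fin n → ZMod N) :
    act σ (Pv N n v b) = Pv N n v (fun i => (cu N σ : ZMod N) * b i) := by
  obtain ⟨κ, _, _, _, φ, hφ, hker, -⟩ := exists_model v
  obtain ⟨χ, hχ⟩ := exists_isRes hζ φ (ne_zero_of_ker hv hker)
  have h := isP_Pv (n := n) hζ v hv κ φ hφ hker χ hχ
  rw [h, h, act_PP hχ.1]

theorem cu_mul (σ τ : Gal(F/ℚ)) : cu N (σ * τ) = cu N σ * cu N τ := map_mul _ _ _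

theorem cu_inv (σ : Gal(F/ℚ)) : cu N σ⁻¹ = (cu N σ)⁻¹ := map_inv _ _

/-! ### the primes above `p` and the embeddings in `PadicAlgCl p` -/

section prm

variable {p : ℕ} [Fact p.Prime] {k : Type} [Field k] [CharP k p] {R : Subring (PadicAlgCl p)}
  {res : R →+* k} (hR : Pool.Agent.W528.HB.IsRes p R res) (τ : F →+* PadicAlgCl p)

/-- the embedding of the integers -/
noncomputable def tO (σ : Gal(F/ℚ)) : 𝓞 F →+* PadicAlgCl p :=
  (τ.comp (algebraMap (𝓞 F) F)).comp (act σ)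

theorem tO_apply (σ : Gal(F/ℚ)) (x : 𝓞 F) : tO τ σ x = τ (σ (x : F)) := rfl

theorem tO_norm (σ : Gal(F/ℚ)) (x : 𝓞 F) : ‖tO τ σ x‖ ≤ 1 :=
  norm_le_one_of_integral ((RingOfIntegers.isIntegral x).map (tO τ σ).toIntAlgHom)

include hR in
theorem tO_mem (σ : Gal(F/ℚ)) (x : 𝓞 F) : tO τ σ x ∈ R := (hR.1 _).2 (tO_norm τ σ x)

/-- the reduction -/
noncomputable def rho (σ : Gal(F/ℚ)) : 𝓞 F →+* k :=
  res.comp ((tO τ σ).codRestrict R (tO_mem hR τ σ))

theorem rho_apply (σ : Gal(F/ℚ)) (x : 𝓞 F) : rho hR τ σ x = res ⟨tO τ σ x, tO_mem hR τ σ x⟩ := rfl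

theorem rho_eq (σ : Gal(F/ℚ)) (x : 𝓞 F) : rho hR τ σ x = rho hR τ 1 (act σ x) := by
  rw [rho_apply, rho_apply]
  congr 1

theorem rho_zero_iff (σ : Gal(F/ℚ)) (x : 𝓞 F) : rho hR τ σ x = 0 ↔ ‖tO τ σ x‖ < 1 := by
  rw [rho_apply, hR.2]

theorem rho_p (σ : Gal(F/ℚ)) : rho hR τ σ (p : 𝓞 F) = 0 := by
  rw [map_natCast, CharP.cast_eq_zero]

/-- the prime -/
noncomputable def prm (σ : Gal(F/ℚ)) : HeightOneSpectrum (𝓞 F) where
  asIdeal := RingHom.ker (rho hR τ σ)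
  isPrime := RingHom.ker_isPrime _
  ne_bot := by
    intro h
    have h1 : (p : 𝓞 F) ∈ RingHom.ker (rho hR τ σ) := rho_p hR τ σ
    rw [h, Ideal.mem_bot] at h1
    have h2 : (p : 𝓞 F) ≠ 0 := by exact_mod_cast (Fact.out : p.Prime).ne_zero
    exact h2 h1

theorem mem_prm (σ : Gal(F/ℚ)) (x : 𝓞 F) : x ∈ (prm hR τ σ).asIdeal ↔ rho hR τ σ x = 0 :=
  Iff.rfl

theorem prm_smul (σ : Gal(F/ℚ)) : (prm hR τ σ).asIdeal = σ⁻¹ • (prm hR τ 1).asIdeal := by
  ext x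
  rw [mem_prm, Ideal.mem_inv_pointwise_smul_iff, mem_prm, rho_eq]
  rfl

instance liesOver (σ : Gal(F/ℚ)) :
    (prm hR τ σ).asIdeal.LiesOver (Ideal.span {(p : ℤ)}) := by
  constructor
  have hmax : (Ideal.span {(p : ℤ)}).IsMaximal := by
    have := (Ideal.span_singleton_prime (p := (p : ℤ)) (by exact_mod_cast
      (Fact.out : p.Prime).ne_zero)).2 (Nat.prime_iff_prime_int.1 Fact.out)
    exact this.isMaximal (by simp [(Fact.out : p.Prime).ne_zero])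
  have hle : Ideal.span {(p : ℤ)} ≤ (prm hR τ σ).asIdeal.under ℤ := by
    rw [Ideal.span_singleton_le_iff_mem, Ideal.mem_comap]
    have : algebraMap ℤ (𝓞 F) (p : ℤ) = (p : 𝓞 F) := by simp
    rw [this]
    exact rho_p hR τ σ
  refine hmax.eq_of_le ?_ hle
  intro h
  rw [Ideal.eq_top_iff_one, Ideal.mem_comap, map_one] at h
  exact (prm hR τ σ).isPrime.ne_top ((Ideal.eq_top_iff_one _).2 h)

theorem liesOver_of_mem {v : HeightOneSpectrum (𝓞 F)} (hv : (p : 𝓞 F) ∈ v.asIdeal) :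
    v.asIdeal.LiesOver (Ideal.span {(p : ℤ)}) := by
  constructor
  have hmax : (Ideal.span {(p : ℤ)}).IsMaximal := by
    have := (Ideal.span_singleton_prime (p := (p : ℤ)) (by exact_mod_cast
      (Fact.out : p.Prime).ne_zero)).2 (Nat.prime_iff_prime_int.1 Fact.out)
    exact this.isMaximal (by simp [(Fact.out : p.Prime).ne_zero])
  have hle : Ideal.span {(p : ℤ)} ≤ v.asIdeal.under ℤ := by
    rw [Ideal.span_singleton_le_iff_mem, Ideal.mem_comap]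
    have : algebraMap ℤ (𝓞 F) (p : ℤ) = (p : 𝓞 F) := by simp
    rw [this]
    exact hv
  refine hmax.eq_of_le ?_ hle
  intro h
  rw [Ideal.eq_top_iff_one, Ideal.mem_comap, map_one] at h
  exact v.isPrime.ne_top ((Ideal.eq_top_iff_one _).2 h)

include N in
theorem exists_prm {v : HeightOneSpectrum (𝓞 F)} (hv : (p : 𝓞 F) ∈ v.asIdeal) :
    ∃ σ : Gal(F/ℚ), prm hR τ σ = v := by
  have hG : IsGalois ℚ F := IsCyclotomicExtension.isGalois {N} ℚ F
  have h1 := liesOver_of_mem hv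
  have h2 := v.isPrime
  have h3 := (prm hR τ (1 : Gal(F/ℚ))).isPrime
  obtain ⟨σ, hσ⟩ := Ideal.exists_smul_eq_of_isGaloisGroup (Ideal.span {(p : ℤ)})
    (prm hR τ (1 : Gal(F/ℚ))).asIdeal v.asIdeal Gal(F/ℚ)
  refine ⟨σ⁻¹, HeightOneSpectrum.ext ?_⟩
  rw [prm_smul, inv_inv, hσ]

theorem prm_eq_iff (σ σ₀ : Gal(F/ℚ)) (hp : p.Coprime N) :
    prm hR τ σ = prm hR τ σ₀ ↔
      cu N σ₀ * (cu N σ)⁻¹ ∈ Subgroup.zpowers (ZMod.unitOfCoprime p hp) := by
  have h3 := (prm hR τ (1 : Gal(F/ℚ))).isMaximal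
  rw [← galEquivZMod_stabilizer N F p (prm hR τ (1 : Gal(F/ℚ))).asIdeal hp]
  have h1 : cu N σ₀ * (cu N σ)⁻¹ = galEquivZMod N F (σ₀ * σ⁻¹) := by
    rw [← cu_inv, ← cu_mul]; rfl
  rw [h1]
  have h2 : galEquivZMod N F (σ₀ * σ⁻¹) ∈
      (galEquivZMod N F).mapSubgroup (MulAction.stabilizer Gal(F/ℚ)
        (prm hR τ (1 : Gal(F/ℚ))).asIdeal) ↔
      σ₀ * σ⁻¹ ∈ MulAction.stabilizer Gal(F/ℚ) (prm hR τ (1 : Gal(F/ℚ))).asIdeal := by
    rw [MulEquiv.mapSubgroup_apply, Subgroup.mem_map]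
    constructor
    · rintro ⟨x, hx, hx'⟩
      rwa [← (galEquivZMod N F).injective hx']
    · intro h
      exact ⟨_, h, rfl⟩
  rw [h2, MulAction.mem_stabilizer_iff, mul_smul, smul_eq_iff_eq_inv_smul, ← prm_smul, ← prm_smul]
  constructor
  · intro h; rw [h]
  · intro h; exact HeightOneSpectrum.ext h

open Classical in
/-- the sum over the embeddings which give a prime -/
theorem sum_prm (σ₀ : Gal(F/ℚ)) (hp : p.Coprime N) (g : ZMod N → ℕ) :
    ∑ σ ∈ (univ : Finset Gal(F/ℚ)).filter (fun σ => prm hR τ σ = prm hR τ σ₀),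
      g (((cu N σ)⁻¹ : (ZMod N)ˣ) : ZMod N) =
      ∑ s ∈ range (orderOf (p : ZMod N)), g (((cu N σ₀)⁻¹ : (ZMod N)ˣ) * (p : ZMod N) ^ s) := by
  classical
  set P := ZMod.unitOfCoprime p hp with hP
  have hPc : ((P : (ZMod N)ˣ) : ZMod N) = (p : ZMod N) := ZMod.coe_unitOfCoprime p hp
  have hord : orderOf (p : ZMod N) = orderOf P := by
    rw [← hPc]; exact orderOf_units
  rw [hord]
  symm
  refine sum_bij (fun s _ => (galEquivZMod N F).symm (cu N σ₀ * (P ^ s)⁻¹)) ?_ ?_ ?_ ?_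
  · intro s _
    rw [mem_filter]
    refine ⟨mem_univ _, ?_⟩
    rw [prm_eq_iff hR τ _ _ hp]
    have h1 : cu N ((galEquivZMod N F).symm (cu N σ₀ * (P ^ s)⁻¹)) = cu N σ₀ * (P ^ s)⁻¹ :=
      MulEquiv.apply_symm_apply _ _
    rw [h1, mul_inv, inv_inv, mul_inv_cancel_left]
    exact Subgroup.npow_mem_zpowers P s
  · intro s hs s' hs' h
    have h1 := (galEquivZMod N F).symm.injective h
    have h2 := inv_injective (mul_left_cancel h1)
    exact pow_injOn_Iio_orderOf (by simpa using hs) (by simpa using hs') h2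
  · intro σ hσ
    rw [mem_filter, prm_eq_iff hR τ _ _ hp] at hσ
    have hfin : IsOfFinOrder P := isOfFinOrder_of_finite P
    obtain ⟨s, hs⟩ := (hfin.mem_powers_iff_mem_zpowers).2 hσ.2
    refine ⟨s % orderOf P, mem_range.2 (Nat.mod_lt _ (orderOf_pos P)), ?_⟩
    rw [pow_mod_orderOf]
    have h1 : P ^ s = cu N σ₀ * (cu N σ)⁻¹ := hs
    rw [h1, mul_inv, inv_inv, mul_inv_cancel_left]
    exact MulEquiv.symm_apply_apply _ _
  · intro s _
    congr 1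
    have h1 : cu N ((galEquivZMod N F).symm (cu N σ₀ * (P ^ s)⁻¹)) = cu N σ₀ * (P ^ s)⁻¹ :=
      MulEquiv.apply_symm_apply _ _
    rw [h1, mul_inv, inv_inv, Units.val_mul, Units.val_pow_eq_pow_val, hPc]

theorem absNorm_prm {v : HeightOneSpectrum (𝓞 F)} (hv : (p : 𝓞 F) ∈ v.asIdeal)
    (hp : p.Coprime N) : Ideal.absNorm v.asIdeal = p ^ orderOf (p : ZMod N) := by
  have h1 := liesOver_of_mem hv
  have h2 := v.isPrime
  have hp' : ¬ p ∣ N := (Nat.Prime.coprime_iff_not_dvd Fact.out).1 hp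
  rw [← Ideal.pow_inertiaDeg p v.asIdeal,
    IsCyclotomicExtension.Rat.inertiaDeg_eq_of_not_dvd p F v.asIdeal hp']

end prm

end Run7.h365.FV
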