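import Pool.Agent.Run7.h365.FV.Exo3
import Pool.Agent.Y2.Cw.EvenH4

/-!
# Hodge characters with six entries: the classification
-/

set_option autoImplicit false
set_option linter.unusedSectionVars false

namespace Run7.h365.FV

open Finset Pool.Agent.H916R2 Pool.Agent.Y2 Pool.Agent.Y2.Cv Pool.Agent.Y2.Cw

/-- **Hodge characters with six entries of even exact level are generated or belong to the three
classes.** -/
theorem six_class {m : ℕ} (hm : m ≠ 0) (heven : m % 2 = 0) (s : Multiset (ZMod m))
    (hs : IsHodge m s) (hcard : Multiset.card s = 6)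
    (hex : ∀ p : ℕ, p.Prime → p ∣ m → ∃ a ∈ s, ¬ p ∣ a.val) :
    Generated m (SurfaceOrCurveProduct m) s ∨
      ∃ t, Nat.Coprime t m ∧ ∃ S ∈ cls m, s.map (fun a => (t * a.val % m : ℕ)) = (S : Multiset ℕ) := by
  have hN : NeZero m := ⟨hm⟩
  by_cases hexo : Exo m (s.map ZMod.val)
  · right
    obtain ⟨t, ht, S, hS, h⟩ := exo_class hm (A := s.map ZMod.val) (by rwa [Multiset.card_map])
      (by
        intro a ha h
        obtain ⟨b, hb, rfl⟩ := Multiset.mem_map.mp ha
        have h1 : b.val = 0 := Nat.eq_zero_of_dvd_of_lt h (ZMod.val_lt b)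
        rw [ZMod.val_eq_zero] at h1
        exact hs.1 (h1 ▸ hb))
      (by
        intro p hp hpm
        obtain ⟨a, ha, hpa⟩ := hex p hp hpm
        exact ⟨a.val, Multiset.mem_map_of_mem _ ha, hpa⟩)
      (fun t ht => saw_rel s hs t ht) hexo
    refine ⟨t, ht, S, hS, ?_⟩
    rw [← h, Multiset.map_map]
    rfl
  · left
    have hodd : OddDist (cQ m (SurfaceOrCurveProduct m)) := cQ_oddDist
    have hb : ∀ s, SurfaceOrCurveProduct m s → (s.map (cQ m (SurfaceOrCurveProduct m))).sum = 0 :=
      fun s hs => cQ_sum_eq_zero (Generated.ofBase (m := m) (base := SurfaceOrCurveProduct m) s hs)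
    have h1 := six_zero6 hm heven (s.map ZMod.val) (by rw [Multiset.card_map, hcard])
      (by
        intro p hp hpm
        obtain ⟨a, ha, hpa⟩ := hex p hp hpm
        exact ⟨a.val, Multiset.mem_map_of_mem _ ha, hpa⟩)
      (fun t ht => saw_rel s hs t ht) hexo _ (cQ m (SurfaceOrCurveProduct m)) hodd
      (killsC_of hm hodd hb) (kills420_of hm hodd hb)
    rw [Multiset.map_map] at h1
    have h2 : (s.map (cQ m (SurfaceOrCurveProduct m))).sum = 0 := by
      rw [← h1]
      congr 1
      apply Multiset.map_congr rfl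
      intro a _
      simp only [Function.comp_apply]
      rw [ZMod.natCast_zmod_val]
    rw [cQ_sum, QuotientAddGroup.eq_zero_iff] at h2
    have hne : s ≠ 0 := by
      rintro rfl
      rw [Multiset.card_zero] at hcard
      omega
    exact generated_of_mem_LL (fun s h => base_good s h) (fun s h => base_neg s h) hs.1 hs.2.1 hne h2

end Run7.h365.FV
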