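import Mathlib

/-!
# Integers of number fields and `p`-adic absolute values
-/

set_option autoImplicit false
set_option linter.unusedSectionVars false

namespace Run7.h365.FV

open Finset NumberField Polynomial

section

variable {p : ℕ} [Fact p.Prime]

/-- the norm of a sum -/
theorem norm_sum_le' {ι : Type} (s : Finset ι) (f : ι → PadicAlgCl p) {C : ℝ} (hC : 0 ≤ C)
    (h : ∀ i ∈ s, ‖f i‖ ≤ C) : ‖∑ i ∈ s, f i‖ ≤ C := by
  classical
  induction s using Finset.induction_on with
  | empty => simpa using hC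
  | insert a s ha ih =>
    rw [sum_insert ha]
    refine (PadicAlgCl.isNonarchimedean p _ _).trans (max_le (h a (mem_insert_self a s)) ?_)
    exact ih fun i hi => h i (mem_insert_of_mem hi)

theorem norm_int_le (n : ℤ) : ‖(n : PadicAlgCl p)‖ ≤ 1 := by
  have h : (n : PadicAlgCl p) = algebraMap ℚ_[p] (PadicAlgCl p) (n : ℚ_[p]) := by simp
  rw [h, show ‖algebraMap ℚ_[p] (PadicAlgCl p) (n : ℚ_[p])‖ = ‖(n : ℚ_[p])‖ from
    PadicAlgCl.norm_extends _ _]
  exact Padic.norm_int_le_one n

/-- integral elements have norm at most one -/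
theorem norm_le_one_of_integral {x : PadicAlgCl p} (hx : IsIntegral ℤ x) : ‖x‖ ≤ 1 := by
  obtain ⟨f, hf, hfx⟩ := hx
  by_contra hcon
  push Not at hcon
  have h0 : 0 < ‖x‖ := by linarith
  set n := f.natDegree with hn
  have hn0 : 0 < n := by
    rcases Nat.eq_zero_or_pos n with h | h
    · have h1 : f = 1 := (Monic.natDegree_eq_zero hf).1 h
      rw [h1] at hfx
      simp at hfx
    · exact h
  rw [eval₂_eq_sum_range, sum_range_succ, ← hn, hf.coeff_natDegree, map_one, one_mul] at hfx
  have h1 : x ^ n = -∑ i ∈ range n, (Int.castRingHom (PadicAlgCl p)) (f.coeff i) * x ^ i := by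
    have : algebraMap ℤ (PadicAlgCl p) = Int.castRingHom (PadicAlgCl p) := rfl
    rw [this] at hfx
    linear_combination hfx
  have h2 : ‖x ^ n‖ ≤ ‖x‖ ^ (n - 1) := by
    rw [h1, norm_neg]
    refine norm_sum_le' _ _ (by positivity) fun i hi => ?_
    rw [norm_mul, norm_pow]
    have h3 : ‖(Int.castRingHom (PadicAlgCl p)) (f.coeff i)‖ ≤ 1 := by
      rw [eq_intCast]; exact norm_int_le _
    have h4 : ‖x‖ ^ i ≤ ‖x‖ ^ (n - 1) :=
      pow_le_pow_right₀ hcon.le (by have := mem_range.1 hi; omega)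
    calc _ ≤ 1 * ‖x‖ ^ i := by gcongr
      _ ≤ _ := by rw [one_mul]; exact h4
  rw [norm_pow] at h2
  have h3 : ‖x‖ ^ (n - 1) < ‖x‖ ^ n := pow_lt_pow_right₀ hcon (by omega)
  linarith

theorem norm_rat (c : ℚ) : ‖(algebraMap ℚ (PadicAlgCl p)) c‖ = ‖(c : ℚ_[p])‖ := by
  have h : (algebraMap ℚ (PadicAlgCl p)) c = algebraMap ℚ_[p] (PadicAlgCl p) (c : ℚ_[p]) := by
    simp
  rw [h]
  exact PadicAlgCl.norm_extends _ _

theorem not_dvd_den {c : ℚ} (h : ‖(c : ℚ_[p])‖ ≤ 1) : ¬ p ∣ c.den := by
  intro hd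
  have h1 : ‖((c.den : ℤ) : ℚ_[p])‖ < 1 := by
    rw [Padic.norm_intCast_lt_one_iff]
    exact_mod_cast hd
  have h2 : ¬ (p : ℤ) ∣ c.num := by
    intro h3
    have h4 := c.reduced
    have h5 : p ∣ c.num.natAbs := by
      rw [← Int.natCast_dvd_natCast]
      exact Int.dvd_natAbs.2 h3
    have h6 := Nat.dvd_gcd h5 hd
    rw [Nat.Coprime] at h4
    rw [h4] at h6
    exact (Fact.out : p.Prime).one_lt.ne' (Nat.dvd_one.1 h6)
  have h3 : ‖((c.num : ℤ) : ℚ_[p])‖ = 1 := by
    refine le_antisymm (Padic.norm_int_le_one _) ?_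
    by_contra h4
    push Not at h4
    exact h2 (Padic.norm_intCast_lt_one_iff.1 h4)
  have h4 : (c : ℚ_[p]) * ((c.den : ℤ) : ℚ_[p]) = ((c.num : ℤ) : ℚ_[p]) := by
    have := Rat.mul_den_eq_num c
    exact_mod_cast congrArg (fun x : ℚ => (x : ℚ_[p])) this
  have h5 := congrArg norm h4
  rw [norm_mul, h3] at h5
  have h6 : 0 ≤ ‖((c.den : ℤ) : ℚ_[p])‖ := norm_nonneg _
  have h7 : 0 ≤ ‖(c : ℚ_[p])‖ := norm_nonneg _
  nlinarith

end

/-- **an element of a number field with `p`-adic absolute values at most one is integral** -/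
theorem isIntegral_of_padic {F : Type} [Field F] [NumberField F] (x : F)
    (h : ∀ (p : ℕ) [Fact p.Prime] (τ : F →+* PadicAlgCl p), ‖τ x‖ ≤ 1) : IsIntegral ℤ x := by
  have hx : IsIntegral ℚ x := Algebra.IsIntegral.isIntegral x
  have hmon := minpoly.monic hx
  have key : ∀ i, ((minpoly ℚ x).coeff i).den = 1 := by
    intro i
    by_contra hden
    obtain ⟨p, hp, hpd⟩ := Nat.exists_prime_and_dvd hden
    have : Fact p.Prime := ⟨hp⟩
    refine not_dvd_den (p := p) ?_ hpd
    set L := PadicAlgCl p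
    let R : Subring L :=
      { carrier := {y | ‖y‖ ≤ 1}
        mul_mem' := by
          intro a b ha hb
          rw [Set.mem_ofPred_eq] at *
          rw [norm_mul]
          exact mul_le_one₀ ha (norm_nonneg _) hb
        one_mem' := (norm_one (α := PadicAlgCl p)).le
        add_mem' := by
          intro a b ha hb
          exact (PadicAlgCl.isNonarchimedean p _ _).trans (max_le ha hb)
        zero_mem' := by simp
        neg_mem' := by
          intro a ha
          rw [Set.mem_ofPred_eq] at *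
          rwa [norm_neg] }
    have hsplit : (minpoly ℚ x).map (algebraMap ℚ L) =
        (((minpoly ℚ x).aroots L).map (fun r => X - C r)).prod := by
      have h1 := (IsAlgClosed.splits ((minpoly ℚ x).map (algebraMap ℚ L))).eq_prod_roots_of_monic
        (hmon.map _)
      exact h1
    have hlift : (minpoly ℚ x).map (algebraMap ℚ L) ∈ lifts R.subtype := by
      rw [hsplit]
      refine Submonoid.multiset_prod_mem (lifts R.subtype).toSubmonoid _ ?_
      intro q hq
      obtain ⟨r, hr, rfl⟩ := Multiset.mem_map.1 hq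
      have h2 : r ∈ (minpoly ℚ x).rootSet L := by
        rw [mem_rootSet']
        rw [mem_aroots'] at hr
        exact hr
      rw [← NumberField.Embeddings.range_eval_eq_rootSet_minpoly F L x] at h2
      obtain ⟨τ, rfl⟩ := h2
      have h3 : τ x ∈ R := h p τ
      have h4 : (X - C (⟨τ x, h3⟩ : R)).map R.subtype = X - C (τ x) := by simp
      exact (mem_lifts _).2 ⟨_, h4⟩
    rw [lifts_iff_coeff_lifts] at hlift
    obtain ⟨y, hy⟩ := hlift i
    rw [coeff_map] at hy
    rw [← norm_rat, ← hy]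
    exact y.2
  have h1 : minpoly ℚ x ∈ lifts (Int.castRingHom ℚ) := by
    rw [lifts_iff_coeff_lifts]
    intro i
    exact ⟨((minpoly ℚ x).coeff i).num, by
      have := Rat.num_div_den ((minpoly ℚ x).coeff i)
      rw [key i] at this
      simpa using this⟩
  obtain ⟨g, hg, -, hgm⟩ := lifts_and_degree_eq_and_monic h1 hmon
  refine ⟨g, hgm, ?_⟩
  have h2 := minpoly.aeval ℚ x
  rw [← hg, aeval_def, eval₂_map] at h2
  have h3 : (algebraMap ℚ F).comp (Int.castRingHom ℚ) = algebraMap ℤ F := RingHom.ext_int _ _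
  rwa [h3] at h2

end Run7.h365.FV
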