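import Pool.Agent.Run7.h365.FV.Four

/-!
# Products of Gauss sums over a finite field without the Gauss sums
-/

set_option autoImplicit false
set_option linter.unusedSectionVars false

namespace Run7.h365.FV

open Finset

section

variable {κ : Type} [Field κ] [Fintype κ] [DecidableEq κ] {N n : ℕ} [NeZero N]

/-- the sum over the points of a hyperplane -/
noncomputable def JJ {R : Type} [CommRing R] (χ : MulChar κ R) (b : Fin n → ZMod N) : R :=
  ∑ v : Fin n → κ, if 1 + ∑ i, v i = 0 then ∏ i, (χ ^ (b i).val) (v i) else 0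

/-- the product of the Gauss sums of `χ ^ (-∑ b)` and `χ ^ b i` -/
noncomputable def PP {R : Type} [CommRing R] (χ : MulChar κ R) (b : Fin n → ZMod N) : R :=
  (Fintype.card κ : R) * JJ χ b - if b = 0 then ((Fintype.card κ : R) - 1) ^ n else 0

theorem PP_map {R : Type} [CommRing R] {R' : Type} [CommRing R'] (f : R →+* R')
    (χ : MulChar κ R) (b : Fin n → ZMod N) :
    PP (χ.ringHomComp f) b = f (PP χ b) := by
  unfold PP JJ
  rw [map_sub, map_mul, map_sum, map_natCast]
  congr 1
  · congr 1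
    refine sum_congr rfl fun v _ => ?_
    split_ifs
    · rw [map_prod]
      refine prod_congr rfl fun i _ => ?_
      rw [MulChar.ringHomComp_pow]
      rfl
    · rw [map_zero]
  · split_ifs
    · simp
    · simp

variable {R : Type} [Field R] [CharZero R]

omit [CharZero R] in
theorem pow_eq_one_iff' {χ : MulChar κ R} (hχ : orderOf χ = N) (a : ZMod N) :
    χ ^ a.val = 1 ↔ a = 0 := by
  rw [← orderOf_dvd_iff_pow_eq_one, hχ]
  constructor
  · intro h
    exact (ZMod.val_eq_zero a).1 (Nat.eq_zero_of_dvd_of_lt h (ZMod.val_lt a))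
  · rintro rfl
    simp

theorem chi_pow {R : Type} [CommRing R] {χ : MulChar κ R} {y : κ} (hy : y ≠ 0) (k : ℕ) : (χ ^ k) y = χ y ^ k :=
  MulChar.pow_apply_coe χ k (Units.mk0 y hy)

omit [CharZero R] in
theorem chi_N {χ : MulChar κ R} (hχ : orderOf χ = N) {y : κ} (hy : y ≠ 0) : χ y ^ N = 1 := by
  rw [← chi_pow hy, ← hχ, pow_orderOf_eq_one]
  exact MulChar.one_apply_coe (Units.mk0 y hy)

omit [CharZero R] in
/-- powers of a root of unity -/
theorem pow_zmod {z : R} (hz : z ^ N = 1) {k l : ℕ} (h : (k : ZMod N) = l) : z ^ k = z ^ l := by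
  rw [ZMod.natCast_eq_natCast_iff] at h
  rw [← Nat.mod_add_div k N, ← Nat.mod_add_div l N, pow_add, pow_mul, hz, one_pow, mul_one,
    pow_add, pow_mul, hz, one_pow, mul_one]
  have h1 : k % N = l % N := h
  rw [h1]

omit [CharZero R] in
theorem prod_scale {χ : MulChar κ R} (hχ : orderOf χ = N) (b : Fin n → ZMod N) {y : κ}
    (hy : y ≠ 0) : (χ ^ (-∑ i, b i).val) y * ∏ i, (χ ^ (b i).val) y = 1 := by
  simp_rw [chi_pow hy]
  rw [prod_pow_eq_pow_sum, ← pow_add]
  have h1 : (((-∑ i, b i).val + ∑ i, (b i).val : ℕ) : ZMod N) = ((0 : ℕ) : ZMod N) := by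
    push_cast
    simp
  rw [pow_zmod (chi_N hχ hy) h1, pow_zero]

/-- **the product of the Gauss sums** -/
theorem PP_eq {χ : MulChar κ R} (hχ : orderOf χ = N) {ψ : AddChar κ R} (hψ : ψ.IsPrimitive)
    (b : Fin n → ZMod N) :
    PP χ b = gaussSum (χ ^ (-∑ i, b i).val) ψ * ∏ i, gaussSum (χ ^ (b i).val) ψ := by
  -- the product over `i`
  have e1 : ∏ i, gaussSum (χ ^ (b i).val) ψ =
      ∑ v : Fin n → κ, (∏ i, (χ ^ (b i).val) (v i)) * ψ (∑ i, v i) := by
    unfold gaussSum
    have h := Finset.prod_univ_sum (fun _ : Fin n => (univ : Finset κ))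
      (fun i x => (χ ^ (b i).val) x * ψ x)
    rw [Fintype.piFinset_univ] at h
    rw [h]
    refine sum_congr rfl fun v _ => ?_
    rw [prod_mul_distrib, addChar_sum]
  -- the inner sum
  have e2 : ∀ y : κ, y ≠ 0 → (χ ^ (-∑ i, b i).val) y * ψ y *
      ∑ v : Fin n → κ, (∏ i, (χ ^ (b i).val) (v i)) * ψ (∑ i, v i) =
      ∑ v : Fin n → κ, (∏ i, (χ ^ (b i).val) (v i)) * ψ (y * (1 + ∑ i, v i)) := by
    intro y hy
    have h1 : ∑ v : Fin n → κ, (∏ i, (χ ^ (b i).val) (v i)) * ψ (∑ i, v i) =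
        ∑ v : Fin n → κ, (∏ i, (χ ^ (b i).val) (y * v i)) * ψ (∑ i, y * v i) :=
      (Fintype.sum_equiv (Equiv.piCongrRight fun _ : Fin n => Equiv.mulLeft₀ y hy) _ _
        fun v => rfl).symm
    rw [h1, mul_sum]
    refine sum_congr rfl fun v _ => ?_
    have h2 : ∏ i, (χ ^ (b i).val) (y * v i) =
        (∏ i, (χ ^ (b i).val) y) * ∏ i, (χ ^ (b i).val) (v i) := by
      rw [← prod_mul_distrib]
      exact prod_congr rfl fun i _ => map_mul _ _ _
    rw [h2, mul_add, mul_one, AddChar.map_add_eq_mul, ← mul_sum]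
    have h3 := prod_scale hχ b hy
    linear_combination ((∏ i, (χ ^ (b i).val) (v i)) * ψ y * ψ (y * ∑ i, v i)) * h3
  have e3 : gaussSum (χ ^ (-∑ i, b i).val) ψ * ∏ i, gaussSum (χ ^ (b i).val) ψ =
      ∑ y ∈ univ.erase (0 : κ), ∑ v : Fin n → κ, (∏ i, (χ ^ (b i).val) (v i)) *
        ψ (y * (1 + ∑ i, v i)) := by
    rw [e1]
    unfold gaussSum
    rw [sum_mul, ← add_sum_erase univ _ (mem_univ (0 : κ))]
    have h0 : (χ ^ (-∑ i, b i).val) (0 : κ) = 0 := MulChar.map_zero _
    rw [h0, zero_mul, zero_mul, zero_add]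
    exact sum_congr rfl fun y hy => e2 y (ne_of_mem_erase hy)
  rw [e3, sum_comm]
  have e4 : ∀ s : κ, ∑ y ∈ univ.erase (0 : κ), ψ (y * s) =
      (if s = 0 then (Fintype.card κ : R) else 0) - 1 := by
    intro s
    have h1 := AddChar.sum_mulShift s hψ
    rw [← add_sum_erase univ _ (mem_univ (0 : κ)), zero_mul, AddChar.map_zero_eq_one] at h1
    rw [eq_sub_iff_add_eq, add_comm]
    rw [h1]
    split_ifs <;> simp
  simp_rw [← mul_sum, e4, mul_sub, sum_sub_distrib, mul_one]
  unfold PP JJ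
  congr 1
  · rw [mul_sum]
    refine sum_congr rfl fun v _ => ?_
    split_ifs
    · rw [mul_comm]
    · rw [mul_zero, mul_zero]
  · have h := Finset.prod_univ_sum (fun _ : Fin n => (univ : Finset κ))
      (fun i x => (χ ^ (b i).val) x)
    rw [Fintype.piFinset_univ] at h
    rw [← h]
    have h1 : ∀ i, ∑ x : κ, (χ ^ (b i).val) x = if b i = 0 then ((Fintype.card κ : R) - 1) else 0 := by
      intro i
      split_ifs with hi
      · rw [(pow_eq_one_iff' hχ _).2 hi, MulChar.sum_one_eq_card_units, Fintype.card_units,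
          Nat.cast_sub Fintype.card_pos, Nat.cast_one]
      · exact MulChar.sum_eq_zero_of_ne_one fun h => hi ((pow_eq_one_iff' hχ _).1 h)
    simp_rw [h1]
    by_cases hb : b = 0
    · subst hb
      simp
    · rw [if_neg hb]
      obtain ⟨i, hi⟩ := Function.ne_iff.1 hb
      exact (prod_eq_zero (mem_univ i) (if_neg hi)).symm

/-- at zero -/
theorem PP_zero {χ : MulChar κ R} (hχ : orderOf χ = N) {ψ : AddChar κ R} (hψ : ψ.IsPrimitive)
    (hψ1 : ψ ≠ 1) : PP χ (0 : Fin n → ZMod N) = (-1) ^ (n + 1) := by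
  rw [PP_eq hχ hψ]
  simp only [Pi.zero_apply, sum_const_zero, neg_zero, ZMod.val_zero, pow_zero,
    gaussSum_one_left hψ1, prod_const, card_univ, Fintype.card_fin]
  rw [pow_succ']

/-- the symmetry which exchanges one coordinate with the coordinate with the index zero -/
theorem PP_swap {χ : MulChar κ R} (hχ : orderOf χ = N) {ψ : AddChar κ R} (hψ : ψ.IsPrimitive)
    (b : Fin n → ZMod N) (i : Fin n) :
    PP χ (Function.update b i (-∑ j, b j)) = PP χ b := by
  rw [PP_eq hχ hψ, PP_eq hχ hψ]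
  have h1 : -∑ j, Function.update b i (-∑ j, b j) j = b i := by
    rw [Finset.sum_update_of_mem (mem_univ i)]
    have h2 := Finset.sum_erase_eq_sub (f := b) (mem_univ i)
    rw [← Finset.sdiff_singleton_eq_erase] at h2
    rw [h2]
    ring
  rw [h1]
  rw [← mul_prod_erase univ _ (mem_univ i), ← mul_prod_erase univ (fun j =>
    gaussSum (χ ^ (b j).val) ψ) (mem_univ i), Function.update_self]
  have h3 : ∏ j ∈ univ.erase i, gaussSum (χ ^ (Function.update b i (-∑ j, b j) j).val) ψ =
      ∏ j ∈ univ.erase i, gaussSum (χ ^ (b j).val) ψ := by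
    refine prod_congr rfl fun j hj => ?_
    rw [Function.update_of_ne (ne_of_mem_erase hj)]
  rw [h3]
  ring

/-- the characters with values in the roots of unity -/
theorem exists_log {ζ : R} (hζ : IsPrimitiveRoot ζ N) {χ : MulChar κ R} (hχ : orderOf χ = N)
    {y : κ} (hy : y ≠ 0) : ∃ c : ZMod N, χ y = eta hζ c := by
  obtain ⟨i, hi, h⟩ := hζ.eq_pow_of_pow_eq_one (chi_N hχ hy)
  refine ⟨i, ?_⟩
  rw [eta_apply, ZMod.val_natCast_of_lt hi, h]

theorem eta_pow {ζ : R} (hζ : IsPrimitiveRoot ζ N) (c b : ZMod N) :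
    (eta hζ c) ^ b.val = eta hζ (b * c) := by
  rw [eta_apply, eta_apply, ← pow_mul]
  apply pow_zmod hζ.pow_eq_one
  push_cast
  rw [ZMod.natCast_zmod_val, ZMod.natCast_zmod_val, ZMod.natCast_zmod_val, mul_comm]

/-- the product of the Gauss sums is an integral combination of characters -/
theorem PP_mem {ζ : R} (hζ : IsPrimitiveRoot ζ N) {χ : MulChar κ R} (hχ : orderOf χ = N)
    (hN : N ∣ Fintype.card κ - 1) : (fun b : Fin n → ZMod N => PP χ b) ∈ IntF hζ := by
  classical
  have hcard : (((Fintype.card κ - 1) / N : ℕ) : R) * N = (Fintype.card κ : R) - 1 := by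
    have h1 : ((Fintype.card κ - 1) / N) * N = Fintype.card κ - 1 := Nat.div_mul_cancel hN
    have h2 : 1 ≤ Fintype.card κ := Fintype.card_pos
    have h3 : ((Fintype.card κ - 1 : ℕ) : R) = (Fintype.card κ : R) - 1 := by
      rw [Nat.cast_sub h2, Nat.cast_one]
    rw [← h3]
    exact_mod_cast h1
  have e1 : (fun b : Fin n → ZMod N => PP χ b) =
      (Fintype.card κ : (Fin n → ZMod N) → R) * (∑ v : Fin n → κ,
        if 1 + ∑ i, v i = 0 ∧ ∀ i, v i ≠ 0 then
          (fun b => eta hζ (dot b fun i => if h : v i ≠ 0 then (exists_log hζ hχ h).choose else 0))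
        else 0) -
      ((((Fintype.card κ - 1) / N : ℕ) : (Fin n → ZMod N) → R)) ^ n *
        ∑ t : Fin n → ZMod N, (fun b => eta hζ (dot b t)) := by
    funext b
    simp only [Pi.sub_apply, Pi.mul_apply, Pi.pow_apply, Finset.sum_apply]
    unfold PP
    congr 1
    · congr 1
      unfold JJ
      refine sum_congr rfl fun v _ => ?_
      by_cases h1 : 1 + ∑ i, v i = 0
      · rw [if_pos h1]
        by_cases h2 : ∀ i, v i ≠ 0
        · rw [if_pos ⟨h1, h2⟩]
          unfold dot
          rw [addChar_sum]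
          refine prod_congr rfl fun i _ => ?_
          simp only [dif_pos (h2 i)]
          rw [← eta_pow, ← (exists_log hζ hχ (h2 i)).choose_spec, chi_pow (h2 i)]
        · rw [if_neg fun h => h2 h.2]
          push Not at h2
          obtain ⟨i, hi⟩ := h2
          rw [Pi.zero_apply]
          exact prod_eq_zero (mem_univ i) (by rw [hi]; exact MulChar.map_zero _)
      · rw [if_neg h1, if_neg fun h => h1 h.1]
        rfl
    · have h1 := orth hζ b
      simp_rw [dot_comm _ b] at h1
      rw [h1]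
      change _ = ((((Fintype.card κ - 1) / N : ℕ) : R)) ^ n * _
      split_ifs
      · rw [← hcard, mul_pow]
      · rw [mul_zero]
  rw [e1]
  refine Subring.sub_mem _ (Subring.mul_mem _ (natCast_mem _ _) (Subring.sum_mem _ fun v _ => ?_))
    (Subring.mul_mem _ (Subring.pow_mem _ (natCast_mem _ _) _) (Subring.sum_mem _ fun t _ => ?_))
  · split_ifs
    · exact eta_mem hζ _
    · exact Subring.zero_mem _
  · exact eta_mem hζ _

end

end Run7.h365.FV
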