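import Pool.Agent.Run7.h365.FV.PowC

/-!
# The levels and the orbits of the characters of a Fermat hypersurface
-/

set_option autoImplicit false
set_option linter.unusedSectionVars false

namespace Run7.h365.FV

open Finset

/-! ### tuples of exact level and their orbits -/

section

variable {n M : ℕ}

theorem good_map {M' : ℕ} {φ : ZMod M →+ ZMod M'} (hφ : Function.Injective φ)
    (b : Fin n → ZMod M) : Good (fun i => φ (b i)) ↔ Good b := by
  unfold Good
  rw [← map_sum]
  simp only [Ne, map_eq_zero_iff φ hφ]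

theorem order_map {M' : ℕ} {φ : ZMod M →+ ZMod M'} (hφ : Function.Injective φ)
    (b : Fin n → ZMod M) : addOrderOf (fun i => φ (b i)) = addOrderOf b := by
  have h1 : Function.Injective (φ.compLeft (Fin n)) := by
    intro x y h
    funext i
    exact hφ (congrFun h i)
  exact addOrderOf_injective (φ.compLeft (Fin n)) h1 b

/-- the tuples of exact level `M` -/
def PT (n M : ℕ) : Type := {b : Fin n → ZMod M // Good b ∧ addOrderOf b = M}

theorem mul_unit_inj (c : (ZMod M)ˣ) :
    Function.Injective (AddMonoidHom.mulLeft (c : ZMod M)) := by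
  intro x y h
  exact c.isUnit.mul_right_injective h

instance : MulAction (ZMod M)ˣ (PT n M) where
  smul c b := ⟨fun i => (c : ZMod M) * b.1 i,
    (good_map (mul_unit_inj c) b.1).2 b.2.1, (order_map (mul_unit_inj c) b.1).trans b.2.2⟩
  one_smul b := by
    apply Subtype.ext
    funext i
    change ((1 : (ZMod M)ˣ) : ZMod M) * b.1 i = b.1 i
    rw [Units.val_one, one_mul]
  mul_smul c c' b := by
    apply Subtype.ext
    funext i
    change ((c * c' : (ZMod M)ˣ) : ZMod M) * b.1 i = (c : ZMod M) * ((c' : ZMod M) * b.1 i)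
    rw [Units.val_mul, mul_assoc]

theorem smul_val (c : (ZMod M)ˣ) (b : PT n M) : (c • b).1 = fun i => (c : ZMod M) * b.1 i := rfl

/-- the action is free -/
theorem free (c : (ZMod M)ˣ) (b : PT n M) (h : c • b = b) [NeZero M] : c = 1 := by
  have h1 : ∀ i, ((c : ZMod M) - 1) * b.1 i = 0 := by
    intro i
    have h2 : (c : ZMod M) * b.1 i = b.1 i := congrFun (congrArg Subtype.val h) i
    rw [sub_mul, one_mul, h2, sub_self]
  have h2 : ((c : ZMod M) - 1).val • b.1 = 0 := by
    funext i
    rw [Pi.smul_apply, nsmul_eq_mul, ZMod.natCast_zmod_val, h1]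
    rfl
  have h3 := addOrderOf_dvd_of_nsmul_eq_zero h2
  rw [b.2.2] at h3
  have h4 : ((c : ZMod M) - 1).val = 0 := Nat.eq_zero_of_dvd_of_lt h3 (ZMod.val_lt _)
  apply Units.ext
  rw [Units.val_one]
  exact sub_eq_zero.1 ((ZMod.val_eq_zero _).1 h4)

/-- the orbits -/
def Orb (n M : ℕ) : Type := Quotient (MulAction.orbitRel (ZMod M)ˣ (PT n M))

noncomputable instance [NeZero M] : Fintype (PT n M) :=
  haveI : Finite (PT n M) := inferInstanceAs (Finite {_b : Fin n → ZMod M // _})
  Fintype.ofFinite _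

noncomputable instance [NeZero M] : Fintype (Orb n M) :=
  haveI : Finite (Orb n M) := inferInstanceAs (Finite (Quotient _))
  Fintype.ofFinite _

/-- the representative of an orbit -/
noncomputable def rep (ω : Orb n M) : PT n M := Quotient.out ω

theorem sum_orbits [NeZero M] (g : PT n M → ℂ) :
    ∑ b, g b = ∑ ω : Orb n M, ∑ c : (ZMod M)ˣ, g (c • rep ω) := by
  rw [← Fintype.sum_prod_type' (f := fun (ω : Orb n M) (c : (ZMod M)ˣ) => g (c • rep ω))]
  symm
  have hmk : ∀ (ω : Orb n M) (c : (ZMod M)ˣ),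
      (Quotient.mk _ (c • rep ω) : Orb n M) = ω := by
    intro ω c
    conv_rhs => rw [← Quotient.out_eq ω]
    apply Quotient.sound
    exact ⟨c, rfl⟩
  refine Fintype.sum_bijective (fun x : Orb n M × (ZMod M)ˣ => x.2 • rep x.1) ⟨?_, ?_⟩ _ _
    fun x => rfl
  · rintro ⟨ω, c⟩ ⟨ω', c'⟩ h
    simp only at h
    have h1 : ω = ω' := by rw [← hmk ω c, h, hmk]
    subst h1
    have h2 : (c'⁻¹ * c) • rep ω = rep ω := by rw [mul_smul, h, inv_smul_smul]
    have h3 := free _ _ h2
    rw [inv_mul_eq_one] at h3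
    rw [h3]
  · intro b
    have h1 : (MulAction.orbitRel (ZMod M)ˣ (PT n M)) b (rep (Quotient.mk _ b : Orb n M)) := by
      apply Quotient.exact
      exact (Quotient.out_eq _).symm
    obtain ⟨c, hc⟩ := h1
    exact ⟨(Quotient.mk _ b, c), hc⟩

end

/-! ### the decomposition by the levels -/

section

variable {n d : ℕ}

/-- the divisors -/
def D (m : ℕ) : Type := {M : ℕ // M ∈ m.divisors}

instance (m : ℕ) : Fintype (D m) := inferInstanceAs (Fintype {M : ℕ // M ∈ m.divisors})

instance (m : ℕ) : DecidableEq (D m) := inferInstanceAs (DecidableEq {M : ℕ // M ∈ m.divisors})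

instance {m : ℕ} (M : D m) : NeZero M.1 := ⟨(Nat.pos_of_mem_divisors M.2).ne'⟩

theorem sum_D {m : ℕ} (g : ℕ → ℂ) : ∑ M : D m, g M.1 = ∑ M ∈ m.divisors, g M :=
  Finset.sum_coe_sort m.divisors g

theorem sum_levels [NeZero d] (g : (Fin n → ZMod d) → ℂ) :
    (∑ b, if Good b then g b else 0) =
      ∑ M : D d, ∑ b, if Good b ∧ addOrderOf b = M.1 then g b else 0 := by
  rw [sum_D (fun M => ∑ b, if Good b ∧ addOrderOf b = M then g b else 0), sum_comm]
  refine sum_congr rfl fun b _ => ?_
  by_cases hb : Good b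
  · have h1 : ∀ M, (if Good b ∧ addOrderOf b = M then g b else 0) =
        if addOrderOf b = M then g b else 0 := by
      intro M
      by_cases h : addOrderOf b = M
      · rw [if_pos ⟨hb, h⟩, if_pos h]
      · rw [if_neg (fun h' => h h'.2), if_neg h]
    rw [sum_congr rfl fun M _ => h1 M, sum_ite_eq, if_pos hb, if_pos]
    rw [Nat.mem_divisors]
    refine ⟨?_, NeZero.ne d⟩
    apply addOrderOf_dvd_of_nsmul_eq_zero
    funext i
    rw [Pi.smul_apply, nsmul_eq_mul, ZMod.natCast_self, zero_mul]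
    rfl
  · rw [if_neg hb]
    symm
    exact sum_eq_zero fun M _ => if_neg fun h => hb h.1

variable {M k : ℕ}

/-- the embedding of the residues modulo `M` in those modulo `M * k` -/
def emb (M k : ℕ) [NeZero M] : ZMod M →+ ZMod (M * k) where
  toFun a := ((k * a.val : ℕ) : ZMod (M * k))
  map_zero' := by simp
  map_add' a b := by
    rw [← Nat.cast_add, ZMod.natCast_eq_natCast_iff, ← Nat.mul_add, ZMod.val_add, Nat.mul_comm M k]
    exact (Nat.mod_modEq _ _).mul_left' k

theorem emb_apply [NeZero M] (a : ZMod M) : emb M k a = ((k * a.val : ℕ) : ZMod (M * k)) := rfl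

theorem emb_inj [NeZero M] (hk : k ≠ 0) : Function.Injective (emb M k) := by
  rw [injective_iff_map_eq_zero]
  intro a ha
  rw [emb_apply, ZMod.natCast_eq_zero_iff, Nat.mul_comm k] at ha
  have h1 := Nat.dvd_of_mul_dvd_mul_right (Nat.pos_of_ne_zero hk) ha
  exact (ZMod.val_eq_zero a).1 (Nat.eq_zero_of_dvd_of_lt h1 (ZMod.val_lt a))

theorem emb_surj [NeZero M] (hk : k ≠ 0) {x : ZMod (M * k)} (hx : M • x = 0) :
    ∃ a, emb M k a = x := by
  have : NeZero (M * k) := ⟨mul_ne_zero (NeZero.ne M) hk⟩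
  have h1 : k ∣ x.val := by
    rw [nsmul_eq_mul] at hx
    have h2 : ((M * x.val : ℕ) : ZMod (M * k)) = 0 := by
      push_cast
      rw [ZMod.natCast_zmod_val]
      exact hx
    rw [ZMod.natCast_eq_zero_iff] at h2
    exact Nat.dvd_of_mul_dvd_mul_left (NeZero.pos M) h2
  obtain ⟨j, hj⟩ := h1
  refine ⟨(j : ZMod M), ?_⟩
  rw [emb_apply, ← ZMod.natCast_zmod_val x, hj, ZMod.natCast_eq_natCast_iff, ZMod.val_natCast,
    Nat.mul_comm M k]
  exact (Nat.mod_modEq _ _).mul_left' k

variable {κ : Type} [Field κ] [Fintype κ] [DecidableEq κ]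

theorem PP_emb [NeZero M] (hk : k ≠ 0) {T : MulChar κ ℂ} (hT : orderOf T = M * k)
    (b : Fin n → ZMod M) : PP T (fun i => emb M k (b i)) = PP (T ^ k) b := by
  have : NeZero (M * k) := ⟨mul_ne_zero (NeZero.ne M) hk⟩
  have h1 : ∀ a : ZMod M, T ^ (emb M k a).val = (T ^ k) ^ a.val := by
    intro a
    rw [← pow_mul, pow_eq_pow_iff_modEq, hT, ← ZMod.natCast_eq_natCast_iff,
      ZMod.natCast_zmod_val, emb_apply]
  unfold PP JJ
  simp_rw [h1]
  congr 1
  have h2 : (fun i => emb M k (b i)) = 0 ↔ b = 0 := by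
    rw [funext_iff, funext_iff]
    simp only [Pi.zero_apply, map_eq_zero_iff (emb M k) (emb_inj hk)]
  simp only [h2]

theorem sum_level [NeZero M] (hk : k ≠ 0) [NeZero (M * k)] {T : MulChar κ ℂ}
    (hT : orderOf T = M * k) :
    (∑ b : Fin n → ZMod (M * k), if Good b ∧ addOrderOf b = M then PP T b else 0) =
      ∑ b : PT n M, PP (T ^ k) b.1 := by
  classical
  have h0 : ∑ b : PT n M, PP (T ^ k) b.1 =
      ∑ b : Fin n → ZMod M, if Good b ∧ addOrderOf b = M then PP (T ^ k) b else 0 := by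
    rw [← sum_filter]
    refine sum_bij (fun (b : PT n M) _ => b.1) ?_ ?_ ?_ ?_
    · intro b _
      rw [mem_filter]
      exact ⟨mem_univ _, b.2⟩
    · intro b _ b' _ h
      exact Subtype.ext h
    · intro b hb
      exact ⟨⟨b, (mem_filter.1 hb).2⟩, mem_univ _, rfl⟩
    · intro b _
      rfl
  rw [h0, ← sum_filter, ← sum_filter]
  symm
  refine sum_bij (fun b _ => fun i => emb M k (b i)) ?_ ?_ ?_ ?_
  · intro b hb
    rw [mem_filter] at hb ⊢
    exact ⟨mem_univ _, (good_map (emb_inj hk) b).2 hb.2.1, (order_map (emb_inj hk) b).trans hb.2.2⟩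
  · intro b _ b' _ h
    funext i
    exact emb_inj hk (congrFun h i)
  · intro b hb
    rw [mem_filter] at hb
    have h1 : ∀ i, ∃ a, emb M k a = b i := by
      intro i
      apply emb_surj hk
      have h2 := addOrderOf_nsmul_eq_zero b
      rw [hb.2.2] at h2
      exact congrFun h2 i
    choose a ha using h1
    have h2 : (fun i => emb M k (a i)) = b := funext ha
    refine ⟨a, ?_, h2⟩
    rw [mem_filter, ← good_map (emb_inj (M := M) hk) a, ← order_map (emb_inj (M := M) hk) a, h2]
    exact ⟨mem_univ _, hb.2⟩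
  · intro b _
    exact (PP_emb hk hT b).symm

end

end Run7.h365.FV
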