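import Pool.Agent.Run7.h365.FV.Gal

/-!
# The `p`-adic absolute values on both sides of Weil's formula
-/

set_option autoImplicit false
set_option linter.unusedSectionVars false

namespace Run7.h365.FV

open Finset NumberField IsDedekindDomain UniqueFactorizationMonoid
open scoped Pointwise

variable {F : Type} [Field F] [NumberField F] {N n : ℕ} [NeZero N]
  [IsCyclotomicExtension {N} ℚ F] {ζ : 𝓞 F}

variable {p : ℕ} [Fact p.Prime] {k : Type} [Field k] [CharP k p] {R : Subring (PadicAlgCl p)}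
  {res : R →+* k} (hR : Pool.Agent.W528.HB.IsRes p R res) (τ : F →+* PadicAlgCl p)

theorem map_span_p : (Ideal.span {(p : ℤ)}).map (algebraMap ℤ (𝓞 F)) = Ideal.span {(p : 𝓞 F)} := by
  rw [Ideal.map_span, Set.image_singleton]
  congr 2
  simp

theorem p_ne_zero : (p : 𝓞 F) ≠ 0 := by exact_mod_cast (Fact.out : p.Prime).ne_zero

open Classical in
/-- the absolute value of an integer -/
theorem norm_val (σ : Gal(F/ℚ)) (hp : p.Coprime N) {α : 𝓞 F} (hα : α ≠ 0) :
    ‖tO τ σ α‖ = ‖((p : ℕ) : PadicAlgCl p)‖ ^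
      (normalizedFactors (Ideal.span {α})).count (prm hR τ σ).asIdeal := by
  set w := prm hR τ σ with hw
  have hwp := w.prime
  have hp' : ¬ p ∣ N := (Nat.Prime.coprime_iff_not_dvd Fact.out).1 hp
  have hI : Ideal.span {α} ≠ 0 := by
    rw [Ne, Ideal.zero_eq_bot, Ideal.span_singleton_eq_bot]; exact hα
  have hP : Ideal.span {(p : 𝓞 F)} ≠ 0 := by
    rw [Ne, Ideal.zero_eq_bot, Ideal.span_singleton_eq_bot]; exact p_ne_zero
  -- unramified
  have h1 : (normalizedFactors (Ideal.span {(p : 𝓞 F)})).count w.asIdeal = 1 := by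
    have h2 := liesOver hR τ σ
    have h3 := w.isPrime
    have h4 := IsCyclotomicExtension.Rat.ramificationIdx_eq_of_not_dvd (m := N) p F w.asIdeal hp'
    have h5 : (Ideal.span {(p : ℤ)}).map (algebraMap ℤ (𝓞 F)) ≠ ⊥ := by
      rw [map_span_p]; exact hP
    rw [Ideal.IsDedekindDomain.ramificationIdx_eq_normalizedFactors_count
      (Ideal.span {(p : ℤ)}) w.asIdeal h5, map_span_p] at h4
    exact h4
  obtain ⟨w', hw'⟩ : w.asIdeal ∣ Ideal.span {(p : 𝓞 F)} := by
    rw [Ideal.dvd_span_singleton]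
    exact rho_p hR τ σ
  have hww' : ¬ w.asIdeal ∣ w' := by
    intro h
    have h6 : w.asIdeal ^ 2 ∣ Ideal.span {(p : 𝓞 F)} := by
      rw [hw', pow_two]; exact mul_dvd_mul_left _ h
    have h7 := (dvd_iff_normalizedFactors_le_normalizedFactors (pow_ne_zero 2 hwp.ne_zero) hP).1 h6
    have h8 := Multiset.count_le_of_le w.asIdeal h7
    rw [h1, normalizedFactors_pow, normalizedFactors_irreducible hwp.irreducible, normalize_eq,
      Multiset.count_nsmul, Multiset.count_singleton_self] at h8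
    omega
  set c := (normalizedFactors (Ideal.span {α})).count w.asIdeal with hc
  have hcdvd : w.asIdeal ^ c ∣ Ideal.span {α} := by
    rw [dvd_iff_normalizedFactors_le_normalizedFactors (pow_ne_zero _ hwp.ne_zero) hI,
      normalizedFactors_pow, normalizedFactors_irreducible hwp.irreducible, normalize_eq,
      Multiset.nsmul_singleton, ← Multiset.le_count_iff_replicate_le]
  have hcn : ¬ w.asIdeal ^ (c + 1) ∣ Ideal.span {α} := by
    rw [dvd_iff_normalizedFactors_le_normalizedFactors (pow_ne_zero _ hwp.ne_zero) hI,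
      normalizedFactors_pow, normalizedFactors_irreducible hwp.irreducible, normalize_eq,
      Multiset.nsmul_singleton, ← Multiset.le_count_iff_replicate_le]
    omega
  -- an element of `w' ^ c` outside `w`
  obtain ⟨y, hy1, hy2⟩ : ∃ y ∈ w' ^ c, y ∉ w.asIdeal := by
    by_contra hcon
    push Not at hcon
    have h9 : w' ^ c ≤ w.asIdeal := hcon
    rw [← Ideal.dvd_iff_le] at h9
    exact hww' (hwp.dvd_of_dvd_pow h9)
  have h10 : y * α ∈ Ideal.span {(p : 𝓞 F) ^ c} := by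
    have h11 : y * α ∈ w' ^ c * w.asIdeal ^ c :=
      Ideal.mul_mem_mul hy1 (Ideal.dvd_span_singleton.1 hcdvd)
    rw [← mul_pow, mul_comm w', ← hw', Ideal.span_singleton_pow] at h11
    exact h11
  obtain ⟨β, hβ⟩ := Ideal.mem_span_singleton.1 h10
  have hyn : ‖tO τ σ y‖ = 1 := by
    refine le_antisymm (tO_norm τ σ y) ?_
    by_contra h
    push Not at h
    exact hy2 ((mem_prm hR τ σ y).2 ((rho_zero_iff hR τ σ y).2 h))
  have hβn : ‖tO τ σ β‖ = 1 := by
    refine le_antisymm (tO_norm τ σ β) ?_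
    by_contra h
    push Not at h
    have hβw : β ∈ w.asIdeal := (mem_prm hR τ σ β).2 ((rho_zero_iff hR τ σ β).2 h)
    apply hcn
    have h12 : w.asIdeal ^ (c + 1) ∣ Ideal.span {y} * Ideal.span {α} := by
      rw [Ideal.span_singleton_mul_span_singleton, hβ, ← Ideal.span_singleton_mul_span_singleton,
        pow_succ, ← Ideal.span_singleton_pow]
      refine mul_dvd_mul (pow_dvd_pow_of_dvd ⟨w', hw'⟩ c) ?_
      rw [Ideal.dvd_span_singleton]
      exact hβw
    refine hwp.pow_dvd_of_dvd_mul_left (c + 1) ?_ h12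
    rw [Ideal.dvd_span_singleton]
    exact hy2
  have h13 := congrArg (fun x => ‖tO τ σ x‖) hβ
  simp only [map_mul, norm_mul, map_pow, norm_pow, hyn, hβn, one_mul, mul_one, map_natCast] at h13
  exact h13

theorem Pv_norm_le (v : HeightOneSpectrum (𝓞 F)) (σ : Gal(F/ℚ)) (b : Fin n → ZMod N) :
    ‖tO τ σ (Pv N n v b)‖ ≤ 1 := tO_norm τ σ _

/-- an embedding in the complex numbers -/
theorem exists_complex (F : Type) [Field F] [NumberField F] :
    ∃ f : 𝓞 F →+* ℂ, Function.Injective f := by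
  obtain ⟨g⟩ : Nonempty (F →+* ℂ) := inferInstance
  exact ⟨g.comp (algebraMap (𝓞 F) F), g.injective.comp RingOfIntegers.coe_injective⟩

theorem Pv_mul_neg (hζ : IsPrimitiveRoot ζ N) (v : HeightOneSpectrum (𝓞 F))
    (hv : (N : 𝓞 F) ∉ v.asIdeal) (b : Fin n → ZMod N) :
    Pv N n v b * Pv N n v (fun i => -b i) = (Ideal.absNorm v.asIdeal : 𝓞 F) ^ cnt b := by
  obtain ⟨κ, _, _, _, φ, hφ, hker, hcard⟩ := exists_model v
  obtain ⟨χ, hχ⟩ := exists_isRes hζ φ (ne_zero_of_ker hv hker)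
  have h := isP_Pv (n := n) hζ v hv κ φ hφ hker χ hχ
  obtain ⟨f, hf⟩ := exists_complex F
  rw [h, h, PP_mul_neg hf (by rw [orderOf_comp hf, hχ.1]), hcard]

/-- at the primes with another residue characteristic -/
theorem Pv_norm_other (hζ : IsPrimitiveRoot ζ N) (v : HeightOneSpectrum (𝓞 F))
    (hv : (N : 𝓞 F) ∉ v.asIdeal) (hpv : (p : 𝓞 F) ∉ v.asIdeal) (b : Fin n → ZMod N) :
    ‖tO τ 1 (Pv N n v b)‖ = 1 := by
  have h1 := congrArg (fun x => ‖tO τ 1 x‖) (Pv_mul_neg (n := n) hζ v hv b)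
  simp only [map_mul, norm_mul, map_pow, norm_pow, map_natCast] at h1
  have h2 : ‖((Ideal.absNorm v.asIdeal : ℕ) : PadicAlgCl p)‖ = 1 := by
    have h3 : ((Ideal.absNorm v.asIdeal : ℕ) : PadicAlgCl p) =
        algebraMap ℚ_[p] (PadicAlgCl p) ((Ideal.absNorm v.asIdeal : ℕ) : ℚ_[p]) := by simp
    rw [h3, show ‖algebraMap ℚ_[p] (PadicAlgCl p) ((Ideal.absNorm v.asIdeal : ℕ) : ℚ_[p])‖ =
      ‖((Ideal.absNorm v.asIdeal : ℕ) : ℚ_[p])‖ from PadicAlgCl.norm_extends _ _]
    rw [Padic.norm_natCast_eq_one_iff]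
    rw [Nat.Prime.coprime_iff_not_dvd Fact.out]
    intro hdvd
    -- the norm is a power of a prime in `v`
    obtain ⟨κ, _, _, _, φ, hφ, hker, hcard⟩ := exists_model v
    have h4 : (p : κ) = 0 := by
      obtain ⟨q, hq⟩ := CharP.exists κ
      have hqp : q.Prime := CharP.char_is_prime κ q
      obtain ⟨m, -, hm⟩ := FiniteField.card κ q
      rw [← hcard, hm] at hdvd
      have h5 := (Nat.prime_dvd_prime_iff_eq Fact.out hqp).1 ((Fact.out : p.Prime).dvd_of_dvd_pow hdvd)
      rw [h5, CharP.cast_eq_zero]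
    apply hpv
    rw [← hker, RingHom.mem_ker, map_natCast, h4]
  rw [h2, one_pow] at h1
  have h3 := Pv_norm_le (n := n) τ v 1 b
  have h4 := Pv_norm_le (n := n) τ v 1 (fun i => -b i)
  have h5 : 0 ≤ ‖tO τ 1 (Pv N n v b)‖ := norm_nonneg _
  nlinarith

open Classical in
/-- **the local formula at the primes of the residue characteristic `p`** -/
theorem Pv_norm (hζ : IsPrimitiveRoot ζ N) (hp : p.Coprime N) (v : HeightOneSpectrum (𝓞 F))
    (hv : (N : 𝓞 F) ∉ v.asIdeal) (b : Fin n → ZMod N) :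
    ‖tO τ 1 (Pv N n v b)‖ ^ N = ‖((p : ℕ) : PadicAlgCl p)‖ ^
      ∑ σ ∈ (univ : Finset Gal(F/ℚ)).filter (fun σ => prm hR τ σ = v),
        wt (-(((cu N σ)⁻¹ : (ZMod N)ˣ) : ZMod N)) b := by
  by_cases hpv : (p : 𝓞 F) ∈ v.asIdeal
  · obtain ⟨σ₀, rfl⟩ := exists_prm (N := N) hR τ hpv
    rw [sum_prm hR τ σ₀ hp (fun x => wt (-x) b)]
    obtain ⟨κ, _, _, _, φ, hφ, hker, hcard⟩ := exists_model (prm hR τ σ₀)
    have hNκ := ne_zero_of_ker hv hker
    obtain ⟨χ, hχ⟩ := exists_isRes hζ φ hNκ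
    have h := isP_Pv (n := n) hζ _ hv κ φ hφ hker χ hχ
    have hpκ : (p : κ) = 0 := by
      rw [← map_natCast φ, ← RingHom.mem_ker, hker]; exact hpv
    have hchar : CharP κ p := by
      obtain ⟨q, hq⟩ := CharP.exists κ
      have hqp : q.Prime := CharP.char_is_prime κ q
      have h1 : q ∣ p := (CharP.cast_eq_zero_iff κ q p).1 hpκ
      have h2 : q = p := (Nat.prime_dvd_prime_iff_eq hqp Fact.out).1 h1
      rw [← h2]; exact hq
    have hcard' : Fintype.card κ = p ^ orderOf (p : ZMod N) := by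
      rw [hcard, absNorm_prm hpv hp]
    have hf0 : 0 < orderOf (p : ZMod N) := by
      rw [← ZMod.coe_unitOfCoprime p hp, orderOf_units]
      exact orderOf_pos _
    let g : κ →+* k := (RingHom.liftOfRightInverse φ _ (Function.rightInverse_surjInv hφ))
      ⟨rho hR τ σ₀, hker.le⟩
    have hg : ∀ x, g (φ x) = rho hR τ σ₀ x := fun x =>
      RingHom.liftOfRightInverse_comp_apply φ _ (Function.rightInverse_surjInv hφ)
        ⟨rho hR τ σ₀, hker.le⟩ x
    have hmain := norm_PP_padic (n := n) hχ hcard' hf0 (dvd_card hζ φ hNκ) hR g (tO τ σ₀)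
      (fun x => ⟨tO_mem hR τ σ₀ x, by rw [hg]; rfl⟩)
      (fun i => (((cu N σ₀)⁻¹ : (ZMod N)ˣ) : ZMod N) * b i)
    have h3 : tO τ σ₀ (PP χ (fun i => (((cu N σ₀)⁻¹ : (ZMod N)ˣ) : ZMod N) * b i)) =
        tO τ 1 (Pv N n (prm hR τ σ₀) b) := by
      rw [← h]
      have h4 : ∀ x, tO τ σ₀ x = tO τ 1 (act σ₀ x) := fun x => rfl
      rw [h4, act_Pv hζ _ hv]
      congr 2
      funext i
      rw [← mul_assoc, Units.mul_inv, one_mul]
    rw [← h3, hmain]
    congr 1
    refine sum_congr rfl fun s _ => ?_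
    rw [← wt_mul]
    congr 1
    ring
  · rw [Pv_norm_other τ hζ v hv hpv, one_pow, sum_filter, sum_eq_zero, pow_zero]
    intro σ _
    rw [if_neg]
    rintro rfl
    exact hpv (rho_p hR τ σ)

end Run7.h365.FV
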