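import Pool.Agent.Run7.h365.FV.Res

/-!
# The Jacobi sums at the primes of a number field, and on ideals
-/

set_option autoImplicit false
set_option linter.unusedSectionVars false

namespace Run7.h365.FV

open Finset NumberField IsDedekindDomain UniqueFactorizationMonoid

section transport

variable {κ κ' : Type} [Field κ] [Fintype κ] [DecidableEq κ] [Field κ'] [Fintype κ']
  [DecidableEq κ'] {N n : ℕ} [NeZero N] {R : Type} [CommRing R]

theorem PP_transport (e : κ ≃+* κ') {χ : MulChar κ R} {χ' : MulChar κ' R}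
    (h : ∀ x, x ≠ 0 → χ' (e x) = χ x) (b : Fin n → ZMod N) : PP χ' b = PP χ b := by
  have hcard : Fintype.card κ = Fintype.card κ' := Fintype.card_congr e.toEquiv
  unfold PP JJ
  rw [hcard]
  congr 2
  symm
  refine Fintype.sum_equiv (Equiv.piCongrRight fun _ : Fin n => e.toEquiv) _ _ fun v => ?_
  have h1 : (1 + ∑ i, v i = 0) ↔
      (1 + ∑ i, (Equiv.piCongrRight fun _ : Fin n => e.toEquiv) v i = 0) := by
    have h2 : 1 + ∑ i, (Equiv.piCongrRight fun _ : Fin n => e.toEquiv) v i =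
        e (1 + ∑ i, v i) := by
      rw [map_add, map_one, map_sum]
      rfl
    rw [h2, map_eq_zero_iff e e.injective]
  have h3 : ∀ i, (χ ^ (b i).val) (v i) = (χ' ^ (b i).val) (e (v i)) := by
    intro i
    by_cases hv : v i = 0
    · rw [hv, map_zero e, MulChar.map_zero, MulChar.map_zero]
    · have hv' : e (v i) ≠ 0 := by rwa [Ne, map_eq_zero_iff e e.injective]
      rw [chi_pow hv, chi_pow hv', h _ hv]
  by_cases h4 : 1 + ∑ i, v i = 0
  · rw [if_pos h4, if_pos (h1.1 h4)]
    exact prod_congr rfl fun i _ => h3 i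
  · rw [if_neg h4, if_neg fun h => h4 (h1.2 h)]

end transport

section field

variable {F : Type} [Field F] [NumberField F] {N n : ℕ} [NeZero N] {ζ : 𝓞 F}

theorem charZero_int : CharZero (𝓞 F) := inferInstance

/-- `P` is the family of the Jacobi sums at the prime `v` -/
def IsP (v : HeightOneSpectrum (𝓞 F)) (P : (Fin n → ZMod N) → 𝓞 F) : Prop :=
  ∀ (κ : Type) [Field κ] [Fintype κ] [DecidableEq κ] (φ : 𝓞 F →+* κ), Function.Surjective φ →
    RingHom.ker φ = v.asIdeal → ∀ χ : MulChar κ (𝓞 F), IsRes N φ χ → ∀ b, P b = PP χ b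

theorem ne_zero_of_ker {v : HeightOneSpectrum (𝓞 F)} (hv : (N : 𝓞 F) ∉ v.asIdeal) {κ : Type}
    [Field κ] {φ : 𝓞 F →+* κ} (hφ : RingHom.ker φ = v.asIdeal) : (N : κ) ≠ 0 := by
  intro h
  apply hv
  rw [← hφ, RingHom.mem_ker, map_natCast, h]

/-- the residue field -/
theorem exists_model (v : HeightOneSpectrum (𝓞 F)) :
    ∃ (κ : Type) (_ : Field κ) (_ : Fintype κ) (_ : DecidableEq κ) (φ : 𝓞 F →+* κ),
      Function.Surjective φ ∧ RingHom.ker φ = v.asIdeal ∧
      Fintype.card κ = Ideal.absNorm v.asIdeal := by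
  classical
  let _ := Ideal.Quotient.field v.asIdeal
  have hfin : Finite (𝓞 F ⧸ v.asIdeal) := Ring.HasFiniteQuotients.finiteQuotient v.ne_bot
  let _ := Fintype.ofFinite (𝓞 F ⧸ v.asIdeal)
  refine ⟨𝓞 F ⧸ v.asIdeal, inferInstance, inferInstance, Classical.decEq _,
    Ideal.Quotient.mk v.asIdeal, Ideal.Quotient.mk_surjective, Ideal.mk_ker, ?_⟩
  rw [Ideal.absNorm_apply, Submodule.cardQuot_apply, Nat.card_eq_fintype_card]

theorem exists_isP (hζ : IsPrimitiveRoot ζ N) (v : HeightOneSpectrum (𝓞 F))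
    (hv : (N : 𝓞 F) ∉ v.asIdeal) : ∃ P : (Fin n → ZMod N) → 𝓞 F, IsP v P := by
  obtain ⟨κ, _, _, _, φ, hφ, hker, -⟩ := exists_model v
  have hN := ne_zero_of_ker hv hker
  obtain ⟨χ, hχ⟩ := exists_isRes hζ φ hN
  refine ⟨fun b => PP χ b, fun κ' _ _ _ φ' hφ' hker' χ' hχ' b => ?_⟩
  -- the isomorphism of the models
  let e : κ ≃+* κ' := (RingHom.quotientKerEquivOfSurjective hφ).symm.trans
    ((Ideal.quotEquivOfEq (hker.trans hker'.symm)).trans
      (RingHom.quotientKerEquivOfSurjective hφ'))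
  have he : ∀ x, e (φ x) = φ' x := by
    intro x
    have h1 : (RingHom.quotientKerEquivOfSurjective hφ).symm (φ x) = Ideal.Quotient.mk _ x := by
      rw [RingEquiv.symm_apply_eq]
      rfl
    change (RingHom.quotientKerEquivOfSurjective hφ') ((Ideal.quotEquivOfEq (hker.trans hker'.symm))
      ((RingHom.quotientKerEquivOfSurjective hφ).symm (φ x))) = _
    rw [h1]
    rfl
  have hcard : Fintype.card κ = Fintype.card κ' := Fintype.card_congr e.toEquiv
  -- pull back
  let χ'' : MulChar κ (𝓞 F) :=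
    { toFun := fun x => χ' (e x)
      map_one' := by simp
      map_mul' := by intro x y; simp
      map_nonunit' := by
        intro x hx
        have h0 : x = 0 := by
          by_contra h; exact hx (isUnit_iff_ne_zero.2 h)
        rw [h0, map_zero, MulChar.map_zero] }
  have hval : ∀ x, χ'' x = χ' (e x) := fun x => rfl
  have h2 : IsRes N φ χ'' := by
    refine ⟨?_, fun x hx => ?_⟩
    · rw [← hχ'.1]
      apply Nat.dvd_antisymm
      · apply orderOf_dvd_of_pow_eq_one
        refine MulChar.ext fun x => ?_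
        have hx : e x ≠ 0 := by
          rw [Ne, map_eq_zero_iff e e.injective]; exact x.ne_zero
        rw [chi_pow x.ne_zero, hval, ← chi_pow hx, pow_orderOf_eq_one, MulChar.one_apply_coe]
        exact MulChar.one_apply_coe (Units.mk0 (e x) hx)
      · apply orderOf_dvd_of_pow_eq_one
        refine MulChar.ext fun x => ?_
        have hx : e.symm x ≠ 0 := by
          rw [Ne, map_eq_zero_iff e.symm e.symm.injective]; exact x.ne_zero
        have h3 := hval (e.symm x)
        rw [RingEquiv.apply_symm_apply] at h3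
        rw [chi_pow x.ne_zero, ← h3, ← chi_pow hx, pow_orderOf_eq_one, MulChar.one_apply_coe]
        exact MulChar.one_apply_coe (Units.mk0 (e.symm x) hx)
    · apply e.injective
      have hx' : e x ≠ 0 := by rwa [Ne, map_eq_zero_iff e e.injective]
      rw [he, hval, hχ'.2 _ hx', map_pow, hcard]
  have h3 : χ = χ'' := hχ.unique hζ hN h2
  rw [h3]
  exact (PP_transport e (fun x _ => (hval x).symm) b).symm

open Classical in
/-- the Jacobi sums at a prime -/
noncomputable def Pv (N n : ℕ) [NeZero N] (v : HeightOneSpectrum (𝓞 F)) :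
    (Fin n → ZMod N) → 𝓞 F :=
  if h : ∃ P : (Fin n → ZMod N) → 𝓞 F, IsP v P then h.choose else 0

theorem isP_Pv (hζ : IsPrimitiveRoot ζ N) (v : HeightOneSpectrum (𝓞 F))
    (hv : (N : 𝓞 F) ∉ v.asIdeal) : IsP v (Pv N n v) := by
  unfold Pv
  rw [dif_pos (exists_isP hζ v hv)]
  exact (exists_isP hζ v hv).choose_spec

open Classical in
/-- the value at a prime ideal -/
noncomputable def Pval (N : ℕ) [NeZero N] {n : ℕ} (b : Fin n → ZMod N) (I : Ideal (𝓞 F)) : 𝓞 F :=
  if h : ∃ v : HeightOneSpectrum (𝓞 F), v.asIdeal = I ∧ (N : 𝓞 F) ∉ v.asIdeal then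
    Pv N n h.choose b else 0

theorem Pval_prime (b : Fin n → ZMod N) (v : HeightOneSpectrum (𝓞 F))
    (hv : (N : 𝓞 F) ∉ v.asIdeal) : Pval N b v.asIdeal = Pv N n v b := by
  unfold Pval
  have h : ∃ w : HeightOneSpectrum (𝓞 F), w.asIdeal = v.asIdeal ∧ (N : 𝓞 F) ∉ w.asIdeal :=
    ⟨v, rfl, hv⟩
  rw [dif_pos h]
  have h1 : h.choose = v := HeightOneSpectrum.ext h.choose_spec.1
  rw [h1]

theorem Pval_zero (b : Fin n → ZMod N) (v : HeightOneSpectrum (𝓞 F))
    (hv : (N : 𝓞 F) ∈ v.asIdeal) : Pval N b v.asIdeal = 0 := by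
  unfold Pval
  rw [dif_neg]
  rintro ⟨w, hw, hw'⟩
  rw [hw] at hw'
  exact hw' hv

/-- the Jacobi sums on the ideals -/
noncomputable def PI (N : ℕ) [NeZero N] {n : ℕ} (b : Fin n → ZMod N) : Ideal (𝓞 F) →*₀ 𝓞 F :=
  mulExt (Pval N b)

theorem PI_prime (b : Fin n → ZMod N) (v : HeightOneSpectrum (𝓞 F))
    (hv : (N : 𝓞 F) ∉ v.asIdeal) : PI N b v.asIdeal = Pv N n v b := by
  unfold PI
  rw [mulExt_prime, Pval_prime b v hv]

end field

end Run7.h365.FV
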