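import Pool.Agent.Run7.h365.FV.Sharp
import Pool.Agent.Run7.h365.FV.Gen6

/-!
# The three exceptional classes are not rational
-/

set_option autoImplicit false
set_option linter.unusedSectionVars false

namespace Run7.h365.FV

open Finset

/-- the Gauss sum as a natural number -/
def gsN (ℓ r γ ηn θn x : ℕ) : ℕ :=
  ((List.range (ℓ - 1)).map fun k =>
    ((ηn ^ x % r) ^ k % r) * (θn ^ (γ ^ k % ℓ) % r)).sum % r

/-- the product of the Gauss sums -/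
def prN (ℓ r γ ηn θn : ℕ) (S : List ℕ) : ℕ :=
  (S.map fun x => gsN ℓ r γ ηn θn x).foldl (fun a b => a * b % r) 1

lemma pow_nat {r a n : ℕ} (hr : 1 < r) : ((a : ZMod r)) ^ n = 1 ↔ a ^ n % r = 1 := by
  rw [← Nat.cast_pow, ← Nat.cast_one, ZMod.natCast_eq_natCast_iff', Nat.mod_eq_of_lt hr]

lemma cast_foldl {r : ℕ} (f : ℕ → ℕ) (G : ℕ → ZMod r) (hG : ∀ x, ((f x : ℕ) : ZMod r) = G x) :
    ∀ (S : List ℕ) (c : ℕ), (((S.map f).foldl (fun a b => a * b % r) c : ℕ) : ZMod r) =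
      c * (S.map G).prod := by
  intro S
  induction S with
  | nil => intro c; simp
  | cons x S ih =>
    intro c
    rw [List.map_cons, List.foldl_cons, ih, List.map_cons, List.prod_cons]
    rw [ZMod.natCast_mod, Nat.cast_mul, hG, mul_assoc]

lemma sum_list_range {R : Type} [AddCommMonoid R] (n : ℕ) (f : ℕ → R) :
    ((List.range n).map f).sum = ∑ k ∈ range n, f k := by
  rw [Finset.sum, Finset.range_val, Multiset.range, Multiset.map_coe, Multiset.sum_coe]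

lemma cast_gsN {ℓ r γ ηn θn x : ℕ} [Fact ℓ.Prime]
    (χ : MulChar (ZMod ℓ) (ZMod r)) (hθ : ((θn : ZMod r)) ^ ℓ = 1) (g : (ZMod ℓ)ˣ)
    (hg : ∀ x, x ∈ Subgroup.zpowers g) (hgγ : (g : ZMod ℓ) = γ)
    (hχ : χ (g : ZMod ℓ) = ηn) :
    ((gsN ℓ r γ ηn θn x : ℕ) : ZMod r) = gaussSum (χ ^ x) (AddChar.zmodChar ℓ hθ) := by
  rw [gauss_range _ _ g hg]
  unfold gsN
  rw [sum_list_range, ZMod.natCast_mod, Nat.cast_sum]
  refine sum_congr rfl fun k _ => ?_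
  have h1 : ((γ : ZMod ℓ) ^ k).val = γ ^ k % ℓ := by rw [← Nat.cast_pow, ZMod.val_natCast]
  rw [Nat.cast_mul, ZMod.natCast_mod, ZMod.natCast_mod, Nat.cast_pow, ZMod.natCast_mod,
    Nat.cast_pow, Nat.cast_pow, MulChar.pow_apply_coe, hχ, hgγ, AddChar.zmodChar_apply, h1]

/-- generators from the order -/
lemma gen_of_order {ℓ : ℕ} [Fact ℓ.Prime] {g : (ZMod ℓ)ˣ} (h : orderOf g = ℓ - 1) :
    ∀ x, x ∈ Subgroup.zpowers g := by
  have h1 : Subgroup.zpowers g = ⊤ := by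
    apply Subgroup.eq_top_of_card_eq
    rw [Nat.card_zpowers, h, Nat.card_eq_fintype_card, ZMod.card_units]
  intro x
  rw [h1]
  trivial

/-- the order of an element, from a table -/
lemma order_nat {r a n : ℕ} {L : List ℕ} (hr : 1 < r) (hn : 0 < n) (h1 : a ^ n % r = 1)
    (hL : ∀ p : ℕ, p.Prime → p ∣ n → p ∈ L) (h2 : ∀ p ∈ L, a ^ (n / p) % r ≠ 1) :
    orderOf (a : ZMod r) = n := by
  apply orderOf_eq_of_pow_and_pow_div_prime hn
  · exact (pow_nat hr).2 h1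
  · intro p hp hpn h
    exact h2 p (hL p hp hpn) ((pow_nat hr).1 h)

/-- **The criterion.** -/
theorem not_rational {M ℓ r γ ηn θn : ℕ} [NeZero M] [hℓ : Fact ℓ.Prime] [hrp : Fact r.Prime]
    {S : List ℕ} {L1 L2 : List ℕ}
    (hMℓ : M < ℓ) (hM : M ∣ ℓ - 1)
    (hL1 : ∀ p : ℕ, p.Prime → p ∣ ℓ - 1 → p ∈ L1) (hγ1 : γ ^ (ℓ - 1) % ℓ = 1)
    (hγ2 : ∀ p ∈ L1, γ ^ ((ℓ - 1) / p) % ℓ ≠ 1)
    (hL2 : ∀ p : ℕ, p.Prime → p ∣ M → p ∈ L2) (hη1 : ηn ^ M % r = 1)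
    (hη2 : ∀ p ∈ L2, ηn ^ (M / p) % r ≠ 1)
    (hθ1 : θn ^ ℓ % r = 1) (hθ2 : θn % r ≠ 1)
    (hS : prN ℓ r γ ηn θn S % r ≠ ℓ ^ 3 % r)
    {a : Fin (2 * 2 + 1 + 1) → ZMod M} (ha : IsCharacter a)
    (hval : (univ.val.map fun i => (a i).val) = (S : Multiset ℕ)) : ¬ IsRational a := by
  intro hrat
  have hr1 : 1 < r := hrp.out.one_lt
  have hℓ1 : 1 < ℓ := hℓ.out.one_lt
  -- the generator
  have hg0 : ((γ : ℕ) : ZMod ℓ) ^ (ℓ - 1) = 1 := (pow_nat hℓ1).2 hγ1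
  set g : (ZMod ℓ)ˣ := Units.ofPowEqOne (γ : ZMod ℓ) (ℓ - 1) hg0 (by omega) with hgd
  have hgγ : (g : ZMod ℓ) = γ := rfl
  have hgo : orderOf g = ℓ - 1 := by
    rw [← orderOf_units, hgγ]
    exact order_nat hℓ1 (by omega) hγ1 hL1 hγ2
  have hg := gen_of_order hgo
  -- the roots of unity
  have hηo : orderOf (ηn : ZMod r) = M := order_nat hr1 (NeZero.pos M) hη1 hL2 hη2
  have hη : IsPrimitiveRoot (ηn : ZMod r) M := by
    rw [← hηo]; exact IsPrimitiveRoot.orderOf _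
  have hθp : ((θn : ZMod r)) ^ ℓ = 1 := (pow_nat hr1).2 hθ1
  have hθo : orderOf (θn : ZMod r) = ℓ := by
    apply orderOf_eq_prime hθp
    intro h
    apply hθ2
    have h3 : ((θn : ZMod r)) ^ 1 = 1 := by rw [pow_one]; exact h
    have h4 := (pow_nat hr1).1 h3
    rwa [pow_one] at h4
  have hθ : IsPrimitiveRoot (θn : ZMod r) ℓ := by
    have := IsPrimitiveRoot.orderOf (θn : ZMod r)
    rwa [hθo] at this
  obtain ⟨χ, hχg, hχo, hPP⟩ := PP_transfer (n := 2 * 2 + 1) (r := r) hM (b := Fin.tail a) (e := 3)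
    (fun χ hχ => PP_of_rational (r := 2) (by norm_num) ha hrat hMℓ hM χ hχ) g hg hη
  have hprim : (AddChar.zmodChar ℓ hθp).IsPrimitive :=
    AddChar.zmodChar_primitive_of_primitive_root ℓ hθ
  rw [PP_eq' hχo hprim] at hPP
  have h1 : gaussSum (χ ^ (-∑ i, Fin.tail a i).val) (AddChar.zmodChar ℓ hθp) *
      ∏ i, gaussSum (χ ^ (Fin.tail a i).val) (AddChar.zmodChar ℓ hθp) =
      ∏ i, gaussSum (χ ^ (a i).val) (AddChar.zmodChar ℓ hθp) := by
    rw [Fin.prod_univ_succ (fun i => gaussSum (χ ^ (a i).val) (AddChar.zmodChar ℓ hθp))]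
    have h2 := congrFun (full_tail ha.sum_eq) 0
    have h3 : -∑ i, Fin.tail a i = a 0 := h2
    rw [h3]
    rfl
  rw [h1] at hPP
  have h2 : ∏ i, gaussSum (χ ^ (a i).val) (AddChar.zmodChar ℓ hθp) =
      (S.map fun x => gaussSum (χ ^ x) (AddChar.zmodChar ℓ hθp)).prod := by
    have h3 : ∏ i, gaussSum (χ ^ (a i).val) (AddChar.zmodChar ℓ hθp) =
        ((univ.val.map fun i => (a i).val).map fun x =>
          gaussSum (χ ^ x) (AddChar.zmodChar ℓ hθp)).prod := by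
      rw [Multiset.map_map]
      rfl
    rw [h3, hval, Multiset.map_coe, Multiset.prod_coe]
  have h4 := cast_foldl (r := r) (fun x => gsN ℓ r γ ηn θn x)
    (fun x => gaussSum (χ ^ x) (AddChar.zmodChar ℓ hθp))
    (fun x => cast_gsN χ hθp g hg hgγ hχg) S 1
  rw [Nat.cast_one, one_mul, ← h2, hPP] at h4
  apply hS
  have h5 : ((prN ℓ r γ ηn θn S : ℕ) : ZMod r) = ((ℓ ^ 3 : ℕ) : ZMod r) := by
    rw [Nat.cast_pow]
    exact h4
  exact (ZMod.natCast_eq_natCast_iff' _ _ _).1 h5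

end Run7.h365.FV
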