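import Pool.Agent.Run7.h365.FV.Bet

/-!
# The order of the pole of the L-functions of the Fermat varieties
-/

set_option autoImplicit false
set_option linter.unusedSectionVars false

namespace Run7.h365.FV

open Finset NumberField IsDedekindDomain Filter Polynomial
open Pool.Agent.W353.EF (cone IsFrobenius IsEulerSystem)
open Pool.Agent.N172.HS (IsHecke)
open Pool.Agent.Y149.Ord (HasOrder)
open Pool.Agent.Y772.NZ (one one_ne)
open Run7.h365.CM (IsTriv norm_v_pos)
open Run7.h365.CM.T (isHecke_one eventually_coprime triv_of_ae)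

variable {n m M : ℕ} {v : HeightOneSpectrum (𝓞 ℚ)}

/-! ### the number of the eigenvalues -/

theorem card_above [NeZero M] (hv : (Ideal.absNorm v.asIdeal).Coprime M) :
    Fintype.card {w : HeightOneSpectrum (𝓞 (LL M)) // und ℚ w = v} * fo v M = M.totient := by
  classical
  have : Fact (Ideal.absNorm v.asIdeal).Prime := ⟨absNorm_prime v⟩
  obtain ⟨w₀, hw₀⟩ := exists_above (F := LL M) (Ideal.absNorm v.asIdeal)
  obtain ⟨κ, _, _, _, φ, hφ, hker, hcard⟩ := exists_model w₀
  have hp0 : ((Ideal.absNorm v.asIdeal : ℕ) : κ) = 0 := by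
    have h2 : ((Ideal.absNorm v.asIdeal : ℕ) : 𝓞 (LL M)) ∈ RingHom.ker φ := by
      rw [hker]; exact hw₀
    rwa [RingHom.mem_ker, map_natCast] at h2
  have : CharP κ (Ideal.absNorm v.asIdeal) := by
    have h1 := ringChar.spec κ (Ideal.absNorm v.asIdeal)
    have h2 : ringChar κ ∣ Ideal.absNorm v.asIdeal := (h1).1 hp0
    have h3 : ringChar κ ≠ 1 := CharP.ringChar_ne_one
    have h4 : ringChar κ = Ideal.absNorm v.asIdeal :=
      ((Nat.dvd_prime Fact.out).1 h2).resolve_left h3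
    rw [← h4]
    exact ringChar.charP κ
  have h1 : (univ : Finset Gal(LL M/ℚ)).card = M.totient := by
    rw [card_univ, ← ZMod.card_units_eq_totient]
    exact Fintype.card_congr (IsCyclotomicExtension.Rat.galEquivZMod M (LL M)).toEquiv
  rw [← h1, card_eq_sum_card_fiberwise (s := univ) (t := above M v)
    (f := fun σ : Gal(LL M/ℚ) => kp (Ideal.absNorm v.asIdeal) (φ.comp (act σ)))
    (fun σ _ => (mem_above _).2 (mem_kp _))]
  rw [sum_congr rfl (fun w hw => card_fib (N := M) φ hv ((mem_above w).1 hw)), sum_const,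
    smul_eq_mul]
  congr 1
  unfold above
  rw [card_map, card_univ]

/-- the Betti numbers -/
noncomputable def betti (n m k : ℕ) : ℕ :=
  if Even k then 1 + (if k = n - 1 then ∑ M : D m, Fintype.card (Orb n M.1) * M.1.totient else 0)
  else 0

theorem card_betas (hv : (Ideal.absNorm v.asIdeal).Coprime m) (k : ℕ) :
    Multiset.card (betas n m v k) = betti n m k := by
  have h1 : Multiset.card (extra n m v) = ∑ M : D m, Fintype.card (Orb n M.1) * M.1.totient := by
    have h2 : ∀ {ι : Type} (s : Finset ι) (F : ι → Multiset ℂ),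
        Multiset.card (∑ x ∈ s, F x) = ∑ x ∈ s, Multiset.card (F x) := fun s F =>
      map_sum Multiset.cardHom F s
    unfold extra
    rw [h2]
    refine sum_congr rfl fun M _ => ?_
    rw [h2]
    rw [sum_congr rfl (g := fun _ => M.1.totient), sum_const, card_univ, smul_eq_mul]
    intro ω _
    rw [h2, sum_congr rfl (g := fun _ => fo v M.1) (fun w _ => card_rts), sum_const, card_univ,
      smul_eq_mul]
    exact card_above (coprime_level hv M)
  unfold betas betti
  split_ifs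
  · rw [Multiset.card_add, Multiset.card_singleton, h1]
  · rw [Multiset.card_add, Multiset.card_singleton, Multiset.card_zero]
  · exact Multiset.card_zero

theorem exists_enum {N : ℕ} (s : Multiset ℂ) (hs : Multiset.card s = N) :
    ∃ α : Fin N → ℂ, s = univ.val.map α := by
  subst hs
  induction s using Quotient.inductionOn with
  | h l =>
    refine ⟨fun i => l.get (i.cast (by simp)), ?_⟩
    change (l : Multiset ℂ) = Multiset.map _ univ.val
    rw [Fin.univ_val_map]
    congr 1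
    symm
    exact List.ofFn_get l

theorem eventually_cop (hm : 0 < m) :
    ∀ᶠ v : HeightOneSpectrum (𝓞 ℚ) in cofinite, (Ideal.absNorm v.asIdeal).Coprime m := by
  have h0 : Ideal.span {(m : 𝓞 ℚ)} ≠ ⊥ := by
    rw [Ne, Ideal.span_singleton_eq_bot]
    exact_mod_cast hm.ne'
  filter_upwards [eventually_coprime h0] with v hv
  rw [Nat.Prime.coprime_iff_not_dvd (absNorm_prime v)]
  rintro ⟨c, hc⟩
  rw [Ideal.isCoprime_iff_sup_eq] at hv
  apply v.isPrime.ne_top
  rw [← hv]
  symm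
  rw [sup_eq_left, Ideal.span_singleton_le_iff_mem, hc]
  push_cast
  exact v.asIdeal.mul_mem_right _ (absNorm_mem v)

/-! ### Euler systems -/

theorem exists_euler_of {eqs : Set (MvPolynomial (Fin n) (𝓞 ℚ))} {d k N : ℕ}
    (h : ∀ᶠ v : HeightOneSpectrum (𝓞 ℚ) in cofinite, ∃ α : Fin N → ℂ,
      IsFrobenius (K := ℚ) (F := ℚ) eqs d k v α) :
    ∃ B : HeightOneSpectrum (𝓞 ℚ) → ℂ[X], IsEulerSystem (K := ℚ) (F := ℚ) eqs d k N B := by
  classical
  let good : HeightOneSpectrum (𝓞 ℚ) → Prop := fun v =>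
    ∃ α : Fin N → ℂ, IsFrobenius (K := ℚ) (F := ℚ) eqs d k v α
  let B : HeightOneSpectrum (𝓞 ℚ) → ℂ[X] := fun v =>
    if hv : good v then ∏ j, (1 - C (hv.choose j) * X) else 1
  have hBg : ∀ v (hv : good v) z, (B v).eval z = ∏ j, (1 - hv.choose j * z) := by
    intro v hv z
    simp only [B, dif_pos hv, eval_prod]
    refine Finset.prod_congr rfl fun j _ => ?_
    simp
  refine ⟨B, ?_, ?_⟩
  · filter_upwards [h] with v hv
    exact ⟨Exists.choose hv, Exists.choose_spec hv, fun z => hBg v hv z⟩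
  · intro v
    by_cases hg : good v
    · rw [hBg v hg]
      refine Finset.prod_ne_zero_iff.2 fun j _ h0 => ?_
      obtain ⟨β, hβ1, hβ2, -⟩ := hg.choose_spec
      have h2 : hg.choose j ∈ β k := by
        rw [hβ1]
        exact Multiset.mem_map_of_mem _ (Finset.mem_univ j)
      have h3 := hβ2 k _ h2
      have hq : (2 : ℝ) ≤ Ideal.absNorm v.asIdeal := by exact_mod_cast norm_v_pos v
      have hq0 : (0 : ℝ) < Ideal.absNorm v.asIdeal := by linarith
      have h4 : ‖hg.choose j * (Ideal.absNorm v.asIdeal : ℂ) ^ (-((k : ℂ) / 2 + 1))‖ = 1 := by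
        rw [← sub_eq_zero.1 h0, norm_one]
      rw [norm_mul, h3, Complex.norm_natCast_cpow_of_pos (by exact_mod_cast hq0),
        ← Real.rpow_add hq0] at h4
      have h5 : (k : ℝ) / 2 + (-((k : ℂ) / 2 + 1)).re = -1 := by
        have h6 : (-((k : ℂ) / 2 + 1)).re = -((k : ℝ) / 2 + 1) := by
          rw [Complex.neg_re, Complex.add_re, Complex.one_re]
          congr 2
          have h7 : ((k : ℂ) / 2) = ((k / 2 : ℝ) : ℂ) := by push_cast; rfl
          rw [h7, Complex.ofReal_re]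
        rw [h6]
        ring
      rw [h5, Real.rpow_neg_one] at h4
      have h6 : (Ideal.absNorm v.asIdeal : ℝ) = 1 := by
        rw [← inv_inv ((Ideal.absNorm v.asIdeal : ℝ)), h4, inv_one]
      linarith
    · simp only [B, dif_neg hg, eval_one]
      exact one_ne_zero

theorem exists_euler (hm : 0 < m) (hn : Odd n) (k : ℕ) :
    ∃ B : HeightOneSpectrum (𝓞 ℚ) → ℂ[X],
      IsEulerSystem (K := ℚ) (F := ℚ) (fermat n m) (n - 1) k (betti n m k) B := by
  apply exists_euler_of
  filter_upwards [eventually_cop hm] with v hv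
  obtain ⟨α, hα⟩ := exists_enum (betas n m v k) (card_betas hv k)
  exact ⟨α, isFrobenius hm hn hv k hα⟩

/-- the Euler factors -/
theorem euler_eval (hm : 0 < m) (hn : Odd n) {k : ℕ} (hk : k ≤ 2 * (n - 1)) {N : ℕ}
    {B : HeightOneSpectrum (𝓞 ℚ) → ℂ[X]}
    (hB : IsEulerSystem (K := ℚ) (F := ℚ) (fermat n m) (n - 1) k N B) :
    ∀ᶠ v : HeightOneSpectrum (𝓞 ℚ) in cofinite, ∀ z : ℂ, (B v).eval z =
      ((betas n m v k).map fun x => 1 - x * z).prod := by
  filter_upwards [hB.1, eventually_cop hm] with v h1 hv z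
  obtain ⟨α, hα, hBv⟩ := h1
  obtain ⟨α', hα'⟩ := exists_enum (betas n m v k) (card_betas hv k)
  have h4 := Pool.Agent.W353.PV.Eig.unique' (K := ℚ) (F := ℚ) (X := fermat n m) hk hα
    (isFrobenius hm hn hv k hα')
  rw [hBv, hα', ← h4, Multiset.map_map]
  rfl

/-! ### the order -/

/-- the index set of the factors -/
abbrev Idx (n m : ℕ) : Type := Option (Σ M : D m, Orb n M.1)

/-- the level of a factor -/
def lev (j : Idx n m) : ℕ := j.elim 1 fun x => x.1.1

instance (j : Idx n m) : NeZero (lev j) := by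
  cases j with
  | none => exact ⟨one_ne_zero⟩
  | some x => exact inferInstanceAs (NeZero x.1.1)

/-- the Hecke character of a factor -/
noncomputable def psiJ (j : Idx n m) : Ideal (𝓞 (LL (lev j))) →*₀ ℂ :=
  match j with
  | none => one (LL 1)
  | some x => psi x.1.1 (ff x.1.1) (rep x.2).1 ((n + 1) / 2)

theorem exists_hecke (hn : Odd n) (hn2 : 2 ≤ n) (j : Idx n m) :
    ∃ (𝔣 : Ideal (𝓞 (LL (lev j)))) (k : (LL (lev j) →+* ℂ) → ℤ) (t : (LL (lev j) →+* ℂ) → ℝ),
      IsHecke 𝔣 k t (psiJ j) := by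
  cases j with
  | none => exact ⟨_, _, _, isHecke_one (LL 1)⟩
  | some x =>
    obtain ⟨ζ, hζ⟩ := exists_zeta x.1.1
    refine ⟨_, _, _, isHecke_psi (n := n) hζ hn2 hn (ff x.1.1) (b := (rep x.2).1)
      (k := (n + 1) / 2) ?_⟩
    rw [cnt_good (rep x.2).2.1]
    obtain ⟨j, hj⟩ := hn
    omega

theorem cpow_w [NeZero M] (hv : (Ideal.absNorm v.asIdeal).Coprime M)
    {w : HeightOneSpectrum (𝓞 (LL M))} (hw : und ℚ w = v) (s : ℂ) (k : ℕ) :
    (Ideal.absNorm w.asIdeal : ℂ) ^ (((2 * k : ℕ) : ℂ) / 2 - s) =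
      (Ideal.absNorm w.asIdeal : ℂ) ^ k * ((Ideal.absNorm v.asIdeal : ℂ) ^ (-s)) ^ fo v M := by
  have h0 : (Ideal.absNorm w.asIdeal : ℂ) ≠ 0 := by
    rw [absNorm_w hv hw]
    exact_mod_cast pow_ne_zero _ (absNorm_prime v).ne_zero
  have h1 : ((2 * k : ℕ) : ℂ) / 2 - s = (k : ℂ) + -s := by
    push_cast
    ring
  rw [h1, Complex.cpow_add _ _ h0, Complex.cpow_natCast]
  congr 1
  rw [absNorm_w hv hw, Nat.cast_pow, ← Complex.natCast_cpow_natCast_mul, ← Complex.cpow_nat_mul]

theorem some_factor [NeZero M] (hn : Odd n) (hv : (Ideal.absNorm v.asIdeal).Coprime M)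
    {w : HeightOneSpectrum (𝓞 (LL M))} (hw : und ℚ w = v) (b : Fin n → ZMod M) (s : ℂ) :
    psi M (ff M) b ((n + 1) / 2) w.asIdeal *
      (Ideal.absNorm w.asIdeal : ℂ) ^ (((n - 1 : ℕ) : ℂ) / 2 - s) =
      Jw b w * ((Ideal.absNorm v.asIdeal : ℂ) ^ (-s)) ^ fo v M := by
  obtain ⟨k, hk⟩ := hn
  have h1 : n - 1 = 2 * k := by omega
  have h2 : (n + 1) / 2 = k + 1 := by omega
  have h0 : (Ideal.absNorm w.asIdeal : ℂ) ≠ 0 := by
    rw [absNorm_w hv hw]
    exact_mod_cast pow_ne_zero _ (absNorm_prime v).ne_zero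
  rw [h1, h2, cpow_w hv hw, psi_apply, PI_prime b w (nat_notMem hv hw)]
  unfold Jw
  rw [pow_succ]
  field_simp

theorem none_factor (hn : Odd n) (s : ℂ) :
    ∏ w : {w : HeightOneSpectrum (𝓞 (LL 1)) // und ℚ w = v},
      (1 - one (LL 1) w.1.asIdeal * (Ideal.absNorm w.1.asIdeal : ℂ) ^ (((n - 1 : ℕ) : ℂ) / 2 - s)) =
      1 - (Ideal.absNorm v.asIdeal : ℂ) ^ ((n - 1) / 2) * (Ideal.absNorm v.asIdeal : ℂ) ^ (-s) := by
  obtain ⟨k, hk⟩ := hn
  have h1 : n - 1 = 2 * k := by omega
  have hv : (Ideal.absNorm v.asIdeal).Coprime 1 := Nat.coprime_one_right _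
  have h2 := card_above (M := 1) hv
  rw [Nat.totient_one] at h2
  have h3 : Fintype.card {w : HeightOneSpectrum (𝓞 (LL 1)) // und ℚ w = v} = 1 :=
    Nat.eq_one_of_mul_eq_one_right h2
  have h4 : fo v 1 = 1 := Nat.eq_one_of_mul_eq_one_left h2
  have h5 : ∀ w : {w : HeightOneSpectrum (𝓞 (LL 1)) // und ℚ w = v},
      (1 - one (LL 1) w.1.asIdeal *
        (Ideal.absNorm w.1.asIdeal : ℂ) ^ (((n - 1 : ℕ) : ℂ) / 2 - s)) =
      1 - (Ideal.absNorm v.asIdeal : ℂ) ^ ((n - 1) / 2) * (Ideal.absNorm v.asIdeal : ℂ) ^ (-s) := by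
    intro w
    have h6 : (n - 1) / 2 = k := by omega
    rw [h1, cpow_w hv w.2, one_ne _ (by rw [Ideal.zero_eq_bot]; exact w.1.ne_bot),
      absNorm_w hv w.2, h4, pow_one, pow_one, one_mul, Nat.mul_div_cancel_left _ (by norm_num)]
  rw [prod_congr rfl fun w _ => h5 w, prod_const, card_univ, h3, pow_one]

/-- the Euler factor in the middle degree -/
theorem middle_factor (hn : Odd n) (hv : (Ideal.absNorm v.asIdeal).Coprime m) (s : ℂ) :
    ((betas n m v (n - 1)).map fun x => 1 - x * (Ideal.absNorm v.asIdeal : ℂ) ^ (-s)).prod =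
      ∏ j : Idx n m, ∏ w : {w : HeightOneSpectrum (𝓞 (LL (lev j))) // und ℚ w = v},
        (1 - psiJ j w.1.asIdeal * (Ideal.absNorm w.1.asIdeal : ℂ) ^ (((n - 1 : ℕ) : ℂ) / 2 - s)) := by
  have heven : Even (n - 1) := by
    obtain ⟨k, hk⟩ := hn
    exact ⟨k, by omega⟩
  unfold betas
  rw [if_pos heven, if_pos rfl, Multiset.map_add, Multiset.prod_add, Multiset.map_singleton,
    Multiset.prod_singleton, Fintype.prod_option]
  congr 1
  · exact (none_factor hn s).symm
  · unfold extra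
    rw [prod_map_sum, Fintype.prod_sigma]
    refine prod_congr rfl fun M _ => ?_
    rw [prod_map_sum]
    refine prod_congr rfl fun ω _ => ?_
    rw [prod_map_sum]
    refine prod_congr rfl fun w _ => ?_
    have hvM := coprime_level hv M
    rw [prod_rts (fo_ne hvM), ← some_factor hn hvM w.2 (rep ω).1 s]
    rfl

/-- **The order of the pole in the middle degree.** -/
theorem order_middle (hm : 0 < m) (hn : Odd n) (hn2 : 2 ≤ n) {N : ℕ}
    {B : HeightOneSpectrum (𝓞 ℚ) → ℂ[X]}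
    (hB : IsEulerSystem (K := ℚ) (F := ℚ) (fermat n m) (n - 1) (n - 1) N B) :
    HasOrder (n - 1) B (-(Nat.card {j : Idx n m // IsTriv (psiJ j)} : ℤ)) := by
  refine hasOrder_fields (K := ℚ) (fun j : Idx n m => LL (lev j)) psiJ
    (fun j => exists_hecke hn hn2 j) B ?_ hB.2
  filter_upwards [euler_eval hm hn (by omega) hB, eventually_cop hm] with v h1 hv s
  rw [h1, middle_factor hn hv s]

/-- the order of the pole in the other degrees -/
theorem order_other (hm : 0 < m) (hn : Odd n) {j : ℕ} (hj : j ≤ n - 1) (hj2 : 2 * j ≠ n - 1)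
    {N : ℕ} {B : HeightOneSpectrum (𝓞 ℚ) → ℂ[X]}
    (hB : IsEulerSystem (K := ℚ) (F := ℚ) (fermat n m) (n - 1) (2 * j) N B) :
    HasOrder (2 * j) B (-(1 : ℤ)) := by
  classical
  have h0 : (Nat.card {i : Unit // IsTriv (one (LL 1))} : ℤ) = 1 := by
    have h2 : IsTriv (one (LL 1)) := by
      intro 𝔞 h𝔞
      by_cases h0 : 𝔞 = 0
      · exact absurd (by rw [h0, map_zero]) h𝔞
      · exact one_ne (LL 1) h0
    rw [Nat.card_eq_fintype_card, Fintype.card_subtype, Finset.filter_true_of_mem (fun _ _ => h2)]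
    rfl
  rw [← h0]
  refine hasOrder_fields (K := ℚ) (fun _ : Unit => LL 1) (fun _ => one (LL 1))
    (fun _ => ⟨_, _, _, isHecke_one (LL 1)⟩) B ?_ hB.2
  filter_upwards [euler_eval hm hn (by omega) hB] with v h1 s
  rw [h1, Fintype.prod_unique]
  have h2 := none_factor (n := 2 * j + 1) (v := v) ⟨j, rfl⟩ s
  rw [Nat.add_sub_cancel] at h2
  rw [h2]
  unfold betas
  rw [if_pos ⟨j, by ring⟩, if_neg hj2, add_zero, Multiset.map_singleton, Multiset.prod_singleton]

end Run7.h365.FV
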