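import Pool.Agent.Run7.h365.FV.Res

/-!
# The number of the points of a Fermat hypersurface over a finite field
-/

set_option autoImplicit false
set_option linter.unusedSectionVars false

namespace Run7.h365.FV

open Finset

variable {κ : Type} [Field κ] [Fintype κ] [DecidableEq κ] {d : ℕ} [NeZero d]

theorem sum_zmod {R : Type} [AddCommMonoid R] (f : ℕ → R) :
    ∑ a : ZMod d, f a.val = ∑ i ∈ range d, f i := by
  obtain ⟨k, rfl⟩ : ∃ k, d = k + 1 := Nat.exists_eq_succ_of_ne_zero (NeZero.ne d)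
  exact Fin.sum_univ_eq_sum_range f (k + 1)

theorem sum_pow_zmod {z : ℂ} (hz : z ^ d = 1) :
    ∑ a : ZMod d, z ^ a.val = if z = 1 then (d : ℂ) else 0 := by
  rw [sum_zmod (fun i => z ^ i)]
  split_ifs with h
  · simp [h]
  · have h1 := geom_sum_mul z d
    rw [hz, sub_self] at h1
    exact (mul_eq_zero.1 h1).resolve_right (sub_ne_zero.2 h)

theorem exists_root {m : ℕ} (hd : d = (Fintype.card κ - 1).gcd m)
    {T : MulChar κ ℂ} (hT : orderOf T = d) {y : κ} (hy : y ≠ 0) (hTy : T y = 1) :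
    ∃ x : κ, x ≠ 0 ∧ x ^ m = y := by
  obtain ⟨g, hg⟩ := IsCyclic.exists_generator (α := κˣ)
  have hgen : ∀ x : κ, x ≠ 0 → ∃ k : ℕ, (g : κ) ^ k = x := by
    intro x hx
    obtain ⟨k, hk⟩ := (IsOfFinOrder.mem_powers_iff_mem_zpowers (isOfFinOrder_of_finite g)).mpr
      (hg (Units.mk0 x hx))
    exact ⟨k, by rw [← Units.val_pow_eq_pow_val]; simpa using congrArg Units.val hk⟩
  obtain ⟨k, rfl⟩ := hgen y hy
  have h1 : T ^ k = 1 := by
    ext x
    obtain ⟨l, hl⟩ := hgen x x.ne_zero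
    rw [MulChar.one_apply_coe, chi_pow x.ne_zero, ← hl, map_pow, ← pow_mul, mul_comm, pow_mul,
      ← map_pow, hTy, one_pow]
  have h2 : d ∣ k := by
    rw [← hT]
    exact orderOf_dvd_of_pow_eq_one h1
  obtain ⟨j, rfl⟩ := h2
  have h3 := Nat.gcd_eq_gcd_ab (Fintype.card κ - 1) m
  have h4 : g ^ ((Fintype.card κ - 1 : ℕ) : ℤ) = 1 := by
    rw [zpow_natCast, ← Fintype.card_units, pow_card_eq_one]
  refine ⟨((g ^ ((Fintype.card κ - 1).gcdB m)) ^ j : κˣ), Units.ne_zero _, ?_⟩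
  have h5 : (g ^ d : κˣ) = (g ^ ((Fintype.card κ - 1).gcdB m)) ^ m := by
    rw [← zpow_natCast g d]
    conv_lhs => rw [hd, h3]
    rw [zpow_add, zpow_mul, h4, one_zpow, one_mul, mul_comm, zpow_mul, zpow_natCast]
  rw [← Units.val_pow_eq_pow_val, ← Units.val_pow_eq_pow_val]
  congr 1
  rw [pow_mul, h5, ← pow_mul, ← pow_mul, mul_comm j m]

/-- **The number of the `m`-th roots.** -/
theorem card_roots {m : ℕ} (hm : m ≠ 0) (hd : d = (Fintype.card κ - 1).gcd m)
    {T : MulChar κ ℂ} (hT : orderOf T = d) {y : κ} (hy : y ≠ 0) :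
    ((univ.filter fun x : κ => x ^ m = y).card : ℂ) = ∑ a : ZMod d, (T ^ a.val) y := by
  have hdm : d ∣ m := by rw [hd]; exact Nat.gcd_dvd_right _ _
  have hTN : T y ^ d = 1 := chi_N hT hy
  have hne : ∀ x : κ, x ^ m = y → x ≠ 0 := by
    rintro x hx rfl
    rw [zero_pow hm] at hx
    exact hy hx.symm
  simp_rw [chi_pow hy]
  rw [sum_pow_zmod hTN]
  split_ifs with h
  · obtain ⟨x₀, hx₀, hx₀y⟩ := exists_root hd hT hy h
    congr 1
    have h1 : Nat.card (powMonoidHom m : κˣ →* κˣ).ker = d := by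
      rw [IsCyclic.card_powMonoidHom_ker, Nat.card_eq_fintype_card, Fintype.card_units, ← hd]
    rw [← h1, ← Fintype.card_subtype, ← Nat.card_eq_fintype_card]
    refine Nat.card_congr
      { toFun := fun x => ⟨Units.mk0 x.1 (hne _ x.2) / Units.mk0 x₀ hx₀, ?_⟩
        invFun := fun g => ⟨g.1.1 * x₀, ?_⟩
        left_inv := fun x => ?_
        right_inv := fun g => ?_ }
    · rw [MonoidHom.mem_ker, powMonoidHom_apply, div_pow, div_eq_one]
      apply Units.ext
      simp only [Units.val_pow_eq_pow_val, Units.val_mk0]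
      rw [x.2, hx₀y]
    · have h2 : (g.1 : κˣ) ^ m = 1 := g.2
      have h3 : ((g.1 : κˣ) : κ) ^ m = 1 := by
        rw [← Units.val_pow_eq_pow_val, h2, Units.val_one]
      rw [mul_pow, h3, one_mul, hx₀y]
    · apply Subtype.ext
      simp [div_mul_cancel₀ _ hx₀]
    · apply Subtype.ext
      apply Units.ext
      simp
  · rw [Nat.cast_eq_zero, card_eq_zero, filter_eq_empty_iff]
    intro x _ hx
    apply h
    rw [← hx, map_pow]
    obtain ⟨c, hc⟩ := hdm
    rw [hc, pow_mul, chi_N hT (hne x hx), one_pow]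

/-- the exponential sum of the `m`-th powers -/
theorem exp_sum {m : ℕ} (hm : m ≠ 0) (hd : d = (Fintype.card κ - 1).gcd m)
    {T : MulChar κ ℂ} (hT : orderOf T = d) {ψ : AddChar κ ℂ} (hψ : ψ.IsPrimitive) {t : κ}
    (ht : t ≠ 0) :
    ∑ u : κ, ψ (t * u ^ m) = ∑ a : ZMod d, if a = 0 then 0 else
      (T ^ a.val) t⁻¹ * gaussSum (T ^ a.val) ψ := by
  have h1 : ∑ u : κ, ψ (t * u ^ m) = ∑ y : κ,
      ((univ.filter fun x : κ => x ^ m = y).card : ℂ) * ψ (t * y) := by
    rw [← sum_fiberwise_of_maps_to (t := univ) (g := fun u : κ => u ^ m) (fun _ _ => mem_univ _)]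
    refine sum_congr rfl fun y _ => ?_
    rw [sum_congr rfl (g := fun _ => ψ (t * y)) (fun u hu => by rw [(mem_filter.1 hu).2]),
      sum_const, nsmul_eq_mul]
  have h0 : ((univ.filter fun x : κ => x ^ m = 0).card : ℂ) = 1 := by
    have h2 : (univ.filter fun x : κ => x ^ m = 0) = {0} := by
      ext x
      rw [mem_filter, mem_singleton, pow_eq_zero_iff hm]
      simp
    rw [h2, card_singleton, Nat.cast_one]
  have h2 : ∑ y : κ, ((univ.filter fun x : κ => x ^ m = y).card : ℂ) * ψ (t * y) =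
      1 + ∑ y ∈ univ.erase (0 : κ), ∑ a : ZMod d, (T ^ a.val) y * ψ (t * y) := by
    rw [← add_sum_erase _ _ (mem_univ (0 : κ)), h0, mul_zero, AddChar.map_zero_eq_one, one_mul]
    congr 1
    refine sum_congr rfl fun y hy => ?_
    rw [card_roots hm hd hT (ne_of_mem_erase hy), sum_mul]
  have hψt : ∑ y : κ, ψ (t * y) = 0 := by
    have h3 := AddChar.sum_mulShift t hψ
    rw [if_neg ht] at h3
    simp_rw [mul_comm t]
    simpa using h3
  rw [h1, h2, sum_comm, ← add_sum_erase univ _ (mem_univ (0 : ZMod d))]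
  have h3 : ∑ y ∈ univ.erase (0 : κ), (T ^ (0 : ZMod d).val) y * ψ (t * y) = -1 := by
    rw [ZMod.val_zero, pow_zero]
    have h4 : ∀ y ∈ univ.erase (0 : κ), (1 : MulChar κ ℂ) y * ψ (t * y) = ψ (t * y) := by
      intro y hy
      have h5 : (1 : MulChar κ ℂ) y = 1 :=
        MulChar.one_apply_coe (Units.mk0 y (ne_of_mem_erase hy))
      rw [h5, one_mul]
    rw [sum_congr rfl h4]
    rw [← add_sum_erase _ _ (mem_univ (0 : κ)), mul_zero, AddChar.map_zero_eq_one] at hψt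
    linear_combination hψt
  rw [h3, ← add_assoc, add_neg_cancel, zero_add]
  rw [← add_sum_erase univ _ (mem_univ (0 : ZMod d)), if_pos rfl, zero_add]
  refine sum_congr rfl fun a ha => ?_
  have ha0 : a ≠ 0 := ne_of_mem_erase ha
  rw [if_neg ha0]
  have hne : T ^ a.val ≠ 1 := fun h => ha0 ((pow_eq_one_iff' hT a).1 h)
  have h4 : ∑ y ∈ univ.erase (0 : κ), (T ^ a.val) y * ψ (t * y) =
      ∑ y : κ, (T ^ a.val) y * ψ (t * y) := by
    rw [← add_sum_erase univ _ (mem_univ (0 : κ)), MulChar.map_zero, zero_mul, zero_add]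
  rw [h4]
  have h5 := gaussSum_mulShift (T ^ a.val) ψ (Units.mk0 t ht)
  have h6 : gaussSum (T ^ a.val) (ψ.mulShift (Units.mk0 t ht : κˣ)) =
      ∑ y : κ, (T ^ a.val) y * ψ (t * y) := rfl
  rw [h6] at h5
  have h7 : (T ^ a.val) t⁻¹ * (T ^ a.val) t = 1 := by
    rw [← map_mul, inv_mul_cancel₀ ht, map_one]
  have h8 : (T ^ a.val) ((Units.mk0 t ht : κˣ) : κ) = (T ^ a.val) t := rfl
  rw [h8] at h5
  calc _ = ((T ^ a.val) t⁻¹ * (T ^ a.val) t) * ∑ y : κ, (T ^ a.val) y * ψ (t * y) := by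
        rw [h7, one_mul]
    _ = _ := by rw [mul_assoc, h5]

/-- the tuples of the characters of the Fermat hypersurface -/
def Good {n N : ℕ} (b : Fin n → ZMod N) : Prop := (∀ i, b i ≠ 0) ∧ ∑ i, b i ≠ 0

instance {n N : ℕ} : DecidablePred (Good (n := n) (N := N)) := fun _ =>
  inferInstanceAs (Decidable (_ ∧ _))

/-- **The number of the points of a Fermat hypersurface.** -/
theorem card_fermat {m : ℕ} (hm : m ≠ 0) (hd : d = (Fintype.card κ - 1).gcd m)
    {T : MulChar κ ℂ} (hT : orderOf T = d) (n : ℕ) :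
    (Fintype.card κ : ℂ) * (univ.filter fun u : Fin (n + 1) → κ => ∑ i, u i ^ m = 0).card =
      (Fintype.card κ : ℂ) ^ (n + 1) + ((Fintype.card κ : ℂ) - 1) *
        ∑ b : Fin n → ZMod d, if Good b then PP T b else 0 := by
  obtain ⟨ψ, hψ⟩ : ∃ ψ : AddChar κ ℂ, ψ.IsPrimitive :=
    ⟨_, AddChar.FiniteField.primitiveChar_to_Complex_isPrimitive κ⟩
  have h1 : (Fintype.card κ : ℂ) * (univ.filter fun u : Fin (n + 1) → κ => ∑ i, u i ^ m = 0).card =
      ∑ t : κ, (∑ u : κ, ψ (t * u ^ m)) ^ (n + 1) := by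
    have h2 : ∀ t : κ, (∑ u : κ, ψ (t * u ^ m)) ^ (n + 1) =
        ∑ u : Fin (n + 1) → κ, ψ (t * ∑ i, u i ^ m) := by
      intro t
      have h3 := Finset.prod_univ_sum (fun _ : Fin (n + 1) => (univ : Finset κ))
        (fun i x => ψ (t * x ^ m))
      rw [Fintype.piFinset_univ, prod_const, card_univ, Fintype.card_fin] at h3
      rw [h3]
      refine sum_congr rfl fun u _ => ?_
      rw [mul_sum, addChar_sum]
    rw [sum_congr rfl fun t _ => h2 t, sum_comm]
    have h3 : ∀ u : Fin (n + 1) → κ, ∑ t : κ, ψ (t * ∑ i, u i ^ m) =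
        if ∑ i, u i ^ m = 0 then (Fintype.card κ : ℂ) else 0 := by
      intro u
      rw [AddChar.sum_mulShift _ hψ]
      split_ifs <;> simp
    rw [sum_congr rfl fun u _ => h3 u, sum_ite, sum_const, sum_const_zero, add_zero, nsmul_eq_mul,
      mul_comm]
  rw [h1, ← add_sum_erase univ _ (mem_univ (0 : κ))]
  have h2 : ∑ u : κ, ψ (0 * u ^ m) = (Fintype.card κ : ℂ) := by
    simp [card_univ]
  rw [h2]
  congr 1
  have h3 : ∀ t ∈ univ.erase (0 : κ), (∑ u : κ, ψ (t * u ^ m)) ^ (n + 1) =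
      ∑ a : Fin (n + 1) → ZMod d, ∏ i, (if a i = 0 then 0 else
        (T ^ (a i).val) t⁻¹ * gaussSum (T ^ (a i).val) ψ) := by
    intro t ht
    rw [exp_sum hm hd hT hψ (ne_of_mem_erase ht)]
    have h4 := Finset.prod_univ_sum (fun _ : Fin (n + 1) => (univ : Finset (ZMod d)))
      (fun i a => (if a = 0 then 0 else (T ^ a.val) t⁻¹ * gaussSum (T ^ a.val) ψ))
    rw [Fintype.piFinset_univ, prod_const, card_univ, Fintype.card_fin] at h4
    exact h4
  rw [sum_congr rfl h3, sum_comm]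
  have h4 : ∀ a : Fin (n + 1) → ZMod d, ∑ t ∈ univ.erase (0 : κ), ∏ i, (if a i = 0 then 0 else
        (T ^ (a i).val) t⁻¹ * gaussSum (T ^ (a i).val) ψ) =
      if (∀ i, a i ≠ 0) ∧ ∑ i, a i = 0 then
        ((Fintype.card κ : ℂ) - 1) * ∏ i, gaussSum (T ^ (a i).val) ψ else 0 := by
    intro a
    by_cases ha : ∀ i, a i ≠ 0
    · have h5 : ∀ t ∈ univ.erase (0 : κ), ∏ i, (if a i = 0 then 0 else
          (T ^ (a i).val) t⁻¹ * gaussSum (T ^ (a i).val) ψ) =
          (T ^ (∑ i, a i).val) t⁻¹ * ∏ i, gaussSum (T ^ (a i).val) ψ := by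
        intro t ht
        have ht0 : t⁻¹ ≠ 0 := inv_ne_zero (ne_of_mem_erase ht)
        rw [← prod_congr rfl (fun i _ => (if_neg (ha i)).symm), prod_mul_distrib]
        congr 1
        simp_rw [chi_pow ht0]
        rw [prod_pow_eq_pow_sum]
        refine pow_zmod (chi_N hT ht0) ?_
        push_cast
        simp
      rw [sum_congr rfl h5, ← sum_mul]
      have h6 : ∑ t ∈ univ.erase (0 : κ), (T ^ (∑ i, a i).val) t⁻¹ =
          if ∑ i, a i = 0 then (Fintype.card κ : ℂ) - 1 else 0 := by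
        have h7 : ∑ t ∈ univ.erase (0 : κ), (T ^ (∑ i, a i).val) t⁻¹ =
            ∑ t : κ, (T ^ (∑ i, a i).val) t := by
          rw [← Equiv.sum_comp (Function.Involutive.toPerm (fun t : κ => t⁻¹) inv_involutive)
              (fun t => (T ^ (∑ i, a i).val) t),
            ← add_sum_erase univ _ (mem_univ (0 : κ))]
          simp only [Function.Involutive.coe_toPerm, inv_zero, MulChar.map_zero, zero_add]
        rw [h7]
        split_ifs with h8
        · rw [h8, ZMod.val_zero, pow_zero, MulChar.sum_one_eq_card_units, Fintype.card_units,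
            Nat.cast_sub Fintype.card_pos, Nat.cast_one]
        · exact MulChar.sum_eq_zero_of_ne_one fun h => h8 ((pow_eq_one_iff' hT _).1 h)
      rw [h6]
      by_cases h8 : ∑ i, a i = 0
      · rw [if_pos h8, if_pos ⟨ha, h8⟩]
      · rw [if_neg h8, if_neg (fun h => h8 h.2), zero_mul]
    · rw [if_neg (fun h => ha h.1)]
      push Not at ha
      obtain ⟨i, hi⟩ := ha
      refine sum_eq_zero fun t _ => prod_eq_zero (mem_univ i) ?_
      rw [if_pos hi]
  rw [sum_congr rfl fun a _ => h4 a, mul_sum]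
  rw [← Equiv.sum_comp (Fin.consEquiv (fun _ : Fin (n + 1) => ZMod d)), Fintype.sum_prod_type_right]
  refine sum_congr rfl fun b _ => ?_
  have h5 : ∀ x : ZMod d, (∑ i, (Fin.consEquiv (fun _ : Fin (n + 1) => ZMod d)) (x, b) i = 0) ↔
      x = -∑ i, b i := by
    intro x
    rw [Fin.sum_univ_succ]
    simp only [Fin.consEquiv, Equiv.coe_fn_mk, Fin.cons_zero, Fin.cons_succ]
    exact eq_neg_iff_add_eq_zero.symm
  have h6 : ∀ x : ZMod d, (∀ i, (Fin.consEquiv (fun _ : Fin (n + 1) => ZMod d)) (x, b) i ≠ 0) ↔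
      x ≠ 0 ∧ ∀ i, b i ≠ 0 := by
    intro x
    rw [Fin.forall_fin_succ]
    simp only [Fin.consEquiv, Equiv.coe_fn_mk, Fin.cons_zero, Fin.cons_succ]
  simp only [h5, h6]
  have h7 : ∀ x : ZMod d, (if (x ≠ 0 ∧ ∀ i, b i ≠ 0) ∧ x = -∑ i, b i then
      ((Fintype.card κ : ℂ) - 1) * ∏ i, gaussSum (T ^
        ((Fin.consEquiv (fun _ : Fin (n + 1) => ZMod d)) (x, b) i).val) ψ else 0) =
      if x = -∑ i, b i then (if Good b then ((Fintype.card κ : ℂ) - 1) * PP T b else 0) else 0 := by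
    intro x
    by_cases hx : x = -∑ i, b i
    · rw [if_pos hx]
      by_cases hb : Good b
      · rw [if_pos hb, if_pos ⟨⟨by rw [hx]; exact neg_ne_zero.2 hb.2, hb.1⟩, hx⟩,
          PP_eq hT hψ, Fin.prod_univ_succ]
        simp only [Fin.consEquiv, Equiv.coe_fn_mk, Fin.cons_zero, Fin.cons_succ]
        rw [hx]
      · rw [if_neg hb, if_neg]
        rintro ⟨⟨h8, h9⟩, -⟩
        exact hb ⟨h9, by rwa [hx, neg_ne_zero] at h8⟩
    · rw [if_neg hx, if_neg (fun h => hx h.2)]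
  rw [sum_congr rfl fun x _ => h7 x, sum_ite_eq', if_pos (mem_univ _)]
  split_ifs <;> simp

end Run7.h365.FV
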