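import Pool.Agent.Run7.h365.FV.Six

/-!
# The projection to the characters modulo ten
-/

set_option autoImplicit false
set_option linter.unusedSectionVars false

namespace Run7.h365.FV

open Finset Pool.Agent.H916R2 Pool.Agent.Y2 Pool.Agent.Y2.Cv Pool.Agent.Y2.Cw

/-- the units modulo `d` -/
def UU (d : ℕ) : Finset ℕ := (range d).filter fun z => Nat.Coprime z d

lemma sum_range_mul' (p d : ℕ) (F : ℕ → ℤ) :
    ∑ z ∈ range (p * d), F z = ∑ z ∈ range d, ∑ i ∈ range p, F (z + i * d) := by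
  rw [sum_comm]
  induction p with
  | zero => simp
  | succ p ih =>
    rw [Nat.succ_mul, sum_range_add, sum_range_succ, ih]
    congr 1
    exact sum_congr rfl fun x _ => by rw [add_comm]

lemma fib {p d' : ℕ} (F : ℕ → ℤ) :
    ∑ z ∈ (range (p * d')).filter (fun z => Nat.Coprime z d'), F z =
      ∑ z ∈ UU d', ∑ i ∈ range p, F (z + i * d') := by
  unfold UU
  rw [sum_filter, sum_range_mul', sum_filter]
  refine sum_congr rfl fun z _ => ?_
  by_cases h : Nat.Coprime z d'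
  · rw [if_pos h]
    refine sum_congr rfl fun i _ => ?_
    rw [if_pos (by rwa [Nat.coprime_add_mul_right_left])]
  · rw [if_neg h]
    refine sum_eq_zero fun i _ => ?_
    rw [if_neg (by rwa [Nat.coprime_add_mul_right_left])]

lemma UU_dvd {p d' : ℕ} (h : p ∣ d') :
    UU (p * d') = (range (p * d')).filter fun z => Nat.Coprime z d' := by
  unfold UU
  refine filter_congr fun z _ => ?_
  constructor
  · intro h1
    exact Nat.Coprime.coprime_mul_left_right h1
  · intro h1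
    exact Nat.Coprime.mul_right (Nat.Coprime.coprime_dvd_right h h1) h1

lemma UU_ndvd {p d' : ℕ} (hp : p.Prime) (h : ¬ p ∣ d') (F : ℕ → ℤ) :
    ∑ z ∈ (range (p * d')).filter (fun z => Nat.Coprime z d'), F z =
      ∑ z ∈ UU (p * d'), F z + ∑ w ∈ UU d', F (p * w) := by
  have hc : Nat.Coprime p d' := (Nat.Prime.coprime_iff_not_dvd hp).mpr h
  rw [← sum_filter_add_sum_filter_not ((range (p * d')).filter (fun z => Nat.Coprime z d'))
    (fun z => ¬ p ∣ z)]
  congr 1
  · unfold UU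
    rw [filter_filter]
    refine sum_congr (filter_congr fun z _ => ?_) fun _ _ => rfl
    constructor
    · rintro ⟨h1, h2⟩
      exact Nat.Coprime.mul_right (((Nat.Prime.coprime_iff_not_dvd hp).mpr h2).symm) h1
    · intro h1
      refine ⟨Nat.Coprime.coprime_mul_left_right h1, fun h2 => ?_⟩
      have h3 := Nat.Coprime.coprime_mul_right_right h1
      exact (Nat.Prime.coprime_iff_not_dvd hp).mp h3.symm h2
  · symm
    refine sum_nbij (fun w => p * w) ?_ ?_ ?_ fun _ _ => rfl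
    · intro w hw
      unfold UU at hw
      rw [mem_filter, mem_range] at hw
      rw [mem_filter, mem_filter, mem_range]
      exact ⟨⟨Nat.mul_lt_mul_of_pos_left hw.1 hp.pos, Nat.Coprime.mul_left hc hw.2⟩,
        fun h' => h' (Dvd.intro w rfl)⟩
    · intro w _ w' _ h'
      exact Nat.eq_of_mul_eq_mul_left hp.pos h'
    · intro z hz
      rw [mem_coe, mem_filter, mem_filter, mem_range, not_not] at hz
      obtain ⟨⟨h1, h2⟩, ⟨w, rfl⟩⟩ := hz
      refine ⟨w, ?_, rfl⟩
      unfold UU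
      rw [mem_coe, mem_filter, mem_range]
      exact ⟨Nat.lt_of_mul_lt_mul_left h1, Nat.Coprime.coprime_mul_left h2⟩

lemma perm {d' k : ℕ} (hd : d' ≠ 0) (hk : Nat.Coprime k d') (F : ℕ → ℤ)
    (hF : ∀ a b, a ≡ b [MOD d'] → F a = F b) :
    ∑ w ∈ UU d', F (k * w) = ∑ w ∈ UU d', F w := by
  have hpos := Nat.pos_of_ne_zero hd
  have hinj : Set.InjOn (fun w => k * w % d') (UU d' : Set ℕ) := by
    intro a ha b hb h
    unfold UU at ha hb
    rw [mem_coe, mem_filter, mem_range] at ha hb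
    have h1 : a ≡ b [MOD d'] := Nat.ModEq.cancel_left_of_coprime (by rwa [Nat.gcd_comm]) h
    rw [Nat.ModEq, Nat.mod_eq_of_lt ha.1, Nat.mod_eq_of_lt hb.1] at h1
    exact h1
  have hmaps : ∀ a ∈ UU d', k * a % d' ∈ UU d' := by
    intro a ha
    unfold UU at ha ⊢
    rw [mem_filter, mem_range] at ha ⊢
    refine ⟨Nat.mod_lt _ hpos, ?_⟩
    have h1 : Nat.Coprime (k * a) d' := Nat.Coprime.mul_left hk ha.2
    have h2 : Nat.gcd (k * a % d') d' = Nat.gcd (k * a) d' := (Nat.mod_modEq _ _).gcd_eq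
    unfold Nat.Coprime at h1 ⊢
    rw [h2, h1]
  have himg : (UU d').image (fun w => k * w % d') = UU d' := by
    apply eq_of_subset_of_card_le
    · intro x hx
      obtain ⟨a, ha, rfl⟩ := mem_image.mp hx
      exact hmaps a ha
    · rw [card_image_of_injOn hinj]
  conv_rhs => rw [← himg]
  rw [sum_image hinj]
  exact sum_congr rfl fun w _ => hF _ _ (Nat.mod_modEq _ _).symm

/-- the correlations at the level ten -/
def GG (d τ σ : ℕ) : ℤ := ∑ z ∈ UU d, sv 10 (z * τ) * sv 10 (z * σ)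

/-- the projections -/
def PJ (d τ y : ℕ) : ℤ := ∑ z ∈ UU d, sv 10 (z * τ) * sv d (z * y)

lemma periodic_sum {p d' : ℕ} (hp : p.Prime) (hd : d' ≠ 0) (F : ℕ → ℤ)
    (hF : ∀ a b, a ≡ b [MOD d'] → F a = F b) :
    ∑ z ∈ UU (p * d'), F z = (if p ∣ d' then (p : ℤ) else p - 1) * ∑ z ∈ UU d', F z := by
  have h1 : ∑ z ∈ (range (p * d')).filter (fun z => Nat.Coprime z d'), F z =
      p * ∑ z ∈ UU d', F z := by
    rw [fib, mul_sum]
    refine sum_congr rfl fun z _ => ?_
    rw [sum_congr rfl fun i _ => hF (z + i * d') z (by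
      have : z + i * d' ≡ z + 0 [MOD d'] :=
        Nat.ModEq.add_left z ((Nat.modEq_zero_iff_dvd).mpr (Dvd.intro_left i rfl))
      simpa using this), sum_const, card_range, nsmul_eq_mul]
  by_cases h : p ∣ d'
  · rw [if_pos h, UU_dvd h, h1]
  · rw [if_neg h]
    rw [UU_ndvd hp h, perm hd ((Nat.Prime.coprime_iff_not_dvd hp).mpr h) F hF] at h1
    linear_combination h1

lemma sv10_per {d' : ℕ} (h10 : 10 ∣ d') {a b : ℕ} (h : a ≡ b [MOD d']) (τ : ℕ) :
    sv 10 (a * τ) = sv 10 (b * τ) := sv_per ((h.of_dvd h10).mul_right τ)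

lemma GG_step {p d' : ℕ} (hp : p.Prime) (hd : d' ≠ 0) (h10 : 10 ∣ d') (τ σ : ℕ) :
    GG (p * d') τ σ = (if p ∣ d' then (p : ℤ) else p - 1) * GG d' τ σ := by
  unfold GG
  exact periodic_sum hp hd _ fun a b h => by rw [sv10_per h10 h, sv10_per h10 h]

lemma PJ_dvd {p d' : ℕ} (hp : p.Prime) (hd : d' ≠ 0) (h10 : 10 ∣ d') (τ y : ℕ) :
    PJ (p * d') τ (p * y) = (if p ∣ d' then (p : ℤ) else p - 1) * (p * PJ d' τ y) := by
  have hpd : p * d' ≠ 0 := Nat.mul_ne_zero hp.ne_zero hd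
  unfold PJ
  have h1 : ∀ z, sv (p * d') (z * (p * y)) = p * sv d' (z * y) := by
    intro z
    rw [show z * (p * y) = p * (z * y) by ring, sv_level hpd rfl]
  simp only [h1]
  rw [periodic_sum hp hd (fun z => sv 10 (z * τ) * (p * sv d' (z * y))) fun a b h => by
    rw [sv10_per h10 h, sv_per (h.mul_right y)]]
  congr 1
  rw [mul_sum]
  refine sum_congr rfl fun z _ => by ring

lemma sum_shift {p d' y : ℕ} (hp : p.Prime) (hd : d' ≠ 0) (hy : ¬ p ∣ y) (z : ℕ) :
    ∑ i ∈ range p, sv (p * d') ((z + i * d') * y) = p * sv d' (z * y) := by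
  have hpd : p * d' ≠ 0 := Nat.mul_ne_zero hp.ne_zero hd
  have h1 := SW_sum_shift hp (rfl : p * d' = p * d') hpd (A := {y}) (by
    intro a ha
    rw [Multiset.mem_singleton] at ha
    rw [ha]; exact hy) z
  have h2 : ∀ (e : ℕ) (he : e ≠ 0) t, SW e {y} t = sv e (t * y) := by
    intro e he t
    rw [SW_sv he, Multiset.map_singleton, Multiset.sum_singleton]
  rw [sum_congr rfl fun i _ => h2 _ hpd _, h2 _ hd] at h1
  exact h1

lemma full_sum {p d' y : ℕ} (hp : p.Prime) (hd : d' ≠ 0) (h10 : 10 ∣ d') (hy : ¬ p ∣ y) (τ : ℕ) :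
    ∑ z ∈ (range (p * d')).filter (fun z => Nat.Coprime z d'),
      sv 10 (z * τ) * sv (p * d') (z * y) = p * PJ d' τ y := by
  rw [fib (fun z => sv 10 (z * τ) * sv (p * d') (z * y))]
  unfold PJ
  rw [mul_sum]
  refine sum_congr rfl fun z _ => ?_
  have h1 : ∀ i, sv 10 ((z + i * d') * τ) = sv 10 (z * τ) := fun i => sv10_per h10 (by
      have : z + i * d' ≡ z + 0 [MOD d'] :=
        Nat.ModEq.add_left z ((Nat.modEq_zero_iff_dvd).mpr (Dvd.intro_left i rfl))
      simpa using this) τ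
  rw [sum_congr rfl fun i _ => by rw [h1 i], ← mul_sum, sum_shift hp hd hy]
  ring

lemma PJ_ndvd {p d' y : ℕ} (hp : p.Prime) (hd : d' ≠ 0) (h10 : 10 ∣ d') (hy : ¬ p ∣ y) (τ : ℕ) :
    PJ (p * d') τ y = p * PJ d' τ y - if p ∣ d' then 0 else p * PJ d' (p * τ) y := by
  have hpd : p * d' ≠ 0 := Nat.mul_ne_zero hp.ne_zero hd
  have h1 := full_sum hp hd h10 hy τ
  by_cases h : p ∣ d'
  · rw [if_pos h, ← h1, sub_zero, ← UU_dvd h]
    rfl
  · rw [if_neg h]
    rw [UU_ndvd hp h] at h1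
    have h2 : ∑ w ∈ UU d', sv 10 (p * w * τ) * sv (p * d') (p * w * y) = p * PJ d' (p * τ) y := by
      unfold PJ
      rw [mul_sum]
      refine sum_congr rfl fun w _ => ?_
      rw [show p * w * y = p * (w * y) by ring, sv_level hpd rfl,
        show p * w * τ = w * (p * τ) by ring]
      ring
    rw [h2] at h1
    have h3 : ∑ z ∈ UU (p * d'), sv 10 (z * τ) * sv (p * d') (z * y) = PJ (p * d') τ y := rfl
    rw [h3] at h1
    linear_combination h1

lemma PJ_per {d τ τ' y : ℕ} (h : τ ≡ τ' [MOD 10]) : PJ d τ y = PJ d τ' y := by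
  unfold PJ
  refine sum_congr rfl fun z _ => ?_
  rw [sv_per (h.mul_left z)]

lemma PJ_neg {d τ τ' y : ℕ} (h : 10 ∣ τ + τ') : PJ d τ' y = - PJ d τ y := by
  unfold PJ
  rw [← sum_neg_distrib]
  refine sum_congr rfl fun z _ => ?_
  rw [sv_neg (by norm_num) (x := z * τ) (y := z * τ') (by rw [← mul_add]; exact h.mul_left z)]
  ring

lemma PJ_per_y {d τ y y' : ℕ} (h : y ≡ y' [MOD d]) : PJ d τ y = PJ d τ y' := by
  unfold PJ
  refine sum_congr rfl fun z _ => ?_
  rw [sv_per (h.mul_left z)]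

end Run7.h365.FV
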