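import Pool.Agent.Run7.h365.FV.Prj

/-!
# Bounds for the projections
-/

set_option autoImplicit false
set_option linter.unusedSectionVars false

namespace Run7.h365.FV

open Finset Pool.Agent.H916R2 Pool.Agent.Y2 Pool.Agent.Y2.Cv Pool.Agent.Y2.Cw

/-- the order is ten -/
def Ord10 (d y : ℕ) : Prop := d ∣ 10 * y ∧ ¬ d ∣ 2 * y ∧ ¬ d ∣ 5 * y

/-- the bounds -/
structure PB (d : ℕ) (K : ℤ) : Prop where
  pos : 0 < K
  gg : ∀ τ σ, GG d τ σ = K * GG 10 τ σ
  bA : ∀ τ, Nat.Coprime τ 10 → ∀ y, |PJ d τ y| + |PJ d (3 * τ) y| ≤ 16 * d * K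
  bB : ¬ 3 ∣ d → ∀ τ, Nat.Coprime τ 10 → ∀ y, ¬ d ∣ 10 * y →
    2 * (|PJ d τ y| + |PJ d (3 * τ) y|) ≤ 16 * d * K
  bC : ∀ τ, Nat.Coprime τ 10 → ∀ y, ¬ Ord10 d y → 2 * |PJ d τ y| ≤ 16 * d * K
  bD : ∀ τ, Nat.Coprime τ 10 → ∀ y, ¬ d ∣ 60 * y → 2 * |PJ d τ y| < 16 * d * K

lemma cop_cases {τ : ℕ} (h : Nat.Coprime τ 10) : τ % 10 = 1 ∨ τ % 10 = 3 ∨ τ % 10 = 7 ∨ τ % 10 = 9 := by
  have h1 : Nat.gcd (τ % 10) 10 = 1 := by
    rw [(Nat.mod_modEq τ 10).gcd_eq]; exact h
  have h2 : τ % 10 < 10 := Nat.mod_lt _ (by norm_num)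
  generalize τ % 10 = x at h1 h2
  interval_cases x <;> simp_all

lemma base_A : ∀ τ ∈ ({1, 3, 7, 9} : Finset ℕ), ∀ y ∈ range 10,
    |PJ 10 τ y| + |PJ 10 (3 * τ) y| ≤ 160 := by decide +kernel

lemma base_C : ∀ τ ∈ ({1, 3, 7, 9} : Finset ℕ), ∀ y ∈ range 10,
    ¬ (¬ 10 ∣ 2 * y ∧ ¬ 10 ∣ 5 * y) → 2 * |PJ 10 τ y| ≤ 160 := by decide +kernel

lemma mem4 {τ : ℕ} (h : Nat.Coprime τ 10) : τ % 10 ∈ ({1, 3, 7, 9} : Finset ℕ) := by
  rcases cop_cases h with h | h | h | h <;> rw [h] <;> decide

theorem PB_base : PB 10 1 := by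
  refine ⟨one_pos, fun τ σ => (one_mul _).symm, ?_, ?_, ?_, ?_⟩
  · intro τ hτ y
    have h := base_A _ (mem4 hτ) (y % 10) (mem_range.mpr (Nat.mod_lt _ (by norm_num)))
    rw [PJ_per (Nat.mod_modEq τ 10), PJ_per_y (Nat.mod_modEq y 10),
      PJ_per ((Nat.mod_modEq τ 10).mul_left 3), PJ_per_y (Nat.mod_modEq y 10)] at h
    norm_num
    exact h
  · intro _ τ _ y hy
    exact absurd (Dvd.intro y rfl) hy
  · intro τ hτ y hy
    have h := base_C _ (mem4 hτ) (y % 10) (mem_range.mpr (Nat.mod_lt _ (by norm_num))) (by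
      rintro ⟨h1, h2⟩
      exact hy ⟨Dvd.intro y rfl, by omega, by omega⟩)
    rw [PJ_per (Nat.mod_modEq τ 10), PJ_per_y (Nat.mod_modEq y 10)] at h
    norm_num
    exact h
  · intro τ _ y hy
    exact absurd (Dvd.intro (6 * y) (by ring)) hy

lemma not_ord_of {p d' y : ℕ} (h : ¬ Ord10 (p * d') (p * y)) (hp : p ≠ 0) : ¬ Ord10 d' y := by
  intro ⟨h1, h2, h3⟩
  refine h ⟨?_, ?_, ?_⟩
  · rw [show 10 * (p * y) = p * (10 * y) by ring]
    exact Nat.mul_dvd_mul_left p h1
  · rw [show 2 * (p * y) = p * (2 * y) by ring]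
    exact fun h' => h2 (Nat.dvd_of_mul_dvd_mul_left (Nat.pos_of_ne_zero hp) h')
  · rw [show 5 * (p * y) = p * (5 * y) by ring]
    exact fun h' => h3 (Nat.dvd_of_mul_dvd_mul_left (Nat.pos_of_ne_zero hp) h')

theorem PB_step {p d' : ℕ} {K : ℤ} (hp : p.Prime) (hd : d' ≠ 0) (h10 : 10 ∣ d') (B : PB d' K) :
    PB (p * d') ((if p ∣ d' then (p : ℤ) else p - 1) * K) := by
  have hp0 : (0 : ℤ) < p := by exact_mod_cast hp.pos
  have hp2 : (2 : ℤ) ≤ p := by exact_mod_cast hp.two_le
  have hκ : (0 : ℤ) < (if p ∣ d' then (p : ℤ) else p - 1) := by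
    split_ifs <;> linarith
  have hd0 : (0 : ℤ) < d' := by exact_mod_cast Nat.pos_of_ne_zero hd
  have hK := B.pos
  set T : ℤ := 16 * d' * K with hT
  have hT0 : 0 < T := by positivity
  have hTT : 16 * ((p * d' : ℕ) : ℤ) * ((if p ∣ d' then (p : ℤ) else p - 1) * K) =
      (if p ∣ d' then (p : ℤ) else p - 1) * p * T := by
    rw [hT]; push_cast; ring
  -- the case `p ∣ y`
  have e1 : ∀ τ y, |PJ (p * d') τ (p * y)| =
      (if p ∣ d' then (p : ℤ) else p - 1) * p * |PJ d' τ y| := by
    intro τ y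
    rw [PJ_dvd hp hd h10, ← mul_assoc, abs_mul, abs_of_pos (mul_pos hκ hp0)]
  -- the case `p ∤ y`, `p ∣ d'`
  have e2 : p ∣ d' → ∀ τ y, ¬ p ∣ y → |PJ (p * d') τ y| = p * |PJ d' τ y| := by
    intro h τ y hy
    rw [PJ_ndvd hp hd h10 hy, if_pos h, sub_zero, abs_mul, abs_of_pos hp0]
  have hTp : p ∣ d' → (if p ∣ d' then (p : ℤ) else p - 1) * p * T = p * (p * T) := by
    intro h; rw [if_pos h]; ring
  -- the case `p ∤ y`, `p ∤ d'`
  have e3 : ¬ p ∣ d' → ∀ τ y, ¬ p ∣ y →
      PJ (p * d') τ y = p * (PJ d' τ y - PJ d' (p * τ) y) := by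
    intro h τ y hy
    rw [PJ_ndvd hp hd h10 hy, if_neg h]; ring
  have hpcop : ¬ p ∣ d' → Nat.Coprime p 10 := by
    intro h
    exact ((Nat.Prime.coprime_iff_not_dvd hp).mpr fun h' => h (h'.trans h10))
  have hTn : ¬ p ∣ d' → (if p ∣ d' then (p : ℤ) else p - 1) * p * T = p * ((p - 1) * T) := by
    intro h; rw [if_neg h]; ring
  have hA := B.bA
  have h3cop : ∀ {τ : ℕ}, Nat.Coprime τ 10 → Nat.Coprime (3 * τ) 10 := fun h =>
    Nat.Coprime.mul_left (by norm_num) h
  -- the absolute values in the last case: both are at most `p * (|a| + |b|)`, their sum at most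
  -- `2 p * max`
  have e4 : ¬ p ∣ d' → ∀ τ, Nat.Coprime τ 10 → ∀ y, ¬ p ∣ y →
      ((p % 10 = 1 ∨ p % 10 = 9) → |PJ (p * d') τ y| + |PJ (p * d') (3 * τ) y| ≤ p * (2 * T)) ∧
      (|PJ (p * d') τ y| + |PJ (p * d') (3 * τ) y| ≤ p * (2 * T)) ∧
      ((p % 10 = 3 ∨ p % 10 = 7) → |PJ (p * d') τ y| ≤ p * (|PJ d' τ y| + |PJ d' (3 * τ) y|)) := by
    intro h τ hτ y hy
    have ha := hA τ hτ y
    have r1 := e3 h τ y hy
    have r2 := e3 h (3 * τ) y hy
    set a := PJ d' τ y with haa
    set b := PJ d' (3 * τ) y with hbb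
    have n9 : ∀ x, x ≡ 9 * τ [MOD 10] → PJ d' x y = - a := by
      intro x hx
      rw [PJ_per hx]
      exact PJ_neg (by omega)
    rcases cop_cases (hpcop h) with hc | hc | hc | hc
    · have m1 : p * τ ≡ τ [MOD 10] := by
        have : p ≡ 1 [MOD 10] := hc
        simpa using this.mul_right τ
      have m2 : p * (3 * τ) ≡ 3 * τ [MOD 10] := by
        have : p ≡ 1 [MOD 10] := hc
        simpa using this.mul_right (3 * τ)
      rw [PJ_per m1, sub_self, mul_zero] at r1
      rw [PJ_per m2, sub_self, mul_zero] at r2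
      rw [r1, r2, abs_zero, add_zero]
      have : 0 ≤ (p : ℤ) * (2 * T) := by positivity
      refine ⟨fun _ => this, this, fun _ => by positivity⟩
    · have hp3 : p ≡ 3 [MOD 10] := hc
      have m1 : p * τ ≡ 3 * τ [MOD 10] := hp3.mul_right τ
      have m2 : p * (3 * τ) ≡ 9 * τ [MOD 10] := by
        have := hp3.mul_right (3 * τ)
        rwa [show 3 * (3 * τ) = 9 * τ by ring] at this
      rw [PJ_per m1, ← hbb] at r1
      rw [n9 _ m2, sub_neg_eq_add] at r2
      have k1 : |PJ (p * d') τ y| = p * |a - b| := by rw [r1, abs_mul, abs_of_pos hp0]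
      have k2 : |PJ (p * d') (3 * τ) y| = p * |b + a| := by rw [r2, abs_mul, abs_of_pos hp0]
      have k3 : |a - b| + |b + a| ≤ 2 * T := by
        rcases abs_cases a with ⟨h1, _⟩ | ⟨h1, _⟩ <;> rcases abs_cases b with ⟨h2, _⟩ | ⟨h2, _⟩ <;>
        rcases abs_cases (a - b) with ⟨h3, _⟩ | ⟨h3, _⟩ <;>
        rcases abs_cases (b + a) with ⟨h4, _⟩ | ⟨h4, _⟩ <;> linarith
      have k4 : |a - b| ≤ |a| + |b| := abs_sub _ _
      rw [k1, k2, ← mul_add]
      exact ⟨fun _ => mul_le_mul_of_nonneg_left k3 hp0.le, mul_le_mul_of_nonneg_left k3 hp0.le,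
        fun _ => mul_le_mul_of_nonneg_left k4 hp0.le⟩
    · have hp3 : p ≡ 7 [MOD 10] := hc
      have m1 : PJ d' (p * τ) y = - b := by
        rw [PJ_per (hp3.mul_right τ)]
        exact PJ_neg (by omega)
      have m2 : p * (3 * τ) ≡ τ [MOD 10] := by
        have h1 := hp3.mul_right (3 * τ)
        have h2 : 7 * (3 * τ) ≡ τ [MOD 10] := by
          unfold Nat.ModEq; omega
        exact h1.trans h2
      rw [m1, sub_neg_eq_add] at r1
      rw [PJ_per m2, ← haa] at r2
      have k1 : |PJ (p * d') τ y| = p * |a + b| := by rw [r1, abs_mul, abs_of_pos hp0]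
      have k2 : |PJ (p * d') (3 * τ) y| = p * |b - a| := by rw [r2, abs_mul, abs_of_pos hp0]
      have k3 : |a + b| + |b - a| ≤ 2 * T := by
        rcases abs_cases a with ⟨h1, _⟩ | ⟨h1, _⟩ <;> rcases abs_cases b with ⟨h2, _⟩ | ⟨h2, _⟩ <;>
        rcases abs_cases (a + b) with ⟨h3, _⟩ | ⟨h3, _⟩ <;>
        rcases abs_cases (b - a) with ⟨h4, _⟩ | ⟨h4, _⟩ <;> linarith
      have k4 : |a + b| ≤ |a| + |b| := abs_add_le _ _
      rw [k1, k2, ← mul_add]
      exact ⟨fun _ => mul_le_mul_of_nonneg_left k3 hp0.le, mul_le_mul_of_nonneg_left k3 hp0.le,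
        fun _ => mul_le_mul_of_nonneg_left k4 hp0.le⟩
    · have hp3 : p ≡ 9 [MOD 10] := hc
      have m1 : p * τ ≡ 9 * τ [MOD 10] := hp3.mul_right τ
      have m2 : PJ d' (p * (3 * τ)) y = - b := by
        rw [PJ_per (hp3.mul_right (3 * τ))]
        exact PJ_neg (by omega)
      rw [n9 _ m1, sub_neg_eq_add] at r1
      rw [m2, sub_neg_eq_add] at r2
      have k1 : |PJ (p * d') τ y| = p * (2 * |a|) := by
        rw [r1, abs_mul, abs_of_pos hp0, ← two_mul, abs_mul]; norm_num
      have k2 : |PJ (p * d') (3 * τ) y| = p * (2 * |b|) := by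
        rw [r2, abs_mul, abs_of_pos hp0, ← two_mul, abs_mul]; norm_num
      rw [k1, k2, ← mul_add, ← mul_add]
      have k3 : (p : ℤ) * (2 * (|a| + |b|)) ≤ p * (2 * T) :=
        mul_le_mul_of_nonneg_left (by linarith) hp0.le
      refine ⟨fun _ => k3, k3, fun h' => by omega⟩
  refine ⟨mul_pos hκ hK, ?_, ?_, ?_, ?_, ?_⟩
  · intro τ σ
    rw [GG_step hp hd h10, B.gg]; ring
  · -- A
    intro τ hτ y
    rw [hTT]
    by_cases hy : p ∣ y
    · obtain ⟨y, rfl⟩ := hy
      rw [e1, e1, ← mul_add]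
      exact mul_le_mul_of_nonneg_left (hA τ hτ y) (mul_pos hκ hp0).le
    · by_cases hpd : p ∣ d'
      · rw [e2 hpd _ _ hy, e2 hpd _ _ hy, ← mul_add, hTp hpd]
        have h1 := hA τ hτ y
        exact mul_le_mul_of_nonneg_left (by nlinarith) hp0.le
      · rw [hTn hpd]
        by_cases h13 : p = 3
        · subst h13
          have h1 := (e4 hpd τ hτ y hy).2.1
          push_cast at h1 ⊢
          linarith
        · have h1 := (e4 hpd τ hτ y hy).2.1
          have h5 : (3 : ℤ) ≤ p := by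
            rcases cop_cases (hpcop hpd) with hc | hc | hc | hc
            · have : 3 ≤ p := by
                have := hp.two_le
                omega
              exact_mod_cast this
            · have : 3 ≤ p := by omega
              exact_mod_cast this
            · have : 3 ≤ p := by omega
              exact_mod_cast this
            · have : 3 ≤ p := by omega
              exact_mod_cast this
          refine h1.trans (mul_le_mul_of_nonneg_left ?_ hp0.le)
          nlinarith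
  · -- B
    intro h3 τ hτ y hyd
    have h3d : ¬ 3 ∣ d' := fun h => h3 (h.mul_left p)
    have h3p : p ≠ 3 := by rintro rfl; exact h3 (Dvd.intro d' rfl)
    rw [hTT]
    by_cases hy : p ∣ y
    · obtain ⟨y, rfl⟩ := hy
      have h1 := B.bB h3d τ hτ y (fun h => hyd (by
        rw [show 10 * (p * y) = p * (10 * y) by ring]
        exact Nat.mul_dvd_mul_left p h))
      rw [e1, e1, ← mul_add, mul_left_comm]
      exact mul_le_mul_of_nonneg_left h1 (mul_pos hκ hp0).le
    · by_cases hpd : p ∣ d'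
      · rw [e2 hpd _ _ hy, e2 hpd _ _ hy, ← mul_add, hTp hpd, mul_left_comm]
        have h1 := hA τ hτ y
        exact mul_le_mul_of_nonneg_left (by nlinarith) hp0.le
      · rw [hTn hpd]
        have h1 := (e4 hpd τ hτ y hy).2.1
        have h5 : (7 : ℤ) ≤ p := by
          have : 7 ≤ p := by
            have := hp.two_le
            rcases cop_cases (hpcop hpd) with hc | hc | hc | hc <;> omega
          exact_mod_cast this
        have h2 : (p : ℤ) * (4 * T) ≤ p * ((p - 1) * T) :=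
          mul_le_mul_of_nonneg_left (by nlinarith) hp0.le
        linarith
  · -- C
    intro τ hτ y hyo
    rw [hTT]
    by_cases hy : p ∣ y
    · obtain ⟨y, rfl⟩ := hy
      have h1 := B.bC τ hτ y (not_ord_of hyo hp.ne_zero)
      rw [e1, mul_left_comm]
      exact mul_le_mul_of_nonneg_left h1 (mul_pos hκ hp0).le
    · by_cases hpd : p ∣ d'
      · rw [e2 hpd _ _ hy, hTp hpd, mul_left_comm]
        have h1 := hA τ hτ y
        have h2 := abs_nonneg (PJ d' (3 * τ) y)
        exact mul_le_mul_of_nonneg_left (by nlinarith) hp0.le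
      · rw [hTn hpd]
        have h1 := e4 hpd τ hτ y hy
        have ha := hA τ hτ y
        have h6 := abs_nonneg (PJ (p * d') (3 * τ) y)
        rcases cop_cases (hpcop hpd) with hc | hc | hc | hc
        · have h5 : (11 : ℤ) ≤ p := by
            have : 11 ≤ p := by
              have := hp.two_le
              omega
            exact_mod_cast this
          have h2 : (p : ℤ) * (4 * T) ≤ p * ((p - 1) * T) :=
            mul_le_mul_of_nonneg_left (by nlinarith) hp0.le
          linarith [h1.2.1]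
        · have h5 : (3 : ℤ) ≤ p := by
            have : 3 ≤ p := by omega
            exact_mod_cast this
          have h2 : (p : ℤ) * (2 * T) ≤ p * ((p - 1) * T) :=
            mul_le_mul_of_nonneg_left (by nlinarith) hp0.le
          have h7 := h1.2.2 (Or.inl hc)
          have h8 : (p : ℤ) * (|PJ d' τ y| + |PJ d' (3 * τ) y|) ≤ p * T :=
            mul_le_mul_of_nonneg_left ha hp0.le
          linarith
        · have h5 : (7 : ℤ) ≤ p := by
            have : 7 ≤ p := by omega
            exact_mod_cast this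
          have h2 : (p : ℤ) * (4 * T) ≤ p * ((p - 1) * T) :=
            mul_le_mul_of_nonneg_left (by nlinarith) hp0.le
          linarith [h1.2.1]
        · have h5 : (9 : ℤ) ≤ p := by
            have : 9 ≤ p := by omega
            exact_mod_cast this
          have h2 : (p : ℤ) * (4 * T) ≤ p * ((p - 1) * T) :=
            mul_le_mul_of_nonneg_left (by nlinarith) hp0.le
          linarith [h1.2.1]
  · -- D
    intro τ hτ y hyd
    rw [hTT]
    by_cases hy : p ∣ y
    · obtain ⟨y, rfl⟩ := hy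
      have h1 := B.bD τ hτ y (fun h => hyd (by
        rw [show 60 * (p * y) = p * (60 * y) by ring]
        exact Nat.mul_dvd_mul_left p h))
      rw [e1, mul_left_comm]
      exact mul_lt_mul_of_pos_left h1 (mul_pos hκ hp0)
    · by_cases hpd : p ∣ d'
      · rw [e2 hpd _ _ hy, hTp hpd, mul_left_comm]
        apply mul_lt_mul_of_pos_left _ hp0
        rcases hp.eq_two_or_odd with h2 | h2
        · subst h2
          have h1 := B.bC τ hτ y (fun ⟨h, _, _⟩ => hyd (by
            obtain ⟨e, he⟩ := h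
            exact ⟨3 * e, by rw [show 60 * y = 6 * (10 * y) by ring, he]; ring⟩))
          push_cast
          linarith
        · have h5 : (3 : ℤ) ≤ p := by
            have : 3 ≤ p := by
              have := hp.two_le
              omega
            exact_mod_cast this
          have h1 := hA τ hτ y
          have h2 := abs_nonneg (PJ d' (3 * τ) y)
          nlinarith
      · rw [hTn hpd]
        have h1 := e4 hpd τ hτ y hy
        have ha := hA τ hτ y
        have h6 := abs_nonneg (PJ (p * d') (3 * τ) y)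
        by_cases h3 : p = 3
        · subst h3
          have h9 := B.bB hpd τ hτ y (fun h => hyd (by
            obtain ⟨e, he⟩ := h
            exact ⟨2 * e, by rw [show 60 * y = 6 * (10 * y) by ring, he]; ring⟩))
          have h7 := h1.2.2 (Or.inl rfl)
          push_cast at h7 ⊢
          linarith
        · have h5 : (7 : ℤ) ≤ p := by
            have : 7 ≤ p := by
              have := hp.two_le
              rcases cop_cases (hpcop hpd) with hc | hc | hc | hc <;> omega
            exact_mod_cast this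
          have h2 : (p : ℤ) * (4 * T) < p * ((p - 1) * T) :=
            mul_lt_mul_of_pos_left (by nlinarith) hp0
          linarith [h1.2.1]

theorem exists_PB (l : ℕ) (hl : l ≠ 0) : ∃ K, PB (10 * l) K := by
  induction l using induction_on_primes with
  | zero => exact absurd rfl hl
  | one => exact ⟨1, PB_base⟩
  | prime_mul p a hp ih =>
    have ha : a ≠ 0 := by
      rintro rfl; simp at hl
    obtain ⟨K, hK⟩ := ih ha
    rw [show 10 * (p * a) = p * (10 * a) by ring]
    exact ⟨_, PB_step hp (by omega) (Dvd.intro a rfl) hK⟩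

end Run7.h365.FV
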