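import Pool.Agent.Run7.h365.FV.Six

/-!
# Hodge characters with six entries: the exceptional ones come from the third outcome
-/

set_option autoImplicit false
set_option linter.unusedSectionVars false

namespace Run7.h365.FV

open Finset Pool.Agent.H916R2 Pool.Agent.Y2 Pool.Agent.Y2.Cv Pool.Agent.Y2.Cw

/-- the element of order ten -/
lemma ord_ten {d l c : ℕ} (hl : d = 10 * l) (hd : d ≠ 0) (h10 : d ∣ 10 * c) (h2 : ¬ d ∣ 2 * c)
    (h5 : ¬ d ∣ 5 * c) : ∃ τ, (τ = 1 ∨ τ = 3 ∨ τ = 7 ∨ τ = 9) ∧ c ≡ l * τ [MOD d] := by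
  have hndc : ¬ d ∣ c := fun h => h2 (h.mul_left 2)
  obtain ⟨y, hy1, hy2, hy3⟩ := ord_val hd (by norm_num : 0 < 10) h10 hndc
  have h1 : c % d = l * y := by
    have : 10 * (c % d) = 10 * (l * y) := by rw [hy3, hl]; ring
    omega
  have h2' : ¬ 2 ∣ y := by
    rintro ⟨v, rfl⟩
    apply h5
    rw [← dvd_mod, h1, hl]
    exact ⟨v, by ring⟩
  have h5' : ¬ 5 ∣ y := by
    rintro ⟨v, rfl⟩
    apply h2
    rw [← dvd_mod, h1, hl]
    exact ⟨v, by ring⟩
  refine ⟨y, by omega, ?_⟩
  rw [← h1]
  exact (Nat.mod_modEq c d).symm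

/-- the size of the exceptional part -/
lemma out10_card {d : ℕ} (hd : d ≠ 0) {A1 A2 : Multiset ℕ} (h : Out10 d A1 A2) :
    5 ≤ Multiset.card A1 := by
  obtain ⟨c, h10d, h10c, h2c, h5c, hS, -⟩ := h
  obtain ⟨l, hl⟩ := h10d
  have hl0 : 0 < l := by
    rcases Nat.eq_zero_or_pos l with h | h
    · rw [h] at hl; simp at hl; exact absurd hl hd
    · exact h
  obtain ⟨τ, hτ, hc⟩ := ord_ten hl hd h10c h2c h5c
  obtain ⟨z, hz, hzc⟩ := exists_unit hd c
  have hg : Nat.gcd c d = l := by
    have h1 : Nat.gcd c d = Nat.gcd (l * τ) d := Nat.ModEq.gcd_eq hc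
    rw [h1, hl, mul_comm 10 l, Nat.gcd_mul_left]
    have : Nat.gcd τ 10 = 1 := by rcases hτ with rfl | rfl | rfl | rfl <;> norm_num
    rw [this, mul_one]
  rw [hg] at hzc
  have h1 := hS z hz
  rw [sv_per hzc] at h1
  have hnd : ¬ d ∣ l := by
    intro h
    have := Nat.le_of_dvd hl0 h
    omega
  have h2 : sv d l = 2 * (l : ℤ) - d := by
    rw [sv_of hnd, Nat.mod_eq_of_lt (by omega)]
  have h3 := SW_abs hd A1 z
  rw [h1, h2, hl] at h3
  push_cast at h3
  have h4 : |5 * (2 * (l : ℤ) - 10 * l)| = 40 * l := by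
    rw [show 5 * (2 * (l : ℤ) - 10 * l) = -(40 * l) by ring, abs_neg, abs_of_nonneg (by positivity)]
  rw [h4] at h3
  by_contra hcon
  have h5 : (Multiset.card A1 : ℤ) ≤ 4 := by
    have : Multiset.card A1 ≤ 4 := by omega
    exact_mod_cast this
  have hlz : (0 : ℤ) < l := by exact_mod_cast hl0
  have h6 : (Multiset.card A1 : ℤ) * (10 * l - 1) ≤ 4 * (10 * l - 1) :=
    mul_le_mul_of_nonneg_right h5 (by linarith)
  linarith

theorem six_zero5 : ∀ m : ℕ, m ≠ 0 → m % 2 = 0 →
    ∀ A : Multiset ℕ, Multiset.card A ≤ 6 → (Multiset.card A ≤ 4 ∨ ¬ 11 ∣ m) →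
    (∀ t, Nat.Coprime t m → SW m A t = 0) →
    ∀ (Q : Type) [AddCommGroup Q] (C : ZMod m → Q), OddDist C → KillsC m C → Kills420 m C →
      (A.map fun a : ℕ => C (a : ZMod m)).sum = 0 := by
  intro m
  induction m using Nat.strong_induction_on with
  | _ m ih =>
  intro hm heven A hcard hsmall hrel Q _ C hC hK hK4
  have hN : NeZero m := ⟨hm⟩
  by_cases hg : GoodDegree2 m
  · have h1 := hK 1 m (one_mul m) heven hg A hrel
    simpa only [one_mul] using h1
  by_cases h420 : 420 ∣ m ∧ ∀ p : ℕ, p.Prime → p ∣ m → p = 2 ∨ p = 3 ∨ p = 5 ∨ p = 7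
  · have h1 := hK4 1 m (one_mul m) h420.1 h420.2 A hcard hrel
    simpa only [one_mul] using h1
  obtain ⟨q, hq, ⟨d, hd'⟩, hq11, hmax⟩ := bad_even4 hm h420 heven hg
  have hqd : q * d = m := hd'.symm
  have hqo : q % 2 = 1 := by
    rcases hq.eq_two_or_odd with h | h
    · omega
    · exact h
  have H := mkSetE hq hqo hqd hm heven A hrel
  have hc1 := card_split q A
  have hd := H.hd
  have hdm : d < m := by
    have h4 : 0 < d := Nat.pos_of_ne_zero hd
    rw [← hqd]
    nlinarith
  have hdvd : d ∣ m := Dvd.intro_left q hqd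
  have hNd : NeZero d := ⟨hd⟩
  have hCd : OddDist (fun b : ZMod d => C (iota q b)) := hC.comp_iota hqd
  have hKd : KillsC d (fun b : ZMod d => C (iota q b)) := hK.comp hqd
  have hK4d : Kills420 d (fun b : ZMod d => C (iota q b)) := hK4.comp hqd
  refine step hm hq hqd hq11 hmax hqo heven A hcard hrel Q C hC hK ?_ ?_ ?_
  · unfold quo
    rcases hsmall with h | h
    · left; omega
    · right; exact fun h' => h (h'.trans hdvd)
  · intro B hB hB2 hBrel
    have h5 := ih d hdm hd H.heven
      B hB hB2 hBrel Q (fun b : ZMod d => C (iota q b)) hCd hKd hK4d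
    rw [← h5]
    congr 1
    apply Multiset.map_congr rfl
    intro b _
    rw [iota_natCast hqd]
  · rintro ⟨h11, hout⟩
    have h1 := out10_card hd hout
    rcases hsmall with h | h
    · unfold prt at h1
      omega
    · exact h (by rw [← h11]; exact Dvd.intro d hqd)

/-- The exceptional case. -/
def Exo (m : ℕ) (A : Multiset ℕ) : Prop := ∃ d, 11 * d = m ∧ ¬ 11 ∣ d ∧ Out10 d (prt 11 A) (quo 11 A)

/-- **The entries of a Hodge character with six entries of exact level `m`.** -/
theorem six_zero6 {m : ℕ} (hm : m ≠ 0) (heven : m % 2 = 0) (A : Multiset ℕ)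
    (hcard : Multiset.card A ≤ 6) (hex : ∀ p : ℕ, p.Prime → p ∣ m → ∃ a ∈ A, ¬ p ∣ a)
    (hrel : ∀ t, Nat.Coprime t m → SW m A t = 0) (hexo : ¬ Exo m A)
    (Q : Type) [AddCommGroup Q] (C : ZMod m → Q) (hC : OddDist C) (hK : KillsC m C)
    (hK4 : Kills420 m C) : (A.map fun a : ℕ => C (a : ZMod m)).sum = 0 := by
  have hN : NeZero m := ⟨hm⟩
  by_cases hg : GoodDegree2 m
  · have h1 := hK 1 m (one_mul m) heven hg A hrel
    simpa only [one_mul] using h1
  by_cases h420 : 420 ∣ m ∧ ∀ p : ℕ, p.Prime → p ∣ m → p = 2 ∨ p = 3 ∨ p = 5 ∨ p = 7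
  · have h1 := hK4 1 m (one_mul m) h420.1 h420.2 A hcard hrel
    simpa only [one_mul] using h1
  obtain ⟨q, hq, ⟨d, hd'⟩, hq11, hmax⟩ := bad_even4 hm h420 heven hg
  have hqd : q * d = m := hd'.symm
  have hqo : q % 2 = 1 := by
    rcases hq.eq_two_or_odd with h | h
    · omega
    · exact h
  have H := mkSetE hq hqo hqd hm heven A hrel
  have hc1 := card_split q A
  have hd := H.hd
  have hdm : d < m := by
    have h4 : 0 < d := Nat.pos_of_ne_zero hd
    rw [← hqd]
    nlinarith
  have hdvd : d ∣ m := Dvd.intro_left q hqd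
  have hNd : NeZero d := ⟨hd⟩
  have hCd : OddDist (fun b : ZMod d => C (iota q b)) := hC.comp_iota hqd
  have hKd : KillsC d (fun b : ZMod d => C (iota q b)) := hK.comp hqd
  have hK4d : Kills420 d (fun b : ZMod d => C (iota q b)) := hK4.comp hqd
  obtain ⟨a0, ha0, ha0q⟩ := hex q hq (Dvd.intro d hqd)
  have hpos : 1 ≤ Multiset.card (A.filter fun a => ¬ q ∣ a) := by
    rw [Nat.succ_le_iff, Multiset.card_pos_iff_exists_mem]
    exact ⟨a0, Multiset.mem_filter.mpr ⟨ha0, ha0q⟩⟩
  have hdz : (0 : ℤ) < d := by exact_mod_cast Nat.pos_of_ne_zero hd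
  -- at least two entries prime to `q`
  have htwo : 2 ≤ Multiset.card (A.filter fun a => ¬ q ∣ a) := by
    by_contra hcon
    have h1 : Multiset.card (A.filter fun a => ¬ q ∣ a) = 1 := by omega
    have hbd : ∀ z, |SW d (A.filter fun a => ¬ q ∣ a) z| < d := by
      intro z
      have h2 := SW_abs hd (A.filter fun a => ¬ q ∣ a) z
      rw [h1] at h2
      push_cast at h2
      linarith
    rcases cases3 H hq11 (by omega) with
      h0 | ⟨hnd, ⟨κ, c, hκ, h3d, h3c, hndc, hS1, hS2⟩ | hout | hout⟩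
    · obtain ⟨w, hwp, hwo, hwd, hw⟩ := exists_w4 hq hqd hd hq11 hmax
      have hwc : Nat.Coprime w d := (Nat.Prime.coprime_iff_not_dvd hwp).mpr hwd
      obtain ⟨h3, -⟩ := H.peelE hwo hwp.two_le hwc h0 (by
        rcases hw with hw | hw
        · exact Or.inl hw
        · right
          have h3 : Multiset.card (A.filter fun a => ¬ q ∣ a) * (w / 2) ≤ 6 * (w / 2) :=
            Nat.mul_le_mul_right _ (by omega)
          omega)
      have h4 := H.hrel 1 (Nat.coprime_one_left m)
      rw [h3 1 (Nat.coprime_one_left d), mul_zero, add_zero] at h4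
      obtain ⟨x, hx⟩ := Multiset.card_eq_one.mp h1
      have hxq : ¬ q ∣ x := by
        have : x ∈ A.filter fun a => ¬ q ∣ a := by rw [hx]; exact Multiset.mem_singleton_self x
        exact (Multiset.mem_filter.mp this).2
      rw [hx, SW_sv hm, Multiset.map_singleton, Multiset.sum_singleton, one_mul] at h4
      have hqm : q ∣ m := Dvd.intro d hqd
      by_cases hmx : m ∣ x
      · exact hxq (hqm.trans hmx)
      · rw [sv_of hmx] at h4
        have h5 : 2 * (x % m) = m := by omega
        have h6 : q ∣ 2 * (x % m) := by rw [h5]; exact hqm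
        have h7 : q ∣ x % m := by
          rcases (Nat.Prime.dvd_mul hq).mp h6 with h | h
          · have := Nat.le_of_dvd (by norm_num) h
            omega
          · exact h
        exact hxq ((Nat.dvd_mod_iff hqm).mp h7)
    · have h2 := hbd 1
      rw [hS1 1 (Nat.coprime_one_left d), one_mul, abs_mul, Nat.abs_cast] at h2
      have h4 : 3 * |sv d c| = d := by
        rcases sv_three hd h3c hndc with h | h
        · have : 0 < sv d c := by linarith
          rw [abs_of_pos this]; exact h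
        · have : sv d c < 0 := by linarith
          rw [abs_of_neg this]; linarith
      have h5 : 5 ≤ (q - 1) / 2 * κ := by
        have : 5 ≤ (q - 1) / 2 := by omega
        rcases hκ with rfl | rfl <;> omega
      have h6 : (5 : ℤ) ≤ (((q - 1) / 2 * κ : ℕ) : ℤ) := by exact_mod_cast h5
      have h7 := abs_nonneg (sv d c)
      nlinarith
    · obtain ⟨hq19, c, h3d, h3c, hndc, hS1, hS2⟩ := hout
      have h2 := hbd 1
      rw [hS1 1 (Nat.coprime_one_left d), one_mul, abs_mul] at h2
      have h4 : 3 * |sv d c| = d := by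
        rcases sv_three hd h3c hndc with h | h
        · have : 0 < sv d c := by linarith
          rw [abs_of_pos this]; exact h
        · have : sv d c < 0 := by linarith
          rw [abs_of_neg this]; linarith
      norm_num at h2
      linarith
    · have := out10_card hd hout.2
      omega
  refine step hm hq hqd hq11 hmax hqo heven A hcard hrel Q C hC hK ?_ ?_ ?_
  · unfold quo
    left; omega
  · intro B hB hB2 hBrel
    have h5 := six_zero5 d hd H.heven
      B hB hB2 hBrel Q (fun b : ZMod d => C (iota q b)) hCd hKd hK4d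
    rw [← h5]
    congr 1
    apply Multiset.map_congr rfl
    intro b _
    rw [iota_natCast hqd]
  · rintro ⟨h11, hout⟩
    subst h11
    rcases cases3 H hq11 (by omega) with h0 | ⟨hnd, -⟩
    · have h1 := out10_card hd hout
      obtain ⟨c, h10d, h10c, h2c, h5c, hS, -⟩ := hout
      have h2 := hS 1 (Nat.coprime_one_left d)
      rw [show prt 11 A = A.filter fun a => ¬ 11 ∣ a from rfl,
        h0 1 (Nat.coprime_one_left d), one_mul] at h2
      have hndc : ¬ d ∣ c := fun h => h2c (h.mul_left 2)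
      have h3 : sv d c = 0 := by linarith
      rw [sv_of hndc] at h3
      apply h2c
      have h4 : 2 * (c % d) = d := by omega
      have h5 : 2 * c ≡ 2 * (c % d) [MOD d] := (Nat.mod_modEq c d).symm.mul_left 2
      rw [h4] at h5
      exact (Nat.modEq_zero_iff_dvd).mp (h5.trans ((Nat.modEq_zero_iff_dvd).mpr dvd_rfl))
    · exact hexo ⟨d, hqd, hnd, hout⟩

end Run7.h365.FV
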