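import Pool.Agent.Run7.h365.FV.Prj2
import Pool.Agent.Run7.h365.FV.Six2

/-!
# The entries of the exceptional part
-/

set_option autoImplicit false
set_option linter.unusedSectionVars false

namespace Run7.h365.FV

open Finset Pool.Agent.H916R2 Pool.Agent.Y2 Pool.Agent.Y2.Cv Pool.Agent.Y2.Cw

/-- the projection of an element of order ten -/
lemma PJ_ord {l : ℕ} (hl : l ≠ 0) (τ σ : ℕ) :
    PJ (10 * l) τ (l * σ) = l * GG (10 * l) τ σ := by
  unfold PJ GG
  rw [mul_sum]
  refine sum_congr rfl fun z _ => ?_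
  rw [show z * (l * σ) = l * (z * σ) by ring,
    sv_level (q := l) (d := 10) (by omega) (by ring)]
  ring

lemma sum_PJ {d : ℕ} (hd : d ≠ 0) (τ : ℕ) (A : Multiset ℕ) :
    (A.map (PJ d τ)).sum = ∑ z ∈ UU d, sv 10 (z * τ) * SW d A z := by
  induction A using Multiset.induction_on with
  | empty =>
    simp [SW]
  | cons a A ih =>
    rw [Multiset.map_cons, Multiset.sum_cons, ih]
    unfold PJ
    rw [← sum_add_distrib]
    refine sum_congr rfl fun z _ => ?_
    rw [SW_sv hd, SW_sv hd, Multiset.map_cons, Multiset.sum_cons]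
    ring

lemma GG_same {τ : ℕ} (hτ : τ = 1 ∨ τ = 3 ∨ τ = 7 ∨ τ = 9) : GG 10 τ τ = 160 := by
  rcases hτ with rfl | rfl | rfl | rfl <;> decide +kernel

lemma GG_diff {τ σ : ℕ} (hτ : τ = 1 ∨ τ = 3 ∨ τ = 7 ∨ τ = 9)
    (hσ : σ = 1 ∨ σ = 3 ∨ σ = 7 ∨ σ = 9) (h : σ ≠ τ) : GG 10 τ σ ≤ 0 := by
  rcases hτ with rfl | rfl | rfl | rfl <;> rcases hσ with rfl | rfl | rfl | rfl <;>
    first
    | exact absurd rfl h
    | decide +kernel

lemma cop_of10 {τ : ℕ} (hτ : τ = 1 ∨ τ = 3 ∨ τ = 7 ∨ τ = 9) : Nat.Coprime τ 10 := by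
  rcases hτ with rfl | rfl | rfl | rfl <;> norm_num

lemma sum_le' {s : Multiset ℕ} {f : ℕ → ℤ} {T : ℤ} (h : ∀ b ∈ s, 2 * f b ≤ T) :
    2 * (s.map f).sum ≤ Multiset.card s * T := by
  induction s using Multiset.induction_on with
  | empty => simp
  | cons a s ih =>
    rw [Multiset.map_cons, Multiset.sum_cons, Multiset.card_cons]
    have h1 := ih fun b hb => h b (Multiset.mem_cons_of_mem hb)
    have h2 := h a (Multiset.mem_cons_self a s)
    push_cast
    linarith

theorem split10 {l : ℕ} (hl : l ≠ 0) {τ : ℕ} (hτ : τ = 1 ∨ τ = 3 ∨ τ = 7 ∨ τ = 9)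
    (B : Multiset ℕ) (hcard : Multiset.card B ≤ 6)
    (hrel : ∀ z, Nat.Coprime z (10 * l) → SW (10 * l) B z = 5 * sv (10 * l) (z * (l * τ))) :
    ∃ B1 B2, B = B1 + B2 ∧ (∀ b ∈ B1, b ≡ l * τ [MOD 10 * l]) ∧
      ((Multiset.card B1 = 4 ∧ Multiset.card B2 = 2 ∧ ∀ b ∈ B2, 10 * l ∣ 60 * b) ∨
       (Multiset.card B1 = 5 ∧ Multiset.card B2 ≤ 1 ∧ ∀ b ∈ B2, 10 * l ∣ 2 * b)) := by
  obtain ⟨K, P⟩ := exists_PB l hl
  have hd : 10 * l ≠ 0 := by omega
  have hlz : (0 : ℤ) < l := by exact_mod_cast Nat.pos_of_ne_zero hl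
  have hK := P.pos
  set T : ℤ := 16 * ((10 * l : ℕ) : ℤ) * K with hT
  have hT0 : 0 < T := by rw [hT]; push_cast; positivity
  have hTe : PJ (10 * l) τ (l * τ) = T := by
    rw [PJ_ord hl, P.gg, GG_same hτ, hT]; push_cast; ring
  have hcop := cop_of10 hτ
  refine ⟨B.filter fun b => b ≡ l * τ [MOD 10 * l], B.filter fun b => ¬ b ≡ l * τ [MOD 10 * l],
    (Multiset.filter_add_not _ B).symm, fun b hb => (Multiset.mem_filter.mp hb).2, ?_⟩
  set B1 := B.filter fun b => b ≡ l * τ [MOD 10 * l] with hB1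
  set B2 := B.filter fun b => ¬ b ≡ l * τ [MOD 10 * l] with hB2
  have hB : B1 + B2 = B := Multiset.filter_add_not _ B
  have hc12 : Multiset.card B1 + Multiset.card B2 = Multiset.card B := by
    rw [← Multiset.card_add, hB]
  have hm1 : ∀ b ∈ B1, b ≡ l * τ [MOD 10 * l] := fun b hb => (Multiset.mem_filter.mp hb).2
  have hm2 : ∀ b ∈ B2, ¬ b ≡ l * τ [MOD 10 * l] := fun b hb => (Multiset.mem_filter.mp hb).2
  -- the sum of the projections
  have hsum : (B.map (PJ (10 * l) τ)).sum = 5 * T := by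
    rw [sum_PJ hd, ← hTe]
    unfold PJ
    rw [mul_sum]
    refine sum_congr rfl fun z hz => ?_
    unfold UU at hz
    rw [hrel z (mem_filter.mp hz).2]
    ring
  have hsum1 : (B1.map (PJ (10 * l) τ)).sum = Multiset.card B1 * T := by
    rw [Multiset.map_congr rfl fun b hb => show PJ (10 * l) τ b = T by
      rw [PJ_per_y (hm1 b hb), hTe], Multiset.map_const', Multiset.sum_replicate, nsmul_eq_mul]
  have hle : ∀ b ∈ B2, 2 * PJ (10 * l) τ b ≤ T := by
    intro b hb
    by_cases ho : Ord10 (10 * l) b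
    · obtain ⟨σ, hσ, hbσ⟩ := ord_ten rfl hd ho.1 ho.2.1 ho.2.2
      have hne : σ ≠ τ := by
        rintro rfl; exact hm2 b hb hbσ
      rw [PJ_per_y hbσ, PJ_ord hl, P.gg]
      have h1 := GG_diff hτ hσ hne
      have h2 : (l : ℤ) * (K * GG 10 τ σ) ≤ 0 :=
        mul_nonpos_of_nonneg_of_nonpos hlz.le (mul_nonpos_of_nonneg_of_nonpos hK.le h1)
      linarith
    · have h1 := P.bC τ hcop b ho
      have h2 := le_abs_self (PJ (10 * l) τ b)
      linarith
  have hsum2 := sum_le' hle
  have htot : (B1.map (PJ (10 * l) τ)).sum + (B2.map (PJ (10 * l) τ)).sum = 5 * T := by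
    rw [← Multiset.sum_add, ← Multiset.map_add, hB, hsum]
  rw [hsum1] at htot
  have hn : 4 ≤ Multiset.card B1 := by
    by_contra hcon
    have h1 : (Multiset.card B1 : ℤ) ≤ 3 := by
      have : Multiset.card B1 ≤ 3 := by omega
      exact_mod_cast this
    have h2 : (Multiset.card B1 : ℤ) + Multiset.card B2 ≤ 6 := by
      have : Multiset.card B1 + Multiset.card B2 ≤ 6 := by omega
      exact_mod_cast this
    have h3 : (2 * (Multiset.card B1 : ℤ) + Multiset.card B2) * T ≤ 9 * T :=
      mul_le_mul_of_nonneg_right (by linarith) hT0.le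
    linarith
  -- the relation between the entries of the rest
  have hrest : ∀ z, Nat.Coprime z (10 * l) → SW (10 * l) B2 z =
      (5 - Multiset.card B1) * sv (10 * l) (z * (l * τ)) := by
    intro z hz
    have h1 := hrel z hz
    rw [← hB, SW_sv hd, Multiset.map_add, Multiset.sum_add, ← SW_sv hd B2] at h1
    have h2 : (B1.map fun a => sv (10 * l) (z * a)).sum =
        Multiset.card B1 * sv (10 * l) (z * (l * τ)) := by
      rw [Multiset.map_congr rfl fun b hb => show sv (10 * l) (z * b) =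
        sv (10 * l) (z * (l * τ)) from sv_per ((hm1 b hb).mul_left z), Multiset.map_const',
        Multiset.sum_replicate, nsmul_eq_mul]
    rw [h2] at h1
    linear_combination h1
  have hcne : sv (10 * l) (l * τ) ≠ 0 := by
    rw [mul_comm 10 l, sv_level (q := l) (d := 10) (by omega) rfl]
    apply mul_ne_zero hlz.ne'
    rcases hτ with rfl | rfl | rfl | rfl <;> decide
  have h1 : Multiset.card B1 = 4 ∨ Multiset.card B1 = 5 ∨ Multiset.card B1 = 6 := by omega
  rcases h1 with h1 | h1 | h1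
  · left
    have h2 : Multiset.card B2 = 2 := by
      by_contra hcon
      have h3 : (Multiset.card B2 : ℤ) ≤ 1 := by
        have : Multiset.card B2 ≤ 1 := by omega
        exact_mod_cast this
      rw [h1] at htot
      have h4 : (Multiset.card B2 : ℤ) * T ≤ 1 * T := mul_le_mul_of_nonneg_right h3 hT0.le
      push_cast at htot
      linarith
    refine ⟨h1, h2, ?_⟩
    obtain ⟨x, y, hxy⟩ := Multiset.card_eq_two.mp h2
    rw [h1, hxy] at htot
    rw [hxy] at hle
    simp only [Multiset.insert_eq_cons, Multiset.map_cons, Multiset.map_singleton,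
      Multiset.sum_cons, Multiset.sum_singleton] at htot
    push_cast at htot
    have hx := hle x (by simp)
    have hy := hle y (by simp)
    have key : ∀ b, 2 * PJ (10 * l) τ b = T → 10 * l ∣ 60 * b := by
      intro b hb
      by_contra hcon
      have h3 := P.bD τ hcop b hcon
      have h4 := le_abs_self (PJ (10 * l) τ b)
      linarith
    intro b hb
    rw [hxy] at hb
    simp only [Multiset.insert_eq_cons, Multiset.mem_cons, Multiset.mem_singleton] at hb
    rcases hb with rfl | rfl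
    · exact key _ (by linarith)
    · exact key _ (by linarith)
  · right
    refine ⟨h1, by omega, fun b hb => ?_⟩
    have h2 : Multiset.card B2 = 1 := by
      have : 0 < Multiset.card B2 := Multiset.card_pos_iff_exists_mem.mpr ⟨b, hb⟩
      omega
    obtain ⟨x, hx⟩ := Multiset.card_eq_one.mp h2
    have h3 := hrest 1 (Nat.coprime_one_left _)
    rw [hx, SW_sv hd, Multiset.map_singleton, Multiset.sum_singleton, one_mul, h1] at h3
    rw [hx, Multiset.mem_singleton] at hb
    subst hb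
    push_cast at h3
    by_contra hcon
    have hnd : ¬ 10 * l ∣ b := fun h => hcon (h.mul_left 2)
    have h4 : sv (10 * l) b = 0 := by linarith
    rw [sv_of hnd] at h4
    apply hcon
    have h5 : 2 * (b % (10 * l)) = 10 * l := by omega
    have h6 : 2 * b ≡ 2 * (b % (10 * l)) [MOD 10 * l] := (Nat.mod_modEq b _).symm.mul_left 2
    rw [h5] at h6
    exact (Nat.modEq_zero_iff_dvd).mp (h6.trans ((Nat.modEq_zero_iff_dvd).mpr dvd_rfl))
  · exfalso
    have h2 : Multiset.card B2 = 0 := by omega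
    rw [Multiset.card_eq_zero] at h2
    have h3 := hrest 1 (Nat.coprime_one_left _)
    rw [h2, h1, one_mul] at h3
    have h4 : SW (10 * l) 0 1 = 0 := by simp [SW]
    rw [h4] at h3
    push_cast at h3
    apply hcne
    linarith

end Run7.h365.FV
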