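import Pool.Agent.Run7.h365.CM.Defs
import Pool.Agent.H916K.Defs
import Pool.Agent.Y2.Cv.Defs

/-!
# Fermat varieties over the rational numbers: definitions

The Fermat variety of dimension `2 r` and degree `m` is the hypersurface
`x_0 ^ m + ... + x_(2 r + 1) ^ m = 0`. Over the complex numbers the primitive part of its cohomology of
degree `2 r` is the sum of the lines `V(a)` of the tuples `a` of `2 r + 2` nonzero residues modulo `m`
with sum zero. If `M` is the order of `a`, then `V(a)` comes from the Fermat variety of degree `M`, and
the Galois group of the field of `M`-th roots of unity acts on `V(a)` by a character; the lines of the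
multiples of `a` by the units modulo `M` are conjugate.
-/

set_option autoImplicit false

namespace Run7.h365.FV

open Pool.Agent.H916R2 (Generated)
open Pool.Agent.H916K (RationalClass)
open Pool.Agent.Y2.Cv (SurfaceOrCurveProduct)

/-- The equation of the Fermat variety of dimension `2 r` and degree `m`, in `2 r + 2` variables, over
the ring of integers of the field of rational numbers. -/
def fermatEq (r m : ℕ) : Set (MvPolynomial (Fin (2 * r + 1 + 1)) (NumberField.RingOfIntegers ℚ)) :=
  {∑ i, MvPolynomial.X i ^ m}

/-- The characters of exact level `M` of the Fermat varieties of dimension `2 r`: the tuples `a` of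
`2 r + 2` nonzero residues modulo `M`, with sum zero and of the order `M`. -/
structure IsCharacter {r M : ℕ} (a : Fin (2 * r + 1 + 1) → ZMod M) : Prop where
  ne_zero : ∀ i, a i ≠ 0
  sum_eq : ∑ i, a i = 0
  level : addOrderOf a = M

/-- The Galois group of the field of `M`-th roots of unity acts trivially on `V(a)(r)`: at all but
finitely many primes the Frobenius eigenvalue `q⁻¹ * ∏ g(χ ^ a_i)` is `q ^ r`. -/
def IsRational {r M : ℕ} (a : Fin (2 * r + 1 + 1) → ZMod M) : Prop :=
  RationalClass M (Finset.univ.val.map fun i => (a i, (1 : ℤ)))

/-- The dimension of the space of the classes of degree `2 j` in the cohomology of the Fermat variety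
over the field of rational numbers, twisted by `j`, on which the Galois group acts trivially: the
number one, for the power of the hyperplane class, and for `j = r` also the number of the orbits of
the rational characters of the levels `M` dividing `m` under the units modulo `M` (every orbit has
`φ(M)` elements). -/
noncomputable def rank (r m j : ℕ) : ℕ :=
  1 + if j = r then ∑ M ∈ m.divisors,
    Nat.card {a : Fin (2 * r + 1 + 1) → ZMod M // IsCharacter a ∧ IsRational a} / M.totient else 0

/-- The line of the character `s` of level `M` is algebraic by the known constructions: for some
`k > 0` the character `k s` of degree `k M` belongs to the family generated by the pairs `{a, -a}`, the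
standard characters (Aoki, Shioda), the Hodge characters with four entries (Lefschetz) and the curve
products, under unions and the removal of pairs (Shioda). -/
def IsGenerated (M : ℕ) (s : Multiset (ZMod M)) : Prop :=
  ∃ k : ℕ, 0 < k ∧ Generated (k * M) (SurfaceOrCurveProduct (k * M))
    (s.map fun a => ((k * a.val : ℕ) : ZMod (k * M)))

end Run7.h365.FV
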