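import Pool.Agent.Run7.h365.FV.Tate
import Pool.Agent.Run7.h365.FV.Stm

/-!
# The rank
-/

set_option autoImplicit false
set_option linter.unusedSectionVars false

namespace Run7.h365.FV

open Finset NumberField IsDedekindDomain Filter
open Pool.Agent.H916K (RationalClass)
open Run7.h365.CM (IsTriv HasPole)

variable {n m M : ℕ}

theorem rep_mk_smul [NeZero M] (b : PT n M) : ∃ c : (ZMod M)ˣ, c • rep (Quotient.mk _ b : Orb n M) = b := by
  have h1 : (MulAction.orbitRel (ZMod M)ˣ (PT n M)) b (rep (Quotient.mk _ b : Orb n M)) := by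
    apply Quotient.exact
    exact (Quotient.out_eq _).symm
  obtain ⟨c, hc⟩ := h1
  exact ⟨c, hc⟩

theorem Pw_smul_iff [NeZero M] (c : (ZMod M)ˣ) (b : PT n M) : Pw (c • b).1 ↔ Pw b.1 := by
  constructor
  · intro h
    have h1 := Pw_smul c⁻¹ h
    have h2 : (fun i => ((c⁻¹ : (ZMod M)ˣ) : ZMod M) * (c • b).1 i) = b.1 := by
      have h3 := congrArg Subtype.val (inv_smul_smul c b)
      exact h3
    rwa [h2] at h1
  · intro h
    exact Pw_smul c h

theorem card_Pw [NeZero M] : Nat.card {b : PT n M // Pw b.1} =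
    Nat.card {ω : Orb n M // Pw (rep ω).1} * M.totient := by
  have h1 : Nat.card (ZMod M)ˣ = M.totient := by
    rw [Nat.card_eq_fintype_card, ZMod.card_units_eq_totient]
  rw [← h1, ← Nat.card_prod]
  symm
  have hmk : ∀ (ω : Orb n M) (c : (ZMod M)ˣ),
      (Quotient.mk _ (c • rep ω) : Orb n M) = ω := by
    intro ω c
    conv_rhs => rw [← Quotient.out_eq ω]
    apply Quotient.sound
    exact ⟨c, rfl⟩
  refine Nat.card_congr (Equiv.ofBijective
    (fun x : {ω : Orb n M // Pw (rep ω).1} × (ZMod M)ˣ =>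
      (⟨x.2 • rep x.1.1, (Pw_smul_iff x.2 _).2 x.1.2⟩ : {b : PT n M // Pw b.1})) ⟨?_, ?_⟩)
  · rintro ⟨⟨ω, hω⟩, c⟩ ⟨⟨ω', hω'⟩, c'⟩ h
    have h0 : c • rep ω = c' • rep ω' := congrArg Subtype.val h
    have h1 : ω = ω' := by rw [← hmk ω c, h0, hmk]
    subst h1
    have h2 : (c'⁻¹ * c) • rep ω = rep ω := by rw [mul_smul, h0, inv_smul_smul]
    have h3 := free _ _ h2
    rw [inv_mul_eq_one] at h3
    rw [h3]
  · rintro ⟨b, hb⟩
    obtain ⟨c, hc⟩ := rep_mk_smul b
    have h2 : Pw (rep (Quotient.mk _ b : Orb n M)).1 := by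
      rw [← hc, Pw_smul_iff] at hb
      exact hb
    exact ⟨(⟨_, h2⟩, c), Subtype.ext hc⟩

/-- the full tuple as an additive map -/
def fullHom (n M : ℕ) : (Fin n → ZMod M) →+ (Fin (n + 1) → ZMod M) where
  toFun := full
  map_zero' := by
    funext i
    refine Fin.cases ?_ (fun j => ?_) i
    · simp [full]
    · simp [full]
  map_add' b b' := by
    funext i
    refine Fin.cases ?_ (fun j => ?_) i
    · simp only [full, Fin.cons_zero, Pi.add_apply, sum_add_distrib, neg_add]
    · simp only [full, Fin.cons_succ, Pi.add_apply]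

theorem full_inj : Function.Injective (fullHom n M) := by
  intro b b' h
  funext i
  have h1 := congrFun h i.succ
  exact h1

theorem order_full (b : Fin n → ZMod M) : addOrderOf (full b) = addOrderOf b :=
  addOrderOf_injective (fullHom n M) full_inj b

theorem full_tail {a : Fin (n + 1) → ZMod M} (ha : ∑ i, a i = 0) : full (Fin.tail a) = a := by
  funext i
  refine Fin.cases ?_ (fun j => ?_) i
  · change -∑ i, Fin.tail a i = a 0
    rw [Fin.sum_univ_succ] at ha
    have h1 : ∑ i, Fin.tail a i = ∑ i : Fin n, a i.succ := rfl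
    rw [h1]
    exact (eq_neg_of_add_eq_zero_left ha).symm
  · rfl

variable {r : ℕ}

theorem isCharacter_full {b : Fin (2 * r + 1) → ZMod M} :
    IsCharacter (full b) ↔ Good b ∧ addOrderOf b = M := by
  constructor
  · intro h
    refine ⟨⟨fun i => h.ne_zero i.succ, ?_⟩, by rw [← order_full]; exact h.level⟩
    have h1 := h.ne_zero 0
    change -∑ i, b i ≠ 0 at h1
    rwa [neg_ne_zero] at h1
  · rintro ⟨h1, h2⟩
    refine ⟨fun i => ?_, ?_, by rw [order_full]; exact h2⟩
    · refine Fin.cases ?_ (fun j => ?_) i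
      · change -∑ i, b i ≠ 0
        rw [neg_ne_zero]
        exact h1.2
      · exact h1.1 j
    · rw [Fin.sum_univ_succ]
      change -∑ i, b i + ∑ i, b i = 0
      exact neg_add_cancel _

theorem isRational_full [NeZero M] {b : Fin (2 * r + 1) → ZMod M} :
    IsRational (full b) ↔ Pw b := rational_iff_Pw b

theorem card_char [NeZero M] :
    Nat.card {a : Fin (2 * r + 1 + 1) → ZMod M // IsCharacter a ∧ IsRational a} =
      Nat.card {b : PT (2 * r + 1) M // Pw b.1} := by
  symm
  refine Nat.card_congr (Equiv.ofBijective (fun b : {b : PT (2 * r + 1) M // Pw b.1} =>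
    (⟨full b.1.1, isCharacter_full.2 b.1.2, isRational_full.2 b.2⟩ :
      {a : Fin (2 * r + 1 + 1) → ZMod M // IsCharacter a ∧ IsRational a})) ⟨?_, ?_⟩)
  · rintro ⟨⟨b, hb⟩, hb'⟩ ⟨⟨b', hb1⟩, hb2⟩ h
    have h1 : full b = full b' := congrArg Subtype.val h
    have h2 := full_inj (n := 2 * r + 1) h1
    subst h2
    rfl
  · rintro ⟨a, ha1, ha2⟩
    have h1 := full_tail ha1.sum_eq
    rw [← h1] at ha1 ha2
    exact ⟨⟨⟨Fin.tail a, isCharacter_full.1 ha1⟩, isRational_full.1 ha2⟩, Subtype.ext h1⟩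

theorem card_option {X : Type} [Finite X] (P : Option X → Prop) (h : P none) :
    Nat.card {j : Option X // P j} = 1 + Nat.card {x : X // P (some x)} := by
  rw [add_comm, ← Finite.card_option]
  symm
  refine Nat.card_congr (Equiv.ofBijective
    (fun j : Option {x : X // P (some x)} =>
      (j.elim (⟨none, h⟩ : {j : Option X // P j}) fun x => ⟨some x.1, x.2⟩)) ⟨?_, ?_⟩)
  · rintro (_ | ⟨x, hx⟩) (_ | ⟨y, hy⟩) hxy
    · rfl
    · have h1 := congrArg Subtype.val hxy
      simp at h1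
    · have h1 := congrArg Subtype.val hxy
      simp at h1
    · have h1 := congrArg Subtype.val hxy
      simp only [Option.elim_some, Option.some.injEq] at h1
      subst h1
      rfl
  · rintro ⟨_ | x, hx⟩
    · exact ⟨none, rfl⟩
    · exact ⟨some ⟨x, hx⟩, rfl⟩

theorem card_triv (hr : 0 < r) :
    Nat.card {j : Idx (2 * r + 1) m // IsTriv (psiJ j)} =
      1 + ∑ M ∈ m.divisors,
        Nat.card {a : Fin (2 * r + 1 + 1) → ZMod M // IsCharacter a ∧ IsRational a} / M.totient := by
  have hodd : Odd (2 * r + 1) := odd_two_mul_add_one r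
  have h0 : IsTriv (psiJ (none : Idx (2 * r + 1) m)) := by
    intro 𝔞 h𝔞
    by_cases h0 : 𝔞 = 0
    · exact absurd (by rw [h0, map_zero]) h𝔞
    · exact Pool.Agent.Y772.NZ.one_ne (LL 1) h0
  rw [card_option (fun j : Idx (2 * r + 1) m => IsTriv (psiJ j)) h0]
  congr 1
  have h1 : ∀ x : Σ M : D m, Orb (2 * r + 1) M.1, IsTriv (psiJ (some x : Idx (2 * r + 1) m)) ↔
      Pw (rep x.2).1 := by
    intro x
    change IsTriv (psi x.1.1 (ff x.1.1) (rep x.2).1 ((2 * r + 1 + 1) / 2)) ↔ _
    rw [triv_iff hodd (by omega) (rep x.2).2.1, rational_iff_Pw]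
  have h2 : Nat.card {x : Σ M : D m, Orb (2 * r + 1) M.1 //
      IsTriv (psiJ (some x : Idx (2 * r + 1) m))} =
      Nat.card (Σ M : D m, {ω : Orb (2 * r + 1) M.1 // Pw (rep ω).1}) := by
    refine Nat.card_congr
      { toFun := fun x => ⟨x.1.1, x.1.2, (h1 x.1).1 x.2⟩
        invFun := fun x => ⟨⟨x.1, x.2.1⟩, (h1 _).2 x.2.2⟩
        left_inv := fun _ => rfl
        right_inv := fun _ => rfl }
  rw [h2, Nat.card_sigma]
  have h3 : ∀ M : D m, Nat.card {ω : Orb (2 * r + 1) M.1 // Pw (rep ω).1} =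
      Nat.card {a : Fin (2 * r + 1 + 1) → ZMod M.1 // IsCharacter a ∧ IsRational a} /
        M.1.totient := by
    intro M
    rw [card_char, card_Pw, Nat.mul_div_cancel _ (Nat.totient_pos.2 (NeZero.pos M.1))]
  rw [sum_congr rfl fun M _ => h3 M]
  exact sum_coe_sort m.divisors (fun M =>
    Nat.card {a : Fin (2 * r + 1 + 1) → ZMod M // IsCharacter a ∧ IsRational a} / M.totient)

/-- **The order of the pole is the rank.** -/
theorem hasPole (hm : 0 < m) (hr : 0 < r) {j : ℕ} (hj : j ≤ 2 * r) :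
    HasPole (K := ℚ) (fermatEq r m) (2 * r) j (rank r m j) := by
  have hodd : Odd (2 * r + 1) := odd_two_mul_add_one r
  refine ⟨⟨_, exists_euler (n := 2 * r + 1) hm hodd (2 * j)⟩, fun N B hB => ?_⟩
  unfold rank
  by_cases hjr : j = r
  · subst hjr
    rw [if_pos rfl, ← card_triv hr]
    exact order_middle (n := 2 * j + 1) hm hodd (by omega) hB
  · rw [if_neg hjr]
    exact order_other (n := 2 * r + 1) hm hodd hj (by omega) hB

end Run7.h365.FV
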