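import Pool.Agent.Run7.h365.FV.Abs

/-!
# Power residue characters
-/

set_option autoImplicit false
set_option linter.unusedSectionVars false

namespace Run7.h365.FV

open Finset NumberField IsDedekindDomain UniqueFactorizationMonoid

section gen

variable {A : Type} [CommRing A] [IsDomain A] [CharZero A] {κ : Type} [Field κ] [Fintype κ]
  [DecidableEq κ] {N n : ℕ} [NeZero N] {ζ : A}

omit [DecidableEq κ] [Fintype κ] in
theorem prim_map (hζ : IsPrimitiveRoot ζ N) (φ : A →+* κ) (hN : (N : κ) ≠ 0) :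
    IsPrimitiveRoot (φ ζ) N := by
  have : NeZero (N : κ) := ⟨hN⟩
  have : NeZero (N : A) := ⟨by exact_mod_cast NeZero.ne N⟩
  rw [← Polynomial.isRoot_cyclotomic_iff]
  have h1 := (Polynomial.isRoot_cyclotomic_iff.2 hζ).map (f := φ)
  rwa [Polynomial.map_cyclotomic] at h1

theorem dvd_card (hζ : IsPrimitiveRoot ζ N) (φ : A →+* κ) (hN : (N : κ) ≠ 0) :
    N ∣ Fintype.card κ - 1 := by
  have h := prim_map hζ φ hN
  refine h.dvd_of_pow_eq_one _ ?_
  exact FiniteField.pow_card_sub_one_eq_one _ (h.ne_zero (NeZero.ne N))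

/-- `χ` is the `N`-th power residue character of `κ` for the homomorphism `φ` -/
def IsRes (N : ℕ) (φ : A →+* κ) (χ : MulChar κ A) : Prop :=
  orderOf χ = N ∧ ∀ x : κ, x ≠ 0 → φ (χ x) = x ^ ((Fintype.card κ - 1) / N)

theorem exists_isRes (hζ : IsPrimitiveRoot ζ N) (φ : A →+* κ) (hN : (N : κ) ≠ 0) :
    ∃ χ : MulChar κ A, IsRes N φ χ := by
  have hdvd := dvd_card hζ φ hN
  have hN0 : N ≠ 0 := NeZero.ne N
  have hq1 : 1 < Fintype.card κ := Fintype.one_lt_card
  obtain ⟨χ0, hχ0⟩ := MulChar.exists_mulChar_orderOf κ hdvd hζ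
  obtain ⟨g, hg⟩ := IsCyclic.exists_generator (α := κˣ)
  have hgord : orderOf g = Fintype.card κ - 1 := by
    rw [orderOf_eq_card_of_forall_mem_zpowers hg, Nat.card_eq_fintype_card, Fintype.card_units]
  have hgen : ∀ x : κ, x ≠ 0 → ∃ k : ℕ, (g : κ) ^ k = x := by
    intro x hx
    obtain ⟨k, hk⟩ := (IsOfFinOrder.mem_powers_iff_mem_zpowers (isOfFinOrder_of_finite g)).mpr
      (hg (Units.mk0 x hx))
    exact ⟨k, by rw [← Units.val_pow_eq_pow_val]; simpa using congrArg Units.val hk⟩
  have hg0 : (g : κ) ≠ 0 := g.ne_zero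
  set ξ : A := χ0 (g : κ) with hξ
  have hξN : ξ ^ N = 1 := by
    rw [hξ, ← chi_pow hg0, ← hχ0, pow_orderOf_eq_one]
    exact MulChar.one_apply_coe g
  have hξprim : IsPrimitiveRoot ξ N := by
    refine ⟨hξN, fun l hl => ?_⟩
    rw [← hχ0]
    apply orderOf_dvd_of_pow_eq_one
    ext x
    obtain ⟨k, hk⟩ := hgen x x.ne_zero
    rw [MulChar.one_apply_coe, chi_pow x.ne_zero, ← hk, map_pow, ← pow_mul, mul_comm, pow_mul, hl,
      one_pow]
  have hφξ := prim_map hξprim φ hN
  set e := (Fintype.card κ - 1) / N with he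
  have heN : e * N = Fintype.card κ - 1 := Nat.div_mul_cancel hdvd
  have he0 : 0 < e := by
    rcases Nat.eq_zero_or_pos e with h | h
    · rw [h, zero_mul] at heN; omega
    · exact h
  obtain ⟨i, _, hi⟩ := hφξ.eq_pow_of_pow_eq_one (ξ := (g : κ) ^ e) (by
    rw [← pow_mul, heN, ← hgord, ← Units.val_pow_eq_pow_val, pow_orderOf_eq_one, Units.val_one])
  have hmain : ∀ x : κ, x ≠ 0 → φ ((χ0 ^ i) x) = x ^ e := by
    intro x hx
    obtain ⟨k, rfl⟩ := hgen x hx
    rw [chi_pow hx, map_pow, map_pow, map_pow, ← pow_mul, mul_comm k i, pow_mul]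
    have h2 : φ (χ0 (g : κ)) ^ i = (g : κ) ^ e := hi
    rw [h2, ← pow_mul, ← pow_mul, mul_comm]
  refine ⟨χ0 ^ i, ?_, hmain⟩
  apply Nat.dvd_antisymm
  · rw [← hχ0]; exact orderOf_pow_dvd i
  · have h1 := hmain g hg0
    have h2 : ((g : κ) ^ e) ^ orderOf (χ0 ^ i) = 1 := by
      rw [← h1, ← map_pow, ← chi_pow hg0, pow_orderOf_eq_one, MulChar.one_apply_coe, map_one]
    have h3 : orderOf g ∣ e * orderOf (χ0 ^ i) := by
      apply orderOf_dvd_of_pow_eq_one
      apply Units.ext
      rw [Units.val_pow_eq_pow_val, pow_mul, h2]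
      rfl
    rw [hgord, ← heN] at h3
    exact Nat.dvd_of_mul_dvd_mul_left he0 h3

theorem IsRes.unique {φ : A →+* κ} (hζ : IsPrimitiveRoot ζ N) (hN : (N : κ) ≠ 0)
    {χ χ' : MulChar κ A} (h : IsRes N φ χ) (h' : IsRes N φ χ') : χ = χ' := by
  ext x
  have hx := x.ne_zero
  have h1 : φ (χ x) = φ (χ' x) := by rw [h.2 _ hx, h'.2 _ hx]
  have hroot : ∀ χ : MulChar κ A, orderOf χ = N → (χ x) ^ N = 1 := by
    intro χ hχ
    rw [← chi_pow hx, ← hχ, pow_orderOf_eq_one]
    exact MulChar.one_apply_coe x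
  obtain ⟨i, hi, hi'⟩ := hζ.eq_pow_of_pow_eq_one (hroot χ h.1)
  obtain ⟨j, hj, hj'⟩ := hζ.eq_pow_of_pow_eq_one (hroot χ' h'.1)
  rw [← hi', ← hj', map_pow, map_pow] at h1
  have := (prim_map hζ φ hN).pow_inj hi hj h1
  rw [← hi', ← hj', this]

theorem orderOf_comp {R R' : Type} [CommRing R] [CommRing R'] {f : R →+* R'}
    (hf : Function.Injective f) (χ : MulChar κ R) : orderOf (χ.ringHomComp f) = orderOf χ :=
  orderOf_injective (MulChar.ringHomCompHom f) (MulChar.injective_ringHomComp hf) χ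

/-- powers of the residue character -/
theorem PP_pow {R : Type} [CommRing R] {χ : MulChar κ R} (hχ : orderOf χ = N) {c : ZMod N}
    (hc : IsUnit c) (b : Fin n → ZMod N) : PP (χ ^ c.val) b = PP χ (fun i => c * b i) := by
  unfold PP JJ
  have h1 : ∀ a : ZMod N, (χ ^ c.val) ^ a.val = χ ^ (c * a).val := by
    intro a
    rw [← pow_mul, pow_eq_pow_iff_modEq, hχ, ← ZMod.natCast_eq_natCast_iff]
    push_cast
    simp
  simp_rw [h1]
  congr 1
  have h2 : b = 0 ↔ (fun i => c * b i) = 0 := by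
    rw [funext_iff, funext_iff]
    simp only [Pi.zero_apply, hc.mul_right_eq_zero]
  simp only [h2]

end gen

/-! ### multiplicative functions on ideals -/

section ext

variable {A : Type} [CommRing A] [IsDedekindDomain A] {R : Type} [CommRing R]

/-- the multiplicative function with given values at the primes -/
noncomputable def mulExt (f : Ideal A → R) : Ideal A →*₀ R where
  toFun I := by
    classical
    exact if I = 0 then 0 else ((normalizedFactors I).map f).prod
  map_zero' := by simp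
  map_one' := by
    rw [if_neg one_ne_zero, normalizedFactors_one, Multiset.map_zero, Multiset.prod_zero]
  map_mul' I J := by
    classical
    by_cases hI : I = 0
    · simp [hI]
    by_cases hJ : J = 0
    · simp [hJ]
    rw [if_neg hI, if_neg hJ, if_neg (mul_ne_zero hI hJ), normalizedFactors_mul hI hJ,
      Multiset.map_add, Multiset.prod_add]

theorem mulExt_apply (f : Ideal A → R) {I : Ideal A} (hI : I ≠ 0) :
    mulExt f I = ((normalizedFactors I).map f).prod := by
  classical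
  change (if I = 0 then 0 else ((normalizedFactors I).map f).prod) = _
  rw [if_neg hI]

theorem mulExt_prime (f : Ideal A → R) (v : HeightOneSpectrum A) :
    mulExt f v.asIdeal = f v.asIdeal := by
  have h1 : v.asIdeal ≠ 0 := v.ne_bot
  rw [mulExt_apply f h1, normalizedFactors_irreducible (v.prime.irreducible), Multiset.map_singleton,
    Multiset.prod_singleton, normalize_eq]

theorem mem_factors {I J : Ideal A} (hJ : J ∈ normalizedFactors I) :
    ∃ v : HeightOneSpectrum A, v.asIdeal = J ∧ I ≤ J := by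
  have h1 : Prime J := prime_of_normalized_factor J hJ
  exact ⟨⟨J, Ideal.isPrime_of_prime h1, h1.ne_zero⟩, rfl,
    Ideal.dvd_iff_le.1 (dvd_of_mem_normalizedFactors hJ)⟩

end ext

end Run7.h365.FV
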