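import Pool.Agent.Run7.h365.FV.HDv
import Pool.Agent.Run7.h365.FV.Lev
import Pool.Agent.Run7.h365.FV.Eng

/-!
# Roots of a complex number, and the primes of the rational numbers
-/

set_option autoImplicit false
set_option linter.unusedSectionVars false

namespace Run7.h365.FV

open Finset NumberField IsDedekindDomain

/-! ### the roots of a number -/

section rts

/-- the `f`-th roots of `a` -/
noncomputable def rts (f : ℕ) (a : ℂ) : Multiset ℂ :=
  (Multiset.range f).map fun i =>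
    Complex.exp (2 * Real.pi * Complex.I / f) ^ i * a ^ ((f : ℂ)⁻¹)

variable {f : ℕ} {a : ℂ}

theorem card_rts : Multiset.card (rts f a) = f := by
  unfold rts
  rw [Multiset.card_map, Multiset.card_range]

theorem pow_rts (hf : f ≠ 0) {z : ℂ} (hz : z ∈ rts f a) : z ^ f = a := by
  obtain ⟨i, _, rfl⟩ := Multiset.mem_map.1 hz
  rw [mul_pow, ← pow_mul, mul_comm i f, pow_mul, (Complex.isPrimitiveRoot_exp f hf).pow_eq_one,
    one_pow, one_mul, Complex.cpow_nat_inv_pow _ hf]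

theorem sum_rts (hf : f ≠ 0) (a : ℂ) (e : ℕ) :
    ((rts f a).map fun z => z ^ e).sum = if f ∣ e then (f : ℂ) * a ^ (e / f) else 0 := by
  set ζ := Complex.exp (2 * Real.pi * Complex.I / f) with hζdef
  have hζ : IsPrimitiveRoot ζ f := Complex.isPrimitiveRoot_exp f hf
  have h1 : ((rts f a).map fun z => z ^ e).sum =
      ∑ i ∈ range f, (ζ ^ e) ^ i * (a ^ ((f : ℂ)⁻¹)) ^ e := by
    unfold rts
    rw [Multiset.map_map]
    change ∑ i ∈ range f, (ζ ^ i * a ^ ((f : ℂ)⁻¹)) ^ e = _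
    refine sum_congr rfl fun i _ => ?_
    rw [mul_pow, ← pow_mul, ← pow_mul, mul_comm i e]
  rw [h1, ← sum_mul]
  split_ifs with h
  · obtain ⟨r, rfl⟩ := h
    have h2 : ζ ^ (f * r) = 1 := by rw [pow_mul, hζ.pow_eq_one, one_pow]
    rw [h2, pow_mul, Complex.cpow_nat_inv_pow _ hf, Nat.mul_div_cancel_left _
      (Nat.pos_of_ne_zero hf)]
    simp
  · have h2 : ζ ^ e ≠ 1 := fun h3 => h (hζ.dvd_of_pow_eq_one e h3)
    have h3 := geom_sum_mul (ζ ^ e) f
    rw [← pow_mul, mul_comm e f, pow_mul, hζ.pow_eq_one, one_pow, sub_self] at h3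
    rw [(mul_eq_zero.1 h3).resolve_right (sub_ne_zero.2 h2), zero_mul]

theorem prod_rts (hf : f ≠ 0) (a x : ℂ) :
    ((rts f a).map fun z => 1 - z * x).prod = 1 - a * x ^ f := by
  set ζ := Complex.exp (2 * Real.pi * Complex.I / f) with hζdef
  have hζ : IsPrimitiveRoot ζ f := Complex.isPrimitiveRoot_exp f hf
  have h1 : ((rts f a).map fun z => 1 - z * x).prod =
      ∏ i ∈ range f, (1 - ζ ^ i * (a ^ ((f : ℂ)⁻¹) * x)) := by
    unfold rts
    rw [Multiset.map_map]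
    change ∏ i ∈ range f, (1 - (ζ ^ i * a ^ ((f : ℂ)⁻¹)) * x) = _
    refine prod_congr rfl fun i _ => ?_
    rw [mul_assoc]
  have h2 : ∏ i ∈ range f, (1 - ζ ^ i * (a ^ ((f : ℂ)⁻¹) * x)) =
      ∏ z ∈ Polynomial.nthRootsFinset f (1 : ℂ), (1 - z * (a ^ ((f : ℂ)⁻¹) * x)) := by
    refine prod_bij (fun i _ => ζ ^ i) ?_ ?_ ?_ ?_
    · intro i _
      rw [Polynomial.mem_nthRootsFinset (Nat.pos_of_ne_zero hf), ← pow_mul, mul_comm, pow_mul,
        hζ.pow_eq_one, one_pow]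
    · intro i hi j hj h
      exact hζ.pow_inj (mem_range.1 hi) (mem_range.1 hj) h
    · intro z hz
      rw [Polynomial.mem_nthRootsFinset (Nat.pos_of_ne_zero hf)] at hz
      have : NeZero f := ⟨hf⟩
      obtain ⟨i, hi, hi'⟩ := hζ.eq_pow_of_pow_eq_one hz
      exact ⟨i, mem_range.2 hi, hi'⟩
    · intro i _
      rfl
  rw [h1, h2, ← hζ.pow_sub_pow_eq_prod_sub_mul _ _ (Nat.pos_of_ne_zero hf), one_pow, mul_pow,
    Complex.cpow_nat_inv_pow _ hf]

end rts

/-! ### the primes of the rational numbers -/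

section rat

theorem gen_eq {p : ℕ} (hp : p.Prime) {v : HeightOneSpectrum (𝓞 ℚ)} (h : (p : 𝓞 ℚ) ∈ v.asIdeal) :
    Rat.HeightOneSpectrum.natGenerator v = p := by
  have h1 : Rat.HeightOneSpectrum.natGenerator v ∣ p := by
    rw [Rat.HeightOneSpectrum.natGenerator_dvd_iff,
      ← map_natCast (Rat.IsIntegralClosure.intEquiv (𝓞 ℚ)) p, Ideal.apply_mem_of_equiv_iff]
    exact h
  exact ((Nat.dvd_prime hp).1 h1).resolve_left
    (Rat.HeightOneSpectrum.prime_natGenerator v).one_lt.ne'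

theorem gen_mem (v : HeightOneSpectrum (𝓞 ℚ)) :
    ((Rat.HeightOneSpectrum.natGenerator v : ℕ) : 𝓞 ℚ) ∈ v.asIdeal := by
  have h1 := (Rat.HeightOneSpectrum.natGenerator_dvd_iff v
    (n := Rat.HeightOneSpectrum.natGenerator v)).1 dvd_rfl
  rwa [← map_natCast (Rat.IsIntegralClosure.intEquiv (𝓞 ℚ)), Ideal.apply_mem_of_equiv_iff] at h1

theorem eq_of_mem {p : ℕ} (hp : p.Prime) {v v' : HeightOneSpectrum (𝓞 ℚ)}
    (h : (p : 𝓞 ℚ) ∈ v.asIdeal) (h' : (p : 𝓞 ℚ) ∈ v'.asIdeal) : v = v' := by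
  apply (Rat.HeightOneSpectrum.primesEquiv (R := 𝓞 ℚ)).injective
  exact Subtype.ext ((gen_eq hp h).trans (gen_eq hp h').symm)

theorem absNorm_gen (v : HeightOneSpectrum (𝓞 ℚ)) :
    Ideal.absNorm v.asIdeal = Rat.HeightOneSpectrum.natGenerator v := by
  have h2 : Ideal.absNorm v.asIdeal ∣
      Ideal.absNorm (Ideal.span {((Rat.HeightOneSpectrum.natGenerator v : ℕ) : 𝓞 ℚ)}) :=
    Ideal.absNorm_dvd_absNorm_of_le ((Ideal.span_singleton_le_iff_mem _).mpr (gen_mem v))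
  rw [Ideal.absNorm_span_natCast, RingOfIntegers.rank, Module.finrank_self, pow_one] at h2
  have h3 : Ideal.absNorm v.asIdeal ≠ 1 := by
    intro h
    exact v.isPrime.ne_top (Ideal.absNorm_eq_one_iff.1 h)
  exact ((Nat.dvd_prime (Rat.HeightOneSpectrum.prime_natGenerator v)).1 h2).resolve_left h3

theorem absNorm_prime (v : HeightOneSpectrum (𝓞 ℚ)) : (Ideal.absNorm v.asIdeal).Prime := by
  rw [absNorm_gen]
  exact Rat.HeightOneSpectrum.prime_natGenerator v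

theorem absNorm_mem (v : HeightOneSpectrum (𝓞 ℚ)) :
    ((Ideal.absNorm v.asIdeal : ℕ) : 𝓞 ℚ) ∈ v.asIdeal := by
  rw [absNorm_gen]
  exact gen_mem v

theorem und_iff {L : Type} [Field L] [NumberField L] {v : HeightOneSpectrum (𝓞 ℚ)}
    {w : HeightOneSpectrum (𝓞 L)} :
    und ℚ w = v ↔ ((Ideal.absNorm v.asIdeal : ℕ) : 𝓞 L) ∈ w.asIdeal := by
  have h1 : ∀ k : ℕ, (k : 𝓞 ℚ) ∈ (und ℚ w).asIdeal ↔ (k : 𝓞 L) ∈ w.asIdeal := by
    intro k
    change algebraMap (𝓞 ℚ) (𝓞 L) (k : 𝓞 ℚ) ∈ w.asIdeal ↔ _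
    rw [map_natCast]
  constructor
  · rintro rfl
    rw [← h1]
    exact absNorm_mem _
  · intro h
    rw [← h1] at h
    exact eq_of_mem (absNorm_prime v) h (absNorm_mem v)

end rat

end Run7.h365.FV
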