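import Pool.Agent.Y2.Cw.EvenH4

/-!
# Hodge characters with six entries: the exceptional ones of the levels divisible by 110
-/

set_option autoImplicit false
set_option linter.unusedSectionVars false

namespace Run7.h365.FV

open Finset Pool.Agent.H916R2 Pool.Agent.Y2 Pool.Agent.Y2.Cv Pool.Agent.Y2.Cw

/-- the part of the entries prime to `q` -/
def prt (q : ℕ) (A : Multiset ℕ) : Multiset ℕ := A.filter fun a => ¬ q ∣ a

/-- the other part, divided by `q` -/
def quo (q : ℕ) (A : Multiset ℕ) : Multiset ℕ := (A.filter fun a => q ∣ a).map fun a => a / q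

theorem step {m q d : ℕ} (hm : m ≠ 0) (hq : q.Prime) (hqd : q * d = m) (hq11 : 11 ≤ q)
    (hmax : ∀ r : ℕ, r.Prime → r ∣ m → r ≤ q)
    (hqo : q % 2 = 1) (heven : m % 2 = 0)
    (A : Multiset ℕ) (hcard : Multiset.card A ≤ 6) (hrel : ∀ t, Nat.Coprime t m → SW m A t = 0)
    (Q : Type) [AddCommGroup Q] (C : ZMod m → Q) (hC : OddDist C) (hK : KillsC m C)
    (hsz : Multiset.card (quo q A) ≤ 4 ∨ ¬ 11 ∣ d)
    (hIH : ∀ B : Multiset ℕ, Multiset.card B ≤ 6 → (Multiset.card B ≤ 4 ∨ ¬ 11 ∣ d) →
      (∀ t, Nat.Coprime t d → SW d B t = 0) →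
      (B.map fun b : ℕ => C ((q * b : ℕ) : ZMod m)).sum = 0)
    (hno : ¬ (q = 11 ∧ Out10 d (prt q A) (quo q A))) :
    (A.map fun a : ℕ => C (a : ZMod m)).sum = 0 := by
  have hN : NeZero m := ⟨hm⟩
  unfold prt quo at hno
  unfold quo at hsz
  have H := mkSetE hq hqo hqd hm heven A hrel
  have hc1 := card_split q A
  have hd := H.hd
  have hdvd : d ∣ m := Dvd.intro_left q hqd
  have hNd : NeZero d := ⟨hd⟩
  rcases cases3 H hq11 (by omega) with
    h0 | ⟨hnd, ⟨κ, c, hκ, h3d, h3c, hndc, hS1, hS2⟩ | hout | hout⟩
  · -- the part prime to `q` has zero sums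
    obtain ⟨w, hwp, hwo, hwd, hw⟩ := exists_w4 hq hqd hd hq11 hmax
    have hwc : Nat.Coprime w d := (Nat.Prime.coprime_iff_not_dvd hwp).mpr hwd
    obtain ⟨h1, h2⟩ := H.peelE hwo hwp.two_le hwc h0 (by
      rcases hw with hw | hw
      · exact Or.inl hw
      · right
        have h3 : Multiset.card (A.filter fun a => ¬ q ∣ a) * (w / 2) ≤ 6 * (w / 2) :=
          Nat.mul_le_mul_right _ (by omega)
        omega)
    rw [split_sumE (q := q), h2 Q C hC, zero_add]
    exact hIH _ (by omega) hsz h1
  · -- exceptional outcome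
    obtain ⟨l, hl⟩ := h3d
    have hl3 : l * 3 = d := by rw [hl]; ring
    have hl0 : 0 < l := by
      rcases Nat.eq_zero_or_pos l with h | h
      · rw [h] at hl; simp at hl; exact absurd hl hd
      · exact h
    have hle : 2 ∣ l := by
      have := H.heven
      omega
    obtain ⟨k, hk⟩ := hle
    -- `c ≡ τ l`
    obtain ⟨τ, hτ, hcτ⟩ : ∃ τ, (τ = 1 ∨ τ = 2) ∧ c ≡ l * τ [MOD d] := by
      obtain ⟨y, hy1, hy2, hy3⟩ := ord_val hd three_pos h3c hndc
      refine ⟨y, by omega, ?_⟩
      have h1 : c % d = l * y := by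
        have : 3 * (c % d) = 3 * (l * y) := by rw [hy3, hl]; ring
        omega
      rw [← h1]
      exact (Nat.mod_modEq c d).symm
    have hq1113 : q = 11 ∨ q = 13 := by
      rcases hS2 with ⟨h, _⟩ | ⟨h, _⟩
      · exact Or.inr h
      · exact Or.inl h
    have hsvl : ∀ z, sv d (z * c) = l * sv 3 (z * τ) := by
      intro z
      rw [← sv_level hd hl3, sv_per (hcτ.mul_left z)]
      congr 1; ring
    have hcopd : ∀ t, Nat.Coprime t m → Nat.Coprime t d := fun t ht =>
      Nat.Coprime.coprime_dvd_right hdvd ht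
    have hcop3 : ∀ z, Nat.Coprime z d → Nat.Coprime z 3 := fun z hz =>
      Nat.Coprime.coprime_dvd_right (Dvd.intro_left l hl3) hz
    -- general comparison
    have hcompare : ∀ (E : Multiset ℕ) (n : ℕ), n = (q - 1) / 2 → (∀ x ∈ E, ¬ q ∣ x) →
        (∀ z, Nat.Coprime z 3 → SW 3 E z = n * sv 3 (z * τ)) →
        (∀ t, Nat.Coprime t m → SW m (A.filter fun a => ¬ q ∣ a) t =
          κ * (l * SW (q * 3) E t)) →
        ((A.filter fun a => ¬ q ∣ a).map fun a : ℕ => C (a : ZMod m)).sum =
          κ • (E.map fun x : ℕ => C ((l * x : ℕ) : ZMod m)).sum := by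
      intro E n hn hE hE3 hEm
      have hlm : l * (q * 3) = m := by rw [← hqd, hl]; ring
      have hqc : Nat.Coprime q d := (Nat.Prime.coprime_iff_not_dvd hq).mpr hnd
      have hB : ∀ x ∈ κ • (E.map fun x => l * x), ¬ q ∣ x := by
        intro x hx h
        rw [Multiset.mem_nsmul] at hx
        obtain ⟨y, hy, rfl⟩ := Multiset.mem_map.mp hx.2
        rcases (Nat.Prime.dvd_mul hq).mp h with h | h
        · exact hnd (by rw [hl]; exact h.mul_left 3)
        · exact hE y hy h
      have h1 := kill2 hq (Dvd.intro d hqd) hm (factor_pos hq (Dvd.intro d hqd) hm (by omega))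
        (A := A.filter fun a => ¬ q ∣ a) (B := κ • (E.map fun x => l * x)) H.hA hB (by
          intro j t ht
          rcases Nat.eq_zero_or_pos j with rfl | hj
          · rw [pow_zero, one_mul, hEm t ht, SW_nsmul, SW_lmul hm hlm]
          · obtain ⟨i, rfl⟩ : ∃ i, j = i + 1 := ⟨j - 1, by omega⟩
            have hc : Nat.Coprime (q ^ i * t) d := Nat.Coprime.mul_left
              (Nat.Coprime.pow_left _ hqc) (hcopd t ht)
            rw [show q ^ (i + 1) * t = q * (q ^ i * t) by ring, SW_level hm hqd, SW_level hm hqd,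
              hS1 _ hc, hsvl, SW_nsmul, SW_lmul hd hl3, hE3 _ (hcop3 _ hc), hn]
            push_cast
            ring) Q C hC
      rw [h1, Multiset.map_nsmul, Multiset.sum_nsmul, Multiset.map_map]
      rfl
    rw [split_sumE (q := q)]
    rcases hS2 with ⟨hq13, hA2⟩ | ⟨hq11', hA2⟩
    · subst hq13
      obtain ⟨E, hE1, hE2, hE3⟩ := exists_E13 τ hτ
      have h1 := hcompare E 6 rfl hE1 (fun z hz => by rw [hE3 z hz]; norm_num) (by
        intro t ht
        have h2 := H.hrel t ht
        rw [hA2 t (hcopd t ht), mul_zero, add_zero] at h2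
        have h39 : Nat.Coprime t 39 :=
          Nat.Coprime.coprime_dvd_right (by rw [← hqd, hl]; exact ⟨l, by ring⟩) ht
        rw [h2, hE2 t h39]
        ring)
      have h2 := lower_lev2 (l := l) (k := k) (e := 39) (d := d) (m := m)
        (by rw [← hqd, hl]; ring) hk.symm hm hK good78' E hE2 rfl
      rw [h1, h2, smul_zero, zero_add]
      exact hIH _ (by omega) hsz hA2
    · subst hq11'
      obtain ⟨E, hE1, hE2, hE3⟩ := exists_E11 τ hτ
      have h1 := hcompare E 5 rfl hE1 (fun z hz => by rw [hE3 z hz]; norm_num) (by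
        intro t ht
        have h2 := H.hrel t ht
        rw [hA2 t (hcopd t ht), hsvl] at h2
        have h33 : Nat.Coprime t 33 :=
          Nat.Coprime.coprime_dvd_right (by rw [← hqd, hl]; exact ⟨l, by ring⟩) ht
        rw [hE2 t h33]
        push_cast at h2
        linear_combination h2)
      have hadd : Multiset.card ((A.filter fun a => 11 ∣ a).map fun a => a / 11) + κ ≤ 6 := by
        have h2 := hS1 1 (Nat.coprime_one_left d)
        have h3 := SW_abs hd (A.filter fun a => ¬ 11 ∣ a) 1
        rw [h2, one_mul, abs_mul, Nat.abs_cast] at h3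
        have hdz : (0 : ℤ) < d := by exact_mod_cast Nat.pos_of_ne_zero hd
        have h4 : 3 * |sv d c| = d := by
          rcases sv_three hd h3c hndc with h | h
          · have : 0 < sv d c := by linarith
            rw [abs_of_pos this]; exact h
          · have : sv d c < 0 := by linarith
            rw [abs_of_neg this]; linarith
        rcases hκ with rfl | rfl
        · push_cast at h3
          have h5 : 5 * (d : ℤ) ≤ 3 * (Multiset.card (A.filter fun a => ¬ 11 ∣ a) * ((d : ℤ) - 1)) := by
            linarith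
          have h6 : 2 ≤ Multiset.card (A.filter fun a => ¬ 11 ∣ a) := by
            by_contra hcon
            have h7 : (Multiset.card (A.filter fun a => ¬ 11 ∣ a) : ℤ) ≤ 1 := by
              have : Multiset.card (A.filter fun a => ¬ 11 ∣ a) ≤ 1 := by omega
              exact_mod_cast this
            have h8 : (Multiset.card (A.filter fun a => ¬ 11 ∣ a) : ℤ) * ((d : ℤ) - 1) ≤
                1 * ((d : ℤ) - 1) := mul_le_mul_of_nonneg_right h7 (by omega)
            linarith
          omega
        · push_cast at h3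
          have h5 : 10 * (d : ℤ) ≤ 3 * (Multiset.card (A.filter fun a => ¬ 11 ∣ a) * ((d : ℤ) - 1)) := by
            linarith
          have h6 : 4 ≤ Multiset.card (A.filter fun a => ¬ 11 ∣ a) := by
            by_contra hcon
            have h7 : (Multiset.card (A.filter fun a => ¬ 11 ∣ a) : ℤ) ≤ 3 := by
              have : Multiset.card (A.filter fun a => ¬ 11 ∣ a) ≤ 3 := by omega
              exact_mod_cast this
            have h8 : (Multiset.card (A.filter fun a => ¬ 11 ∣ a) : ℤ) * ((d : ℤ) - 1) ≤
                3 * ((d : ℤ) - 1) := mul_le_mul_of_nonneg_right h7 (by omega)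
            linarith
          omega
      have h2 := hIH (((A.filter fun a => 11 ∣ a).map fun a => a / 11) + κ • {c})
        (by rw [Multiset.card_add, Multiset.card_nsmul, Multiset.card_singleton]; simpa using hadd)
        (Or.inr hnd)
        (by
          intro t ht
          rw [SW_add, SW_nsmul, hA2 t ht, SW_sv hd {c}, Multiset.map_singleton,
            Multiset.sum_singleton]
          ring)
      rw [Multiset.map_add, Multiset.sum_add, Multiset.map_nsmul, Multiset.sum_nsmul,
        Multiset.map_singleton, Multiset.sum_singleton] at h2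
      -- the relation of level 33
      have h3 := lower_lev2 (l := l) (k := k) (e := 33) (d := d) (m := m)
        (by rw [← hqd, hl]; ring) hk.symm hm hK good66' (E + {11 * (3 - τ)}) (by
          intro t ht
          rw [SW_add, hE2 t ht, SW_sv (by norm_num) {11 * (3 - τ)}, Multiset.map_singleton,
            Multiset.sum_singleton]
          have h4 := sv_level (q := 11) (d := 3) (m := 33) (by norm_num) (by norm_num)
            (t * (3 - τ))
          have h5 : t * (11 * (3 - τ)) = 11 * (t * (3 - τ)) := by ring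
          rw [h5, h4]
          have h6 : sv 3 (t * (3 - τ)) = - sv 3 (t * τ) := by
            apply sv_neg (by norm_num)
            have : t * τ + t * (3 - τ) = 3 * t := by
              rcases hτ with rfl | rfl
              · norm_num; ring
              · norm_num; ring
            rw [this]; exact Dvd.intro t rfl
          rw [h6]; push_cast; ring) rfl
      rw [Multiset.map_add, Multiset.sum_add, Multiset.map_singleton,
        Multiset.sum_singleton] at h3
      have h4 : ((l * (11 * (3 - τ)) : ℕ) : ZMod m) = - ((11 * c : ℕ) : ZMod m) := by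
        have h5 : 11 * c ≡ 11 * (l * τ) [MOD m] := by
          have := Nat.ModEq.mul_left' 11 hcτ
          rwa [hqd] at this
        have h6 : ((11 * c : ℕ) : ZMod m) = ((11 * (l * τ) : ℕ) : ZMod m) :=
          (ZMod.natCast_eq_natCast_iff _ _ _).mpr h5
        rw [h6]
        have h7 : ((l * (11 * (3 - τ)) + 11 * (l * τ) : ℕ) : ZMod m) = 0 := by
          rw [ZMod.natCast_eq_zero_iff, ← hqd, hl]
          rcases hτ with rfl | rfl
          · exact ⟨1, by norm_num; ring⟩
          · exact ⟨1, by norm_num; ring⟩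
        rw [Nat.cast_add] at h7
        exact eq_neg_of_add_eq_zero_left h7
      rw [h4, hC.neg] at h3
      have h5 : (E.map fun x : ℕ => C ((l * x : ℕ) : ZMod m)).sum = C ((11 * c : ℕ) : ZMod m) := by
        have := h3
        rwa [← sub_eq_add_neg, sub_eq_zero] at this
      rw [h1, h5, add_comm]
      exact h2
  · -- the second exceptional outcome
    obtain ⟨hq19, c, h3d, h3c, hndc, hS1, hS2⟩ := hout
    subst hq19
    obtain ⟨l, hl⟩ : ∃ l, d = 6 * l := ⟨d / 6, by have := H.heven; omega⟩
    have hl6 : l * 6 = d := by rw [hl]; ring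
    have hl0 : 0 < l := by
      rcases Nat.eq_zero_or_pos l with h | h
      · rw [h] at hl; simp at hl; exact absurd hl hd
      · exact h
    have hlm : l * 114 = m := by rw [← hqd, hl]; ring
    obtain ⟨τ, hτ, hcτ⟩ : ∃ τ, (τ = 1 ∨ τ = 2) ∧ c ≡ l * (2 * τ) [MOD d] := by
      obtain ⟨y, hy1, hy2, hy3⟩ := ord_val hd three_pos h3c hndc
      refine ⟨y, by omega, ?_⟩
      have h1 : c % d = l * (2 * y) := by
        have : 3 * (c % d) = 3 * (l * (2 * y)) := by rw [hy3, hl]; ring
        omega
      rw [← h1]
      exact (Nat.mod_modEq c d).symm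
    have hsvl : ∀ z, sv d (z * c) = l * sv 6 (z * (2 * τ)) := by
      intro z
      rw [← sv_level hd hl6, sv_per (hcτ.mul_left z)]
      congr 1; ring
    have hcopd : ∀ t, Nat.Coprime t m → Nat.Coprime t d := fun t ht =>
      Nat.Coprime.coprime_dvd_right hdvd ht
    have hcop6 : ∀ z, Nat.Coprime z d → Nat.Coprime z 6 := fun z hz =>
      Nat.Coprime.coprime_dvd_right (Dvd.intro_left l hl6) hz
    obtain ⟨E, hE1, hE2, hE3⟩ := exists_E19 τ hτ
    have hqc : Nat.Coprime 19 d := (Nat.Prime.coprime_iff_not_dvd hq).mpr hnd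
    have hB : ∀ x ∈ (E.map fun x => l * x), ¬ 19 ∣ x := by
      intro x hx h
      obtain ⟨y, hy, rfl⟩ := Multiset.mem_map.mp hx
      rcases (Nat.Prime.dvd_mul hq).mp h with h | h
      · exact hnd (by rw [hl]; exact h.mul_left 6)
      · exact hE1 y hy h
    have h1 := kill2 hq (Dvd.intro d hqd) hm (factor_pos hq (Dvd.intro d hqd) hm (by omega))
      (A := A.filter fun a => ¬ 19 ∣ a) (B := E.map fun x => l * x) H.hA hB (by
        intro j t ht
        rcases Nat.eq_zero_or_pos j with rfl | hj
        · have h2 := H.hrel t ht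
          rw [hS2 t (hcopd t ht), mul_zero, add_zero] at h2
          rw [pow_zero, one_mul, h2, SW_lmul hm hlm,
            hE2 t (Nat.Coprime.coprime_dvd_right (Dvd.intro_left l hlm) ht), mul_zero]
        · obtain ⟨i, rfl⟩ : ∃ i, j = i + 1 := ⟨j - 1, by omega⟩
          have hc : Nat.Coprime (19 ^ i * t) d := Nat.Coprime.mul_left
            (Nat.Coprime.pow_left _ hqc) (hcopd t ht)
          rw [show 19 ^ (i + 1) * t = 19 * (19 ^ i * t) by ring, SW_level hm hqd, SW_level hm hqd,
            hS1 _ hc, hsvl, SW_lmul hd hl6, hE3 _ (hcop6 _ hc)]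
          ring) Q C hC
    have h2 := hK l 114 hlm (by norm_num) good114 E hE2
    rw [split_sumE (q := 19), h1, Multiset.map_map]
    have h3 : (E.map ((fun b : ℕ => C (b : ZMod m)) ∘ fun x => l * x)).sum = 0 := h2
    rw [h3, zero_add]
    exact hIH _ (by omega) hsz hS2

  · exact absurd hout hno

end Run7.h365.FV
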