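import Pool.Agent.Run7.h365.FV.Mod
import Pool.Agent.Run7.h365.FV.Int
import Pool.Agent.Y145.DI.Stick

/-!
# The `p`-adic absolute values of the Jacobi sums (Stickelberger)
-/

set_option autoImplicit false
set_option linter.unusedSectionVars false

namespace Run7.h365.FV

open Finset NumberField IsDedekindDomain UniqueFactorizationMonoid
open Pool.Agent.Y145.DI (expo norm_gauss_eq norm_p_lt)

section loc

variable {p : ℕ} [Fact p.Prime] {N n : ℕ} [NeZero N] {κ : Type} [Field κ] [Fintype κ]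
  [DecidableEq κ] [CharP κ p]

/-- one Gauss sum -/
theorem norm_factor {f : ℕ} (hcard : Fintype.card κ = p ^ f) (hf : 0 < f)
    (hN : N ∣ Fintype.card κ - 1) {ω : MulChar κ (PadicAlgCl p)} {ψ : AddChar κ (PadicAlgCl p)}
    (hψ : ψ.IsPrimitive) (hψc : ∀ y, ψ (y ^ p) = ψ y)
    (hω : ‖((p : ℕ) : PadicAlgCl p)‖ ≤ ‖gaussSum ω⁻¹ ψ‖ ^ (p - 1))
    (ho : orderOf ω = Fintype.card κ - 1)
    (hT : orderOf (ω ^ ((Fintype.card κ - 1) / N)) = N) (a : ZMod N) :
    ‖gaussSum ((ω ^ ((Fintype.card κ - 1) / N)) ^ a.val) ψ‖ ^ N =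
      ‖((p : ℕ) : PadicAlgCl p)‖ ^ ∑ s ∈ range f, (-(p : ZMod N) ^ s * a).val := by
  set T := ω ^ ((Fintype.card κ - 1) / N) with hTdef
  have hψ1 : ψ ≠ 1 := by
    rw [← AddChar.mulShift_one ψ]
    exact hψ one_ne_zero
  by_cases ha : a = 0
  · subst ha
    simp [gaussSum_one_left hψ1]
  · have h1 : T ^ a.val = (T ^ (-a).val)⁻¹ := by
      rw [pow_neg_val hT, inv_inv]
    have hna : -a ≠ 0 := by rwa [Ne, neg_eq_zero]
    have hpos : 0 < (-a).val := by
      rcases Nat.eq_zero_or_pos (-a).val with h | h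
      · exact absurd ((ZMod.val_eq_zero _).1 h) hna
      · exact h
    rw [h1, norm_gauss_eq ω ψ hψ hψc hω ho hcard hN hf _ hpos (ZMod.val_lt _)]
    congr 1
    unfold expo
    refine sum_congr rfl fun s _ => ?_
    have h2 : ((-a).val * p ^ s) % N = (((-a).val * p ^ s : ℕ) : ZMod N).val :=
      (ZMod.val_natCast _ _).symm
    rw [h2]
    congr 1
    push_cast
    rw [ZMod.natCast_zmod_val]
    ring

/-- roots of unity with the same residue -/
theorem eq_of_res {k : Type} [Field k] {R : Subring (PadicAlgCl p)} {res : R →+* k}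
    (hNk : (N : k) ≠ 0) {z z' : PadicAlgCl p} (hz : z ^ N = 1) (hz' : z' ^ N = 1)
    (hzR : z ∈ R) (hzR' : z' ∈ R) (h : res ⟨z, hzR⟩ = res ⟨z', hzR'⟩) : z = z' := by
  by_contra hne
  set x : R := ⟨z, hzR⟩ with hx
  set y : R := ⟨z', hzR'⟩ with hy
  have hyN : y ^ N = 1 := Subtype.ext hz'
  have hxN : x ^ N = 1 := Subtype.ext hz
  -- `∑ x ^ i y ^ (N - 1 - i) = 0`
  have h1 : (∑ i ∈ range N, x ^ i * y ^ (N - 1 - i)) * (x - y) = 0 := by
    rw [Commute.geom_sum₂_mul (Commute.all x y), hxN, hyN, sub_self]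
  have hxy : x - y ≠ 0 := by
    rw [sub_ne_zero]
    intro h2
    exact hne (congrArg Subtype.val h2)
  have h2 : ∑ i ∈ range N, x ^ i * y ^ (N - 1 - i) = 0 := by
    rcases mul_eq_zero.1 h1 with h3 | h3
    · exact h3
    · exact absurd h3 hxy
  have h3 := congrArg res h2
  rw [map_sum, map_zero] at h3
  have h4 : ∀ i ∈ range N, res (x ^ i * y ^ (N - 1 - i)) = (res y) ^ (N - 1) := by
    intro i hi
    rw [map_mul, map_pow, map_pow, h, ← pow_add]
    congr 1
    have := mem_range.1 hi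
    omega
  rw [sum_congr rfl h4, sum_const, card_range, nsmul_eq_mul] at h3
  rcases mul_eq_zero.1 h3 with h5 | h5
  · exact hNk h5
  · have h6 : res y = 0 := eq_zero_of_pow_eq_zero h5
    have h7 : res (y ^ N) = 0 := by rw [map_pow, h6, zero_pow (NeZero.ne N)]
    rw [hyN, map_one] at h7
    exact one_ne_zero h7

/-- **Stickelberger's theorem** in terms of a `p`-adic absolute value compatible with the residue
field -/
theorem norm_PP_padic {A : Type} [CommRing A] [IsDomain A] [CharZero A] {φ : A →+* κ}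
    {χ : MulChar κ A} (hχ : IsRes N φ χ) {f : ℕ} (hcard : Fintype.card κ = p ^ f) (hf : 0 < f)
    (hN : N ∣ Fintype.card κ - 1) {k : Type} [Field k] [CharP k p] {R : Subring (PadicAlgCl p)}
    {res : R →+* k}
    (hR : Pool.Agent.W528.HB.IsRes p R res) (e : κ →+* k) (τ : A →+* PadicAlgCl p)
    (hτ : ∀ x, ∃ h : τ x ∈ R, res ⟨τ x, h⟩ = e (φ x)) (b : Fin n → ZMod N) :
    ‖τ (PP χ b)‖ ^ N = ‖((p : ℕ) : PadicAlgCl p)‖ ^ ∑ s ∈ range f, wt (-(p : ZMod N) ^ s) b := by
  obtain ⟨ω, hω⟩ := Pool.Agent.W400.HB.TT.main p k R res hR κ e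
  obtain ⟨⟨ψ, hψ⟩, hprop⟩ := Pool.Agent.W271.HB.AY.main p κ
  obtain ⟨hψ1, hψ2⟩ := hprop ψ hψ
  have hgo := Pool.Agent.W540.HB.GO.main p k R res hR κ e ω hω ψ hψ
  have hq1 : 1 < Fintype.card κ := Fintype.one_lt_card
  -- the order of `ω`
  have ho : orderOf ω = Fintype.card κ - 1 := by
    apply Nat.dvd_antisymm ω.orderOf_dvd_card_sub_one
    obtain ⟨g, hg⟩ := IsCyclic.exists_generator (α := κˣ)
    have h1 : orderOf g = Fintype.card κ - 1 := by
      rw [orderOf_eq_card_of_forall_mem_zpowers hg, Nat.card_eq_fintype_card, Fintype.card_units]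
    rw [← h1]
    apply orderOf_dvd_of_pow_eq_one
    have h2 : ω ((g : κ) ^ orderOf ω) = 1 := by
      rw [map_pow, ← MulChar.pow_apply_coe, pow_orderOf_eq_one, MulChar.one_apply_coe]
    obtain ⟨h3, h4⟩ := hω ((g : κ) ^ orderOf ω)
    have h5 : (⟨ω ((g : κ) ^ orderOf ω), h3⟩ : R) = 1 := Subtype.ext h2
    rw [h5, map_one] at h4
    have h6 : e ((g : κ) ^ orderOf ω) = e 1 := by
      rw [map_one]
      exact h4.symm
    have h7 := e.injective h6
    apply Units.ext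
    rw [Units.val_pow_eq_pow_val, Units.val_one]
    exact h7
  set E := (Fintype.card κ - 1) / N with hE
  have hEN : E * N = Fintype.card κ - 1 := Nat.div_mul_cancel hN
  have hE0 : E ≠ 0 := by
    rintro h
    rw [h, zero_mul] at hEN
    omega
  have hT : orderOf (ω ^ E) = N := by
    rw [orderOf_pow_of_dvd hE0 (by rw [ho, ← hEN]; exact dvd_mul_right _ _), ho, ← hEN,
      Nat.mul_div_cancel_left _ (Nat.pos_of_ne_zero hE0)]
  -- `N` is prime to `p`
  have hNk : (N : k) ≠ 0 := by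
    intro h
    have h1 : p ∣ N := (CharP.cast_eq_zero_iff k p N).1 h
    have h2 : p ∣ Fintype.card κ - 1 := h1.trans hN
    have h3 : p ∣ Fintype.card κ := by rw [hcard]; exact dvd_pow_self p hf.ne'
    have h4 : p ∣ 1 := (Nat.dvd_sub_iff_right hq1.le h3).1 h2
    exact (Fact.out : p.Prime).one_lt.ne' (Nat.dvd_one.1 h4)
  -- the characters agree
  have hchar : χ.ringHomComp τ = ω ^ E := by
    ext x
    have hx := x.ne_zero
    rw [MulChar.ringHomComp_apply, chi_pow hx]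
    obtain ⟨h1, h2⟩ := hτ (χ x)
    obtain ⟨h3, h4⟩ := hω x
    have h5 : ω x ^ E ∈ R := R.pow_mem h3 E
    refine eq_of_res (N := N) (res := res) hNk ?_ ?_ h1 h5 ?_
    · rw [← map_pow, ← chi_pow hx, ← hχ.1, pow_orderOf_eq_one, MulChar.one_apply_coe, map_one]
    · rw [← pow_mul, hEN, ← ho, ← chi_pow hx, pow_orderOf_eq_one, MulChar.one_apply_coe]
    · rw [h2, hχ.2 _ hx, map_pow, ← hE]
      have h6 : (⟨ω x ^ E, h5⟩ : R) = (⟨ω x, h3⟩ : R) ^ E := rfl
      rw [h6, map_pow, h4]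
  have key : ∀ a : ZMod N, ‖gaussSum ((ω ^ E) ^ a.val) ψ‖ ^ N =
      ‖((p : ℕ) : PadicAlgCl p)‖ ^ ∑ s ∈ range f, (-(p : ZMod N) ^ s * a).val :=
    fun a => norm_factor hcard hf hN hψ1 hψ2 hgo ho hT a
  rw [← PP_map, hchar, PP_eq hT hψ1, norm_mul, mul_pow, norm_prod, ← prod_pow, key]
  simp_rw [key]
  rw [prod_pow_eq_pow_sum, ← pow_add]
  congr 1
  unfold wt
  rw [sum_add_distrib]
  congr 1
  rw [sum_comm]

end loc

end Run7.h365.FV
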