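import Pool.Agent.Run7.h365.FV.Pol
import Pool.Agent.H916K.Defs

/-!
# The trivial Hecke characters among the Jacobi sums, and the rational characters
-/

set_option autoImplicit false
set_option linter.unusedSectionVars false

namespace Run7.h365.FV

open Finset NumberField IsDedekindDomain Filter
open Pool.Agent.H916K (RationalClass)
open Pool.Agent.N172.HS (IsHecke)
open Run7.h365.CM (IsTriv norm_v_pos)
open Run7.h365.CM.T (eventually_coprime triv_of_ae)

variable {n m M : ℕ}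

/-- the pairs of a tuple -/
def ms (a : Fin (n + 1) → ZMod M) : Multiset (ZMod M × ℤ) := univ.val.map fun i => (a i, 1)

/-- the full tuple -/
def full (b : Fin n → ZMod M) : Fin (n + 1) → ZMod M := Fin.cons (-∑ i, b i) b

/-- the Jacobi sums of `b` are powers of the norm -/
def Pw [NeZero M] (b : Fin n → ZMod M) : Prop :=
  ∃ N : ℕ, ∀ ℓ : ℕ, N < ℓ → ℓ.Prime → ∀ (F : Type) [Field F] [Fintype F] [DecidableEq F],
    Fintype.card F = ℓ ^ orderOf (ℓ : ZMod M) → ∀ χ : MulChar F ℂ, orderOf χ = M →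
    PP χ b = (Fintype.card F : ℂ) ^ ((n + 1) / 2)

theorem ms_gauss [NeZero M] (b : Fin n → ZMod M) {F : Type} [Field F] [Fintype F] [DecidableEq F]
    {χ : MulChar F ℂ} (hχ : orderOf χ = M) {ψ : AddChar F ℂ} (hψ : ψ.IsPrimitive) :
    ((ms (full b)).map fun z => gaussSum (χ ^ z.1.val) ψ).prod = PP χ b := by
  unfold ms
  rw [Multiset.map_map, PP_eq hχ hψ]
  change ∏ i, gaussSum (χ ^ (full b i).val) ψ = _
  rw [Fin.prod_univ_succ]
  rfl

theorem ms_chi (a : Fin (n + 1) → ZMod M) {F : Type} [Field F] (χ : MulChar F ℂ) :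
    ((ms a).map fun z => (χ ^ z.1.val) (z.2 : F)).prod = 1 := by
  unfold ms
  rw [Multiset.map_map]
  change ∏ i, (χ ^ (a i).val) ((1 : ℤ) : F) = 1
  refine prod_eq_one fun i _ => ?_
  rw [Int.cast_one, map_one]

theorem card_ms (a : Fin (n + 1) → ZMod M) : Multiset.card (ms a) = n + 1 := by
  unfold ms
  rw [Multiset.card_map, card_val, card_univ, Fintype.card_fin]

theorem rational_iff_Pw [NeZero M] (b : Fin n → ZMod M) :
    RationalClass M (ms (full b)) ↔ Pw b := by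
  unfold RationalClass Pw
  refine exists_congr fun N => ?_
  constructor
  · intro h ℓ hℓ hp F _ _ _ hF χ hχ
    have hψ := AddChar.FiniteField.primitiveChar_to_Complex_isPrimitive F
    have hψ1 : AddChar.FiniteField.primitiveChar_to_Complex F ≠ 1 := by
      have := hψ one_ne_zero
      rwa [AddChar.mulShift_one] at this
    have h1 := h ℓ hℓ hp F hF χ _ hχ hψ1
    rw [ms_gauss b hχ hψ, ms_chi, card_ms, mul_one] at h1
    exact h1
  · intro h ℓ hℓ hp F _ _ hF χ ψ hχ hψ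
    classical
    have h1 := h ℓ hℓ hp F hF χ hχ
    rw [ms_gauss b hχ (AddChar.IsPrimitive.of_ne_one hψ), ms_chi, card_ms, mul_one]
    exact h1

/-- the residue characteristic -/
theorem exists_char {L : Type} [Field L] [NumberField L] (w : HeightOneSpectrum (𝓞 L)) :
    ∃ p : ℕ, p.Prime ∧ (p : 𝓞 L) ∈ w.asIdeal :=
  ⟨_, absNorm_prime (und ℚ w), und_iff.1 rfl⟩

theorem triv_of_Pw [NeZero M] (hn : Odd n) (hn2 : 2 ≤ n) {b : Fin n → ZMod M} (hb : Good b)
    (h : Pw b) : IsTriv (psi M (ff M) b ((n + 1) / 2)) := by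
  obtain ⟨ζ, hζ⟩ := exists_zeta M
  have hcnt : cnt b = 2 * ((n + 1) / 2) := by
    rw [cnt_good hb]
    obtain ⟨j, hj⟩ := hn
    omega
  refine triv_of_ae (isHecke_psi (n := n) hζ hn2 hn (ff M) hcnt) ?_
  obtain ⟨N, hN⟩ := h
  have h0 : Ideal.span {((N.factorial * M : ℕ) : 𝓞 (LL M))} ≠ ⊥ := by
    rw [Ne, Ideal.span_singleton_eq_bot]
    exact_mod_cast mul_ne_zero N.factorial_ne_zero (NeZero.ne M)
  filter_upwards [eventually_coprime h0] with w hw
  obtain ⟨p, hp, hpw⟩ := exists_char w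
  have : Fact p.Prime := ⟨hp⟩
  have hnd : ¬ p ∣ N.factorial * M := by
    rintro ⟨c, hc⟩
    rw [Ideal.isCoprime_iff_sup_eq] at hw
    apply w.isPrime.ne_top
    rw [← hw]
    symm
    rw [sup_eq_left, Ideal.span_singleton_le_iff_mem, hc]
    push_cast
    exact w.asIdeal.mul_mem_right _ hpw
  have hpN : N < p := by
    by_contra hle
    exact hnd ((hp.dvd_factorial.2 (not_lt.1 hle)).mul_right M)
  have hpM : p.Coprime M := (Nat.Prime.coprime_iff_not_dvd hp).2 fun h => hnd (h.mul_left _)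
  have hMw : (M : 𝓞 (LL M)) ∉ w.asIdeal := by
    intro h
    apply w.isPrime.ne_top
    rw [Ideal.eq_top_iff_one]
    obtain ⟨a, b, hab⟩ := Nat.isCoprime_iff_coprime.2 hpM
    have h3 : ((a * (p : ℕ) + b * (M : ℕ) : ℤ) : 𝓞 (LL M)) = 1 := by
      rw [hab, Int.cast_one]
    rw [← h3]
    push_cast
    exact w.asIdeal.add_mem (w.asIdeal.mul_mem_left _ hpw) (w.asIdeal.mul_mem_left _ h)
  obtain ⟨κ, _, _, _, φ, hφ, hker, hcard⟩ := exists_model w
  obtain ⟨χ, hχ⟩ := exists_isRes hζ φ (ne_zero_of_ker hMw hker)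
  have hinj : Function.Injective ((ff M).comp (algebraMap (𝓞 (LL M)) (LL M))) :=
    (ff M).injective.comp RingOfIntegers.coe_injective
  have h1 := hN p hpN hp κ (by rw [hcard, absNorm_prm (N := M) hpw hpM])
    (χ.ringHomComp ((ff M).comp (algebraMap (𝓞 (LL M)) (LL M))))
    ((orderOf_comp hinj χ).trans hχ.1)
  rw [PP_map] at h1
  have h2 : ff M ((Pv M n w b : 𝓞 (LL M)) : LL M) = (Fintype.card κ : ℂ) ^ ((n + 1) / 2) := by
    rw [← h1, isP_Pv (n := n) hζ w hMw κ φ hφ hker χ hχ]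
    rfl
  rw [psi_apply, PI_prime b w hMw, h2, hcard]
  apply mul_inv_cancel₀
  apply pow_ne_zero
  have := norm_v_pos w
  exact_mod_cast (by omega : Ideal.absNorm w.asIdeal ≠ 0)

theorem Pw_of_triv [NeZero M] (hn : Odd n) {b : Fin n → ZMod M}
    (h : IsTriv (psi M (ff M) b ((n + 1) / 2))) : Pw b := by
  obtain ⟨ζ, hζ⟩ := exists_zeta M
  refine ⟨M, fun ℓ hℓ hp F _ _ _ hF χ hχ => ?_⟩
  have : Fact ℓ.Prime := ⟨hp⟩
  have hpM : ℓ.Coprime M := (Nat.Prime.coprime_iff_not_dvd hp).2 fun h =>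
    absurd (Nat.le_of_dvd (NeZero.pos M) h) (not_le.2 hℓ)
  have hf0 : orderOf (ℓ : ZMod M) ≠ 0 := by
    rw [← ZMod.coe_unitOfCoprime _ hpM, orderOf_units]
    exact (orderOf_pos _).ne'
  have hchar : CharP F ℓ := by
    have h1 : ((ℓ : ℕ) : F) ^ orderOf (ℓ : ZMod M) = 0 := by
      rw [← Nat.cast_pow, ← hF]
      exact Nat.cast_card_eq_zero F
    have h2 : ((ℓ : ℕ) : F) = 0 := pow_eq_zero_iff hf0 |>.1 h1
    have h3 := ringChar.spec F ℓ
    have h4 : ringChar F ∣ ℓ := h3.1 h2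
    have h5 : ringChar F ≠ 1 := CharP.ringChar_ne_one
    have h6 : ringChar F = ℓ := ((Nat.dvd_prime hp).1 h4).resolve_left h5
    rw [← h6]
    exact ringChar.charP F
  obtain ⟨w, hw⟩ := exists_above (F := LL M) ℓ
  have hNw := absNorm_prm (N := M) hw hpM
  obtain ⟨θ, hθ⟩ := exists_theta (κ := F) hw (r := 1) (by rw [hNw, hF, pow_one])
  have hMF : (M : F) ≠ 0 := by
    intro h
    rw [CharP.cast_eq_zero_iff F ℓ] at h
    exact ((Nat.Prime.coprime_iff_not_dvd hp).1 hpM) h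
  have hMw : (M : 𝓞 (LL M)) ∉ w.asIdeal := by
    rw [← hθ, RingHom.mem_ker, map_natCast]
    exact hMF
  obtain ⟨T₀, hT₀⟩ := exists_isRes hζ θ hMF
  set f₁ : 𝓞 (LL M) →+* ℂ := (ff M).comp (algebraMap (𝓞 (LL M)) (LL M)) with hf₁
  have hf₁i : Function.Injective f₁ := (ff M).injective.comp RingOfIntegers.coe_injective
  have hT₁ : orderOf (T₀.ringHomComp f₁) = M := (orderOf_comp hf₁i _).trans hT₀.1
  obtain ⟨c₀, rfl⟩ := exists_unit_pow hT₁ hχ
  rw [PP_pow hT₁ c₀.isUnit,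
    PP_theta (n := n) hζ hn hf₁i hMF (w := w) hθ (r := 1) (by rw [hNw, hF, pow_one]) hT₀, pow_one]
  -- the value at `w`
  have h1 : psi M (ff M) b ((n + 1) / 2) w.asIdeal = 1 := by
    apply h
    rw [psi_apply, PI_prime b w hMw]
    apply mul_ne_zero
    · rw [map_ne_zero]
      intro h0
      exact Pv_ne hζ w hMw b (RingOfIntegers.ext h0)
    · apply inv_ne_zero
      apply pow_ne_zero
      have := norm_v_pos w
      exact_mod_cast (by omega : Ideal.absNorm w.asIdeal ≠ 0)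
  rw [psi_apply, PI_prime b w hMw] at h1
  have h2 : (Ideal.absNorm w.asIdeal : ℂ) ^ ((n + 1) / 2) ≠ 0 := by
    apply pow_ne_zero
    have := norm_v_pos w
    exact_mod_cast (by omega : Ideal.absNorm w.asIdeal ≠ 0)
  have h3 : f₁ (Pv M n w b) = f₁ ((Ideal.absNorm w.asIdeal : 𝓞 (LL M)) ^ ((n + 1) / 2)) := by
    rw [map_pow, map_natCast]
    have h4 : f₁ (Pv M n w b) * ((Ideal.absNorm w.asIdeal : ℂ) ^ ((n + 1) / 2))⁻¹ = 1 := h1
    rwa [mul_inv_eq_one₀ h2] at h4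
  have h4 := hf₁i h3
  obtain ⟨σ, hσ⟩ : ∃ σ : Gal(LL M/ℚ), cu M σ = c₀ :=
    ⟨(IsCyclotomicExtension.Rat.galEquivZMod M (LL M)).symm c₀, MulEquiv.apply_symm_apply _ _⟩
  have h5 := act_Pv hζ w hMw σ b
  rw [hσ, h4, map_pow, map_natCast] at h5
  rw [← h5, map_pow, map_natCast, hNw, hF]

/-- **The trivial Hecke characters are the rational characters.** -/
theorem triv_iff [NeZero M] (hn : Odd n) (hn2 : 2 ≤ n) {b : Fin n → ZMod M} (hb : Good b) :
    IsTriv (psi M (ff M) b ((n + 1) / 2)) ↔ RationalClass M (ms (full b)) := by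
  rw [rational_iff_Pw]
  exact ⟨Pw_of_triv hn, triv_of_Pw hn hn2 hb⟩

theorem Pw_smul [NeZero M] (c : (ZMod M)ˣ) {b : Fin n → ZMod M} (h : Pw b) :
    Pw (fun i => (c : ZMod M) * b i) := by
  obtain ⟨N, hN⟩ := h
  refine ⟨N, fun ℓ hℓ hp F _ _ _ hF χ hχ => ?_⟩
  rw [← PP_pow hχ c.isUnit]
  apply hN ℓ hℓ hp F hF
  have h1 : (c : ZMod M).val.Coprime M := ZMod.val_coe_unit_coprime c
  rw [orderOf_pow, hχ, Nat.Coprime.gcd_eq_one h1.symm, Nat.div_one]

end Run7.h365.FV
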