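import Pool.Agent.Run7.h365.FV.Loc
import Pool.Agent.N172.HS.Nrm

/-!
# Weil's theorem on Jacobi sums
-/

set_option autoImplicit false
set_option linter.unusedSectionVars false

namespace Run7.h365.FV

open Finset NumberField IsDedekindDomain UniqueFactorizationMonoid
open IsCyclotomicExtension.Rat (galEquivZMod)
open scoped Pointwise

variable {F : Type} [Field F] [NumberField F] {N n : ℕ} [NeZero N]
  [IsCyclotomicExtension {N} ℚ F] {ζ : 𝓞 F}

/-- the exponents -/
noncomputable def ex (N : ℕ) [NeZero N] {n : ℕ} {F : Type} [Field F] [NumberField F]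
    [IsCyclotomicExtension {N} ℚ F] (b : Fin n → ZMod N) (σ : Gal(F/ℚ)) : ℕ :=
  wt (-(((cu N σ)⁻¹ : (ZMod N)ˣ) : ZMod N)) b / N

theorem N_mul_ex (b : Fin n → ZMod N) (σ : Gal(F/ℚ)) :
    N * ex N b σ = wt (-(((cu N σ)⁻¹ : (ZMod N)ˣ) : ZMod N)) b :=
  Nat.mul_div_cancel' (dvd_wt _ _)

theorem ex_mul (b : Fin n → ZMod N) (ρ σ : Gal(F/ℚ)) :
    ex N b (ρ⁻¹ * σ) = ex N (fun i => (cu N ρ : ZMod N) * b i) σ := by
  unfold ex
  rw [← wt_mul, cu_mul, cu_inv, mul_inv, inv_inv, Units.val_mul, ← neg_mul]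
  congr 2
  ring

theorem ex_zero (σ : Gal(F/ℚ)) : ex N (0 : Fin n → ZMod N) σ = 0 := by
  unfold ex wt
  simp

theorem wt_swap (c : ZMod N) (b : Fin n → ZMod N) (i : Fin n) :
    wt c (Function.update b i (-∑ j, b j)) = wt c b := by
  unfold wt
  have h1 : -∑ j, Function.update b i (-∑ j, b j) j = b i := by
    rw [Finset.sum_update_of_mem (mem_univ i)]
    have h2 := Finset.sum_erase_eq_sub (f := b) (mem_univ i)
    rw [← Finset.sdiff_singleton_eq_erase] at h2
    rw [h2]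
    ring
  rw [h1, ← add_sum_erase univ _ (mem_univ i), ← add_sum_erase univ (fun j => (c * b j).val)
    (mem_univ i), Function.update_self]
  have h3 : ∑ j ∈ univ.erase i, (c * Function.update b i (-∑ j, b j) j).val =
      ∑ j ∈ univ.erase i, (c * b j).val := by
    refine sum_congr rfl fun j hj => ?_
    rw [Function.update_of_ne (ne_of_mem_erase hj)]
  rw [h3]
  ring

theorem ex_swap (b : Fin n → ZMod N) (i : Fin n) (σ : Gal(F/ℚ)) :
    ex N (Function.update b i (-∑ j, b j)) σ = ex N b σ := by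
  unfold ex
  rw [wt_swap]

/-- the archimedean side of Weil's formula -/
noncomputable def AA (N : ℕ) [NeZero N] {n : ℕ} {F : Type} [Field F] [NumberField F]
    [IsCyclotomicExtension {N} ℚ F] (α : 𝓞 F) (b : Fin n → ZMod N) : 𝓞 F :=
  ∏ σ : Gal(F/ℚ), act σ α ^ ex N b σ

theorem AA_ne {α : 𝓞 F} (hα : α ≠ 0) (b : Fin n → ZMod N) : AA N α b ≠ 0 := by
  refine prod_ne_zero_iff.2 fun σ _ => pow_ne_zero _ ?_
  rwa [Ne, map_eq_zero_iff _ (act_inj σ)]

theorem AA_zero (α : 𝓞 F) : AA N α (0 : Fin n → ZMod N) = 1 := by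
  unfold AA
  simp [ex_zero]

theorem AA_swap (α : 𝓞 F) (b : Fin n → ZMod N) (i : Fin n) :
    AA N α (Function.update b i (-∑ j, b j)) = AA N α b := by
  unfold AA
  exact prod_congr rfl fun σ _ => by rw [ex_swap]

theorem AA_act (α : 𝓞 F) (b : Fin n → ZMod N) (ρ : Gal(F/ℚ)) :
    act ρ (AA N α b) = AA N α (fun i => (cu N ρ : ZMod N) * b i) := by
  unfold AA
  rw [map_prod]
  refine Fintype.prod_equiv (Equiv.mulLeft ρ) _ _ fun σ => ?_
  rw [map_pow, Equiv.coe_mulLeft, ← ex_mul, inv_mul_cancel_left]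
  congr 1

theorem AA_mod {α : 𝓞 F} {c : 𝓞 F} (hc : ∀ σ : Gal(F/ℚ), act σ c = c)
    (h : α - 1 ∈ Ideal.span {c}) (b : Fin n → ZMod N) : ∃ y, AA N α b = 1 + c * y := by
  have key : ∀ σ : Gal(F/ℚ), ∃ y, act σ α ^ ex N b σ = 1 + c * y := by
    intro σ
    obtain ⟨z, hz⟩ := Ideal.mem_span_singleton.1 h
    have h1 : act σ α - 1 = c * act σ z := by
      have := congrArg (act σ) hz
      rwa [map_sub, map_one, map_mul, hc] at this
    have h2 : (c : 𝓞 F) ∣ act σ α ^ ex N b σ - 1 :=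
      (Dvd.intro _ h1.symm).trans (sub_one_dvd_pow_sub_one _ _)
    obtain ⟨y, hy⟩ := h2
    exact ⟨y, by rw [← hy]; ring⟩
  choose y hy using key
  obtain ⟨z, -, hz⟩ := Pool.Agent.N172.HS.prod_one_add (univ : Finset Gal(F/ℚ))
    (⊤ : Subring (𝓞 F)) (c := c) (Subring.mem_top _) y (fun _ _ => Subring.mem_top _)
  refine ⟨z, ?_⟩
  rw [← hz]
  exact prod_congr rfl fun σ _ => hy σ

/-! ### the archimedean absolute values -/

theorem ringHom_ext {Ω : Type} [Field Ω] [CharZero Ω] (hζ : IsPrimitiveRoot (ζ : F) N)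
    {f g : F →+* Ω} (h : f ζ = g ζ) : f = g := by
  have h1 : Algebra.adjoin ℚ {(ζ : F)} = ⊤ :=
    IsCyclotomicExtension.adjoin_primitive_root_eq_top hζ
  let f' : F →ₐ[ℚ] Ω := f.toRatAlgHom
  let g' : F →ₐ[ℚ] Ω := g.toRatAlgHom
  have h2 : f' = g' := by
    refine AlgHom.ext_of_adjoin_eq_top h1 ?_
    intro x hx
    rw [Set.mem_singleton_iff] at hx
    subst hx
    exact h
  exact RingHom.ext fun x => AlgHom.congr_fun h2 x

theorem prim_coe (hζ : IsPrimitiveRoot ζ N) : IsPrimitiveRoot (ζ : F) N :=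
  hζ.map_of_injective (f := algebraMap (𝓞 F) F) RingOfIntegers.coe_injective

theorem norm_conj (hζ : IsPrimitiveRoot ζ N) (f : F →+* ℂ) :
    ∃ j : Gal(F/ℚ), cu N j = -1 ∧ ∀ x : F, ‖f (j x)‖ = ‖f x‖ := by
  have hζF := prim_coe hζ
  refine ⟨(galEquivZMod N F).symm (-1), MulEquiv.apply_symm_apply _ _, ?_⟩
  set j : Gal(F/ℚ) := (galEquivZMod N F).symm (-1) with hj
  have hcu : cu N j = -1 := MulEquiv.apply_symm_apply _ _
  have h1 : f.comp (j : F →+* F) = (starRingEnd ℂ).comp f := by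
    refine ringHom_ext hζF ?_
    have h2 : (j : F →+* F) (ζ : F) = (ζ : F) ^ (cu N j : ZMod N).val := by
      have h3 := act_root (N := N) j hζ.pow_eq_one
      have h4 := congrArg (fun x : 𝓞 F => (x : F)) h3
      exact h4
    have h5 : f ζ * f ((j : F →+* F) (ζ : F)) = 1 := by
      rw [h2, hcu, ← map_mul, ← pow_succ']
      have h6 : ((-1 : (ZMod N)ˣ) : ZMod N).val + 1 = N ∨ N = 1 := by
        rcases Nat.lt_or_ge 1 N with h7 | h7
        · left
          have : Fact (1 < N) := ⟨h7⟩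
          rw [Units.val_neg, Units.val_one, ZMod.neg_val, if_neg one_ne_zero, ZMod.val_one]
          omega
        · right
          have := NeZero.pos N
          omega
      rcases h6 with h7 | h7
      · rw [h7, hζF.pow_eq_one, map_one]
      · have h8 : (ζ : F) = 1 := by
          have := hζF.pow_eq_one
          rwa [h7, pow_one] at this
        rw [h8, one_pow, map_one]
    have h6 : f ζ * (starRingEnd ℂ) (f ζ) = 1 := by
      have h7 : (f ζ) ^ N = 1 := by rw [← map_pow, hζF.pow_eq_one, map_one]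
      rw [Complex.mul_conj, Complex.normSq_eq_norm_sq,
        Complex.norm_eq_one_of_pow_eq_one h7 (NeZero.ne N)]
      norm_num
    have h7 : f ζ ≠ 0 := by
      intro h
      rw [h, zero_mul] at h6
      exact zero_ne_one h6
    exact mul_left_cancel₀ h7 (h5.trans h6.symm)
  intro x
  have h2 := RingHom.congr_fun h1 x
  change f (j x) = (starRingEnd ℂ) (f x) at h2
  rw [h2, Complex.norm_conj]

theorem ex_add {j : Gal(F/ℚ)} (hj : cu N j = -1)
    (b : Fin n → ZMod N) (σ : Gal(F/ℚ)) : ex N b σ + ex N b (j * σ) = cnt b := by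
  apply Nat.eq_of_mul_eq_mul_left (NeZero.pos N)
  rw [mul_add, N_mul_ex, N_mul_ex, cu_mul, hj]
  have h1 : (-(((-1 * cu N σ)⁻¹ : (ZMod N)ˣ) : ZMod N)) =
      -(-(((cu N σ)⁻¹ : (ZMod N)ˣ) : ZMod N)) := by
    rw [neg_one_mul, inv_neg, Units.val_neg]
  rw [h1]
  exact wt_add_neg ((Units.isUnit _).neg) b

theorem norm_AA (hζ : IsPrimitiveRoot ζ N) (f : F →+* ℂ) (α : 𝓞 F) (b : Fin n → ZMod N) :
    ‖f (AA N α b)‖ ^ 2 = (Ideal.absNorm (Ideal.span {α}) : ℝ) ^ cnt b := by
  have hG : IsGalois ℚ F := IsCyclotomicExtension.isGalois {N} ℚ F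
  obtain ⟨j, hj, hjn⟩ := norm_conj hζ f
  have h1 : ‖f (AA N α b)‖ = ∏ σ : Gal(F/ℚ), ‖f (σ (α : F))‖ ^ ex N b σ := by
    unfold AA
    have h2 : algebraMap (𝓞 F) F (∏ σ : Gal(F/ℚ), act σ α ^ ex N b σ) =
        ∏ σ : Gal(F/ℚ), (σ (α : F)) ^ ex N b σ := by
      rw [map_prod]
      exact prod_congr rfl fun σ _ => by rw [map_pow]; rfl
    change ‖f (algebraMap (𝓞 F) F (∏ σ : Gal(F/ℚ), act σ α ^ ex N b σ))‖ = _
    rw [h2, map_prod, norm_prod]
    exact prod_congr rfl fun σ _ => by rw [map_pow, norm_pow]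
  have h2 : ∏ σ : Gal(F/ℚ), ‖f (σ (α : F))‖ ^ ex N b σ =
      ∏ σ : Gal(F/ℚ), ‖f (σ (α : F))‖ ^ ex N b (j * σ) := by
    refine (Fintype.prod_equiv (Equiv.mulLeft j) _ _ fun σ => ?_).symm
    rw [Equiv.coe_mulLeft]
    have h3 : (j * σ) (α : F) = j (σ (α : F)) := rfl
    rw [h3, hjn]
  have h3 : ‖f (AA N α b)‖ ^ 2 = ∏ σ : Gal(F/ℚ), ‖f (σ (α : F))‖ ^ cnt b := by
    rw [pow_two, h1]
    nth_rewrite 2 [h2]
    rw [← prod_mul_distrib]
    refine prod_congr rfl fun σ _ => ?_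
    rw [← pow_add, ex_add hj]
  rw [h3, prod_pow]
  congr 1
  have h4 := Algebra.norm_eq_prod_automorphisms ℚ (α : F)
  have h5 : ∏ σ : Gal(F/ℚ), ‖f (σ (α : F))‖ = ‖f (algebraMap ℚ F (Algebra.norm ℚ (α : F)))‖ := by
    rw [h4, map_prod, norm_prod]
  rw [h5, Ideal.absNorm_span_singleton]
  have h6 : Algebra.norm ℚ (α : F) = ((Algebra.norm ℤ α : ℤ) : ℚ) := by
    exact (Algebra.coe_norm_int α).symm
  rw [h6]
  have h7 : f (algebraMap ℚ F ((Algebra.norm ℤ α : ℤ) : ℚ)) = ((Algebra.norm ℤ α : ℤ) : ℂ) := by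
    simp
  rw [h7, Complex.norm_intCast, Nat.cast_natAbs]
  push_cast
  rfl

theorem norm_Pv (hζ : IsPrimitiveRoot ζ N) (f : F →+* ℂ) (v : HeightOneSpectrum (𝓞 F))
    (hv : (N : 𝓞 F) ∉ v.asIdeal) (b : Fin n → ZMod N) :
    ‖f (Pv N n v b)‖ ^ 2 = (Ideal.absNorm v.asIdeal : ℝ) ^ cnt b := by
  obtain ⟨κ, _, _, _, φ, hφ, hker, hcard⟩ := exists_model v
  obtain ⟨χ, hχ⟩ := exists_isRes hζ φ (ne_zero_of_ker hv hker)
  have h := isP_Pv (n := n) hζ v hv κ φ hφ hker χ hχ
  have hinj : Function.Injective (f.comp (algebraMap (𝓞 F) F)) :=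
    f.injective.comp RingOfIntegers.coe_injective
  have h1 : f (Pv N n v b) = PP (χ.ringHomComp (f.comp (algebraMap (𝓞 F) F))) b := by
    rw [PP_map, h]; rfl
  rw [h1, norm_PP (by rw [orderOf_comp hinj, hχ.1]), hcard]

/-- the ideal is prime to `N` -/
def Cop (N : ℕ) (I : Ideal (𝓞 F)) : Prop := ∀ J ∈ normalizedFactors I, (N : 𝓞 F) ∉ J

theorem PI_eq (b : Fin n → ZMod N) {I : Ideal (𝓞 F)} (hI : I ≠ 0) :
    PI N b I = ((normalizedFactors I).map (fun J => PI N b J)).prod := by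
  unfold PI
  rw [mulExt_apply _ hI]
  congr 1
  refine Multiset.map_congr rfl fun J hJ => ?_
  obtain ⟨v, rfl, -⟩ := mem_factors hJ
  rw [mulExt_prime]

theorem absNorm_eq {I : Ideal (𝓞 F)} (hI : I ≠ 0) :
    Ideal.absNorm I = ((normalizedFactors I).map (fun J => Ideal.absNorm J)).prod := by
  conv_lhs => rw [← Ideal.prod_normalizedFactors_eq_self hI]
  rw [map_multiset_prod]

theorem norm_PI (hζ : IsPrimitiveRoot ζ N) (f : F →+* ℂ) {I : Ideal (𝓞 F)} (hI : I ≠ 0)
    (hc : Cop N I) (b : Fin n → ZMod N) :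
    ‖f (PI N b I)‖ ^ 2 = (Ideal.absNorm I : ℝ) ^ cnt b := by
  rw [PI_eq b hI, absNorm_eq hI]
  have key : ∀ m : Multiset (Ideal (𝓞 F)), (∀ J ∈ m, J ∈ normalizedFactors I) →
      ‖f (((m.map (fun J => PI N b J)).prod : 𝓞 F) : F)‖ ^ 2 =
      (((m.map (fun J => Ideal.absNorm J)).prod : ℕ) : ℝ) ^ cnt b := by
    intro m
    induction m using Multiset.induction_on with
    | empty => intro _; simp
    | cons J m ih =>
      intro hm
      have hmul : ∀ x y : 𝓞 F, ((x * y : 𝓞 F) : F) = x * y := fun _ _ => rfl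
      rw [Multiset.map_cons, Multiset.prod_cons, Multiset.map_cons, Multiset.prod_cons, hmul,
        map_mul, norm_mul, mul_pow, ih fun J' hJ' => hm J' (Multiset.mem_cons_of_mem hJ')]
      have hJ := hm J (Multiset.mem_cons_self J m)
      obtain ⟨v, rfl, -⟩ := mem_factors hJ
      rw [PI_prime b v (hc _ hJ), norm_Pv hζ f v (hc _ hJ)]
      push_cast
      rw [mul_pow]
  exact key _ fun _ h => h

/-! ### the `p`-adic absolute values -/

theorem sum_count {ι : Type} [Fintype ι] [DecidableEq (Ideal (𝓞 F))] (q : ι → Ideal (𝓞 F))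
    (g : ι → ℕ) (m : Multiset (Ideal (𝓞 F))) :
    (m.map (fun J => ∑ i ∈ univ.filter (fun i => q i = J), g i)).sum =
      ∑ i, m.count (q i) * g i := by
  induction m using Multiset.induction_on with
  | empty => simp
  | cons J m ih =>
    rw [Multiset.map_cons, Multiset.sum_cons, ih, sum_filter, ← sum_add_distrib]
    refine sum_congr rfl fun i _ => ?_
    rw [Multiset.count_cons]
    split_ifs <;> ring

theorem padic_eq (hζ : IsPrimitiveRoot ζ N) {α : 𝓞 F} (hα : α ≠ 0)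
    (hα1 : α - 1 ∈ Ideal.span {(N : 𝓞 F)}) (hc : Cop N (Ideal.span {α})) {p : ℕ} [Fact p.Prime]
    (τ : F →+* PadicAlgCl p) (b : Fin n → ZMod N) :
    ‖tO τ 1 (PI N b (Ideal.span {α}))‖ = ‖tO τ 1 (AA N α b)‖ := by
  classical
  have hI : Ideal.span {α} ≠ 0 := by
    rw [Ne, Ideal.zero_eq_bot, Ideal.span_singleton_eq_bot]; exact hα
  have hAA : ‖tO τ 1 (AA N α b)‖ = ∏ σ : Gal(F/ℚ), ‖tO τ σ α‖ ^ ex N b σ := by
    unfold AA
    rw [map_prod, norm_prod]
    exact prod_congr rfl fun σ _ => by rw [map_pow, norm_pow]; rfl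
  by_cases hp : p.Coprime N
  · obtain ⟨k, hk, R, res, hac, hch, hR⟩ := Pool.Agent.W999.HB.TP.main p
    have hN0 : N ≠ 0 := NeZero.ne N
    apply (pow_left_inj₀ (norm_nonneg _) (norm_nonneg _) hN0).1
    have h1 : ‖tO τ 1 (AA N α b)‖ ^ N = ‖((p : ℕ) : PadicAlgCl p)‖ ^ ∑ σ : Gal(F/ℚ),
        (normalizedFactors (Ideal.span {α})).count (prm hR τ σ).asIdeal *
          wt (-(((cu N σ)⁻¹ : (ZMod N)ˣ) : ZMod N)) b := by
      rw [hAA, ← prod_pow, ← prod_pow_eq_pow_sum]
      refine prod_congr rfl fun σ _ => ?_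
      rw [← pow_mul, mul_comm (ex N b σ), N_mul_ex, norm_val hR τ σ hp hα, ← pow_mul]
    rw [h1, ← sum_count, PI_eq b hI]
    have key : ∀ m : Multiset (Ideal (𝓞 F)), (∀ J ∈ m, J ∈ normalizedFactors (Ideal.span {α})) →
        ‖tO τ 1 (m.map (fun J => PI N b J)).prod‖ ^ N = ‖((p : ℕ) : PadicAlgCl p)‖ ^
          (m.map (fun J => ∑ σ ∈ univ.filter (fun σ : Gal(F/ℚ) => (prm hR τ σ).asIdeal = J),
            wt (-(((cu N σ)⁻¹ : (ZMod N)ˣ) : ZMod N)) b)).sum := by
      intro m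
      induction m using Multiset.induction_on with
      | empty => intro _; simp
      | cons J m ih =>
        intro hm
        rw [Multiset.map_cons, Multiset.prod_cons, Multiset.map_cons, Multiset.sum_cons, map_mul,
          norm_mul, mul_pow, pow_add, ih fun J' hJ' => hm J' (Multiset.mem_cons_of_mem hJ')]
        have hJ := hm J (Multiset.mem_cons_self J m)
        obtain ⟨v, rfl, -⟩ := mem_factors hJ
        rw [PI_prime b v (hc _ hJ), Pv_norm hR τ hζ hp v (hc _ hJ)]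
        congr 2
        refine sum_congr ?_ fun _ _ => rfl
        ext σ
        simp only [mem_filter, mem_univ, true_and]
        constructor
        · intro h; rw [h]
        · intro h; exact HeightOneSpectrum.ext h
    exact key _ fun _ h => h
  · have hpN : p ∣ N := by
      by_contra h
      exact hp ((Nat.Prime.coprime_iff_not_dvd Fact.out).2 h)
    have h1 : ∀ σ : Gal(F/ℚ), ‖tO τ σ α‖ = 1 := by
      intro σ
      obtain ⟨z, hz⟩ := Ideal.mem_span_singleton.1 hα1
      have h2 : ‖tO τ σ α - 1‖ < 1 := by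
        have h3 := congrArg (tO τ σ) hz
        rw [map_sub, map_one, map_mul, map_natCast] at h3
        rw [h3, norm_mul]
        obtain ⟨N', hN'⟩ := hpN
        have h4 : ‖((N : ℕ) : PadicAlgCl p)‖ < 1 := by
          rw [hN']
          push_cast
          rw [norm_mul]
          have h5 := (Pool.Agent.Y145.DI.norm_p_lt (p := p)).2
          have h6 : ‖((N' : ℕ) : PadicAlgCl p)‖ ≤ 1 := by
            have := norm_int_le (p := p) (N' : ℤ)
            simpa using this
          have h7 : 0 ≤ ‖((N' : ℕ) : PadicAlgCl p)‖ := norm_nonneg _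
          have h8 : 0 ≤ ‖((p : ℕ) : PadicAlgCl p)‖ := norm_nonneg _
          nlinarith
        have h5 := tO_norm τ σ z
        have h6 : 0 ≤ ‖tO τ σ z‖ := norm_nonneg _
        have h7 : 0 ≤ ‖((N : ℕ) : PadicAlgCl p)‖ := norm_nonneg _
        nlinarith
      refine le_antisymm (tO_norm τ σ α) ?_
      by_contra h
      push Not at h
      have h3 : (1 : PadicAlgCl p) = tO τ σ α - (tO τ σ α - 1) := by ring
      have h4 : ‖(1 : PadicAlgCl p)‖ < 1 := by
        rw [h3, sub_eq_add_neg]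
        refine (PadicAlgCl.isNonarchimedean p _ _).trans_lt (max_lt h ?_)
        rw [norm_neg]
        exact h2
      rw [norm_one] at h4
      exact lt_irrefl _ h4
    rw [hAA]
    simp only [h1, one_pow, prod_const_one]
    rw [PI_eq b hI]
    have key : ∀ m : Multiset (Ideal (𝓞 F)), (∀ J ∈ m, J ∈ normalizedFactors (Ideal.span {α})) →
        ‖tO τ 1 (m.map (fun J => PI N b J)).prod‖ = 1 := by
      intro m
      induction m using Multiset.induction_on with
      | empty => intro _; simp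
      | cons J m ih =>
        intro hm
        rw [Multiset.map_cons, Multiset.prod_cons, map_mul, norm_mul,
          ih fun J' hJ' => hm J' (Multiset.mem_cons_of_mem hJ')]
        have hJ := hm J (Multiset.mem_cons_self J m)
        obtain ⟨v, rfl, -⟩ := mem_factors hJ
        rw [PI_prime b v (hc _ hJ), Pv_norm_other τ hζ v (hc _ hJ) ?_, one_mul]
        intro hpv
        apply hc _ hJ
        obtain ⟨N', rfl⟩ := hpN
        push_cast
        exact Ideal.mul_mem_right _ _ hpv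
    exact key _ fun _ h => h

end Run7.h365.FV
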