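import Pool.Agent.Run7.h365.FV.Weil

/-!
# Weil's theorem on Jacobi sums: the formula
-/

set_option autoImplicit false
set_option linter.unusedSectionVars false

namespace Run7.h365.FV

open Finset NumberField IsDedekindDomain UniqueFactorizationMonoid
open IsCyclotomicExtension.Rat (galEquivZMod)
open scoped Pointwise

variable {F : Type} [Field F] [NumberField F] {N n : ℕ} [NeZero N]
  [IsCyclotomicExtension {N} ℚ F] {ζ : 𝓞 F}

theorem cop_of {α : 𝓞 F} (h1 : α - 1 ∈ Ideal.span {(N : 𝓞 F)}) : Cop N (Ideal.span {α}) := by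
  intro J hJ hN
  obtain ⟨v, rfl, hle⟩ := mem_factors hJ
  have h2 : α ∈ v.asIdeal := hle (Ideal.mem_span_singleton_self α)
  have h3 : α - 1 ∈ v.asIdeal := by
    obtain ⟨z, hz⟩ := Ideal.mem_span_singleton.1 h1
    rw [hz]
    exact Ideal.mul_mem_right _ _ hN
  have h4 : (1 : 𝓞 F) ∈ v.asIdeal := by
    have := v.asIdeal.sub_mem h2 h3
    rwa [sub_sub_cancel] at this
  exact v.isPrime.ne_top ((Ideal.eq_top_iff_one _).2 h4)

/-- the Jacobi sums are integral combinations of characters, as functions of the exponents -/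
theorem Pv_mem (hζ : IsPrimitiveRoot ζ N) (v : HeightOneSpectrum (𝓞 F))
    (hv : (N : 𝓞 F) ∉ v.asIdeal) :
    (fun b : Fin n → ZMod N => ((Pv N n v b : 𝓞 F) : F)) ∈ IntF (prim_coe hζ) := by
  obtain ⟨κ, _, _, _, φ, hφ, hker, hcard⟩ := exists_model v
  have hN := ne_zero_of_ker hv hker
  obtain ⟨χ, hχ⟩ := exists_isRes hζ φ hN
  have h := isP_Pv (n := n) hζ v hv κ φ hφ hker χ hχ
  have h1 : (fun b : Fin n → ZMod N => ((Pv N n v b : 𝓞 F) : F)) =
      fun b => PP (χ.ringHomComp (algebraMap (𝓞 F) F)) b := by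
    funext b
    rw [PP_map, h]
  rw [h1]
  exact PP_mem (prim_coe hζ) (by rw [orderOf_comp RingOfIntegers.coe_injective, hχ.1])
    (dvd_card hζ φ hN)

theorem PI_mem (hζ : IsPrimitiveRoot ζ N) {I : Ideal (𝓞 F)} (hI : I ≠ 0) (hc : Cop N I) :
    (fun b : Fin n → ZMod N => ((PI N b I : 𝓞 F) : F)) ∈ IntF (prim_coe hζ) := by
  have key : ∀ m : Multiset (Ideal (𝓞 F)), (∀ J ∈ m, J ∈ normalizedFactors I) →
      (fun b : Fin n → ZMod N => (((m.map (fun J => PI N b J)).prod : 𝓞 F) : F)) ∈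
        IntF (prim_coe hζ) := by
    intro m
    induction m using Multiset.induction_on with
    | empty =>
      intro _
      exact Subring.one_mem _
    | cons J m ih =>
      intro hm
      have hJ := hm J (Multiset.mem_cons_self J m)
      have h1 : (fun b : Fin n → ZMod N =>
          ((((J ::ₘ m).map (fun J => PI N b J)).prod : 𝓞 F) : F)) =
          (fun b : Fin n → ZMod N => ((PI N b J : 𝓞 F) : F)) *
          (fun b : Fin n → ZMod N => (((m.map (fun J => PI N b J)).prod : 𝓞 F) : F)) := by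
        funext b
        rw [Multiset.map_cons, Multiset.prod_cons]
        rfl
      rw [h1]
      refine Subring.mul_mem _ ?_ (ih fun J' hJ' => hm J' (Multiset.mem_cons_of_mem hJ'))
      obtain ⟨v, rfl, -⟩ := mem_factors hJ
      have h2 : (fun b : Fin n → ZMod N => ((PI N b v.asIdeal : 𝓞 F) : F)) =
          fun b => ((Pv N n v b : 𝓞 F) : F) := by
        funext b
        rw [PI_prime b v (hc _ hJ)]
      rw [h2]
      exact Pv_mem hζ v (hc _ hJ)
  have h1 : (fun b : Fin n → ZMod N => ((PI N b I : 𝓞 F) : F)) =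
      fun b : Fin n → ZMod N => ((((normalizedFactors I).map (fun J => PI N b J)).prod : 𝓞 F) : F) := by
    funext b
    rw [PI_eq b hI]
  rw [h1]
  exact key _ fun _ h => h

/-- transfer of identities from the primes to the ideals -/
theorem PI_transfer {M : Type} [CommMonoid M] {I : Ideal (𝓞 F)} (hI : I ≠ 0) (f g : 𝓞 F →* M)
    {n' : ℕ} (b : Fin n → ZMod N) (b' : Fin n' → ZMod N)
    (h : ∀ v : HeightOneSpectrum (𝓞 F), v.asIdeal ∈ normalizedFactors I →
      f (PI N b v.asIdeal) = g (PI N b' v.asIdeal)) :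
    f (PI N b I) = g (PI N b' I) := by
  rw [PI_eq b hI, PI_eq b' hI, map_multiset_prod, map_multiset_prod, Multiset.map_map,
    Multiset.map_map]
  congr 1
  refine Multiset.map_congr rfl fun J hJ => ?_
  obtain ⟨v, rfl, -⟩ := mem_factors hJ
  exact h v hJ

theorem PI_act (hζ : IsPrimitiveRoot ζ N) {I : Ideal (𝓞 F)} (hI : I ≠ 0) (hc : Cop N I)
    (b : Fin n → ZMod N) (ρ : Gal(F/ℚ)) :
    act ρ (PI N b I) = PI N (fun i => (cu N ρ : ZMod N) * b i) I := by
  refine PI_transfer hI (act ρ : 𝓞 F →* 𝓞 F) (MonoidHom.id _) b _ fun v hv => ?_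
  rw [PI_prime _ v (hc _ hv), PI_prime _ v (hc _ hv)]
  exact act_Pv hζ v (hc _ hv) ρ b

theorem Pv_swap (hζ : IsPrimitiveRoot ζ N) (v : HeightOneSpectrum (𝓞 F))
    (hv : (N : 𝓞 F) ∉ v.asIdeal) (b : Fin n → ZMod N) (i : Fin n) :
    Pv N n v (Function.update b i (-∑ j, b j)) = Pv N n v b := by
  obtain ⟨κ, _, _, _, φ, hφ, hker, hcard⟩ := exists_model v
  obtain ⟨χ, hχ⟩ := exists_isRes hζ φ (ne_zero_of_ker hv hker)
  have h := isP_Pv (n := n) hζ v hv κ φ hφ hker χ hχ
  obtain ⟨f, hf⟩ := exists_complex F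
  rw [h, h, PP_swap' hf (by rw [orderOf_comp hf, hχ.1])]

theorem Pv_zero (hζ : IsPrimitiveRoot ζ N) (v : HeightOneSpectrum (𝓞 F))
    (hv : (N : 𝓞 F) ∉ v.asIdeal) : Pv N n v 0 = (-1) ^ (n + 1) := by
  obtain ⟨κ, _, _, _, φ, hφ, hker, hcard⟩ := exists_model v
  obtain ⟨χ, hχ⟩ := exists_isRes hζ φ (ne_zero_of_ker hv hker)
  have h := isP_Pv (n := n) hζ v hv κ φ hφ hker χ hχ
  obtain ⟨f, hf⟩ := exists_complex F
  rw [h, PP_zero' hf (by rw [orderOf_comp hf, hχ.1])]

theorem PI_swap (hζ : IsPrimitiveRoot ζ N) {I : Ideal (𝓞 F)} (hI : I ≠ 0) (hc : Cop N I)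
    (b : Fin n → ZMod N) (i : Fin n) :
    PI N (Function.update b i (-∑ j, b j)) I = PI N b I := by
  refine PI_transfer hI (MonoidHom.id _) (MonoidHom.id _) _ b fun v hv => ?_
  rw [PI_prime _ v (hc _ hv), PI_prime _ v (hc _ hv)]
  exact Pv_swap hζ v (hc _ hv) b i

theorem PI_zero (hζ : IsPrimitiveRoot ζ N) (hodd : Odd n) {I : Ideal (𝓞 F)} (hI : I ≠ 0)
    (hc : Cop N I) : PI N (0 : Fin n → ZMod N) I = 1 := by
  rw [PI_eq _ hI]
  apply Multiset.prod_eq_one
  intro x hx
  obtain ⟨J, hJ, rfl⟩ := Multiset.mem_map.1 hx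
  obtain ⟨v, rfl, -⟩ := mem_factors hJ
  rw [PI_prime _ v (hc _ hJ), Pv_zero hζ v (hc _ hJ)]
  exact Even.neg_one_pow hodd.add_one

/-- **Weil's theorem.** -/
theorem weil (hζ : IsPrimitiveRoot ζ N) (hn : 2 ≤ n) (hodd : Odd n) {α : 𝓞 F} (hα : α ≠ 0)
    (h1 : α - 1 ∈ Ideal.span {(N : 𝓞 F) ^ n}) (b : Fin n → ZMod N) :
    PI N b (Ideal.span {α}) = AA N α b := by
  have hG : IsGalois ℚ F := IsCyclotomicExtension.isGalois {N} ℚ F
  have hI : Ideal.span {α} ≠ 0 := by
    rw [Ne, Ideal.zero_eq_bot, Ideal.span_singleton_eq_bot]; exact hα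
  have h1' : α - 1 ∈ Ideal.span {(N : 𝓞 F)} := by
    obtain ⟨z, hz⟩ := Ideal.mem_span_singleton.1 h1
    rw [Ideal.mem_span_singleton, hz]
    exact (dvd_pow_self _ (by omega)).mul_right z
  have hc := cop_of (N := N) h1'
  have hζF := prim_coe hζ
  have hN0 : (N : F) ≠ 0 := by exact_mod_cast NeZero.ne N
  have hNn : (N : F) ^ n ≠ 0 := pow_ne_zero _ hN0
  obtain ⟨ι⟩ : Nonempty (F →+* ℂ) := inferInstance
  have hcoe : ∀ x : 𝓞 F, (x : F) = 0 ↔ x = 0 := fun x => RingOfIntegers.coe_eq_zero_iff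
  have hAAF : ∀ b : Fin n → ZMod N, ((AA N α b : 𝓞 F) : F) ≠ 0 := fun b => by
    rw [Ne, hcoe]; exact AA_ne hα b
  let u : (Fin n → ZMod N) → F := fun b => (PI N b (Ideal.span {α}) : 𝓞 F) / (AA N α b : 𝓞 F)
  have hu : ∀ b, u b * (AA N α b : 𝓞 F) = (PI N b (Ideal.span {α}) : 𝓞 F) := fun b =>
    div_mul_cancel₀ _ (hAAF b)
  -- integrality
  have hint0 : ∀ b, IsIntegral ℤ (u b) := by
    intro b
    apply isIntegral_of_padic
    intro p _ τ
    have h2 := padic_eq hζ hα h1' hc τ b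
    have h3 : ‖τ (u b)‖ = ‖tO τ 1 (PI N b (Ideal.span {α}))‖ / ‖tO τ 1 (AA N α b)‖ := by
      change ‖τ (_ / _)‖ = _
      rw [map_div₀, norm_div]
      rfl
    rw [h3, h2]
    exact div_self_le_one _
  -- absolute values
  have habs : ∀ b, ‖ι (u b)‖ = 1 := by
    intro b
    have h2 : ‖ι (u b)‖ ^ 2 = 1 := by
      change ‖ι (_ / _)‖ ^ 2 = 1
      rw [map_div₀, norm_div, div_pow, norm_PI hζ ι hI hc, norm_AA hζ ι]
      apply div_self
      apply pow_ne_zero
      have : Ideal.absNorm (Ideal.span {α}) ≠ 0 := by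
        rw [Ne, Ideal.absNorm_eq_zero_iff]; exact hI
      exact_mod_cast this
    exact (pow_eq_one_iff_of_nonneg (norm_nonneg _) two_ne_zero).1 h2
  -- the Galois action
  have hgal : ∀ (ρ : Gal(F/ℚ)) b, ρ (u b) = u (fun i => (cu N ρ : ZMod N) * b i) := by
    intro ρ b
    change ρ (_ / _) = _ / _
    rw [map_div₀, ← act_coe, ← act_coe, PI_act hζ hI hc, AA_act]
  -- the Fourier coefficients
  have hint : ∀ t, ∃ V : ℤ, ∑ b, u b * eta hζF (-dot b t) = (N : F) ^ n * V := by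
    intro t
    obtain ⟨θ, hθ⟩ := coeff_int hζF (PI_mem (n := n) hζ hI hc) t
    have hy : ∀ b : Fin n → ZMod N, ∃ y : 𝓞 F, AA N α b = 1 + (N : 𝓞 F) ^ n * y := fun b =>
      AA_mod (fun σ => by rw [map_pow, map_natCast]) h1 b
    choose y hy using hy
    set X : F := θ - ∑ b, u b * (y b : 𝓞 F) * eta hζF (-dot b t) with hX
    have hXeq : ∑ b, u b * eta hζF (-dot b t) = (N : F) ^ n * X := by
      rw [hX, mul_sub, ← hθ, mul_sum, ← sum_sub_distrib]
      refine sum_congr rfl fun b _ => ?_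
      have h2 : ((AA N α b : 𝓞 F) : F) = 1 + (N : F) ^ n * (y b : 𝓞 F) := by
        rw [hy b]
        change algebraMap (𝓞 F) F _ = _
        rw [map_add, map_one, map_mul, map_pow, map_natCast]
      have h3 := hu b
      rw [h2] at h3
      rw [← h3]
      ring
    have hXint : IsIntegral ℤ X := by
      rw [hX]
      refine IsIntegral.sub ?_ (IsIntegral.sum _ fun b _ => ?_)
      · exact isIntegral_algebraMap (R := ℤ) (x := θ)
      · refine ((hint0 b).mul (RingOfIntegers.isIntegral_coe (y b))).mul ?_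
        rw [eta_apply]
        exact ((RingOfIntegers.isIntegral_coe ζ)).pow _
    have hfix : ∀ ρ : Gal(F/ℚ), ρ X = X := by
      intro ρ
      apply mul_left_cancel₀ hNn
      have h2 : (N : F) ^ n * ρ X = ρ ((N : F) ^ n * X) := by
        rw [map_mul, map_pow, map_natCast]
      rw [h2, ← hXeq, map_sum]
      have h3 : ∀ x : ZMod N, ρ (eta hζF x) = eta hζF ((cu N ρ : ZMod N) * x) := by
        intro x
        rw [eta_apply, eta_apply, map_pow]
        have h4 := act_root (N := N) ρ hζ.pow_eq_one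
        have h5 : ρ (ζ : F) = (ζ : F) ^ (cu N ρ : ZMod N).val := congrArg (fun x : 𝓞 F => (x : F)) h4
        rw [h5, ← pow_mul]
        apply pow_zmod hζF.pow_eq_one
        push_cast
        rw [ZMod.natCast_zmod_val, ZMod.natCast_zmod_val, ZMod.natCast_zmod_val]
      have h4 : ∀ b : Fin n → ZMod N, ρ (u b * eta hζF (-dot b t)) =
          (fun b' => u b' * eta hζF (-dot b' t)) (fun i => (cu N ρ : ZMod N) * b i) := by
        intro b
        simp only
        rw [map_mul, hgal, h3]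
        congr 2
        unfold dot
        rw [mul_neg, mul_sum]
        congr 1
        exact sum_congr rfl fun i _ => by ring
      simp_rw [h4]
      exact Fintype.sum_equiv (Equiv.piCongrRight fun _ : Fin n => Units.mulLeft (cu N ρ)) _ _
        fun b => rfl
    -- `X` is rational
    have hbot : X ∈ (⊥ : IntermediateField ℚ F) := (IsGalois.mem_bot_iff_fixed X).2 hfix
    obtain ⟨c, hcX⟩ := IntermediateField.mem_bot.1 hbot
    have hcint : IsIntegral ℤ c := by
      rw [← hcX] at hXint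
      exact (isIntegral_algHom_iff (algebraMap ℚ F).toIntAlgHom (algebraMap ℚ F).injective).1 hXint
    obtain ⟨V, hV⟩ := (IsIntegrallyClosed.isIntegral_iff (R := ℤ) (K := ℚ)).1 hcint
    refine ⟨V, ?_⟩
    rw [hXeq, ← hcX, ← hV]
    congr 1
    simp
  have hsym : ∀ (b : Fin n → ZMod N) (i : Fin n),
      u (Function.update b i (-∑ j, b j)) = u b := by
    intro b i
    change _ / _ = _ / _
    rw [PI_swap hζ hI hc, AA_swap]
  have h0 : u 0 = 1 := by
    change _ / _ = _
    rw [PI_zero hζ hodd hI hc, AA_zero]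
    exact div_self one_ne_zero
  have hfin := rigid_one hζF hn u ι hint habs h0 hsym b
  have h2 := hu b
  rw [hfin, one_mul] at h2
  exact RingOfIntegers.ext h2.symm

end Run7.h365.FV
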